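import Pool.Agent.Lib.MP_fabde4_an.SpecB

/-!
MP_fabde4_an, toolbox B, module COLLAR (helper40): collar of the boundary.
-/

set_option autoImplicit false
open MeasureTheory Set Filter Topology

namespace MPfab

namespace CollarM

/-- the scalar equation, forward in time -/
lemma scalar_pos {ψ f : ℝ → ℝ} {K : NNReal} {c a s : ℝ} (hψ : LipschitzWith K ψ)
    (h1 : ∀ y, |y| ≤ c → ψ y = 1) (hf : ∀ t, HasDerivAt f (-ψ (f t)) t) (h0 : f 0 = a)
    (ha : |a| ≤ c) (has : |a - s| ≤ c) (hs : 0 ≤ s) : f s = a - s := by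
  have hL : ∀ _ : ℝ, LipschitzWith K (fun y => -ψ y) := fun _ => hψ.neg
  have hE : EqOn f (fun t => a - t) (Icc 0 s) := by
    apply ODE_solution_unique (v := fun _ y => -ψ y) hL
    · exact fun t _ => (hf t).continuousAt.continuousWithinAt
    · exact fun t _ => (hf t).hasDerivWithinAt
    · exact (continuous_const.sub continuous_id).continuousOn
    · intro t ht
      have h2 : ψ (a - t) = 1 := by
        apply h1
        rw [abs_le] at *
        constructor
        · linarith [ht.2.le, has.1]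
        · linarith [ht.1, ha.2]
      simp only [h2]
      have h3 : HasDerivAt (fun t : ℝ => a - t) (-1) t := by
        simpa using (hasDerivAt_id t).const_sub a
      exact h3.hasDerivWithinAt
    · simp [h0]
  exact hE ⟨hs, le_refl s⟩

lemma scalar {ψ f : ℝ → ℝ} {K : NNReal} {c a s : ℝ} (hψ : LipschitzWith K ψ)
    (h1 : ∀ y, |y| ≤ c → ψ y = 1) (hf : ∀ t, HasDerivAt f (-ψ (f t)) t) (h0 : f 0 = a)
    (ha : |a| ≤ c) (has : |a - s| ≤ c) : f s = a - s := by
  rcases le_total 0 s with hs | hs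
  · exact scalar_pos hψ h1 hf h0 ha has hs
  · have hψ' : LipschitzWith K (fun y => ψ (-y)) := by
      intro x y
      have h := hψ (-x) (-y)
      rwa [edist_neg_neg] at h
    have h2 := scalar_pos (ψ := fun y => ψ (-y)) (f := fun t => -f (-t)) (a := -a) (s := -s) hψ'
      (fun y hy => h1 _ (by rwa [abs_neg])) (fun t => by
        have h3 : HasDerivAt (fun t => f (-t)) (-(-ψ (f (-t)))) t := by
          have := (hf (-t)).scomp t (hasDerivAt_neg t)
          rw [neg_one_smul] at this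
          exact this
        have h4 := h3.neg
        simp only [neg_neg] at h4 ⊢
        exact h4) (by simp [h0]) (by rwa [abs_neg]) (by
          rw [show -a - -s = -(a - s) by ring, abs_neg]; exact has) (by linarith)
    simp only [neg_neg] at h2
    linarith

variable {ρ : E → ℝ}

/-- the gradient does not vanish near the boundary -/
lemma exists_c (hρ : DomN ρ) : ∃ c : ℝ, 0 < c ∧ c < 1 / 4 ∧ ∀ x, |ρ x| ≤ 2 * c → gr ρ x ≠ 0 := by
  obtain ⟨R, hR⟩ := hρ.nrm
  have hcont : Continuous ρ := hρ.smooth.continuous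
  set K : Set E := {x | |ρ x| ≤ 1 / 2} with hK
  have hKc : IsCompact K := by
    refine (isCompact_closedBall (0 : E) R).of_isClosed_subset ?_ ?_
    · exact isClosed_le hcont.abs continuous_const
    · intro x hx
      by_contra hc
      have h1 : R ≤ ‖x‖ := by
        simp only [Metric.mem_closedBall, dist_zero_right, not_le] at hc
        exact hc.le
      rw [hK, Set.mem_ofPred_eq, hR x h1] at hx
      norm_num at hx
  have hg : Continuous (fun x => |ρ x| + ‖gr ρ x‖) :=
    hcont.abs.add (Sm.gr hρ.smooth).continuous.norm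
  have hpos : ∀ x ∈ K, 0 < |ρ x| + ‖gr ρ x‖ := by
    intro x _
    by_cases h0 : ρ x = 0
    · have h1 : gr ρ x ≠ 0 := by
        intro h2
        apply hρ.reg x h0
        ext v
        have h3 := inner_gr ρ x v
        rw [h2, inner_zero_right] at h3
        simpa using h3.symm
      have := norm_pos_iff.mpr h1
      have := abs_nonneg (ρ x)
      linarith
    · have := abs_pos.mpr h0
      have := norm_nonneg (gr ρ x)
      linarith
  obtain ⟨m, hm, hmK⟩ : ∃ m : ℝ, 0 < m ∧ ∀ x ∈ K, m ≤ |ρ x| + ‖gr ρ x‖ := by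
    rcases K.eq_empty_or_nonempty with he | hne
    · exact ⟨1, one_pos, by simp [he]⟩
    · obtain ⟨x0, hx0, hmin⟩ := hKc.exists_isMinOn hne hg.continuousOn
      exact ⟨_, hpos x0 hx0, fun x hx => hmin hx⟩
  refine ⟨min (m / 4) (1 / 8), by positivity, by
    have := min_le_right (m / 4) (1 / 8); linarith, ?_⟩
  intro x hx h0
  have h1 := min_le_left (m / 4) (1 / 8)
  have h2 := min_le_right (m / 4) (1 / 8)
  have h3 := hmK x (by rw [hK, Set.mem_ofPred_eq]; linarith)
  rw [h0, norm_zero] at h3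
  linarith

/-- the cut off function on the line -/
noncomputable def psi (c : ℝ) (hc : 0 < c) : ContDiffBump (0 : ℝ) := ⟨c, 2 * c, hc, by linarith⟩

lemma psi_one {c : ℝ} (hc : 0 < c) {y : ℝ} (hy : |y| ≤ c) : psi c hc y = 1 := by
  apply (psi c hc).one_of_mem_closedBall
  rw [Metric.mem_closedBall, dist_zero_right, Real.norm_eq_abs]
  exact hy

lemma psi_zero {c : ℝ} (hc : 0 < c) {y : ℝ} (hy : 2 * c ≤ |y|) : psi c hc y = 0 := by
  apply (psi c hc).zero_of_le_dist
  rw [dist_zero_right, Real.norm_eq_abs]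
  exact hy

lemma psi_lip {c : ℝ} (hc : 0 < c) : ∃ K : NNReal, LipschitzWith K (psi c hc) := by
  obtain ⟨K, hK⟩ := ((psi c hc).contDiff (n := 1)).lipschitzWith_of_hasCompactSupport
    (psi c hc).hasCompactSupport (by norm_num)
  exact ⟨K, hK⟩

/-- the normal field -/
noncomputable def NN (ρ : E → ℝ) (c : ℝ) (hc : 0 < c) (x : E) : E :=
  (psi c hc (ρ x) * (‖gr ρ x‖ ^ 2)⁻¹) • gr ρ x

lemma NN_smooth (hρ : Sm ρ) {c : ℝ} (hc : 0 < c) (hgr : ∀ x, |ρ x| ≤ 2 * c → gr ρ x ≠ 0) :
    Sm (NN ρ c hc) := by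
  refine contDiff_iff_contDiffAt.mpr fun x => ?_
  have hg : Sm (gr ρ) := Sm.gr hρ
  by_cases h0 : gr ρ x = 0
  · have h1 : 2 * c < |ρ x| := not_le.mp fun h => hgr x h h0
    have h2 : ∀ᶠ y in 𝓝 x, NN ρ c hc y = 0 := by
      have h3 : ∀ᶠ y in 𝓝 x, 2 * c < |ρ y| :=
        (hρ.continuous.abs.tendsto x).eventually (lt_mem_nhds h1)
      filter_upwards [h3] with y hy
      rw [NN, psi_zero hc hy.le, zero_mul, zero_smul]
    exact (contDiffAt_const (c := (0 : E))).congr_of_eventuallyEq h2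
  · have h1 : ‖gr ρ x‖ ^ 2 ≠ 0 := pow_ne_zero 2 (norm_ne_zero_iff.mpr h0)
    have h2 : ContDiffAt ℝ ((⊤ : ENat) : WithTop ENat) (fun y => (‖gr ρ y‖ ^ 2)⁻¹) x :=
      ContDiffAt.inv (hg.contDiffAt.norm_sq ℝ) h1
    exact ((((psi c hc).contDiff.comp hρ).contDiffAt).mul h2).smul hg.contDiffAt

lemma fderiv_NN {c : ℝ} (hc : 0 < c) (hgr : ∀ x, |ρ x| ≤ 2 * c → gr ρ x ≠ 0) (x : E) :
    fderiv ℝ ρ x (NN ρ c hc x) = psi c hc (ρ x) := by
  rw [← inner_gr, NN, inner_smul_left, real_inner_self_eq_norm_sq]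
  simp only [conj_trivial]
  by_cases h0 : gr ρ x = 0
  · have h1 : 2 * c < |ρ x| := not_le.mp fun h => hgr x h h0
    rw [psi_zero hc h1.le]
    ring
  · have h1 : ‖gr ρ x‖ ^ 2 ≠ 0 := pow_ne_zero 2 (norm_ne_zero_iff.mpr h0)
    field_simp

end CollarM

theorem specCollar (hA : SpecFlowA) : SpecCollar := by
  intro ρ hρ
  obtain ⟨c, hc, hc4, hgr⟩ := CollarM.exists_c hρ
  obtain ⟨R, hR⟩ := hρ.nrm
  have hcont : Continuous ρ := hρ.smooth.continuous
  have hsm := CollarM.NN_smooth hρ.smooth hc hgr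
  have hin : In R (CollarM.NN ρ c hc) := by
    refine ⟨hsm, fun x hx => ?_⟩
    rw [CollarM.NN, hR x hx, CollarM.psi_zero hc (by rw [abs_one]; linarith), zero_mul, zero_smul]
  have hin' : In R (fun x => -CollarM.NN ρ c hc x) :=
    ⟨hsm.neg, fun x hx => by rw [hin.supp x hx, neg_zero]⟩
  obtain ⟨Y, hY, -⟩ := hA _ R hin'
  refine ⟨c, CollarM.NN ρ c hc, Y, hc, by linarith, ?_, ⟨R, hin⟩, ?_, ?_, ?_, hY, ?_⟩
  · refine (isCompact_closedBall (0 : E) R).of_isClosed_subset (isClosed_le hcont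
      continuous_const) ?_
    intro x hx
    by_contra hn
    have h1 : R ≤ ‖x‖ := by
      simp only [Metric.mem_closedBall, dist_zero_right, not_le] at hn
      exact hn.le
    rw [Set.mem_ofPred_eq, hR x h1] at hx
    linarith
  · intro x hx
    rw [CollarM.fderiv_NN hc hgr, CollarM.psi_one hc hx]
  · intro x
    rw [CollarM.fderiv_NN hc hgr]
    exact (CollarM.psi c hc).nonneg
  · intro x hx
    refine ⟨hgr x (by linarith), ?_⟩
    rw [CollarM.NN, CollarM.psi_one hc hx, one_mul]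
  · intro s x h1 h2
    obtain ⟨K, hK⟩ := CollarM.psi_lip hc
    refine CollarM.scalar (f := fun r => ρ (Y (r, x))) hK (fun y hy => CollarM.psi_one hc hy)
      (fun t => ?_) (by rw [hY.zero]) h1 h2
    have h3 := hY.deriv t x
    have h4 := (hρ.smooth.differentiable (Y (t, x))).hasFDerivAt.comp_hasDerivAt t h3
    rw [map_neg, CollarM.fderiv_NN hc hgr] at h4
    exact h4

end MPfab
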