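import Pool.Agent.Lib.MP_fabde4_an.SpecB
import Pool.Agent.Lib.MP_fabde4_an.M.Lop

section
/-!
MP_fabde4_an, module ABS (helper78): the projection preserves `k` strong derivatives.
-/
set_option autoImplicit false
open MeasureTheory Set Filter Topology

namespace MPfab.Abs

section
variable {H : Type*} [NormedAddCommGroup H] [NormedSpace ℝ H] {ι : Type*}
  {U : ι → ℝ → H →L[ℝ] H}

theorem dk_mono {k : ℕ} {w : H} (h : Dk U (k + 1) w) : Dk U k w := by
  induction k generalizing w with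
  | zero => trivial
  | succ k ih =>
    intro T
    obtain ⟨w', h1, h2⟩ := h T
    exact ⟨w', h1, ih h2⟩

theorem dk_add {k : ℕ} {v w : H} (hv : Dk U k v) (hw : Dk U k w) : Dk U k (v + w) := by
  induction k generalizing v w with
  | zero => trivial
  | succ k ih =>
    intro T
    obtain ⟨v', h1, h2⟩ := hv T
    obtain ⟨w', h3, h4⟩ := hw T
    refine ⟨v' + w', ?_, ih h2 h4⟩
    have h5 : (fun s => U T s (v + w)) = (fun s => U T s v) + fun s => U T s w :=
      funext fun s => map_add _ _ _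
    rw [h5]
    exact h1.add h3

theorem dk_sub {k : ℕ} {v w : H} (hv : Dk U k v) (hw : Dk U k w) : Dk U k (v - w) := by
  induction k generalizing v w with
  | zero => trivial
  | succ k ih =>
    intro T
    obtain ⟨v', h1, h2⟩ := hv T
    obtain ⟨w', h3, h4⟩ := hw T
    refine ⟨v' - w', ?_, ih h2 h4⟩
    have h5 : (fun s => U T s (v - w)) = (fun s => U T s v) - fun s => U T s w :=
      funext fun s => map_sub _ _ _
    rw [h5]
    exact h1.sub h3

theorem dk_mul {A : Set (H →L[ℝ] H)}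
    (hA : ∀ T, ∀ a ∈ A, ∃ a' ∈ A, ∀ w w', HasDerivAt (fun s => U T s w) w' 0 →
      HasDerivAt (fun s => U T s (a w)) (a w' + a' w) 0) {k : ℕ} {w : H} {a : H →L[ℝ] H}
    (ha : a ∈ A) (hw : Dk U k w) : Dk U k (a w) := by
  induction k generalizing w a with
  | zero => trivial
  | succ k ih =>
    intro T
    obtain ⟨w', h1, h2⟩ := hw T
    obtain ⟨a', ha', h3⟩ := hA T a ha
    exact ⟨a w' + a' w, h3 w w' h1, dk_add (ih ha h2) (ih ha' (dk_mono hw))⟩

/-- product of an operator family vanishing at `0` and a family continuous at `0` -/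
theorem deriv_zero_mul {N : ℝ → H →L[ℝ] H} {N' : H →L[ℝ] H} {u : ℝ → H}
    (hN0 : N 0 = 0) (hN : HasDerivAt N N' 0) (hu : ContinuousAt u 0) :
    HasDerivAt (fun s => N s (u s)) (N' (u 0)) 0 := by
  rw [hasDerivAt_iff_tendsto_slope_zero] at hN ⊢
  have h1 : Tendsto (fun t : ℝ => u t) (𝓝[≠] 0) (𝓝 (u 0)) :=
    (show Tendsto u (𝓝 0) (𝓝 (u 0)) from hu).mono_left nhdsWithin_le_nhds
  have h2 := (isBoundedBilinearMap_apply (𝕜 := ℝ) (E := H) (F := H)).continuous.continuousAt
    (x := (N', u 0)) |>.tendsto.comp (hN.prodMk_nhds h1)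
  refine h2.congr fun t => ?_
  simp [hN0]

end

section
variable {H : Type*} [NormedAddCommGroup H] [InnerProductSpace ℝ H]
  {K : Submodule ℝ H} [K.HasOrthogonalProjection]

theorem proj_eq {G g : H} (hg : g ∈ K) (ho : ∀ h ∈ K, inner ℝ (G - g) h = 0) :
    K.starProjection G = g :=
  Submodule.eq_starProjection_of_mem_of_inner_eq_zero hg ho

/-- the key identity -/
theorem key {U M : ℝ → H →L[ℝ] H} {M' : H →L[ℝ] H}
    (hU0 : U 0 = 1) (hUc : ∀ w, ContinuousAt (fun s => U s w) 0)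
    (hUK : ∀ s, ∀ k ∈ K, U s k ∈ K) (hUs : ∀ s, ∀ k ∈ K, ∃ k' ∈ K, U s k' = k)
    (hM0 : M 0 = 1) (hM' : HasDerivAt M M' 0)
    (hiso : ∀ s a b, inner ℝ a b = inner ℝ (M s (U s a)) (U s b))
    {G g G' : H} (hg : g ∈ K) (ho : ∀ h ∈ K, inner ℝ (G - g) h = 0)
    (hG : HasDerivAt (fun s => U s G) G' 0) :
    HasDerivAt (fun s => U s g) (K.starProjection (G' + M' (G - g))) 0 := by
  have h1 : ∀ s, U s g = K.starProjection ((1 - M s) (U s g) + M s (U s G)) := by
    intro s
    symm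
    refine proj_eq (hUK s g hg) fun h hh => ?_
    obtain ⟨k', hk', rfl⟩ := hUs s h hh
    have h2 : (1 - M s) (U s g) + M s (U s G) - U s g = M s (U s (G - g)) := by
      simp only [sub_apply, one_apply_eq_self, map_sub]
      abel
    rw [h2, ← hiso]
    exact ho k' hk'
  have h3 : HasDerivAt (fun s => (1 - M s) (U s g)) ((-M') (U 0 g)) 0 := by
    refine deriv_zero_mul (N := fun s => 1 - M s) (by simp [hM0]) ?_ (hUc g)
    exact hM'.const_sub 1
  have h4 : HasDerivAt (fun s => M s (U s G)) (M' (U 0 G) + M 0 G') 0 := hM'.clm_apply hG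
  have h5 := K.starProjection.hasFDerivAt.comp_hasDerivAt 0 (h3.add h4)
  have h6 : (fun s => U s g) =
      K.starProjection ∘ ((fun s => (1 - M s) (U s g)) + fun s => M s (U s G)) := funext h1
  rw [h6]
  have h7 : G' + M' (G - g) = (-M') (U 0 g) + (M' (U 0 G) + M 0 G') := by
    rw [hU0, hM0]
    simp only [neg_apply, one_apply_eq_self, map_sub]
    abel
  rw [h7]
  exact h5

end

end MPfab.Abs

namespace MPfab

open Abs

theorem specAbs : SpecAbs := by
  intro H _ _ _ K ι U M M' A hK hU0 hUc hUK hUs hM0 hM' hiso hMA hA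
  have : CompleteSpace K := hK.completeSpace_coe
  have main : ∀ k : ℕ, ∀ G g : H, Dk U k G → g ∈ K → (∀ h ∈ K, inner ℝ (G - g) h = 0) →
      Dk U k g := by
    intro k
    induction k with
    | zero => intro G g _ _ _; trivial
    | succ k ih =>
      intro G g hG hg ho T
      obtain ⟨G', h1, h2⟩ := hG T
      refine ⟨_, key (hU0 T) (hUc T) (hUK T) (hUs T) (hM0 T) (hM' T) (hiso T) hg ho h1, ?_⟩
      have h3 : Dk U k (G' + M' T (G - g)) :=
        dk_add h2 (dk_mul hA (hMA T) (dk_sub (dk_mono hG) (ih G g (dk_mono hG) hg ho)))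
      exact ih _ _ h3 (K.starProjection_apply_mem _) fun h hh =>
        K.sub_starProjection_mem_orthogonal (G' + M' T (G - g)) |> fun h4 => by
          rw [real_inner_comm]
          exact h4 h hh
  intro G g hG hg ho k
  exact main k G g (hG k) hg ho

end MPfab
end

section
/-!
MP_fabde4_an, module CONN: removing a closed ball from a connected open set.
-/
set_option autoImplicit false
open MeasureTheory Set Filter Topology Metric

namespace MPfab.ConnM

/-- annuli are connected -/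
lemma annulus (y : E) {r r' : ℝ} (hr : 0 < r) (hrr : r < r') :
    IsConnected (ball y r' \ closedBall y r) := by
  have hrank : 1 < Module.rank ℝ E := by
    rw [← Module.finrank_eq_rank, finrank_euclideanSpace_fin]
    norm_num
  have h1 : IsConnected (Ioo r r' ×ˢ sphere (0 : E) 1) :=
    (isConnected_Ioo hrr).prod (isConnected_sphere hrank 0 zero_le_one)
  have h2 : Continuous fun p : ℝ × E => y + p.1 • p.2 := by fun_prop
  have h3 := h1.image (fun p : ℝ × E => y + p.1 • p.2) h2.continuousOn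
  convert h3 using 1
  ext z
  simp only [Set.mem_sdiff, mem_ball, mem_closedBall, not_le, mem_image, mem_prod, mem_Ioo,
    mem_sphere_iff_norm, sub_zero, Prod.exists, dist_eq_norm]
  constructor
  · rintro ⟨hz1, hz2⟩
    have hpos : 0 < ‖z - y‖ := hr.trans hz2
    refine ⟨‖z - y‖, ‖z - y‖⁻¹ • (z - y), ⟨⟨hz2, hz1⟩, ?_⟩, ?_⟩
    · rw [norm_smul, norm_inv, norm_norm, inv_mul_cancel₀ hpos.ne']
    · rw [smul_smul, mul_inv_cancel₀ hpos.ne', one_smul]; abel
  · rintro ⟨s, w, ⟨⟨hs1, hs2⟩, hw⟩, rfl⟩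
    rw [add_sub_cancel_left, norm_smul, hw, mul_one, Real.norm_of_nonneg (hr.trans hs1).le]
    exact ⟨hs2, hs1⟩

end MPfab.ConnM

namespace MPfab

open ConnM

theorem specConn : SpecConn := by
  intro U y r hU hc hr hball
  -- a slightly larger ball
  obtain ⟨r', hrr, hball'⟩ : ∃ r' > r, ball y r' ⊆ U := by
    obtain ⟨δ, hδ, hsub⟩ := (isCompact_closedBall y r).exists_thickening_subset_open hU hball
    refine ⟨r + δ, by linarith, fun z hz => hsub ?_⟩
    rw [thickening_closedBall hδ hr.le]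
    rwa [add_comm] at hz
  have hA := annulus y hr hrr
  have hAU : ball y r' \ closedBall y r ⊆ U \ closedBall y r := sdiff_subset_sdiff_left hball'
  refine ⟨hA.nonempty.mono hAU, ?_⟩
  have hUK : IsOpen (U \ closedBall y r) := hU.sdiff isClosed_closedBall
  -- the main step
  have key : ∀ u v : Set E, IsOpen u → IsOpen v → U \ closedBall y r ⊆ u ∪ v →
      (U \ closedBall y r ∩ (u ∩ v)) = ∅ → ball y r' \ closedBall y r ⊆ u →
      ¬ (U \ closedBall y r ∩ v).Nonempty := by
    intro u v hu hv huv hdis hAu hne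
    have h1 := hc.isPreconnected ((u ∩ (U \ closedBall y r)) ∪ ball y r')
      (v ∩ (U \ closedBall y r)) ((hu.inter hUK).union isOpen_ball) (hv.inter hUK) ?_ ?_ ?_
    · obtain ⟨z, hz, hz1, hz2⟩ := h1
      have hz3 : z ∈ u := by
        rcases hz1 with h | h
        · exact h.1
        · exact hAu ⟨h, hz2.2.2⟩
      have : z ∈ (U \ closedBall y r ∩ (u ∩ v)) := ⟨hz2.2, hz3, hz2.1⟩
      rw [hdis] at this
      exact this
    · intro z hz
      by_cases hzb : z ∈ closedBall y r
      · exact Or.inl (Or.inr (closedBall_subset_ball hrr hzb))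
      · rcases huv ⟨hz, hzb⟩ with h | h
        · exact Or.inl (Or.inl ⟨h, hz, hzb⟩)
        · exact Or.inr ⟨h, hz, hzb⟩
    · exact ⟨y, hball (mem_closedBall_self hr.le), Or.inr (mem_ball_self (hr.trans hrr))⟩
    · obtain ⟨z, hz, hz'⟩ := hne
      exact ⟨z, hz.1, hz', hz⟩
  intro u v hu hv huv hun hvn
  by_contra hcon
  rw [not_nonempty_iff_eq_empty] at hcon
  have hdisj : Disjoint (u ∩ (U \ closedBall y r)) (v ∩ (U \ closedBall y r)) := by
    rw [Set.disjoint_left]
    intro z hz hz'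
    have : z ∈ (U \ closedBall y r ∩ (u ∩ v)) := ⟨hz.2, hz.1, hz'.1⟩
    rw [hcon] at this
    exact this
  have hcov : ball y r' \ closedBall y r ⊆
      (u ∩ (U \ closedBall y r)) ∪ (v ∩ (U \ closedBall y r)) := by
    intro z hz
    rcases huv (hAU hz) with h | h
    · exact Or.inl ⟨h, hAU hz⟩
    · exact Or.inr ⟨h, hAU hz⟩
  rcases IsPreconnected.subset_or_subset (hu.inter hUK) (hv.inter hUK) hdisj hcov
    hA.isPreconnected with h | h
  · exact key u v hu hv huv hcon (h.trans inter_subset_left) hvn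
  · exact key v u hv hu (by rwa [union_comm]) (by rwa [inter_comm v u])
      (h.trans inter_subset_left) hun

end MPfab
end

section
/-!
MP_fabde4_an, toolbox B, module NORMAL (helper40): normalisation of the defining function.
-/
set_option autoImplicit false
open MeasureTheory Set Filter Topology

namespace MPfab

namespace NormalM

/-- a boundary point is a limit of points of the domain -/
lemma mem_closure {ρ : E → ℝ} (hρ : Sm ρ) {x : E} (hx : ρ x = 0) (hd : fderiv ℝ ρ x ≠ 0) :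
    x ∈ closure (D ρ) := by
  obtain ⟨v, hv⟩ : ∃ v, fderiv ℝ ρ x v ≠ 0 := by
    by_contra h
    push Not at h
    exact hd (ContinuousLinearMap.ext h)
  -- a direction of decrease
  obtain ⟨u, hu⟩ : ∃ u, fderiv ℝ ρ x u < 0 := by
    rcases lt_or_gt_of_ne hv with h | h
    · exact ⟨v, h⟩
    · exact ⟨-v, by rw [map_neg]; linarith⟩
  have h1 : HasDerivAt (fun t : ℝ => ρ (x + t • u)) (fderiv ℝ ρ x u) 0 := by
    have h2 : HasDerivAt (fun t : ℝ => x + t • u) u 0 := by
      simpa using ((hasDerivAt_id (0 : ℝ)).smul_const u).const_add x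
    have h3 : HasFDerivAt ρ (fderiv ℝ ρ x) (x + (0 : ℝ) • u) := by
      rw [zero_smul, add_zero]
      exact (hρ.differentiable x).hasFDerivAt
    exact h3.comp_hasDerivAt 0 h2
  have h4 := (hasDerivAt_iff_tendsto_slope.mp h1)
  have h5 : ∀ᶠ t in 𝓝[≠] (0 : ℝ), slope (fun t : ℝ => ρ (x + t • u)) 0 t < 0 :=
    h4.eventually (gt_mem_nhds hu)
  have h6 : ∀ᶠ t in 𝓝[>] (0 : ℝ), ρ (x + t • u) < 0 := by
    have h7 : 𝓝[>] (0 : ℝ) ≤ 𝓝[≠] (0 : ℝ) := nhdsWithin_mono _ fun t ht => ne_of_gt ht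
    filter_upwards [h5.filter_mono h7, self_mem_nhdsWithin] with t ht ht0
    have ht0' : (0 : ℝ) < t := ht0
    rw [slope_def_field] at ht
    simp only [zero_smul, add_zero, sub_zero, hx] at ht
    rw [div_neg_iff] at ht
    rcases ht with h | h
    · linarith [h.2]
    · exact h.1
  rw [mem_closure_iff_frequently]
  have h8 : Tendsto (fun t : ℝ => x + t • u) (𝓝[>] 0) (𝓝 x) := by
    have : Tendsto (fun t : ℝ => x + t • u) (𝓝 0) (𝓝 (x + (0 : ℝ) • u)) :=
      (continuous_const.add (continuous_id.smul continuous_const)).tendsto 0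
    rw [zero_smul, add_zero] at this
    exact this.mono_left nhdsWithin_le_nhds
  exact h8.frequently h6.frequently

lemma exists_radius {ρ : E → ℝ} (hρ : Dom ρ) : ∃ R : ℝ, 0 < R ∧ ∀ x, ρ x ≤ 0 → ‖x‖ ≤ R := by
  obtain ⟨R, hR, hsub⟩ := hρ.bdd.closure.subset_closedBall_lt 0 0
  refine ⟨R, hR, fun x hx => ?_⟩
  have : x ∈ closure (D ρ) := by
    rcases lt_or_eq_of_le hx with h | h
    · exact subset_closure h
    · exact mem_closure hρ.smooth h (hρ.reg x h)
  simpa using hsub this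

end NormalM

theorem specNormal : SpecNormal := by
  intro ρ hρ
  obtain ⟨R, hR, hK⟩ := NormalM.exists_radius hρ
  let ζ : ContDiffBump (0 : E) := ⟨R + 1, R + 2, by linarith, by linarith⟩
  have hζ1 : ∀ x : E, ‖x‖ < R + 1 → ζ x = 1 := by
    intro x hx
    apply ζ.one_of_mem_closedBall
    simpa using hx.le
  have hζs : Sm (fun x : E => ζ x) := ζ.contDiff
  set ρ' : E → ℝ := fun x => ζ x * ρ x + (1 - ζ x) with hρ'
  have hU : ∀ x ∈ Metric.ball (0 : E) (R + 1), ρ' x = ρ x := by
    intro x hx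
    have := hζ1 x (by simpa using hx)
    simp [hρ', this]
  have hneg : ∀ x, ρ x ≤ 0 → ρ' x = ρ x := by
    intro x hx
    apply hU
    have := hK x hx
    simp only [Metric.mem_ball, dist_zero_right]
    linarith
  have hpos : ∀ x, 0 < ρ x → 0 < ρ' x := by
    intro x hx
    have h0 := ζ.nonneg (x := x)
    have h1 := ζ.le_one (x := x)
    simp only [hρ']
    rcases eq_or_lt_of_le h0 with h | h
    · rw [← h]; norm_num
    · have := mul_pos h hx
      linarith
  have hlt : ∀ x, ρ' x < 0 ↔ ρ x < 0 := by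
    intro x
    constructor
    · intro h
      by_contra hc
      rcases eq_or_lt_of_le (not_lt.mp hc) with h1 | h1
      · rw [hneg x h1.symm.le] at h
        linarith
      · linarith [hpos x h1]
    · intro h
      rwa [hneg x h.le]
  have heq : ∀ x, ρ' x = 0 ↔ ρ x = 0 := by
    intro x
    constructor
    · intro h
      by_contra hc
      rcases lt_or_gt_of_ne hc with h1 | h1
      · have := (hlt x).mpr h1
        linarith
      · linarith [hpos x h1]
    · intro h
      rwa [hneg x h.le]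
  have hD : D ρ' = D ρ := Set.ext fun x => hlt x
  refine ⟨ρ', ⟨⟨?_, ?_, ?_⟩, ⟨R + 2, ?_⟩⟩, hlt, heq, Metric.ball 0 (R + 1), Metric.isOpen_ball,
    ?_, hU⟩
  · exact (hζs.mul hρ.smooth).add (contDiff_const.sub hζs)
  · rw [hD]; exact hρ.bdd
  · intro x hx
    have hx0 := (heq x).mp hx
    have hmem : x ∈ Metric.ball (0 : E) (R + 1) := by
      have := hK x hx0.le
      simp only [Metric.mem_ball, dist_zero_right]
      linarith
    have : ρ' =ᶠ[𝓝 x] ρ :=
      Filter.eventually_of_mem (Metric.isOpen_ball.mem_nhds hmem) hU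
    rw [this.fderiv_eq]
    exact hρ.reg x hx0
  · intro x hx
    have : ζ x = 0 := by
      apply ζ.zero_of_le_dist
      simpa using hx
    simp [hρ', this]
  · intro x hx
    have := hK x hx
    simp only [Metric.mem_ball, dist_zero_right]
    linarith

end MPfab
end

section
/-!
MP_fabde4_an, toolbox B, module CR (helper40): tangential fields are curls up to high order.
-/
set_option autoImplicit false
open MeasureTheory Set Filter Topology

namespace MPfab

namespace CrM

lemma cr_add_right (u v w : E) : cr u (v + w) = cr u v + cr u w := by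
  ext i
  fin_cases i
  · show u 1 * (v 2 + w 2) - u 2 * (v 1 + w 1) =
      (u 1 * v 2 - u 2 * v 1) + (u 1 * w 2 - u 2 * w 1)
    ring
  · show u 2 * (v 0 + w 0) - u 0 * (v 2 + w 2) =
      (u 2 * v 0 - u 0 * v 2) + (u 2 * w 0 - u 0 * w 2)
    ring
  · show u 0 * (v 1 + w 1) - u 1 * (v 0 + w 0) =
      (u 0 * v 1 - u 1 * v 0) + (u 0 * w 1 - u 1 * w 0)
    ring

lemma cr_smul_left (a : ℝ) (u v : E) : cr (a • u) v = a • cr u v := by
  ext i
  fin_cases i
  · show (a * u 1) * v 2 - (a * u 2) * v 1 = a * (u 1 * v 2 - u 2 * v 1)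
    ring
  · show (a * u 2) * v 0 - (a * u 0) * v 2 = a * (u 2 * v 0 - u 0 * v 2)
    ring
  · show (a * u 0) * v 1 - (a * u 1) * v 0 = a * (u 0 * v 1 - u 1 * v 0)
    ring

/-- the triple product -/
lemma cr_cr (r V N : E) : cr r (cr V N) = (inner ℝ N r : ℝ) • V - (inner ℝ V r : ℝ) • N := by
  simp only [inner_eq, Fin.sum_univ_three]
  ext i
  fin_cases i
  · show r 1 * (V 0 * N 1 - V 1 * N 0) - r 2 * (V 2 * N 0 - V 0 * N 2) =
      (N 0 * r 0 + N 1 * r 1 + N 2 * r 2) * V 0 - (V 0 * r 0 + V 1 * r 1 + V 2 * r 2) * N 0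
    ring
  · show r 2 * (V 1 * N 2 - V 2 * N 1) - r 0 * (V 0 * N 1 - V 1 * N 0) =
      (N 0 * r 0 + N 1 * r 1 + N 2 * r 2) * V 1 - (V 0 * r 0 + V 1 * r 1 + V 2 * r 2) * N 1
    ring
  · show r 0 * (V 2 * N 0 - V 0 * N 2) - r 1 * (V 1 * N 2 - V 2 * N 1) =
      (N 0 * r 0 + N 1 * r 1 + N 2 * r 2) * V 2 - (V 0 * r 0 + V 1 * r 1 + V 2 * r 2) * N 2
    ring

lemma curl_add {u v : E → E} (hu : Sm u) (hv : Sm v) (x : E) :
    curl (fun y => u y + v y) x = curl u x + curl v x := by
  have h : ∀ i, pd i (fun y => u y + v y) x = pd i u x + pd i v x := fun i =>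
    PDC.pd_add (hu.differentiable x) (hv.differentiable x) i
  ext i
  fin_cases i
  · show pd 1 (fun y => u y + v y) x 2 - pd 2 (fun y => u y + v y) x 1 =
      (pd 1 u x 2 - pd 2 u x 1) + (pd 1 v x 2 - pd 2 v x 1)
    rw [h, h]
    show (pd 1 u x 2 + pd 1 v x 2) - (pd 2 u x 1 + pd 2 v x 1) = _
    ring
  · show pd 2 (fun y => u y + v y) x 0 - pd 0 (fun y => u y + v y) x 2 =
      (pd 2 u x 0 - pd 0 u x 2) + (pd 2 v x 0 - pd 0 v x 2)
    rw [h, h]
    show (pd 2 u x 0 + pd 2 v x 0) - (pd 0 u x 2 + pd 0 v x 2) = _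
    ring
  · show pd 0 (fun y => u y + v y) x 1 - pd 1 (fun y => u y + v y) x 0 =
      (pd 0 u x 1 - pd 1 u x 0) + (pd 0 v x 1 - pd 1 v x 0)
    rw [h, h]
    show (pd 0 u x 1 + pd 0 v x 1) - (pd 1 u x 0 + pd 1 v x 0) = _
    ring

lemma curl_smul {a : E → ℝ} {u : E → E} (ha : Sm a) (hu : Sm u) (x : E) :
    curl (fun y => a y • u y) x = cr (gr a x) (u x) + a x • curl u x := by
  have h : ∀ i, pd i (fun y => a y • u y) x = a x • pd i u x + pd i a x • u x := fun i =>
    PDC.pd_smul (ha.differentiable x) (hu.differentiable x) i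
  ext i
  fin_cases i
  · show pd 1 (fun y => a y • u y) x 2 - pd 2 (fun y => a y • u y) x 1 =
      (pd 1 a x * u x 2 - pd 2 a x * u x 1) + a x * (pd 1 u x 2 - pd 2 u x 1)
    rw [h, h]
    show (a x * pd 1 u x 2 + pd 1 a x * u x 2) - (a x * pd 2 u x 1 + pd 2 a x * u x 1) = _
    ring
  · show pd 2 (fun y => a y • u y) x 0 - pd 0 (fun y => a y • u y) x 2 =
      (pd 2 a x * u x 0 - pd 0 a x * u x 2) + a x * (pd 2 u x 0 - pd 0 u x 2)
    rw [h, h]
    show (a x * pd 2 u x 0 + pd 2 a x * u x 0) - (a x * pd 0 u x 2 + pd 0 a x * u x 2) = _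
    ring
  · show pd 0 (fun y => a y • u y) x 1 - pd 1 (fun y => a y • u y) x 0 =
      (pd 0 a x * u x 1 - pd 1 a x * u x 0) + a x * (pd 0 u x 1 - pd 1 u x 0)
    rw [h, h]
    show (a x * pd 0 u x 1 + pd 0 a x * u x 1) - (a x * pd 1 u x 0 + pd 1 a x * u x 0) = _
    ring

lemma dv_add {u v : E → E} (hu : Sm u) (hv : Sm v) (x : E) :
    dv (fun y => u y + v y) x = dv u x + dv v x := by
  unfold dv
  rw [← Finset.sum_add_distrib]
  refine Finset.sum_congr rfl fun i _ => ?_
  rw [PDC.pd_add (hu.differentiable x) (hv.differentiable x) i]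
  rfl

lemma dv_smul {a : E → ℝ} {u : E → E} (ha : Sm a) (hu : Sm u) (x : E) :
    dv (fun y => a y • u y) x = fderiv ℝ a x (u x) + a x * dv u x := by
  unfold dv
  rw [fderiv_eq_sum, Finset.mul_sum, ← Finset.sum_add_distrib]
  refine Finset.sum_congr rfl fun i _ => ?_
  rw [PDC.pd_smul (ha.differentiable x) (hu.differentiable x) i]
  show a x * pd i u x i + pd i a x * u x i = u x i * pd i a x + a x * pd i u x i
  ring

lemma fderiv_pow {ρ : E → ℝ} (hρ : Sm ρ) (n : ℕ) (x : E) :
    fderiv ℝ (fun y => ρ y ^ (n + 1)) x = ((n + 1 : ℝ) * ρ x ^ n) • fderiv ℝ ρ x := by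
  have := ((hρ.differentiable x).hasFDerivAt.pow (n + 1)).fderiv
  simpa using this

lemma gr_pow {ρ : E → ℝ} (hρ : Sm ρ) (n : ℕ) (x : E) :
    gr (fun y => ρ y ^ (n + 1)) x = ((n + 1 : ℝ) * ρ x ^ n) • gr ρ x := by
  ext i
  rw [gr_apply, pd_def, fderiv_pow hρ]
  rfl

/-- a tangential field is a cross product with the gradient on the boundary -/
lemma step {ρ : E → ℝ} (hρ : DomN ρ) (hH : SpecHad) {c : ℝ} {N : E → E} {Y : ℝ × E → E}
    (hC : Collar ρ c N Y) {V : E → E} (hV : Sm V) (ht : Tan ρ V) :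
    ∃ C W : E → E, Sm C ∧ Sm W ∧ ∀ x, V x = cr (gr ρ x) (C x) + ρ x • W x := by
  obtain ⟨R, hN⟩ := hC.inN
  have h1 : Sm (fun x => cr (V x) (N x)) := hV.cr hN.smooth
  have h2 : Sm (fun x => V x - cr (gr ρ x) (cr (V x) (N x))) := hV.sub (hρ.smooth.gr.cr h1)
  obtain ⟨W, hW, hW1⟩ := hH E ρ _ hρ h2 (fun x hx => by
    rw [cr_cr, inner_gr, inner_gr, ht x hx, hC.one x (by rw [hx, abs_zero]; exact hC.pos.le)]
    simp)
  refine ⟨_, W, h1, hW, fun x => ?_⟩
  rw [← hW1 x]
  abel

end CrM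

theorem specCr (hH : SpecHad) (hCol : SpecCollar) : SpecCr := by
  intro ρ M V h U hρ hV hh ht hU hU0 hdv
  obtain ⟨c, N, Y, hC⟩ := hCol ρ hρ
  have key : ∀ k : ℕ, k ≤ M → ∃ C W : E → E, Sm C ∧ Sm W ∧
      ∀ x, V x = curl (fun y => ρ y • C y) x + ρ x ^ (k + 1) • W x := by
    intro k
    induction k with
    | zero =>
      intro _
      obtain ⟨C, W, hC1, hW, hE⟩ := CrM.step hρ hH hC hV ht
      refine ⟨C, fun x => W x - curl C x, hC1, hW.sub hC1.curl, fun x => ?_⟩
      rw [CrM.curl_smul hρ.smooth hC1, zero_add, pow_one, smul_sub, hE x]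
      abel
    | succ k ih =>
      intro hk
      obtain ⟨C, W, hC1, hW, hE⟩ := ih (by omega)
      have hρC : Sm (fun y => ρ y • C y) := hρ.smooth.smul hC1
      have hpow : ∀ n : ℕ, Sm (fun y => ρ y ^ n) := fun n => hρ.smooth.pow n
      -- `W` is tangential
      have hF : Continuous (fun x => (k + 1 : ℝ) * fderiv ℝ ρ x (W x) + ρ x * dv W x -
          ρ x ^ (M - k) * h x) := by
        have h1 : Sm (fderiv ℝ ρ) :=
          hρ.smooth.fderiv_right (m := ((⊤ : ENat) : WithTop ENat)) (by simp)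
        exact (((contDiff_const.mul (h1.clm_apply hW)).add (hρ.smooth.mul hW.dv)).sub
          ((hpow _).mul hh)).continuous
      have hF0 : ∀ x ∈ U, ρ x ≠ 0 → (k + 1 : ℝ) * fderiv ℝ ρ x (W x) + ρ x * dv W x -
          ρ x ^ (M - k) * h x = 0 := by
        intro x hx h0
        have h1 : dv V x = ((k + 1 : ℝ) * ρ x ^ k) * fderiv ℝ ρ x (W x) +
            ρ x ^ (k + 1) * dv W x := by
          have h2 : V = fun x => curl (fun y => ρ y • C y) x + ρ x ^ (k + 1) • W x := funext hE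
          conv_lhs => rw [h2]
          have hs : Sm (fun y => ρ y ^ (k + 1) • W y) := (hpow _).smul hW
          rw [CrM.dv_add hρC.curl hs, PDC.dv_curl hρC, zero_add,
            CrM.dv_smul (hpow _) hW, CrM.fderiv_pow hρ.smooth]
          rfl
        have h3 := hdv x hx
        have hM : ρ x ^ M = ρ x ^ k * ρ x ^ (M - k) := by
          rw [← pow_add]
          congr 1
          omega
        rw [h1, hM] at h3
        have h4 : ρ x ^ k ≠ 0 := pow_ne_zero k h0
        have h5 : ρ x ^ k * ((k + 1 : ℝ) * fderiv ℝ ρ x (W x) + ρ x * dv W x -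
          ρ x ^ (M - k) * h x) = 0 := by
          have : (k + 1 : ℝ) * ρ x ^ k * fderiv ℝ ρ x (W x) + ρ x ^ (k + 1) * dv W x =
            ρ x ^ k * ((k + 1 : ℝ) * fderiv ℝ ρ x (W x) + ρ x * dv W x) := by ring
          rw [this] at h3
          linear_combination h3
        exact (mul_eq_zero.mp h5).resolve_left h4
      have htan : Tan ρ W := by
        intro x0 hx0
        have h1 : (k + 1 : ℝ) * fderiv ℝ ρ x0 (W x0) + ρ x0 * dv W x0 -
            ρ x0 ^ (M - k) * h x0 = 0 := by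
          have h2 : x0 ∈ closure (U ∩ D ρ) := by
            have h3 := NormalM.mem_closure hρ.smooth hx0 (hρ.reg x0 hx0)
            rw [mem_closure_iff_nhds] at h3 ⊢
            intro t htt
            obtain ⟨y, hy1, hy2⟩ := h3 (t ∩ U) (inter_mem htt (hU.mem_nhds (hU0 x0 hx0)))
            exact ⟨y, hy1.1, hy1.2, hy2⟩
          have h4 : IsClosed {x | (k + 1 : ℝ) * fderiv ℝ ρ x (W x) + ρ x * dv W x -
              ρ x ^ (M - k) * h x = 0} := isClosed_eq hF continuous_const
          exact h4.closure_subset_iff.mpr (fun x hx => hF0 x hx.1 (ne_of_lt hx.2)) h2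
        rw [hx0, zero_mul, zero_pow (by omega), zero_mul, add_zero, sub_zero] at h1
        rcases mul_eq_zero.mp h1 with h2 | h2
        · exact absurd h2 (by positivity)
        · exact h2
      obtain ⟨C1, W1, hC2, hW1, hE1⟩ := CrM.step hρ hH hC hW htan
      set a : ℝ := ((k + 1 : ℕ) + 1 : ℝ) with ha
      have ha0 : a ≠ 0 := by positivity
      refine ⟨fun x => C x + ρ x ^ (k + 1) • (a⁻¹ • C1 x), fun x => W1 x - a⁻¹ • curl C1 x,
        hC1.add ((hpow _).smul (hC2.const_smul _)), hW1.sub (hC2.curl.const_smul _), fun x => ?_⟩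
      have hC3 : Sm (fun y => a⁻¹ • C1 y) := hC2.const_smul _
      have hC4 : Sm (fun y => ρ y ^ (k + 1 + 1) • (a⁻¹ • C1 y)) := (hpow _).smul hC3
      have h1 : (fun y => ρ y • (C y + ρ y ^ (k + 1) • (a⁻¹ • C1 y))) =
          fun y => ρ y • C y + ρ y ^ (k + 1 + 1) • (a⁻¹ • C1 y) := by
        funext y
        rw [smul_add, smul_smul, ← pow_succ']
      have h2 : curl (fun y => a⁻¹ • C1 y) x = a⁻¹ • curl C1 x := by
        have h3 := CrM.curl_smul (a := fun _ => a⁻¹) contDiff_const hC2 x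
        rw [h3]
        have h4 : gr (fun _ : E => a⁻¹) x = 0 := by
          ext i
          rw [gr_apply, pd_def, fderiv_fun_const]
          rfl
        rw [h4]
        have h5 : cr 0 (C1 x) = 0 := by
          have := CrM.cr_smul_left 0 0 (C1 x)
          rwa [zero_smul, zero_smul] at this
        rw [h5, zero_add]
      rw [h1, CrM.curl_add hρC hC4, CrM.curl_smul (hpow _) hC3,
        CrM.gr_pow hρ.smooth, h2, hE x, hE1 x, CrM.cr_smul_left]
      have h6 : cr (gr ρ x) (a⁻¹ • C1 x) = a⁻¹ • cr (gr ρ x) (C1 x) := by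
        ext i
        fin_cases i
        · show gr ρ x 1 * (a⁻¹ * C1 x 2) - gr ρ x 2 * (a⁻¹ * C1 x 1) =
            a⁻¹ * (gr ρ x 1 * C1 x 2 - gr ρ x 2 * C1 x 1)
          ring
        · show gr ρ x 2 * (a⁻¹ * C1 x 0) - gr ρ x 0 * (a⁻¹ * C1 x 2) =
            a⁻¹ * (gr ρ x 2 * C1 x 0 - gr ρ x 0 * C1 x 2)
          ring
        · show gr ρ x 0 * (a⁻¹ * C1 x 1) - gr ρ x 1 * (a⁻¹ * C1 x 0) =
            a⁻¹ * (gr ρ x 0 * C1 x 1 - gr ρ x 1 * C1 x 0)
          ring
      rw [h6, smul_smul, ← ha, mul_right_comm, mul_inv_cancel₀ ha0, one_mul, smul_add, smul_smul,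
        smul_sub, ← pow_succ]
      abel
  exact (key M (le_refl M)).imp fun C hC => hC.imp fun W hW => hW

end MPfab
end
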