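import Pool.Agent.Lib.MP_fabde4_an.B.Collar

/-!
MP_fabde4_an, toolbox B, module HAD (helper40): division by the defining function.
-/

set_option autoImplicit false
open MeasureTheory Set Filter Topology

namespace MPfab

namespace HadM

variable {W : Type} [NormedAddCommGroup W] [NormedSpace ℝ W] [FiniteDimensional ℝ W]

/-- partial derivative with respect to the space variable -/
noncomputable def gx (g : ℝ × E → W) (p : ℝ × E) : E →L[ℝ] W :=
  (fderiv ℝ g p).comp (ContinuousLinearMap.inr ℝ ℝ E)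

omit [FiniteDimensional ℝ W] in
lemma gx_smooth {g : ℝ × E → W} (hg : Sm g) : Sm (gx g) :=
  (hg.fderiv_right (m := ((⊤ : ENat) : WithTop ENat)) (by simp)).clm_comp contDiff_const

omit [FiniteDimensional ℝ W] in
lemma gx_deriv {g : ℝ × E → W} (hg : Sm g) (t : ℝ) (x : E) :
    HasFDerivAt (fun y => g (t, y)) (gx g (t, x)) x :=
  (hg.differentiable (t, x)).hasFDerivAt.comp x (hasFDerivAt_prodMk_right t x)

/-- the integrand -/
noncomputable def ker (g : ℝ × E → W) (ρ : E → ℝ) (N : E → E) (Y : ℝ × E → E)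
    (p : ℝ × (ℝ × E)) : W :=
  gx g (p.2.1, Y (p.1 * ρ p.2.2, p.2.2)) (N (Y (p.1 * ρ p.2.2, p.2.2)))

omit [FiniteDimensional ℝ W] in
lemma ker_smooth {g : ℝ × E → W} (hg : Sm g) {ρ : E → ℝ} (hρ : Sm ρ) {N : E → E} (hN : Sm N)
    {Y : ℝ × E → E} (hY : Sm Y) : Sm (ker g ρ N Y) := by
  have h1 : Sm (fun p : ℝ × (ℝ × E) => Y (p.1 * ρ p.2.2, p.2.2)) :=
    hY.comp ((contDiff_fst.mul (hρ.comp (contDiff_snd.comp contDiff_snd))).prodMk
      (contDiff_snd.comp contDiff_snd))
  exact ((gx_smooth hg).comp ((contDiff_fst.comp contDiff_snd).prodMk h1)).clm_apply (hN.comp h1)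

lemma near {g : ℝ × E → W} (hg : Sm g) {ρ : E → ℝ} (hρ : Sm ρ) {c : ℝ} {N : E → E}
    {Y : ℝ × E → E} (hC : Collar ρ c N Y) (h0 : ∀ t x, ρ x = 0 → g (t, x) = 0) (t : ℝ) {x : E}
    (hx : |ρ x| ≤ c) : g (t, x) = ρ x • ∫ θ in (0 : ℝ)..1, ker g ρ N Y (θ, (t, x)) := by
  obtain ⟨R, hN⟩ := hC.inN
  have hd : ∀ θ : ℝ, HasDerivAt (fun θ : ℝ => g (t, Y (θ * ρ x, x)))
      (-(ρ x • ker g ρ N Y (θ, (t, x)))) θ := by
    intro θ
    have h1 : HasDerivAt (fun θ : ℝ => θ * ρ x) (ρ x) θ := by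
      simpa using (hasDerivAt_id θ).mul_const (ρ x)
    have h2 := (hC.flow.deriv (θ * ρ x) x).scomp θ h1
    have h3 := (gx_deriv hg t (Y (θ * ρ x, x))).comp_hasDerivAt θ h2
    have h4 : gx g (t, Y (θ * ρ x, x)) (ρ x • -N (Y (θ * ρ x, x))) =
        -(ρ x • ker g ρ N Y (θ, (t, x))) := by
      rw [map_smul, map_neg, smul_neg]
      rfl
    rw [← h4]
    exact h3
  have hk : Continuous fun θ : ℝ => ker g ρ N Y (θ, (t, x)) :=
    (ker_smooth hg hρ hN.smooth hC.flow.smooth).continuous.comp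
      (continuous_id.prodMk continuous_const)
  have h1 := intervalIntegral.integral_eq_sub_of_hasDerivAt (a := 0) (b := 1)
    (fun θ _ => hd θ) ((hk.const_smul (ρ x)).neg.intervalIntegrable 0 1)
  rw [intervalIntegral.integral_neg, intervalIntegral.integral_smul, one_mul, zero_mul,
    hC.flow.zero, h0 t (Y (ρ x, x)) (by
      rw [hC.lev (ρ x) x hx (by rw [sub_self, abs_zero]; exact hC.pos.le), sub_self]), zero_sub,
    neg_inj] at h1
  exact h1.symm

/-- the quotient `(1 - χ(s))/s` -/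
noncomputable def q (c : ℝ) (hc : 0 < c) (s : ℝ) : ℝ := (1 - CollarM.psi c hc s) * s⁻¹

lemma q_smooth {c : ℝ} (hc : 0 < c) : Sm (q c hc) := by
  refine contDiff_iff_contDiffAt.mpr fun s => ?_
  by_cases hs : s = 0
  · have h1 : ∀ᶠ y in 𝓝 s, q c hc y = 0 := by
      have h2 : ∀ᶠ y in 𝓝 s, |y| < c := by
        have h3 : Tendsto (fun y : ℝ => |y|) (𝓝 s) (𝓝 |s|) := continuous_abs.tendsto s
        exact h3.eventually (gt_mem_nhds (by rw [hs, abs_zero]; exact hc))
      filter_upwards [h2] with y hy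
      rw [q, CollarM.psi_one hc hy.le, sub_self, zero_mul]
    exact (contDiffAt_const (c := (0 : ℝ))).congr_of_eventuallyEq h1
  · exact (contDiffAt_const.sub (CollarM.psi c hc).contDiff.contDiffAt).mul
      (contDiffAt_inv ℝ hs)

end HadM

theorem specHadT (hC : SpecCollar) (hP : SpecPint) : SpecHadT := by
  intro W _ _ _ ρ g hρ hg h0
  obtain ⟨c, N, Y, hc⟩ := hC ρ hρ
  obtain ⟨R, hN⟩ := hc.inN
  have hc2 : 0 < c / 2 := half_pos hc.pos
  have hs := HadM.ker_smooth hg hρ.smooth hN.smooth hc.flow.smooth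
  have h1 := hP (ℝ × E) W _ hs
  refine ⟨fun p => CollarM.psi (c / 2) hc2 (ρ p.2) •
    (∫ θ in (0 : ℝ)..1, HadM.ker g ρ N Y (θ, p)) + HadM.q (c / 2) hc2 (ρ p.2) • g p, ?_, ?_⟩
  · have h2 : Sm fun p : ℝ × E => ρ p.2 := hρ.smooth.comp contDiff_snd
    exact (((CollarM.psi (c / 2) hc2).contDiff.comp h2).smul h1).add
      (((HadM.q_smooth hc2).comp h2).smul hg)
  · intro t x
    by_cases hz : ρ x = 0
    · rw [h0 t x hz, hz, zero_smul]
    · by_cases hx : |ρ x| ≤ c
      · have h3 := HadM.near hg hρ.smooth hc h0 t hx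
        simp only
        rw [smul_add, smul_smul, smul_smul, mul_comm (ρ x), mul_smul, ← h3, HadM.q,
          show ρ x * ((1 - CollarM.psi (c / 2) hc2 (ρ x)) * (ρ x)⁻¹) =
            1 - CollarM.psi (c / 2) hc2 (ρ x) by field_simp, ← add_smul, add_sub_cancel, one_smul]
      · have h3 : CollarM.psi (c / 2) hc2 (ρ x) = 0 := by
          apply CollarM.psi_zero
          push Not at hx
          linarith
        simp only
        rw [HadM.q, h3, zero_smul, zero_add, smul_smul,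
          show ρ x * ((1 - 0) * (ρ x)⁻¹) = 1 by field_simp; norm_num, one_smul]

theorem specHad (hC : SpecCollar) (hP : SpecPint) : SpecHad := by
  intro W _ _ _ ρ g hρ hg h0
  obtain ⟨h, hs, hh⟩ := specHadT hC hP W ρ (fun p => g p.2) hρ (hg.comp contDiff_snd)
    (fun t x hx => h0 x hx)
  exact ⟨fun x => h (0, x), hs.comp (contDiff_const.prodMk contDiff_id), fun x => hh 0 x⟩

end MPfab
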