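import Pool.Agent.Lib.MP_fabde4_an.SpecA
import Pool.Agent.Lib.MP_fabde4_an.SpecB
import Pool.Agent.Lib.MP_fabde4_an.F.EllD
import Pool.Agent.Lib.MP_fabde4_an.M.Lop

section
/-!
MP_fabde4_an, module DIVCURL: the div-curl estimate in `H^k`.
-/
set_option autoImplicit false
open MeasureTheory Set

namespace MPfab

namespace DivCurl

/-- the right-hand side of the estimate -/
noncomputable def rhs (S : Set E) (K : ℕ) (w : E → E) : ℝ :=
  hs S K (curl w) + hs S K (dv w) + hs S 0 w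

/-- the class of fields -/
def Cl (ρ : E → ℝ) (w : E → E) : Prop := Sm w ∧ Tan ρ w

/-- a scalar operator bounded in `H^k` by `rhs K` -/
def Bd (ρ : E → ℝ) (K k : ℕ) (Φ : (E → E) → E → ℝ) : Prop :=
  (∀ w, Cl ρ w → Sm (Φ w)) ∧ ∃ C : ℝ, 0 ≤ C ∧ ∀ w, Cl ρ w → hs (D ρ) k (Φ w) ≤ C * rhs (D ρ) K w

section basics

variable {ρ : E → ℝ} {K k : ℕ}

lemma isOpen_D (h : Dom ρ) : IsOpen (D ρ) := isOpen_lt h.smooth.continuous continuous_const

lemma meas_D (h : Dom ρ) : MeasurableSet (D ρ) := (isOpen_D h).measurableSet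

lemma rhs_nonneg (hH : SpecHSB) (S : Set E) (K : ℕ) (w : E → E) : 0 ≤ rhs S K w := by
  unfold rhs
  have h1 := hH.nonneg E S K (curl w)
  have h2 := hH.nonneg ℝ S K (dv w)
  have h3 := hH.nonneg E S 0 w
  positivity

lemma rhs_mono (hH : SpecHSB) (S : Set E) {j K : ℕ} (hj : j ≤ K) (w : E → E) :
    rhs S j w ≤ rhs S K w := by
  unfold rhs
  have h1 := hH.mono E S j K (curl w) hj
  have h2 := hH.mono ℝ S j K (dv w) hj
  linarith

lemma Bd.congr {Φ Ψ : (E → E) → E → ℝ} (h : Bd ρ K k Φ)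
    (he : ∀ w, Cl ρ w → ∀ x, Ψ w x = Φ w x) : Bd ρ K k Ψ := by
  have h1 : ∀ w, Cl ρ w → Ψ w = Φ w := fun w hw => funext (he w hw)
  refine ⟨fun w hw => by rw [h1 w hw]; exact h.1 w hw, ?_⟩
  obtain ⟨C, hC, hb⟩ := h.2
  exact ⟨C, hC, fun w hw => by rw [h1 w hw]; exact hb w hw⟩

lemma Bd.add (hH : SpecHSB) (hD : Dom ρ) {Φ Ψ : (E → E) → E → ℝ} (h : Bd ρ K k Φ)
    (h' : Bd ρ K k Ψ) : Bd ρ K k (fun w x => Φ w x + Ψ w x) := by
  refine ⟨fun w hw => (h.1 w hw).add (h'.1 w hw), ?_⟩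
  obtain ⟨C, hC, hb⟩ := h.2
  obtain ⟨C', hC', hb'⟩ := h'.2
  refine ⟨2 * C + 2 * C', by positivity, fun w hw => ?_⟩
  have h1 := hH.add_le ℝ (D ρ) k (Φ w) (Ψ w) (meas_D hD) (Or.inl hD.bdd) (h.1 w hw) (h'.1 w hw)
  have h2 := hb w hw
  have h3 := hb' w hw
  nlinarith

lemma Bd.mul (hM : SpecMult) (hD : Dom ρ) {Φ : (E → E) → E → ℝ} {a : E → ℝ} (ha : Sm a)
    (h : Bd ρ K k Φ) : Bd ρ K k (fun w x => a x * Φ w x) := by
  refine ⟨fun w hw => ha.mul (h.1 w hw), ?_⟩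
  obtain ⟨C, hC, hb⟩ := h.2
  obtain ⟨C', hC', hb'⟩ := hM (D ρ) (meas_D hD) hD.bdd a ha k
  refine ⟨C' * C, by positivity, fun w hw => ?_⟩
  have h1 := hb' ℝ (Φ w) (h.1 w hw)
  simp only [smul_eq_mul] at h1
  refine h1.trans ?_
  have h2 := mul_le_mul_of_nonneg_left (hb w hw) hC'
  rw [mul_assoc]
  exact h2

lemma Bd.neg (hM : SpecMult) (hD : Dom ρ) {Φ : (E → E) → E → ℝ}
    (h : Bd ρ K k Φ) : Bd ρ K k (fun w x => - Φ w x) :=
  (h.mul hM hD (a := fun _ => -1) contDiff_const).congr fun w _ x => by ring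

lemma Bd.sub (hH : SpecHSB) (hM : SpecMult) (hD : Dom ρ) {Φ Ψ : (E → E) → E → ℝ}
    (h : Bd ρ K k Φ) (h' : Bd ρ K k Ψ) : Bd ρ K k (fun w x => Φ w x - Ψ w x) :=
  (h.add hH hD (h'.neg hM hD)).congr fun w _ x => by ring

/-- sums over `Fin 3` -/
lemma Bd.sum (hH : SpecHSB) (hD : Dom ρ) {Φ : Fin 3 → (E → E) → E → ℝ}
    (h : ∀ i, Bd ρ K k (Φ i)) : Bd ρ K k (fun w x => ∑ i, Φ i w x) :=
  (((h 0).add hH hD (h 1)).add hH hD (h 2)).congr fun w _ x => by
    rw [Fin.sum_univ_three]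

lemma Bd.mono (hH : SpecHSB) {Φ : (E → E) → E → ℝ} {j : ℕ} (hj : j ≤ k) (h : Bd ρ K k Φ) :
    Bd ρ K j Φ := by
  refine ⟨h.1, ?_⟩
  obtain ⟨C, hC, hb⟩ := h.2
  exact ⟨C, hC, fun w hw => (hH.mono ℝ (D ρ) j k (Φ w) hj).trans (hb w hw)⟩

/-- a derivative costs one degree of smoothness -/
lemma Bd.pd (hH : SpecHSB) {Φ : (E → E) → E → ℝ} (i : Fin 3) (h : Bd ρ K (k + 1) Φ) :
    Bd ρ K k (fun w x => MPfab.pd i (Φ w) x) := by
  refine ⟨fun w hw => (h.1 w hw).pd i, ?_⟩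
  obtain ⟨C, hC, hb⟩ := h.2
  refine ⟨C, hC, fun w hw => ?_⟩
  have h1 := hH.pds_le ℝ (D ρ) k [i] (Φ w) (h.1 w hw)
  simp only [pds, List.length_singleton] at h1
  exact h1.trans (hb w hw)

/-- vector valued operators by components -/
lemma bd_of_vec (hH : SpecHSB) (hD : Dom ρ) {V : (E → E) → E → E} (hV : ∀ w, Cl ρ w → Sm (V w))
    {C : ℝ} (hC : 0 ≤ C) (hb : ∀ w, Cl ρ w → hs (D ρ) k (V w) ≤ C * rhs (D ρ) K w) (j : Fin 3) :
    Bd ρ K k (fun w x => V w x j) := by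
  refine ⟨fun w hw => (hV w hw).comp_apply j, C, hC, fun w hw => ?_⟩
  refine le_trans ?_ (hb w hw)
  rw [hH.comp (D ρ) k (V w) (meas_D hD) (Or.inl hD.bdd) (hV w hw)]
  exact Finset.single_le_sum (f := fun j => hs (D ρ) k (fun x => V w x j))
    (fun j _ => hH.nonneg ℝ _ _ _) (Finset.mem_univ j)

/-- and back -/
lemma vec_of_bd (hH : SpecHSB) (hD : Dom ρ) {V : (E → E) → E → E}
    (hb : ∀ j, Bd ρ K k (fun w x => V w x j)) :
    ∃ C : ℝ, 0 ≤ C ∧ ∀ w, Cl ρ w → hs (D ρ) k (V w) ≤ C * rhs (D ρ) K w := by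
  choose hs' C hC hb' using hb
  refine ⟨∑ j, C j, Finset.sum_nonneg fun j _ => hC j, fun w hw => ?_⟩
  rw [hH.comp (D ρ) k (V w) (meas_D hD) (Or.inl hD.bdd) (sm_iff.mpr fun j => hs' j w hw),
    Finset.sum_mul]
  exact Finset.sum_le_sum fun j _ => hb' j w hw

end basics

/-! ### the reconstruction identity -/

lemma recon (N d0 d1 d2 : E) (i j : Fin 3) :
    ((∑ m, N m ^ 2) ^ 2) * (![d0, d1, d2] i) j =
      (∑ l, ∑ m, (N i * N j * cr (eb m) N l - N i * N m * cr (eb j) N l -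
        (if m = j then (∑ m, N m ^ 2) * cr (eb i) N l else 0)) *
          (∑ q, cr (eb l) N q * (![d0, d1, d2] q) m)) +
      ((∑ m, (- N i * (∑ m, N m ^ 2) * cr N (eb m) j) *
          (![d1 2 - d2 1, d2 0 - d0 2, d0 1 - d1 0] m)) +
      N i * N j * (∑ m, N m ^ 2) * (d0 0 + d1 1 + d2 2)) := by
  fin_cases i <;> fin_cases j <;>
    simp [Fin.sum_univ_three, cr, eb] <;> ring

/-- the tangential fields `e_l × ∇ρ` -/
noncomputable def Tf (ρ : E → ℝ) (l : Fin 3) (x : E) : E := cr (eb l) (gr ρ x)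

/-- the fields `ρ e_l` -/
noncomputable def Sf (ρ : E → ℝ) (l : Fin 3) (x : E) : E := ρ x • eb l

lemma Tf_smooth {ρ : E → ℝ} (h : Sm ρ) (l : Fin 3) : Sm (Tf ρ l) :=
  Sm.cr (contDiff_const (c := eb l)) h.gr

lemma Sf_smooth {ρ : E → ℝ} (h : Sm ρ) (l : Fin 3) : Sm (Sf ρ l) :=
  h.smul contDiff_const

lemma cr_inner (u v : E) : inner ℝ (cr u v) v = 0 := by
  rw [inner_eq, Fin.sum_univ_three]
  simp only [cr_apply0, cr_apply1, cr_apply2]
  ring

lemma Tf_tan (ρ : E → ℝ) (l : Fin 3) : Tan ρ (Tf ρ l) := by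
  intro x _
  rw [← inner_gr]
  exact cr_inner _ _

lemma Sf_tan (ρ : E → ℝ) (l : Fin 3) : Tan ρ (Sf ρ l) := by
  intro x hx
  simp [Sf, hx]

/-- the weight `|∇ρ|⁴ + ρ²` -/
noncomputable def wt (ρ : E → ℝ) (x : E) : ℝ := (∑ m, gr ρ x m ^ 2) ^ 2 + ρ x ^ 2

lemma wt_pos {ρ : E → ℝ} (h : Dom ρ) (x : E) : 0 < wt ρ x := by
  unfold wt
  by_cases hx : ρ x = 0
  · have h1 : 0 < ∑ m, gr ρ x m ^ 2 := by
      by_contra hc
      have h2 : ∑ m, gr ρ x m ^ 2 = 0 := le_antisymm (not_lt.mp hc)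
        (Finset.sum_nonneg fun m _ => sq_nonneg _)
      rw [Finset.sum_eq_zero_iff_of_nonneg (fun m _ => sq_nonneg _)] at h2
      apply h.reg x hx
      ext v
      rw [fderiv_eq_sum]
      have h3 : ∀ i, pd i ρ x = 0 := fun i => by
        have := h2 i (Finset.mem_univ i)
        rw [gr_apply] at this
        exact pow_eq_zero_iff (two_ne_zero) |>.mp this
      simp [h3]
    positivity
  · have h1 : 0 < ρ x ^ 2 := by positivity
    positivity

lemma sq_smooth {ρ : E → ℝ} (h : Sm ρ) : Sm (fun x => ∑ m, gr ρ x m ^ 2) :=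
  ContDiff.sum fun m _ => (h.pd m).pow 2

lemma wt_smooth {ρ : E → ℝ} (h : Sm ρ) : Sm (wt ρ) :=
  ((sq_smooth h).pow 2).add (h.pow 2)

lemma winv_smooth {ρ : E → ℝ} (h : Dom ρ) : Sm (fun x => (wt ρ x)⁻¹) :=
  (wt_smooth h.smooth).inv fun x => (wt_pos h x).ne'

/-- coefficients of the reconstruction -/
noncomputable def c1 (N : E) (i j l m : Fin 3) : ℝ :=
  N i * N j * cr (eb m) N l - N i * N m * cr (eb j) N l -
        (if m = j then (∑ m, N m ^ 2) * cr (eb i) N l else 0)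

lemma c1_smooth {ρ : E → ℝ} (h : Sm ρ) (i j l m : Fin 3) : Sm (fun x => c1 (gr ρ x) i j l m) := by
  have h1 : ∀ a b : Fin 3, Sm (fun x => cr (eb a) (gr ρ x) b) := fun a b =>
    (Tf_smooth h a).comp_apply b
  have h2 : ∀ a : Fin 3, Sm (fun x => gr ρ x a) := fun a => h.pd a
  unfold c1
  by_cases hm : m = j
  · simp only [if_pos hm]
    exact ((((h2 i).mul (h2 j)).mul (h1 m l)).sub (((h2 i).mul (h2 m)).mul (h1 j l))).sub
      ((sq_smooth h).mul (h1 i l))
  · simp only [if_neg hm]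
    exact ((((h2 i).mul (h2 j)).mul (h1 m l)).sub (((h2 i).mul (h2 m)).mul (h1 j l))).sub
      contDiff_const

noncomputable def c2 (N : E) (i j m : Fin 3) : ℝ := - N i * (∑ m, N m ^ 2) * cr N (eb m) j

lemma c2_smooth {ρ : E → ℝ} (h : Sm ρ) (i j m : Fin 3) : Sm (fun x => c2 (gr ρ x) i j m) := by
  have h2 : ∀ a : Fin 3, Sm (fun x => gr ρ x a) := fun a => h.pd a
  have h3 : Sm (fun x => cr (gr ρ x) (eb m) j) :=
    (Sm.cr h.gr (contDiff_const (c := eb m))).comp_apply j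
  unfold c2
  exact ((h2 i).neg.mul (sq_smooth h)).mul h3

noncomputable def c3 (N : E) (i j : Fin 3) : ℝ := N i * N j * (∑ m, N m ^ 2)

lemma c3_smooth {ρ : E → ℝ} (h : Sm ρ) (i j : Fin 3) : Sm (fun x => c3 (gr ρ x) i j) := by
  have h2 : ∀ a : Fin 3, Sm (fun x => gr ρ x a) := fun a => h.pd a
  unfold c3
  exact ((h2 i).mul (h2 j)).mul (sq_smooth h)

/-- transport derivative of the component -/
noncomputable def tr (T w : E → E) (m : Fin 3) (x : E) : ℝ := ∑ q, T x q * pd q w x m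

lemma recon2 {ρ : E → ℝ} (h : Dom ρ) (w : E → E) (i j : Fin 3) (x : E) :
    pd i w x j = (wt ρ x)⁻¹ * (((∑ l, ∑ m, c1 (gr ρ x) i j l m * tr (Tf ρ l) w m x) +
      ((∑ m, c2 (gr ρ x) i j m * curl w x m) + c3 (gr ρ x) i j * dv w x)) +
      ρ x * tr (Sf ρ i) w j x) := by
  have h0 := recon (gr ρ x) (pd 0 w x) (pd 1 w x) (pd 2 w x) i j
  have e1 : ∀ q, (![pd 0 w x, pd 1 w x, pd 2 w x] q) = pd q w x := by
    intro q; fin_cases q <;> rfl
  have e2 : ∀ m, (![pd 1 w x 2 - pd 2 w x 1, pd 2 w x 0 - pd 0 w x 2,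
      pd 0 w x 1 - pd 1 w x 0] m) = curl w x m := by
    intro q; fin_cases q <;> rfl
  have e3 : dv w x = pd 0 w x 0 + pd 1 w x 1 + pd 2 w x 2 := by
    unfold dv
    rw [Fin.sum_univ_three]
  have e4 : tr (Sf ρ i) w j x = ρ x * pd i w x j := by
    unfold tr Sf
    simp only [PiLp.smul_apply, smul_eq_mul, eb_apply]
    rw [Finset.sum_eq_single i]
    · simp
    · intro b _ hb
      simp [hb]
    · simp
  simp only [e1, e2, ← e3] at h0
  have h1 : (wt ρ x) * pd i w x j = ((∑ l, ∑ m, c1 (gr ρ x) i j l m * tr (Tf ρ l) w m x) +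
      ((∑ m, c2 (gr ρ x) i j m * curl w x m) + c3 (gr ρ x) i j * dv w x)) +
      ρ x * tr (Sf ρ i) w j x := by
    unfold wt
    rw [add_mul, h0, e4]
    unfold c1 c2 c3 tr Tf
    ring
  rw [← h1, ← mul_assoc, inv_mul_cancel₀ (wt_pos h x).ne', one_mul]

section step

variable {ρ : E → ℝ} {k : ℕ}

/-- the induction step -/
lemma step (hH : SpecHSB) (hM : SpecMult) (hB : SpecBrkT) (hD : Dom ρ)
    (ih : ∃ C : ℝ, 0 ≤ C ∧ ∀ w : E → E, Cl ρ w → hs (D ρ) (k + 1) w ≤ C * rhs (D ρ) k w) :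
    ∃ C : ℝ, 0 ≤ C ∧ ∀ w : E → E, Cl ρ w → hs (D ρ) (k + 2) w ≤ C * rhs (D ρ) (k + 1) w := by
  obtain ⟨C0, hC0, ih⟩ := ih
  -- (a)
  have ha : ∀ j, Bd ρ (k + 1) (k + 1) (fun w x => w x j) := by
    refine bd_of_vec hH hD (V := fun w => w) (fun w hw => hw.1) hC0 fun w hw => ?_
    exact (ih w hw).trans (mul_le_mul_of_nonneg_left (rhs_mono hH _ (Nat.le_succ k) w) hC0)
  -- (b)
  have hb : ∀ i j, Bd ρ (k + 1) k (fun w x => pd i w x j) := fun i j =>
    ((ha j).pd hH i).congr fun w hw x => pd_apply (hw.1.differentiable x) i j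
  -- (c)
  have hc : ∀ j, Bd ρ (k + 1) (k + 1) (fun w x => curl w x j) := by
    refine bd_of_vec hH hD (V := fun w => curl w) (fun w hw => hw.1.curl) zero_le_one
      fun w hw => ?_
    unfold rhs
    have h2 := hH.nonneg ℝ (D ρ) (k + 1) (dv w)
    have h3 := hH.nonneg E (D ρ) 0 w
    linarith
  have hd : Bd ρ (k + 1) (k + 1) (fun w x => dv w x) := by
    refine ⟨fun w hw => hw.1.dv, 1, zero_le_one, fun w hw => ?_⟩
    unfold rhs
    have h2 := hH.nonneg E (D ρ) (k + 1) (curl w)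
    have h3 := hH.nonneg E (D ρ) 0 w
    linarith
  -- (d)
  have hpc : ∀ i j, Bd ρ (k + 1) k (fun w x => pd i (curl w) x j) := fun i j =>
    ((hc j).pd hH i).congr fun w hw x => pd_apply (hw.1.curl.differentiable x) i j
  have hpd : ∀ i, Bd ρ (k + 1) k (fun w x => pd i (dv w) x) := fun i => hd.pd hH i
  -- the tangential derivatives
  have key : ∀ T : E → E, Sm T → Tan ρ T → ∀ m, Bd ρ (k + 1) (k + 1) (fun w x => tr T w m x) := by
    intro T hT hTt
    have hcl : ∀ w, Cl ρ w → Cl ρ (brk T w) := fun w hw =>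
      ⟨hT.brk hw.1, hB.tan ρ hD.smooth hD.reg T w hT hw.1 hTt hw.2⟩
    -- (e)
    have he : ∀ i, Bd ρ (k + 1) k (fun w x => curl (brk T w) x i) := by
      intro i
      obtain ⟨a, b, hsa, hsb, hab⟩ := hB.curl T hT
      have e1 : Bd ρ (k + 1) k (fun w x => ∑ j, T x j * pd j (curl w) x i) :=
        Bd.sum hH hD fun j => (hpc j i).mul hM hD (hT.comp_apply j)
      have e2 : Bd ρ (k + 1) k (fun w x => ∑ j, ∑ l, a i j l x * pd j w x l) :=
        Bd.sum hH hD fun j => Bd.sum hH hD fun l => (hb j l).mul hM hD (hsa i j l)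
      have e3 : Bd ρ (k + 1) k (fun w x => ∑ j, b i j x * w x j) :=
        Bd.sum hH hD fun j => ((ha j).mono hH (Nat.le_succ k)).mul hM hD (hsb i j)
      refine ((e1.add hH hD e2).add hH hD e3).congr fun w hw x => ?_
      rw [hab w hw.1 x i]
      congr 2
      rw [fderiv_eq_sum]
      simp [Fin.sum_univ_three]
    -- (f)
    have hf : Bd ρ (k + 1) k (fun w x => dv (brk T w) x) := by
      have e1 : Bd ρ (k + 1) k (fun w x => ∑ j, T x j * pd j (dv w) x) :=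
        Bd.sum hH hD fun j => (hpd j).mul hM hD (hT.comp_apply j)
      have e2 : Bd ρ (k + 1) k (fun w x => ∑ j, pd j (dv T) x * w x j) :=
        Bd.sum hH hD fun j => ((ha j).mono hH (Nat.le_succ k)).mul hM hD (hT.dv.pd j)
      refine (e1.sub hH hM hD e2).congr fun w hw x => ?_
      rw [hB.dv T w hT hw.1 x, fderiv_eq_sum, fderiv_eq_sum]
      simp only [smul_eq_mul]
      congr 1
      exact Finset.sum_congr rfl fun j _ => mul_comm _ _
    -- (g)
    have hg : ∀ i, Bd ρ (k + 1) 0 (fun w x => brk T w x i) := by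
      intro i
      have e1 : Bd ρ (k + 1) 0 (fun w x => ∑ j, T x j * pd j w x i) :=
        Bd.sum hH hD fun j => ((hb j i).mono hH (Nat.zero_le k)).mul hM hD (hT.comp_apply j)
      have e2 : Bd ρ (k + 1) 0 (fun w x => ∑ j, pd j T x i * w x j) :=
        Bd.sum hH hD fun j => ((ha j).mono hH (Nat.zero_le _)).mul hM hD
          ((hT.pd j).comp_apply i)
      refine (e1.sub hH hM hD e2).congr fun w hw x => ?_
      rw [brk_apply, ← Finset.sum_sub_distrib]
      exact Finset.sum_congr rfl fun j _ => by ring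
    -- (h)
    obtain ⟨C1, hC1, h1⟩ := vec_of_bd hH hD (V := fun w => curl (brk T w)) he
    obtain ⟨C2, hC2, h2⟩ := hf.2
    obtain ⟨C3, hC3, h3⟩ := vec_of_bd hH hD (V := fun w => brk T w) hg
    have hh : ∀ i, Bd ρ (k + 1) (k + 1) (fun w x => brk T w x i) := by
      refine bd_of_vec hH hD (V := fun w => brk T w) (fun w hw => hT.brk hw.1)
        (C := C0 * (C1 + C2 + C3)) (by positivity) fun w hw => ?_
      refine (ih _ (hcl w hw)).trans ?_
      rw [mul_assoc]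
      refine mul_le_mul_of_nonneg_left ?_ hC0
      have g1 := h1 w hw
      have g2 := h2 w hw
      have g3 := h3 w hw
      show hs (D ρ) k (curl (brk T w)) + hs (D ρ) k (dv (brk T w)) + hs (D ρ) 0 (brk T w) ≤ _
      calc _ ≤ C1 * rhs (D ρ) (k + 1) w + C2 * rhs (D ρ) (k + 1) w +
            C3 * rhs (D ρ) (k + 1) w := add_le_add (add_le_add g1 g2) g3
        _ = _ := by ring
    -- (i)
    intro m
    have e2 : Bd ρ (k + 1) (k + 1) (fun w x => ∑ j, pd j T x m * w x j) :=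
      Bd.sum hH hD fun j => (ha j).mul hM hD ((hT.pd j).comp_apply m)
    refine ((hh m).add hH hD e2).congr fun w hw x => ?_
    rw [brk_apply, ← Finset.sum_add_distrib]
    unfold tr
    exact Finset.sum_congr rfl fun j _ => by ring
  -- (j)
  have hj : ∀ i j, Bd ρ (k + 1) (k + 1) (fun w x => pd i w x j) := by
    intro i j
    have e1 : Bd ρ (k + 1) (k + 1)
        (fun w x => ∑ l, ∑ m, c1 (gr ρ x) i j l m * tr (Tf ρ l) w m x) :=
      Bd.sum hH hD fun l => Bd.sum hH hD fun m =>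
        (key (Tf ρ l) (Tf_smooth hD.smooth l) (Tf_tan ρ l) m).mul hM hD
          (c1_smooth hD.smooth i j l m)
    have e2 : Bd ρ (k + 1) (k + 1) (fun w x => ∑ m, c2 (gr ρ x) i j m * curl w x m) :=
      Bd.sum hH hD fun m => (hc m).mul hM hD (c2_smooth hD.smooth i j m)
    have e3 : Bd ρ (k + 1) (k + 1) (fun w x => c3 (gr ρ x) i j * dv w x) :=
      hd.mul hM hD (c3_smooth hD.smooth i j)
    have e4 : Bd ρ (k + 1) (k + 1) (fun w x => ρ x * tr (Sf ρ i) w j x) :=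
      (key (Sf ρ i) (Sf_smooth hD.smooth i) (Sf_tan ρ i) j).mul hM hD hD.smooth
    exact (((e1.add hH hD (e2.add hH hD e3)).add hH hD e4).mul hM hD (winv_smooth hD)).congr
      fun w hw x => recon2 hD w i j x
  -- (k)
  choose Ci hCi hbi using fun i => vec_of_bd hH hD (V := fun w => pd i w) (hj i)
  refine ⟨1 + ∑ i, Ci i, by
    have := Finset.sum_nonneg fun i (_ : i ∈ Finset.univ) => hCi i
    positivity, fun w hw => ?_⟩
  show (∫ x in D ρ, ‖w x‖ ^ 2) + ∑ i, hs (D ρ) (k + 1) (pd i w) ≤ _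
  rw [add_mul, Finset.sum_mul, one_mul]
  refine add_le_add ?_ (Finset.sum_le_sum fun i _ => hbi i w hw)
  show hs (D ρ) 0 w ≤ _
  unfold rhs
  have h1 := hH.nonneg E (D ρ) (k + 1) (curl w)
  have h2 := hH.nonneg ℝ (D ρ) (k + 1) (dv w)
  linarith

end step

end DivCurl

theorem specDivCurl (hH : SpecHSB) (hM : SpecMult) (hB : SpecBrkT) (hG : SpecGaff) :
    SpecDivCurl := by
  intro ρ hD k
  have h : ∃ C : ℝ, 0 ≤ C ∧ ∀ w : E → E, DivCurl.Cl ρ w →
      hs (D ρ) (k + 1) w ≤ C * DivCurl.rhs (D ρ) k w := by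
    induction k with
    | zero =>
      obtain ⟨C, hC, h⟩ := hG ρ hD
      exact ⟨C, hC, fun w hw => h w hw.1 hw.2⟩
    | succ k ih => exact DivCurl.step hH hM hB hD ih
  obtain ⟨C, hC, h⟩ := h
  exact ⟨C, hC, fun w hw ht => h w ⟨hw, ht⟩⟩

end MPfab
end

section
/-!
MP_fabde4_an, toolbox B: normal derivatives from curl, divergence and tangential derivatives.
-/
set_option autoImplicit false
open MeasureTheory Set Filter Topology

namespace MPfab.NormD

variable {ρ : E → ℝ}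

/-- derivative along the field `T` -/
noncomputable def tg (T : E → E) (f : E → ℝ) (x : E) : ℝ := fderiv ℝ f x (T x)

/-- iterated tangential derivatives are square integrable -/
def QS (ρ : E → ℝ) : ℕ → (E → ℝ) → Prop
  | 0, f => MemLp f 2 (volume.restrict (D ρ))
  | k + 1, f => MemLp f 2 (volume.restrict (D ρ)) ∧
      ∀ T : E → E, (∃ R, In R T) → Tan ρ T → QS ρ k (tg T f)

/-- `n` arbitrary derivatives with all tangential derivatives -/
def QQ (ρ : E → ℝ) : ℕ → (E → ℝ) → Prop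
  | 0, f => ContDiffOn ℝ ((⊤ : ENat) : WithTop ENat) f (D ρ) ∧ ∀ k, QS ρ k f
  | n + 1, f => QQ ρ n f ∧ ∀ j, QQ ρ n (pd j f)

lemma tg_congr (hD : Dom ρ) {T : E → E} {f g : E → ℝ} (h : ∀ x ∈ D ρ, f x = g x) :
    ∀ x ∈ D ρ, tg T f x = tg T g x := by
  intro x hx
  have h1 : f =ᶠ[𝓝 x] g := by
    filter_upwards [(Neu.isOpen_D hD).mem_nhds hx] with y hy using h y hy
  unfold tg
  rw [h1.fderiv_eq]

lemma memLp_congr (hD : Dom ρ) {f g : E → ℝ} (h : ∀ x ∈ D ρ, f x = g x)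
    (hf : MemLp f 2 (volume.restrict (D ρ))) : MemLp g 2 (volume.restrict (D ρ)) := by
  refine hf.ae_eq ?_
  rw [Filter.EventuallyEq, ae_restrict_iff' (Neu.measurableSet_D hD)]
  exact Eventually.of_forall h

lemma QS.memLp {k : ℕ} {f : E → ℝ} (h : QS ρ k f) : MemLp f 2 (volume.restrict (D ρ)) := by
  cases k with
  | zero => exact h
  | succ k => exact h.1

lemma QS.congr (hD : Dom ρ) {k : ℕ} : ∀ {f g : E → ℝ}, (∀ x ∈ D ρ, f x = g x) → QS ρ k f →
    QS ρ k g := by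
  induction k with
  | zero => exact fun h hf => memLp_congr hD h hf
  | succ k ih =>
    intro f g h hf
    exact ⟨memLp_congr hD h hf.1, fun T hT hT' => ih (tg_congr hD h) (hf.2 T hT hT')⟩

lemma QS.mono {k : ℕ} : ∀ {f : E → ℝ}, QS ρ (k + 1) f → QS ρ k f := by
  induction k with
  | zero => exact fun h => h.1
  | succ k ih => exact fun h => ⟨h.1, fun T hT hT' => ih (h.2 T hT hT')⟩

lemma memLp_mul (hD : Dom ρ) {a f : E → ℝ} (ha : Continuous a)
    (hf : MemLp f 2 (volume.restrict (D ρ))) :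
    MemLp (fun x => a x * f x) 2 (volume.restrict (D ρ)) := by
  obtain ⟨C, hC⟩ := Neu.bdd_of_cont ha hD.bdd
  refine MemLp.of_le_mul (c := C) hf (ha.aestronglyMeasurable.mul hf.1) ?_
  rw [ae_restrict_iff' (Neu.measurableSet_D hD)]
  refine Eventually.of_forall fun x hx => ?_
  rw [norm_mul]
  exact mul_le_mul_of_nonneg_right (hC x hx) (norm_nonneg _)

lemma contDiffOn_tg (hD : Dom ρ) {T : E → E} (hT : Sm T) {f : E → ℝ}
    (hf : ContDiffOn ℝ ((⊤ : ENat) : WithTop ENat) f (D ρ)) :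
    ContDiffOn ℝ ((⊤ : ENat) : WithTop ENat) (tg T f) (D ρ) := by
  have h1 : ContDiffOn ℝ ((⊤ : ENat) : WithTop ENat) (fderiv ℝ f) (D ρ) :=
    hf.fderiv_of_isOpen (Neu.isOpen_D hD) (by simp)
  exact h1.clm_apply hT.contDiffOn

lemma QS.add (hD : Dom ρ) {k : ℕ} : ∀ {f g : E → ℝ},
    ContDiffOn ℝ ((⊤ : ENat) : WithTop ENat) f (D ρ) →
    ContDiffOn ℝ ((⊤ : ENat) : WithTop ENat) g (D ρ) → QS ρ k f → QS ρ k g →
    QS ρ k (fun x => f x + g x) := by
  induction k with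
  | zero => exact fun _ _ hf hg => MemLp.add hf hg
  | succ k ih =>
    intro f g hfs hgs hf hg
    refine ⟨MemLp.add hf.1 hg.1, fun T hT hT' => ?_⟩
    obtain ⟨R, hR⟩ := hT
    refine (ih (contDiffOn_tg hD hR.smooth hfs) (contDiffOn_tg hD hR.smooth hgs)
      (hf.2 T ⟨R, hR⟩ hT') (hg.2 T ⟨R, hR⟩ hT')).congr hD fun x hx => ?_
    unfold tg
    rw [fderiv_fun_add (Neu.differentiableAt_of (Neu.isOpen_D hD) hfs hx)
      (Neu.differentiableAt_of (Neu.isOpen_D hD) hgs hx)]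
    rfl

lemma QS.mul (hD : Dom ρ) {k : ℕ} : ∀ {a f : E → ℝ}, Sm a →
    ContDiffOn ℝ ((⊤ : ENat) : WithTop ENat) f (D ρ) → QS ρ k f →
    QS ρ k (fun x => a x * f x) := by
  induction k with
  | zero => exact fun ha _ hf => memLp_mul hD ha.continuous hf
  | succ k ih =>
    intro a f ha hfs hf
    refine ⟨memLp_mul hD ha.continuous hf.1, fun T hT hT' => ?_⟩
    obtain ⟨R, hR⟩ := hT
    have ha' : Sm (tg T a) :=
      (ha.fderiv_right (m := ((⊤ : ENat) : WithTop ENat)) (by simp)).clm_apply hR.smooth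
    have h1 : QS ρ k (fun x => a x * tg T f x) :=
      ih ha (contDiffOn_tg hD hR.smooth hfs) (hf.2 T ⟨R, hR⟩ hT')
    have h2 : QS ρ k (fun x => tg T a x * f x) := ih ha' hfs hf.mono
    refine (QS.add hD (ha.contDiffOn.mul (contDiffOn_tg hD hR.smooth hfs))
      (ha'.contDiffOn.mul hfs) h1 h2).congr hD fun x hx => ?_
    unfold tg
    rw [fderiv_fun_mul ha.differentiable.differentiableAt
      (Neu.differentiableAt_of (Neu.isOpen_D hD) hfs hx)]
    simp
    ring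

lemma QQ.smooth {n : ℕ} : ∀ {f : E → ℝ}, QQ ρ n f →
    ContDiffOn ℝ ((⊤ : ENat) : WithTop ENat) f (D ρ) := by
  induction n with
  | zero => exact fun h => h.1
  | succ n ih => exact fun h => ih h.1

lemma QQ.congr (hD : Dom ρ) {n : ℕ} : ∀ {f g : E → ℝ}, (∀ x ∈ D ρ, f x = g x) → QQ ρ n f →
    QQ ρ n g := by
  induction n with
  | zero =>
    intro f g h hf
    exact ⟨hf.1.congr fun x hx => (h x hx).symm, fun k => (hf.2 k).congr hD h⟩
  | succ n ih =>
    intro f g h hf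
    exact ⟨ih h hf.1, fun j => ih (fun x hx => Neu.pd_congr (Neu.isOpen_D hD) h j hx) (hf.2 j)⟩

lemma QQ.add (hD : Dom ρ) {n : ℕ} : ∀ {f g : E → ℝ}, QQ ρ n f → QQ ρ n g →
    QQ ρ n (fun x => f x + g x) := by
  induction n with
  | zero => exact fun hf hg => ⟨hf.1.add hg.1, fun k => (hf.2 k).add hD hf.1 hg.1 (hg.2 k)⟩
  | succ n ih =>
    intro f g hf hg
    refine ⟨ih hf.1 hg.1, fun j => (ih (hf.2 j) (hg.2 j)).congr hD fun x hx => ?_⟩
    exact (PDC.pd_add (Neu.differentiableAt_of (Neu.isOpen_D hD) hf.1.smooth hx)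
      (Neu.differentiableAt_of (Neu.isOpen_D hD) hg.1.smooth hx) j).symm

lemma QQ.mul (hD : Dom ρ) {n : ℕ} : ∀ {a f : E → ℝ}, Sm a → QQ ρ n f →
    QQ ρ n (fun x => a x * f x) := by
  induction n with
  | zero => exact fun ha hf => ⟨ha.contDiffOn.mul hf.1, fun k => (hf.2 k).mul hD ha hf.1⟩
  | succ n ih =>
    intro a f ha hf
    refine ⟨ih ha hf.1, fun j => ?_⟩
    refine ((ih ha (hf.2 j)).add hD (ih (ha.pd j) hf.1)).congr hD fun x hx => ?_
    exact (PDC.pd_mul (ha.differentiable x)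
      (Neu.differentiableAt_of (Neu.isOpen_D hD) hf.1.smooth hx) j).symm

lemma QS.of_smooth (hD : Dom ρ) (k : ℕ) : ∀ {f : E → ℝ}, Sm f → QS ρ k f := by
  induction k with
  | zero => exact fun hf => Neu.memLp hD hf.continuous
  | succ k ih =>
    intro f hf
    refine ⟨Neu.memLp hD hf.continuous, fun T hT _ => ?_⟩
    obtain ⟨R, hR⟩ := hT
    exact ih ((hf.fderiv_right (m := ((⊤ : ENat) : WithTop ENat)) (by simp)).clm_apply hR.smooth)

lemma QQ.of_smooth (hD : Dom ρ) (n : ℕ) : ∀ {f : E → ℝ}, Sm f → QQ ρ n f := by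
  induction n with
  | zero => exact fun hf => ⟨hf.contDiffOn, fun k => QS.of_smooth hD k hf⟩
  | succ n ih => exact fun hf => ⟨ih hf, fun j => ih (hf.pd j)⟩

lemma QQ.sum (hD : Dom ρ) {n : ℕ} {ι : Type} (s : Finset ι) {f : ι → E → ℝ}
    (hf : ∀ i ∈ s, QQ ρ n (f i)) : QQ ρ n (fun x => ∑ i ∈ s, f i x) := by
  classical
  induction s using Finset.induction_on with
  | empty =>
    simp only [Finset.sum_empty]
    exact QQ.of_smooth hD n contDiff_const
  | insert a s ha ih =>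
    simp only [Finset.sum_insert ha]
    exact QQ.add hD (hf a (Finset.mem_insert_self a s))
      (ih fun i hi => hf i (Finset.mem_insert_of_mem hi))

/-- commutation of a partial derivative with a derivative along `T` -/
lemma pd_tg {S : Set E} (hS : IsOpen S) {T : E → E} (hT : Sm T) {f : E → ℝ}
    (hf : ContDiffOn ℝ ((⊤ : ENat) : WithTop ENat) f S) (j : Fin 3) {x : E} (hx : x ∈ S) :
    pd j (tg T f) x = tg T (pd j f) x + ∑ i, pd j T x i * pd i f x := by
  have hfa : ContDiffAt ℝ ((⊤ : ENat) : WithTop ENat) f x := hf.contDiffAt (hS.mem_nhds hx)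
  have h1 : DifferentiableAt ℝ (fderiv ℝ f) x :=
    (hfa.fderiv_right (m := ((⊤ : ENat) : WithTop ENat)) (by simp)).differentiableAt (by simp)
  have h2 : DifferentiableAt ℝ T x := hT.differentiable x
  have hsym : IsSymmSndFDerivAt ℝ f x := hfa.isSymmSndFDerivAt (by
    simp only [minSmoothness_of_isRCLikeNormedField]
    show ((2 : ENat) : WithTop ENat) ≤ ((⊤ : ENat) : WithTop ENat)
    exact WithTop.coe_le_coe.2 le_top)
  have e1 : pd j (tg T f) x = fderiv ℝ (fderiv ℝ f) x (eb j) (T x) +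
      fderiv ℝ f x (pd j T x) := by
    unfold pd tg
    rw [fderiv_clm_apply h1 h2]
    simp
    ring
  have e2 : tg T (pd j f) x = fderiv ℝ (fderiv ℝ f) x (T x) (eb j) := by
    unfold pd tg
    rw [fderiv_clm_apply h1 (differentiableAt_const _)]
    simp
  rw [e1, e2, hsym (eb j) (T x), fderiv_eq_sum f x (pd j T x)]
  simp

lemma QQ.tg (hD : Dom ρ) {n : ℕ} : ∀ {f : E → ℝ} {T : E → E}, (∃ R, In R T) → Tan ρ T →
    QQ ρ n f → QQ ρ n (NormD.tg T f) := by
  induction n with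
  | zero =>
    intro f T hT hT' hf
    obtain ⟨R, hR⟩ := hT
    exact ⟨contDiffOn_tg hD hR.smooth hf.1, fun k => (hf.2 (k + 1)).2 T ⟨R, hR⟩ hT'⟩
  | succ n ih =>
    intro f T hT hT' hf
    refine ⟨ih hT hT' hf.1, fun j => ?_⟩
    obtain ⟨R, hR⟩ := hT
    refine ((ih ⟨R, hR⟩ hT' (hf.2 j)).add hD (QQ.sum hD Finset.univ
      (f := fun i x => pd j T x i * pd i f x) fun i _ =>
        QQ.mul hD ((hR.smooth.pd j).comp_apply i) (hf.2 i))).congr hD fun x hx => ?_
    exact (pd_tg (Neu.isOpen_D hD) hR.smooth hf.1.smooth j hx).symm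

/-- components of a field with iterated Lie derivatives -/
lemma QL.mono {k : ℕ} : ∀ {w : E → E}, QL ρ (k + 1) w → QL ρ k w := by
  induction k with
  | zero => exact fun h => h.1
  | succ k ih => exact fun h => ⟨h.1, fun T hT hT' => ih (h.2 T hT hT')⟩

lemma contDiffOn_lie (hD : Dom ρ) {T : E → E} (hT : Sm T) {w : E → E}
    (hw : ContDiffOn ℝ ((⊤ : ENat) : WithTop ENat) w (D ρ)) :
    ContDiffOn ℝ ((⊤ : ENat) : WithTop ENat) (lie T w) (D ρ) := by
  rw [contDiffOn_euclidean]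
  intro i
  simp only [lie_apply]
  refine ContDiffOn.sum fun j _ => ?_
  have h1 := Neu.contDiffOn_pd (Neu.isOpen_D hD) hw j
  exact ((hT.comp_apply j).contDiffOn.mul (Neu.contDiffOn_comp h1 i)).add
    ((Neu.contDiffOn_comp hw j).mul ((hT.pd i).comp_apply j).contDiffOn)

lemma QS.of_QL (hD : Dom ρ) {k : ℕ} : ∀ {w : E → E},
    ContDiffOn ℝ ((⊤ : ENat) : WithTop ENat) w (D ρ) → QL ρ k w → ∀ j,
    QS ρ k (fun x => w x j) := by
  induction k with
  | zero => exact fun _ h j => Neu.memLp_comp h j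
  | succ k ih =>
    intro w hw h j
    refine ⟨Neu.memLp_comp h.1 j, fun T hT hT' => ?_⟩
    have h1 : QL ρ k (lie T w) := h.2 T hT hT'
    obtain ⟨R, hR⟩ := hT
    have hl := contDiffOn_lie hD hR.smooth hw
    have h2 : ∀ i, QS ρ k (fun x => w x i) := fun i => ih hw (QL.mono h) i
    have h3 : ∀ i, QS ρ k (fun x => -(pd j T x i) * w x i) := fun i =>
      QS.mul hD ((hR.smooth.pd j).comp_apply i).neg (Neu.contDiffOn_comp hw i) (h2 i)
    have h3s : ∀ i, ContDiffOn ℝ ((⊤ : ENat) : WithTop ENat)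
        (fun x => -(pd j T x i) * w x i) (D ρ) := fun i =>
      ((hR.smooth.pd j).comp_apply i).neg.contDiffOn.mul (Neu.contDiffOn_comp hw i)
    refine (QS.add hD (Neu.contDiffOn_comp hl j) (((h3s 0).add (h3s 1)).add (h3s 2)) (ih hl h1 j)
      (QS.add hD ((h3s 0).add (h3s 1)) (h3s 2) (QS.add hD (h3s 0) (h3s 1) (h3 0) (h3 1))
        (h3 2))).congr hD fun x hx => ?_
    have e1 : tg T (fun y => w y j) x = ∑ i, T x i * pd i w x j := by
      unfold tg
      rw [fderiv_eq_sum]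
      refine Finset.sum_congr rfl fun i _ => ?_
      rw [pd_apply (Neu.differentiableAt_of (Neu.isOpen_D hD) hw hx) i j]
      simp
    rw [e1, lie_apply, Finset.sum_add_distrib, Fin.sum_univ_three, Fin.sum_univ_three]
    ring

/-- the normal direction -/
lemma QQ.step (hρ : Dom ρ) {G w : E → E} (hG : Sm G)
    (hw : ContDiffOn ℝ ((⊤ : ENat) : WithTop ENat) w (D ρ)) (hc : ∀ x ∈ D ρ, curl w x = 0)
    (hd : ∀ x ∈ D ρ, dv w x = dv G x) {n : ℕ} (h : ∀ j, QQ ρ n (fun x => w x j)) (j : Fin 3) :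
    QQ ρ (n + 1) (fun x => w x j) := by
  refine ⟨h j, fun i => ?_⟩
  -- a cutoff
  obtain ⟨R, hR⟩ := hρ.bdd.subset_ball 0
  set R' : ℝ := max R 1 with hR'
  have hR'0 : 0 < R' := by positivity
  let χ : ContDiffBump (0 : E) := ⟨R', R' + 1, hR'0, by linarith⟩
  have hχ : ∀ x ∈ D ρ, χ x = 1 := fun x hx =>
    χ.one_of_mem_closedBall (Metric.ball_subset_closedBall
      (Metric.ball_subset_ball (le_max_left _ _) (hR hx)))
  have hχ0 : ∀ x : E, R' + 1 ≤ ‖x‖ → χ x = 0 := fun x hx => χ.zero_of_le_dist (by simpa using hx)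
  have key : ∀ T : E → E, Sm T → Tan ρ T → ∀ m, QQ ρ n (fun x => DivCurl.tr T w m x) := by
    intro T hT hT' m
    have h1 : ∃ R, In R (fun x => χ x • T x) :=
      ⟨R' + 1, χ.contDiff.smul hT, fun x hx => by simp [hχ0 x hx]⟩
    have h2 : Tan ρ (fun x => χ x • T x) := fun x hx => by simp [hT' x hx]
    refine (QQ.tg hρ h1 h2 (h m)).congr hρ fun x hx => ?_
    unfold NormD.tg DivCurl.tr
    simp only [hχ x hx, one_smul]
    rw [fderiv_eq_sum]
    refine Finset.sum_congr rfl fun q _ => ?_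
    rw [pd_apply (Neu.differentiableAt_of (Neu.isOpen_D hρ) hw hx) q m]
    simp
  have e1 : QQ ρ n (fun x => ∑ l, ∑ m, DivCurl.c1 (gr ρ x) i j l m *
      DivCurl.tr (DivCurl.Tf ρ l) w m x) :=
    QQ.sum hρ _ fun l _ => QQ.sum hρ _ fun m _ =>
      QQ.mul hρ (DivCurl.c1_smooth hρ.smooth i j l m)
        (key (DivCurl.Tf ρ l) (DivCurl.Tf_smooth hρ.smooth l) (DivCurl.Tf_tan ρ l) m)
  have e3 : QQ ρ n (fun x => DivCurl.c3 (gr ρ x) i j * dv G x) :=
    QQ.of_smooth hρ n ((DivCurl.c3_smooth hρ.smooth i j).mul hG.dv)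
  have e4 : QQ ρ n (fun x => ρ x * DivCurl.tr (DivCurl.Sf ρ i) w j x) :=
    QQ.mul hρ hρ.smooth
      (key (DivCurl.Sf ρ i) (DivCurl.Sf_smooth hρ.smooth i) (DivCurl.Sf_tan ρ i) j)
  refine (QQ.mul hρ (DivCurl.winv_smooth hρ) ((e1.add hρ e3).add hρ e4)).congr hρ fun x hx => ?_
  rw [← pd_apply (Neu.differentiableAt_of (Neu.isOpen_D hρ) hw hx) i j,
    DivCurl.recon2 hρ w i j x, hc x hx, hd x hx]
  simp

lemma QQ.mono {n m : ℕ} (h : m ≤ n) {f : E → ℝ} (hf : QQ ρ n f) : QQ ρ m f := by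
  induction n with
  | zero =>
    obtain rfl : m = 0 := Nat.le_zero.1 h
    exact hf
  | succ n ih =>
    rcases Nat.lt_or_ge m (n + 1) with h1 | h1
    · exact ih (Nat.lt_succ_iff.1 h1) hf.1
    · obtain rfl : m = n + 1 := le_antisymm h h1
      exact hf

lemma QQ.pds (α : List (Fin 3)) : ∀ {m : ℕ} {f : E → ℝ},
    QQ ρ (α.length + m) f → QQ ρ m (pds α f) := by
  induction α with
  | nil =>
    intro m f h
    simpa [MPfab.pds] using h
  | cons i L ih =>
    intro m f h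
    have h1 : QQ ρ (m + 1) (MPfab.pds L f) := by
      apply ih
      have e : (i :: L).length + m = L.length + (m + 1) := by
        simp only [List.length_cons]
        ring
      rwa [e] at h
    exact h1.2 i

end MPfab.NormD

namespace MPfab

open NormD

theorem specNormd : SpecNormd := by
  intro ρ G w hρ' hG hw hc hd hQ α
  have hρ : Dom ρ := hρ'.toDom
  have h0 : ∀ j, QQ ρ 0 (fun x => w x j) := fun j =>
    ⟨Neu.contDiffOn_comp hw j, fun k => QS.of_QL hρ hw (hQ k) j⟩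
  have h1 : ∀ n, ∀ j, QQ ρ n (fun x => w x j) := by
    intro n
    induction n with
    | zero => exact h0
    | succ n ih => exact fun j => QQ.step hρ hG hw hc hd ih j
  have h2 : ∀ j, MemLp (fun x => pds α w x j) 2 (volume.restrict (D ρ)) := fun j =>
    memLp_congr hρ (Neu.pds_comp (Neu.isOpen_D hρ) hw j α)
      ((QQ.pds (m := 0) α (h1 _ j)).2 0).memLp
  have h3 : pds α w = fun x => ∑ j, (fun x => pds α w x j) x • eb j := by
    funext x
    ext i
    simp [eb_apply]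
  rw [h3]
  refine memLp_finsetSum _ fun j _ => ?_
  refine MemLp.of_le_mul (c := ‖eb j‖) (h2 j)
    ((h2 j).1.smul aestronglyMeasurable_const) (Eventually.of_forall fun x => ?_)
  rw [norm_smul, mul_comm]

end MPfab
end
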