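import Pool.Agent.Lib.MP_fabde4_an.F.EllD

/-!
MP_fabde4_an, toolbox B, module POT (helper4): smooth potentials.
-/

set_option autoImplicit false
open MeasureTheory Set Filter Topology

namespace MPfab

namespace Pot1

open Neu Ler Intr

lemma span_grad {ρ : E → ℝ} {h : L2 ρ} (hh : h ∈ Submodule.span ℝ (gradSet ρ)) :
    ∃ φ : E → ℝ, Sm φ ∧ (h : E → E) =ᵐ[volume.restrict (D ρ)] gr φ := by
  induction hh using Submodule.span_induction with
  | mem x hx => exact hx
  | zero =>
    refine ⟨fun _ => 0, contDiff_const, ?_⟩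
    filter_upwards [Lp.coeFn_zero E 2 (volume.restrict (D ρ))] with x hx
    rw [hx]
    ext i
    simp [pd]
  | add x y _ _ hx hy =>
    obtain ⟨φ, hφ, h1⟩ := hx
    obtain ⟨ψ, hψ, h2⟩ := hy
    refine ⟨fun z => φ z + ψ z, hφ.add hψ, ?_⟩
    filter_upwards [Lp.coeFn_add x y, h1, h2] with z hz1 hz2 hz3
    rw [hz1, Pi.add_apply, hz2, hz3, gr_add hφ hψ]
  | smul c x _ hx =>
    obtain ⟨φ, hφ, h1⟩ := hx
    refine ⟨fun z => c * φ z, contDiff_const.mul hφ, ?_⟩
    filter_upwards [Lp.coeFn_smul c x, h1] with z hz1 hz2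
    rw [hz1, Pi.smul_apply, hz2, gr_smul hφ]

/-- the mean of a function is its best constant approximation -/
lemma mean_le {ρ : E → ℝ} (h : Dom ρ) {φ : E → ℝ} (hφ : Continuous φ)
    (h0 : ∫ x in D ρ, φ x = 0) (c : ℝ) :
    ∫ x in D ρ, φ x ^ 2 ≤ ∫ x in D ρ, (φ x - c) ^ 2 := by
  have i1 : IntegrableOn (fun x => φ x ^ 2) (D ρ) := integrableOn_D h (hφ.pow 2)
  have i2 : IntegrableOn (fun x => (-2 * c) * φ x) (D ρ) :=
    integrableOn_D h (continuous_const.mul hφ)
  have i3 : IntegrableOn (fun _ : E => c ^ 2) (D ρ) := integrableOn_D h continuous_const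
  have e1 : ∫ x in D ρ, (φ x - c) ^ 2 =
      ∫ x in D ρ, (φ x ^ 2 + ((-2 * c) * φ x + c ^ 2)) := by
    refine integral_congr_ae (Eventually.of_forall fun x => ?_)
    ring
  have i4 : IntegrableOn (fun x => (-2 * c) * φ x + c ^ 2) (D ρ) := i2.add i3
  rw [e1, integral_add i1 i4, integral_add i2 i3, integral_const_mul, h0]
  have h6 : 0 ≤ ∫ _ in D ρ, c ^ 2 := integral_nonneg fun _ => by positivity
  linarith

lemma exists_mean {ρ : E → ℝ} (h : Dom ρ) (hc : IsConnected (D ρ)) {φ : E → ℝ} (hφ : Sm φ) :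
    ∃ c, ∫ x in D ρ, (φ x - c) = 0 := by
  have hv : 0 < (volume (D ρ)).toReal :=
    ENNReal.toReal_pos ((isOpen_D h).measure_pos volume hc.nonempty).ne' (volume_D_lt h).ne
  refine ⟨(∫ x in D ρ, φ x) / (volume (D ρ)).toReal, ?_⟩
  rw [integral_sub (integrableOn_D h hφ.continuous) (integrableOn_D h continuous_const)]
  rw [setIntegral_const, smul_eq_mul]
  unfold Measure.real
  field_simp
  ring

lemma norm_sq_L2 {ρ : E → ℝ} (w : L2 ρ) : ‖w‖ ^ 2 = ∫ x in D ρ, ‖(w : E → E) x‖ ^ 2 := by
  rw [← real_inner_self_eq_norm_sq, L2.inner_def]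
  refine integral_congr_ae (Eventually.of_forall fun x => ?_)
  exact real_inner_self_eq_norm_sq _

lemma norm_sq_R {ρ : E → ℝ} (w : Lp ℝ 2 (volume.restrict (D ρ))) :
    ‖w‖ ^ 2 = ∫ x in D ρ, ((w : E → ℝ) x) ^ 2 := by
  rw [← real_inner_self_eq_norm_sq, L2.inner_def]
  refine integral_congr_ae (Eventually.of_forall fun x => ?_)
  change inner ℝ ((w : E → ℝ) x) ((w : E → ℝ) x) = ((w : E → ℝ) x) ^ 2
  rw [real_inner_self_eq_norm_sq, Real.norm_eq_abs, sq_abs]

end Pot1

open Neu Ler Intr Pot1

theorem specPot (hPoin : SpecPoin) (hW : SpecWeyl) (hS : SpecSobd) (hE : SpecExtb)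
    (hG : SpecGauss) : SpecPot := by
  intro ρ g g0 hρ hc hg hg0 hmem
  have h : Dom ρ := hρ.toDom
  have hD := isOpen_D h
  have hDm := measurableSet_D h
  have hfin := finite_D h
  -- approximating sequence
  have h1 : (g0 : L2 ρ) ∈ closure (Submodule.span ℝ (gradSet ρ) : Set (L2 ρ)) := hmem
  obtain ⟨hn, hn1, hn2⟩ := mem_closure_iff_seq_limit.mp h1
  choose φ hφ hφe using fun n => span_grad (hn1 n)
  choose c hc0 using fun n => exists_mean h hc (hφ n)
  set ψ : ℕ → E → ℝ := fun n x => φ n x - c n with hψdef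
  have hψ : ∀ n, Sm (ψ n) := fun n => (hφ n).sub contDiff_const
  have hpdψ : ∀ n i x, pd i (ψ n) x = pd i (φ n) x := by
    intro n i x
    simp only [pd, hψdef, fderiv_sub_const]
  -- classes
  set f : ℕ → Lp ℝ 2 (volume.restrict (D ρ)) := fun n =>
    (memLp h (hψ n).continuous).toLp (ψ n) with hfdef
  have hfe : ∀ n, (f n : E → ℝ) =ᵐ[volume.restrict (D ρ)] ψ n := fun n => MemLp.coeFn_toLp _
  obtain ⟨C, hC⟩ := hPoin ρ h hc
  have hdist : ∀ n m, ‖f n - f m‖ ^ 2 ≤ |C| * ‖hn n - hn m‖ ^ 2 := by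
    intro n m
    rw [norm_sq_R, norm_sq_L2]
    have e1 : ∫ x in D ρ, (((f n - f m : Lp ℝ 2 (volume.restrict (D ρ))) : E → ℝ) x) ^ 2 =
        ∫ x in D ρ, (ψ n x - ψ m x) ^ 2 := by
      refine integral_congr_ae ?_
      filter_upwards [Lp.coeFn_sub (f n) (f m), hfe n, hfe m] with x h1 h2 h3
      rw [h1, Pi.sub_apply, h2, h3]
    have e2 : ∫ x in D ρ, ‖((hn n - hn m : L2 ρ) : E → E) x‖ ^ 2 =
        ∫ x in D ρ, ‖gr (fun y => ψ n y - ψ m y) x‖ ^ 2 := by
      refine integral_congr_ae ?_
      filter_upwards [Lp.coeFn_sub (hn n) (hn m), hφe n, hφe m] with x h1 h2 h3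
      have h4 : gr (fun y => ψ n y - ψ m y) x = gr (φ n) x - gr (φ m) x := by
        rw [gr_sub (hψ n) (hψ m)]
        ext i
        simp [hpdψ]
      rw [h1, Pi.sub_apply, h2, h3, h4]
    rw [e1, e2]
    obtain ⟨c', hc'⟩ := hC (fun y => ψ n y - ψ m y) ((hψ n).sub (hψ m))
    have h5 : ∫ x in D ρ, (ψ n x - ψ m x) = 0 := by
      rw [integral_sub (integrableOn_D h (hψ n).continuous) (integrableOn_D h (hψ m).continuous)]
      have h6 := hc0 n
      have h7 := hc0 m
      simp only [hψdef]
      rw [h6, h7, sub_zero]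
    have h6 := mean_le h ((hψ n).sub (hψ m)).continuous h5 c'
    have h7 : C * ∫ x in D ρ, ‖gr (fun y => ψ n y - ψ m y) x‖ ^ 2 ≤
        |C| * ∫ x in D ρ, ‖gr (fun y => ψ n y - ψ m y) x‖ ^ 2 :=
      mul_le_mul_of_nonneg_right (le_abs_self _) (integral_nonneg fun x => by positivity)
    linarith
  have hcau : CauchySeq f := by
    have h2 : CauchySeq hn := hn2.cauchySeq
    rw [Metric.cauchySeq_iff] at h2 ⊢
    intro ε hε
    have hC1 : 0 < √(|C| + 1) := Real.sqrt_pos.mpr (by positivity)
    obtain ⟨N, hN⟩ := h2 (ε / √(|C| + 1)) (by positivity)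
    refine ⟨N, fun m hm n hn' => ?_⟩
    have h3 := hN m hm n hn'
    rw [dist_eq_norm] at h3 ⊢
    have h4 := hdist m n
    have h5 : ‖hn m - hn n‖ * √(|C| + 1) < ε := (lt_div_iff₀ hC1).mp h3
    have h6 : ‖f m - f n‖ ^ 2 ≤ (‖hn m - hn n‖ * √(|C| + 1)) ^ 2 := by
      rw [mul_pow, Real.sq_sqrt (by positivity)]
      nlinarith [sq_nonneg ‖hn m - hn n‖]
    have h7 : ‖f m - f n‖ ≤ ‖hn m - hn n‖ * √(|C| + 1) :=
      abs_le_of_sq_le_sq' h6 (by positivity) |>.2
    linarith
  obtain ⟨F, hF⟩ := cauchySeq_tendsto_of_complete hcau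
  -- limits of integrals
  have hlimF : ∀ η : E → ℝ, Test (D ρ) η →
      Tendsto (fun n => ∫ x in D ρ, ψ n x * η x) atTop (𝓝 (∫ x in D ρ, (F : E → ℝ) x * η x)) := by
    intro η hη
    set V : Lp ℝ 2 (volume.restrict (D ρ)) := (memLp h hη.smooth.continuous).toLp η with hV
    have hVe : (V : E → ℝ) =ᵐ[volume.restrict (D ρ)] η := MemLp.coeFn_toLp _
    have key : ∀ w : Lp ℝ 2 (volume.restrict (D ρ)),
        inner ℝ V w = ∫ x in D ρ, (w : E → ℝ) x * η x := by
      intro w
      rw [L2.inner_def]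
      refine integral_congr_ae ?_
      filter_upwards [hVe] with x hx
      rw [hx]
      simp
    have h2 : Tendsto (fun n => inner ℝ V (f n)) atTop (𝓝 (inner ℝ V F)) :=
      (Continuous.tendsto (continuous_const.inner continuous_id) F).comp hF
    rw [key] at h2
    refine h2.congr fun n => ?_
    rw [key]
    refine integral_congr_ae ?_
    filter_upwards [hfe n] with x hx
    rw [hx]
  have hlimg : ∀ (i : Fin 3) (η : E → ℝ), Test (D ρ) η →
      Tendsto (fun n => ∫ x in D ρ, pd i (ψ n) x * η x) atTop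
        (𝓝 (∫ x in D ρ, g x i * η x)) := by
    intro i η hη
    have hs : Sm fun x => η x • eb i := hη.smooth.smul contDiff_const
    obtain ⟨V, hV⟩ := exists_class h hs
    have key : ∀ w : L2 ρ, inner ℝ w V = ∫ x in D ρ, (w : E → E) x i * η x := by
      intro w
      rw [L2.inner_def]
      refine integral_congr_ae ?_
      filter_upwards [hV] with x hx
      rw [hx, inner_eq]
      simp [eb_apply]
    have h2 : Tendsto (fun n => inner ℝ (hn n) V) atTop (𝓝 (inner ℝ g0 V)) :=
      (Continuous.tendsto (continuous_id.inner continuous_const) g0).comp hn2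
    rw [key] at h2
    have e1 : ∫ x in D ρ, (g0 : E → E) x i * η x = ∫ x in D ρ, g x i * η x := by
      refine integral_congr_ae ?_
      filter_upwards [hg0] with x hx
      rw [hx]
    rw [e1] at h2
    refine h2.congr fun n => ?_
    rw [key]
    refine integral_congr_ae ?_
    filter_upwards [hφe n] with x hx
    rw [hx, hpdψ]
    rfl
  -- weak derivatives of F
  have hwd : ∀ (i : Fin 3) (η : E → ℝ), Test (D ρ) η →
      ∫ x in D ρ, (F : E → ℝ) x * pd i η x = -∫ x in D ρ, g x i * η x := by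
    intro i η hη
    have h2 := hlimF (pd i η) (test_pd hη i)
    have h3 := (hlimg i η hη).neg
    refine tendsto_nhds_unique h2 (h3.congr fun n => ?_)
    rw [ibp hG h (hψ n).contDiffOn hη i]
  have hFint : Integrable (F : E → ℝ) (volume.restrict (D ρ)) :=
    (Lp.memLp F).integrable (by norm_num)
  have hgcint : ∀ i, Integrable (fun x => g x i) (volume.restrict (D ρ)) := fun i =>
    integrableOn_D h (hg.comp_apply i).continuous
  -- weak Laplacian
  have hlap : ∀ η : E → ℝ, Test (D ρ) η →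
      ∫ x in D ρ, (F : E → ℝ) x * lap η x = ∫ x in D ρ, dv g x * η x := by
    intro η hη
    have h2 : ∫ x in D ρ, (F : E → ℝ) x * lap η x =
        ∑ a, ∫ x in D ρ, (F : E → ℝ) x * pd a (pd a η) x := by
      rw [← integral_finsetSum]
      · refine integral_congr_ae (Eventually.of_forall fun x => ?_)
        simp only [lap]
        rw [Finset.mul_sum]
      · intro a _
        exact integrable_mul_test hFint (test_pd (test_pd hη a) a)
    have h3 : ∀ a, ∫ x in D ρ, (F : E → ℝ) x * pd a (pd a η) x =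
        ∫ x in D ρ, pd a (fun y => g y a) x * η x := by
      intro a
      rw [hwd a (pd a η) (test_pd hη a), ibp hG h (hg.comp_apply a).contDiffOn hη a, neg_neg]
    rw [h2]
    simp only [h3]
    rw [← integral_finsetSum]
    · refine integral_congr_ae (Eventually.of_forall fun x => ?_)
      simp only [dv]
      rw [Finset.sum_mul]
      refine Finset.sum_congr rfl fun i _ => ?_
      rw [pd_apply hg.differentiable.differentiableAt]
    · intro a _
      exact integrable_mul_test (integrableOn_D h ((hg.comp_apply a).pd a).continuous) hη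
  obtain ⟨l, hl, _, hl2⟩ := hW (D ρ) Unit (fun _ => (F : E → ℝ)) (fun _ => [])
    (dv g) hD (fun _ => IntegrableOn.locallyIntegrableOn hFint) hg.dv.contDiffOn (fun η hη => by
      simp only [Finset.univ_unique, Finset.sum_const, Finset.card_singleton, one_smul, pds]
      exact hlap η hη)
  have hl3 : ∀ η : E → ℝ, Test (D ρ) η →
      ∫ x in D ρ, (F : E → ℝ) x * η x = ∫ x in D ρ, l x * η x := by
    intro η hη
    have h2 := hl2 η hη
    simp only [Finset.univ_unique, Finset.sum_const, Finset.card_singleton, one_smul, pds] at h2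
    exact h2
  have hlint : ∀ (ψ : E → ℝ), Test (D ρ) ψ →
      Integrable (fun x => l x * ψ x) (volume.restrict (D ρ)) := by
    intro ψ hψ
    have h4 := integrableOn_D h (test_mul hD hl hψ).smooth.continuous
    refine h4.congr (Eventually.of_forall fun x => ?_)
    change ψ x * l x = l x * ψ x
    ring
  have hFl : (F : E → ℝ) =ᵐ[volume.restrict (D ρ)] l := by
    have h1 : (fun x => (F : E → ℝ) x - l x) =ᵐ[volume.restrict (D ρ)] fun _ => 0 := by
      have hloc : LocallyIntegrableOn l (D ρ) := hl.continuousOn.locallyIntegrableOn hDm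
      refine ae_zero h ((IntegrableOn.locallyIntegrableOn hFint).sub hloc) fun ψ hψ => ?_
      have h5 : ∫ x in D ρ, ((F : E → ℝ) x - l x) * ψ x =
          (∫ x in D ρ, (F : E → ℝ) x * ψ x) - ∫ x in D ρ, l x * ψ x := by
        rw [← integral_sub (integrable_mul_test hFint hψ) (hlint ψ hψ)]
        refine integral_congr_ae (Eventually.of_forall fun x => ?_)
        ring
      rw [h5, hl3 ψ hψ, sub_self]
    filter_upwards [h1] with x hx
    linarith
  -- the gradient of l
  have hgrl : ∀ i, ∀ x ∈ D ρ, pd i l x = g x i := by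
    intro i
    have h1 : ∀ x ∈ D ρ, pd i l x - g x i = 0 := by
      refine cont_zero h ((contDiffOn_pd hD hl i).continuousOn.sub
        (hg.comp_apply i).continuous.continuousOn) fun ψ hψ => ?_
      have h2 := hwd i ψ hψ
      rw [hl3 _ (test_pd hψ i), ibp hG h hl hψ i] at h2
      have i1 : Integrable (fun x => pd i l x * ψ x) (volume.restrict (D ρ)) := by
        have h4 := integrableOn_D h
          (test_mul hD (contDiffOn_pd hD hl i) hψ).smooth.continuous
        refine h4.congr (Eventually.of_forall fun x => ?_)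
        change ψ x * pd i l x = pd i l x * ψ x
        ring
      have h3 : ∫ x in D ρ, (pd i l x - g x i) * ψ x =
          (∫ x in D ρ, pd i l x * ψ x) - ∫ x in D ρ, g x i * ψ x := by
        rw [← integral_sub i1 (integrable_mul_test (hgcint i) hψ)]
        refine integral_congr_ae (Eventually.of_forall fun x => ?_)
        ring
      rw [h3]
      linarith
    intro x hx
    have := h1 x hx
    linarith
  -- derivatives of order at least one
  have hder : ∀ (β : List (Fin 3)) (i : Fin 3), ∀ x ∈ D ρ,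
      pds (β ++ [i]) l x = pds β (fun y => g y i) x := by
    intro β i x hx
    rw [pds_append]
    exact pds_congr hD (fun y hy => hgrl i y hy) β x hx
  have hsmg : ∀ (β : List (Fin 3)) (i : Fin 3), Sm (pds β fun y => g y i) := by
    intro β i
    induction β with
    | nil => exact hg.comp_apply i
    | cons j β ih => exact ih.pd j
  have hmemα : ∀ α : List (Fin 3), MemLp (pds α l) 2 (volume.restrict (D ρ)) := by
    intro α
    rcases List.eq_nil_or_concat α with rfl | ⟨β, i, rfl⟩
    · exact (memLp_congr_ae hFl).mp (Lp.memLp F)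
    · refine (memLp_congr_ae ?_).mp (memLp h (hsmg β i).continuous)
      rw [EventuallyEq, ae_restrict_iff' hDm]
      refine Eventually.of_forall fun x hx => ?_
      rw [List.concat_eq_append]
      exact (hder β i x hx).symm
  obtain ⟨q, hq, hqe⟩ := hE ρ l hρ hl (fun α => by
    rcases List.eq_nil_or_concat α with rfl | ⟨β, i, rfl⟩
    · obtain ⟨C, hC⟩ := hS ρ h
      refine ⟨√(C * hs (D ρ) 3 l), fun x hx => ?_⟩
      exact Real.abs_le_sqrt (hC l hl (fun α _ => hmemα α) x hx)
    · obtain ⟨C, hC⟩ := bdd_of_cont (hsmg β i).continuous h.bdd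
      refine ⟨C, fun x hx => ?_⟩
      rw [List.concat_eq_append, hder β i x hx]
      exact hC x hx)
  refine ⟨q, hq, eq_closure h hq.gr.continuous hg.continuous fun x hx => ?_⟩
  ext i
  rw [gr_apply, pd_congr hD hqe i hx, hgrl i x hx]

end MPfab
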