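import Pool.Agent.Lib.MP_fabde4_an.F.EllD
import Pool.Agent.Lib.MP_fabde4_an.M.Lop
import Pool.Agent.Lib.MP_fabde4_an.N.Tint
import Pool.Agent.Lib.MP_fabde4_an.B.Cr

section
/-!
MP_fabde4_an, module UC: unique continuation for harmonic functions.
-/
set_option autoImplicit false
open MeasureTheory Set Filter Topology Metric

namespace MPfab.UcM

open Mvp PDC

lemma lap_dd {u : E → ℝ} (hu : Sm u) (h : E) (x : E) : lap (dd h u) x = dd h (lap u) x := by
  have e1 : ∀ i, pd i (pd i (dd h u)) = dd h (pd i (pd i u)) := by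
    intro i
    have e2 : pd i (dd h u) = dd h (pd i u) := funext fun y => dd_comm hu (eb i) h y
    rw [e2]
    exact funext fun y => dd_comm (hu.pd i) (eb i) h y
  simp only [lap, e1]
  unfold dd
  rw [show lap u = fun y => ∑ i, pd i (pd i u) y from rfl,
    fderiv_fun_sum fun i _ => ((hu.pd i).pd i).differentiable x]
  simp

lemma lap_dd_zero {u : E → ℝ} (hu : Sm u) {U : Set E} (hU : IsOpen U)
    (h0 : ∀ x ∈ U, lap u x = 0) (h : E) : ∀ x ∈ U, lap (dd h u) x = 0 := by
  intro x hx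
  rw [lap_dd hu]
  have e : lap u =ᶠ[𝓝 x] fun _ => 0 := by
    filter_upwards [hU.mem_nhds hx] with y hy using h0 y hy
  unfold dd
  rw [e.fderiv_eq]
  simp

/-- the constant of the gradient estimate -/
noncomputable def C₀ : ℝ := ∫ y, ‖fderiv ℝ η y‖

lemma C₀_nonneg : 0 ≤ C₀ := integral_nonneg fun _ => norm_nonneg _

lemma fderiv_η_zero {y : E} (hy : 1 < ‖y‖) : fderiv ℝ η y = 0 := by
  have e : η =ᶠ[𝓝 y] fun _ => 0 := by
    filter_upwards [(isOpen_lt continuous_const continuous_norm).mem_nhds hy] with z hz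
    exact η_zero (le_of_lt hz)
  rw [e.fderiv_eq]
  simp

/-- values of harmonic functions -/
lemma mean {v : E → ℝ} (hv : Sm v) {x : E} {r : ℝ} (hr : 0 < r)
    (h0 : ∀ z ∈ ball x r, lap v z = 0) : v x = ∫ y, v (x + r • y) * η y := by
  have h2 : ContDiff ℝ 2 v :=
    hv.of_le (show ((2 : ℕ∞) : WithTop ℕ∞) ≤ _ from WithTop.coe_le_coe.2 le_top)
  rw [mv_glob h2 x hr]
  have e : ∫ t in (0 : ℝ)..r, t * ∫ y, lap v (x + t • y) * ζ y = 0 := by
    have e5 : ∫ t in (0 : ℝ)..r, t * ∫ y, lap v (x + t • y) * ζ y = ∫ t in (0 : ℝ)..r, (0 : ℝ) := by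
     refine intervalIntegral.integral_congr fun t ht => ?_
     rw [uIcc_of_le hr.le] at ht
     have e3 : ∀ y, lap v (x + t • y) * ζ y = 0 := by
      intro y
      rcases lt_or_ge ‖y‖ 1 with hy | hy
      · rw [h0, zero_mul]
        rw [mem_ball, dist_eq_norm, add_sub_cancel_left, norm_smul, Real.norm_of_nonneg ht.1]
        rcases eq_or_lt_of_le ht.1 with h4 | h4
        · rw [← h4, zero_mul]; exact hr
        · nlinarith [norm_nonneg y, ht.2]
      · rw [ζ_zero hy, mul_zero]
     simp [e3]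
    rw [e5, intervalIntegral.integral_zero]
  rw [e, add_zero]

/-- the gradient estimate -/
lemma grad_est {u : E → ℝ} (hu : Sm u) {x : E} {r M : ℝ} (hr : 0 < r)
    (h0 : ∀ z ∈ ball x r, lap u z = 0) (hM : ∀ z ∈ closedBall x r, |u z| ≤ M) (h : E) :
    |dd h u x| ≤ C₀ * ‖h‖ / r * M := by
  have hM0 : 0 ≤ M := (abs_nonneg _).trans (hM x (mem_closedBall_self hr.le))
  have hdu : Sm (dd h u) := dd_smooth hu h
  have e1 := mean hdu hr (lap_dd_zero hu isOpen_ball h0 h)
  have hline : Continuous fun y : E => x + r • y := by fun_prop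
  have hsc : ∀ y, fderiv ℝ (fun y => u (x + r • y)) y h = r * dd h u (x + r • y) := by
    intro y
    have h1 : HasFDerivAt (fun y : E => x + r • y) (r • ContinuousLinearMap.id ℝ E) y :=
      ((hasFDerivAt_id y).const_smul r).const_add x
    have h2 := (hu.differentiable (x + r • y)).hasFDerivAt.comp y h1
    rw [show (fun y => u (x + r • y)) = u ∘ fun y => x + r • y from rfl, h2.fderiv]
    simp [dd]
  have hcη : Continuous η := sm_η.continuous
  have hcd : Continuous fun y => fderiv ℝ η y h := (dd_smooth sm_η h).continuous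
  have hcsd : HasCompactSupport fun y => fderiv ℝ η y h :=
    (cs_η.fderiv (𝕜 := ℝ)).comp_left (g := fun L : E →L[ℝ] ℝ => L h) (by simp)
  have hcu : Continuous fun y => u (x + r • y) := hu.continuous.comp hline
  have hcdu : Continuous fun y => dd h u (x + r • y) := hdu.continuous.comp hline
  have e2 : ∀ y, fderiv ℝ (fun y => u (x + r • y)) y h * η y =
      r * (dd h u (x + r • y) * η y) := by
    intro y; rw [hsc]; ring
  have i1 : Integrable fun y => dd h u (x + r • y) * η y :=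
    (hcdu.mul hcη).integrable_of_hasCompactSupport cs_η.mul_left
  have i2 : Integrable fun y => u (x + r • y) * fderiv ℝ η y h :=
    (hcu.mul hcd).integrable_of_hasCompactSupport hcsd.mul_left
  have e3 := integral_mul_fderiv_eq_neg_fderiv_mul_of_integrable (μ := (volume : Measure E))
    (f := fun y => u (x + r • y)) (g := η) (v := h)
    (by simp only [e2]; exact i1.const_mul r) i2
    ((hcu.mul hcη).integrable_of_hasCompactSupport cs_η.mul_left)
    (fun y _ => (hu.differentiable.comp (by fun_prop)) y) (fun y _ => sm_η.differentiable y)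
  simp only [e2, integral_const_mul] at e3
  rw [← e1] at e3
  have e4 : dd h u x = -(r⁻¹ * ∫ y, u (x + r • y) * fderiv ℝ η y h) := by
    rw [e3]; field_simp
  rw [e4, abs_neg, abs_mul, abs_inv, abs_of_pos hr]
  have hin : Integrable fun y => ‖fderiv ℝ η y‖ := by
    refine Continuous.integrable_of_hasCompactSupport ?_ (cs_η.fderiv (𝕜 := ℝ)).norm
    exact (sm_η.continuous_fderiv (by simp)).norm
  have e5 : |∫ y, u (x + r • y) * fderiv ℝ η y h| ≤ ∫ y, M * (‖fderiv ℝ η y‖ * ‖h‖) := by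
    rw [← Real.norm_eq_abs]
    refine norm_integral_le_of_norm_le ((hin.mul_const _).const_mul _)
      (Eventually.of_forall fun y => ?_)
    rcases le_or_gt ‖y‖ 1 with hy | hy
    · rw [norm_mul]
      refine mul_le_mul ?_ (ContinuousLinearMap.le_opNorm _ _) (norm_nonneg _) hM0
      refine hM _ ?_
      rw [mem_closedBall, dist_eq_norm, add_sub_cancel_left, norm_smul, Real.norm_of_nonneg hr.le]
      nlinarith [norm_nonneg y]
    · rw [fderiv_η_zero hy]
      simp
  rw [integral_const_mul, integral_mul_const] at e5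
  calc r⁻¹ * |∫ y, u (x + r • y) * fderiv ℝ η y h| ≤ r⁻¹ * (M * (C₀ * ‖h‖)) :=
        mul_le_mul_of_nonneg_left e5 (inv_nonneg.2 hr.le)
    _ = C₀ * ‖h‖ / r * M := by field_simp

/-- iterated directional derivatives -/
noncomputable def it (h : E) (u : E → ℝ) : ℕ → E → ℝ
  | 0 => u
  | k + 1 => dd h (it h u k)

lemma it_sm {u : E → ℝ} (hu : Sm u) (h : E) (k : ℕ) : Sm (it h u k) := by
  induction k with
  | zero => exact hu
  | succ k ih => exact dd_smooth ih h

lemma it_lap {u : E → ℝ} (hu : Sm u) {U : Set E} (hU : IsOpen U)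
    (h0 : ∀ x ∈ U, lap u x = 0) (h : E) (k : ℕ) : ∀ x ∈ U, lap (it h u k) x = 0 := by
  induction k with
  | zero => exact h0
  | succ k ih => exact lap_dd_zero (it_sm hu h k) hU ih h

lemma it_est {u : E → ℝ} (hu : Sm u) {x₀ : E} {R M : ℝ} (hR : 0 < R)
    (h0 : ∀ z ∈ ball x₀ (2 * R), lap u z = 0) (hM : ∀ z ∈ closedBall x₀ (2 * R), |u z| ≤ M)
    (h : E) {n : ℕ} (hn : 0 < n) (k : ℕ) (hk : k ≤ n) :
    ∀ x ∈ closedBall x₀ (2 * R - k * (R / n)), |it h u k x| ≤ (C₀ * ‖h‖ / (R / n)) ^ k * M := by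
  have hn' : (0 : ℝ) < n := by exact_mod_cast hn
  have hq : 0 < R / n := by positivity
  induction k with
  | zero => intro x hx; simpa [it] using hM x (by simpa using hx)
  | succ k ih =>
    intro x hx
    have ih' := ih (by omega)
    have hkn : (k + 1 : ℝ) ≤ n := by exact_mod_cast hk
    have hkR : (k + 1 : ℝ) * (R / n) ≤ R := by
      have := mul_le_mul_of_nonneg_right hkn hq.le
      rwa [mul_div_cancel₀ _ hn'.ne'] at this
    rw [mem_closedBall] at hx
    push_cast at hx
    have hsub : closedBall x (R / n) ⊆ closedBall x₀ (2 * R - k * (R / n)) := by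
      refine closedBall_subset_closedBall' ?_
      linarith
    have hsub' : ball x (R / n) ⊆ ball x₀ (2 * R) := by
      refine ball_subset_ball' ?_
      have : 0 ≤ (k : ℝ) * (R / n) := by positivity
      linarith
    have h1 := grad_est (it_sm hu h k) hq
      (fun z hz => it_lap hu isOpen_ball h0 h k z (hsub' hz)) (fun z hz => ih' z (hsub hz)) h
    calc |it h u (k + 1) x| ≤ C₀ * ‖h‖ / (R / n) * ((C₀ * ‖h‖ / (R / n)) ^ k * M) := h1
      _ = (C₀ * ‖h‖ / (R / n)) ^ (k + 1) * M := by ring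

/-- one-dimensional Taylor estimate -/
lemma taylor {g : ℕ → ℝ → ℝ} {n : ℕ} {S : ℝ} (hS : 0 ≤ S)
    (hd : ∀ k s, HasDerivAt (g k) (g (k + 1) s) s) (h0 : ∀ k, g k 0 = 0)
    (hb : ∀ s ∈ Icc (0 : ℝ) 1, |g n s| ≤ S) (j : ℕ) (hj : j ≤ n) :
    ∀ s ∈ Icc (0 : ℝ) 1, |g (n - j) s| ≤ S * s ^ j / j.factorial := by
  induction j with
  | zero => intro s hs; simpa using hb s hs
  | succ j ih =>
    have ih' := ih (by omega)
    have e : n - (j + 1) + 1 = n - j := by omega
    have hfac : ((j + 1).factorial : ℝ) = (j + 1) * j.factorial := by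
      rw [Nat.factorial_succ]; push_cast; ring
    have hf0 : (j.factorial : ℝ) ≠ 0 := by exact_mod_cast j.factorial_ne_zero
    have h1 := image_norm_le_of_norm_deriv_right_le_deriv_boundary (a := (0 : ℝ)) (b := 1)
      (f := g (n - (j + 1))) (f' := g (n - j)) (B := fun s => S * s ^ (j + 1) / (j + 1).factorial)
      (B' := fun s => S * s ^ j / j.factorial)
      (fun s _ => (hd _ s).continuousAt.continuousWithinAt)
      (fun s _ => by have := hd (n - (j + 1)) s; rw [e] at this; exact this.hasDerivWithinAt)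
      (by rw [h0]; simp)
      (fun s => by
        refine (((hasDerivAt_pow (j + 1) s).const_mul S).div_const
          ((j + 1).factorial : ℝ)).congr_deriv ?_
        rw [hfac, Nat.add_sub_cancel]
        push_cast
        field_simp)
      (fun s hs => ih' s ⟨hs.1, hs.2.le⟩)
    intro s hs
    exact h1 hs

/-- a harmonic function all of whose derivatives vanish at a point vanishes nearby -/
lemma flat_zero {u : E → ℝ} (hu : Sm u) {x₀ : E} {R M : ℝ} (hR : 0 < R)
    (h0 : ∀ z ∈ ball x₀ (2 * R), lap u z = 0) (hM : ∀ z ∈ closedBall x₀ (2 * R), |u z| ≤ M)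
    {h : E} (hh : ‖h‖ ≤ R) (hsmall : C₀ * Real.exp 1 * ‖h‖ < R)
    (hflat : ∀ k, it h u k x₀ = 0) : u (x₀ + h) = 0 := by
  have hM0 : 0 ≤ M := (abs_nonneg _).trans (hM x₀ (mem_closedBall_self (by linarith)))
  have key : ∀ n : ℕ, 0 < n → |u (x₀ + h)| ≤ (C₀ * Real.exp 1 * ‖h‖ / R) ^ n * M := by
    intro n hn
    have hn' : (0 : ℝ) < n := by exact_mod_cast hn
    have hC := C₀_nonneg
    have h1 := it_est hu hR h0 hM h hn n le_rfl
    rw [show 2 * R - (n : ℝ) * (R / n) = R by field_simp; ring] at h1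
    have h2 := taylor (g := fun k s => it h u k (x₀ + s • h)) (n := n)
      (S := (C₀ * ‖h‖ / (R / n)) ^ n * M) (by positivity) ?_ ?_ ?_ n le_rfl 1 (by simp)
    · simp only [Nat.sub_self, it, one_smul, one_pow, mul_one] at h2
      refine h2.trans ?_
      have h3 := Real.pow_div_factorial_le_exp (n : ℝ) hn'.le n
      have e1 : (C₀ * ‖h‖ / (R / n)) ^ n * M / n.factorial =
          (C₀ * ‖h‖ / R) ^ n * M * ((n : ℝ) ^ n / n.factorial) := by
        rw [show C₀ * ‖h‖ / (R / n) = C₀ * ‖h‖ / R * n by field_simp, mul_pow]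
        ring
      have e2 : (C₀ * Real.exp 1 * ‖h‖ / R) ^ n * M =
          (C₀ * ‖h‖ / R) ^ n * M * Real.exp n := by
        rw [show C₀ * Real.exp 1 * ‖h‖ / R = C₀ * ‖h‖ / R * Real.exp 1 by ring, mul_pow,
          ← Real.exp_nat_mul, mul_one]
        ring
      rw [e1, e2]
      exact mul_le_mul_of_nonneg_left h3 (by positivity)
    · intro k s
      have h3 : HasDerivAt (fun s : ℝ => x₀ + s • h) h s := by
        simpa using ((hasDerivAt_id s).smul_const h).const_add x₀
      exact ((it_sm hu h k).differentiable (x₀ + s • h)).hasFDerivAt.comp_hasDerivAt s h3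
    · intro k
      simpa using hflat k
    · intro s hs
      refine h1 _ ?_
      rw [mem_closedBall, dist_eq_norm, add_sub_cancel_left, norm_smul,
        Real.norm_of_nonneg hs.1]
      nlinarith [norm_nonneg h, hs.2]
  have hq0 : 0 ≤ C₀ * Real.exp 1 * ‖h‖ / R := by
    have := C₀_nonneg
    positivity
  have hq1 : C₀ * Real.exp 1 * ‖h‖ / R < 1 := by rwa [div_lt_one hR]
  have hlim : Tendsto (fun n : ℕ => (C₀ * Real.exp 1 * ‖h‖ / R) ^ n * M) atTop (𝓝 (0 * M)) :=
    (tendsto_pow_atTop_nhds_zero_of_lt_one hq0 hq1).mul_const M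
  rw [zero_mul] at hlim
  have h4 : |u (x₀ + h)| ≤ 0 :=
    ge_of_tendsto hlim ((eventually_gt_atTop 0).mono key)
  exact abs_nonpos_iff.1 h4

end MPfab.UcM

namespace MPfab

open Mvp UcM PDC

theorem specUc : SpecUc := by
  intro U B u hU hpc hB hBne hBU hu hlap hBu
  set Z : Set E := interior {x | u x = 0} with hZ
  have hBZ : B ⊆ Z := interior_maximal (fun x hx => hBu x hx) hB
  have hmain : U ⊆ Z := by
    refine hpc.subset_of_closure_inter_subset isOpen_interior
      (hBne.mono fun x hx => ⟨hBU hx, hBZ hx⟩) ?_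
    rintro x₀ ⟨hx₀, hx₀U⟩
    obtain ⟨ε, hε, hεU⟩ := Metric.isOpen_iff.1 hU x₀ hx₀U
    set R : ℝ := ε / 4 with hR
    have hR0 : 0 < R := by positivity
    have hcb : closedBall x₀ (2 * R) ⊆ U :=
      (closedBall_subset_ball (by rw [hR]; linarith)).trans hεU
    obtain ⟨χ, hχ, -, hχ1⟩ := exists_cut hU (isCompact_closedBall x₀ (2 * R)) hcb
    have hv : Sm (fun z => χ z • u z) := cut_contDiff hU le_rfl hχ.smooth hχ.sub hu
    have heq : ∀ z ∈ closedBall x₀ (2 * R), (fun z => χ z • u z) =ᶠ[𝓝 z] u := by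
      intro z hz
      filter_upwards [hχ1 z hz] with w hw
      rw [hw, one_smul]
    set v : E → ℝ := fun z => χ z • u z with hvdef
    have hvlap : ∀ z ∈ ball x₀ (2 * R), lap v z = 0 := by
      intro z hz
      rw [(lap_congr (heq z (ball_subset_closedBall hz))).eq_of_nhds]
      exact hlap z (hcb (ball_subset_closedBall hz))
    obtain ⟨M, hM⟩ := (isCompact_closedBall x₀ (2 * R)).exists_bound_of_continuousOn
      hv.continuous.continuousOn
    -- all derivatives vanish at `x₀`
    have hflat : ∀ (h : E) (k : ℕ), it h v k x₀ = 0 := by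
      intro h k
      have hzero : ∀ k : ℕ, ∀ z ∈ Z ∩ ball x₀ (2 * R), it h v k z = 0 := by
        intro k
        induction k with
        | zero =>
          intro z hz
          show v z = 0
          rw [(heq z (ball_subset_closedBall hz.2)).eq_of_nhds]
          exact interior_subset (s := {x | u x = 0}) hz.1
        | succ k ih =>
          intro z hz
          have ho : IsOpen (Z ∩ ball x₀ (2 * R)) := isOpen_interior.inter isOpen_ball
          have e : it h v k =ᶠ[𝓝 z] fun _ => 0 := by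
            filter_upwards [ho.mem_nhds hz] with y hy using ih y hy
          show fderiv ℝ (it h v k) z h = 0
          rw [e.fderiv_eq]
          simp
      have hcl : x₀ ∈ closure (Z ∩ ball x₀ (2 * R)) := by
        rw [inter_comm]
        exact isOpen_ball.inter_closure ⟨mem_ball_self (by linarith), hx₀⟩
      have hclosed : IsClosed {z | it h v k z = 0} :=
        isClosed_eq (it_sm hv h k).continuous continuous_const
      exact closure_minimal (fun z hz => hzero k z hz) hclosed hcl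
    have hC := C₀_nonneg
    have hball : ball x₀ (R / (C₀ * Real.exp 1 + 1)) ⊆ {x | u x = 0} := by
      intro z hz
      rw [mem_ball, dist_eq_norm, lt_div_iff₀ (by positivity)] at hz
      have hn : ‖z - x₀‖ ≤ R := by
        have : 0 ≤ ‖z - x₀‖ * (C₀ * Real.exp 1) := by positivity
        linarith
      have h1 := flat_zero hv hR0 hvlap (fun z hz => hM z hz) (h := z - x₀) hn
        (by nlinarith [norm_nonneg (z - x₀)]) (hflat (z - x₀))
      rw [add_sub_cancel] at h1
      have hz2 : z ∈ closedBall x₀ (2 * R) := by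
        rw [mem_closedBall, dist_eq_norm]; linarith
      rw [(heq z hz2).eq_of_nhds] at h1
      exact h1
    exact interior_maximal hball isOpen_ball (mem_ball_self (by positivity))
  intro x hx
  exact interior_subset (s := {x | u x = 0}) (hmain hx)

end MPfab
end

section
/-!
MP_fabde4_an, module SPAN: values of the control fields.
-/
set_option autoImplicit false
open MeasureTheory Set Filter Topology Metric

namespace MPfab.Spn

open Wl Ler Intr

/-! ### properties of the Leray projection -/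

variable {ρ : E → ℝ} {R : ℝ} {P : (E → E) → E → E} {Q : (E → E) → E → ℝ}

lemma dv_gr {f : E → ℝ} (hf : Sm f) (x : E) : dv (gr f) x = lap f x := by
  unfold dv lap
  refine Finset.sum_congr rfl fun i _ => ?_
  rw [PDC.pd_comp_apply hf.gr]
  rfl

lemma dv_congr {v w : E → E} {x : E} (h : v =ᶠ[𝓝 x] w) : dv v x = dv w x := by
  unfold dv
  refine Finset.sum_congr rfl fun i _ => ?_
  rw [(Mvp.pd_congr h i).eq_of_nhds]

lemma lapQ (h : Dom ρ) (L : Leray ρ R P Q) {m : E → E} (hm : Sm m) :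
    ∀ x ∈ D ρ, lap (Q m) x = dv m x := by
  intro x hx
  have hQ : Sm (Q m) := (L.inQ m hm).smooth
  have hP : Sm (P m) := (L.inP m hm).smooth
  rw [← dv_gr hQ]
  have e : gr (Q m) =ᶠ[𝓝 x] fun y => m y - P m y := by
    filter_upwards [(Neu.isOpen_D h).mem_nhds hx] with y hy
    exact (L.dec m hm y (le_of_lt hy)).symm
  rw [dv_congr e, dv_sub hm hP, (L.inX m hm).dv0 x (le_of_lt hx), sub_zero]

/-- the projection is orthogonal: test with gradients -/
lemma orthQ (hG : SpecGauss) (h : Dom ρ) (L : Leray ρ R P Q) {m : E → E} (hm : Sm m)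
    {φ : E → ℝ} (hφ : Sm φ) :
    ∫ x in D ρ, inner ℝ (gr (Q m) x) (gr φ x) = ∫ x in D ρ, inner ℝ (m x) (gr φ x) := by
  have hP : Sm (P m) := (L.inP m hm).smooth
  have h1 := orth hG h (L.inX m hm) hφ
  have h2 : ∫ x in D ρ, inner ℝ (gr (Q m) x) (gr φ x) =
      ∫ x in D ρ, (inner ℝ (m x) (gr φ x) - inner ℝ (P m x) (gr φ x)) := by
    refine setIntegral_congr_fun (Neu.measurableSet_D h) fun x hx => ?_
    rw [← L.dec m hm x (le_of_lt hx), inner_sub_left]
  rw [h2, integral_sub (integrableOn_D h (hm.continuous.inner hφ.gr.continuous))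
    (integrableOn_D h (hP.continuous.inner hφ.gr.continuous)), h1, sub_zero]

lemma symQ (hG : SpecGauss) (h : Dom ρ) (L : Leray ρ R P Q) {m m' : E → E} (hm : Sm m)
    (hm' : Sm m') : ∫ x in D ρ, inner ℝ (m x) (gr (Q m') x) =
      ∫ x in D ρ, inner ℝ (m' x) (gr (Q m) x) := by
  rw [← orthQ hG h L hm (L.inQ m' hm').smooth, ← orthQ hG h L hm' (L.inQ m hm).smooth]
  refine integral_congr_ae (Eventually.of_forall fun x => ?_)
  exact real_inner_comm _ _

lemma test_smul {U : Set E} {φ : E → ℝ} (hφ : Test U φ) {v : E → E} (hv : Sm v) :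
    Test U fun x => φ x • v x := by
  have h1 : tsupport (fun x => φ x • v x) ⊆ tsupport φ := by
    refine closure_mono fun x hx hc => hx ?_
    show φ x • v x = 0
    rw [hc, zero_smul]
  exact ⟨hφ.smooth.smul hv, hφ.cpt.mono' (subset_closure.trans h1), h1.trans hφ.sub⟩

lemma int_test {F : Type*} [NormedAddCommGroup F] {U : Set E} {φ : E → F} (hφ : HasCompactSupport φ)
    (hs : tsupport φ ⊆ U) {a : E → ℝ} (ha : ∀ x, φ x = 0 → a x = 0) :
    ∫ x in U, a x = ∫ x, a x :=
  setIntegral_eq_integral_of_forall_compl_eq_zero fun x hx =>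
    ha x (image_eq_zero_of_notMem_tsupport fun h => hx (hs h))

/-- the linear function -/
lemma gr_lin (e x : E) : gr (fun x => inner ℝ e x) x = e := by
  ext i
  rw [gr_apply, pd_def]
  have h : HasFDerivAt (fun x : E => inner ℝ e x) (innerSL ℝ e) x :=
    (innerSL ℝ e).hasFDerivAt
  rw [h.fderiv, innerSL_apply_apply, eb, EuclideanSpace.inner_single_right]
  simp

/-- a vector which is orthogonal to all values of control fields is zero -/
lemma key (hG : SpecGauss) {B : Set E} {y e : E} (hdomN : DomN ρ) (hconn : IsConnected (D ρ))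
    (L : Leray ρ R P Q) (hB : IsOpen B) (hBne : B.Nonempty) (hBD : B ⊆ D ρ) (hy : y ∈ D ρ)
    (horth : ∀ Ψ : E → E, Test B Ψ → inner ℝ e (gr (Q Ψ) y) = 0) : e = 0 := by
  have h : Dom ρ := hdomN.toDom
  have hDo := Neu.isOpen_D h
  -- the radius
  obtain ⟨b, hb, hby⟩ : ∃ b ∈ B, b ≠ y := by
    obtain ⟨b0, hb0⟩ := hBne
    by_cases h1 : b0 = y
    · obtain ⟨ε, hε, hε2⟩ := Metric.isOpen_iff.1 hB b0 hb0
      refine ⟨b0 + (ε / 2) • eb 0, hε2 ?_, ?_⟩
      · have h3 : ‖eb 0‖ = 1 := by simp [eb]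
        rw [mem_ball, dist_eq_norm, add_sub_cancel_left, norm_smul, h3, mul_one,
          Real.norm_of_nonneg (by positivity)]
        linarith
      · intro hc
        rw [h1, add_eq_left] at hc
        have h2 := congrArg (fun v : E => v 0) hc
        simp at h2
        linarith
    · exact ⟨b0, hb0, h1⟩
  obtain ⟨ε, hε, hε2⟩ := Metric.isOpen_iff.1 hDo y hy
  set r := min (ε / 2) (dist b y / 2) with hr
  have hdb : 0 < dist b y := dist_pos.2 hby
  have hr0 : 0 < r := by positivity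
  have hball : closedBall y r ⊆ D ρ :=
    (closedBall_subset_ball ((min_le_left _ _).trans_lt (by linarith))).trans hε2
  have hbr : b ∉ closedBall y r := by
    rw [mem_closedBall, not_le]
    exact (min_le_right _ _).trans_lt (by linarith)
  set B' := B \ closedBall y r with hB'
  have hB'o : IsOpen B' := hB.sdiff isClosed_closedBall
  have hB'ne : B'.Nonempty := ⟨b, hb, hbr⟩
  set D' := D ρ \ closedBall y r with hD'
  have hD'o : IsOpen D' := hDo.sdiff isClosed_closedBall
  have hD'c : IsConnected D' := specConn (D ρ) y r hDo hconn hr0 hball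
  have hB'D' : B' ⊆ D' := diff_subset_diff_left hBD
  -- the mollifier
  set τ := Real.log r with hτ
  have hexp : Real.exp τ = r := Real.exp_log hr0
  set χ : E → ℝ := sl (Fm y) τ with hχ
  have hχs : Sm χ := PDC.sl_smooth (sm_Fm y) τ
  have hχ0 : ∀ z, z ∉ closedBall y r → χ z = 0 := by
    intro z hz
    refine Fm_zero ?_
    rw [mem_closedBall, dist_eq_norm, not_le] at hz
    rw [hexp]
    exact hz.le
  have hχts : tsupport χ ⊆ closedBall y r := closure_minimal (fun z hz => by
    by_contra hc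
    exact hz (hχ0 z hc)) isClosed_closedBall
  have hχc : HasCompactSupport χ :=
    (isCompact_closedBall y r).of_isClosed_subset (isClosed_tsupport _) hχts
  have hχint : ∀ g : E → ℝ, ∫ z, g z * χ z = ∫ z, g (y + r • z) * Mvp.η z := by
    intro g
    have := int_scale g Mvp.η y τ
    rw [hexp] at this
    exact this
  set m : E → E := fun x => χ x • e with hm
  have hms : Sm m := hχs.smul contDiff_const
  set k := Q m with hk
  have hks : Sm k := (L.inQ m hms).smooth
  -- step A
  have hA : ∀ Ψ : E → E, Test B' Ψ → ∫ x in D ρ, inner ℝ (Ψ x) (gr k x) = 0 := by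
    intro Ψ hΨ
    have hΨB : Test B Ψ := ⟨hΨ.smooth, hΨ.cpt, hΨ.sub.trans diff_subset⟩
    have hQs : Sm (Q Ψ) := (L.inQ Ψ hΨ.smooth).smooth
    rw [symQ hG h L hΨ.smooth hms]
    set v : E → ℝ := PDC.dd e (Q Ψ) with hv
    have hvs : Sm v := PDC.dd_smooth hQs e
    have e1 : ∀ x, inner ℝ (m x) (gr (Q Ψ) x) = v x * χ x := by
      intro x
      rw [hm, inner_smul_left, inner_gr]
      simp only [RCLike.conj_to_real]
      rw [mul_comm]
      rfl
    simp only [e1]
    have e2 : ∫ x in D ρ, v x * χ x = ∫ x, v x * χ x :=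
      int_test hχc (hχts.trans hball) (fun x hx => by rw [hx, mul_zero])
    have h0 : ∀ z ∈ ball y r, lap (Q Ψ) z = 0 := by
      intro z hz
      rw [lapQ h L hΨ.smooth z (hball (ball_subset_closedBall hz))]
      have h1 : z ∉ tsupport Ψ := fun hc => (hΨ.sub hc).2 (ball_subset_closedBall hz)
      have h2 : Ψ =ᶠ[𝓝 z] fun _ => 0 := by
        filter_upwards [(isClosed_tsupport Ψ).isOpen_compl.mem_nhds h1] with w hw
        exact image_eq_zero_of_notMem_tsupport hw
      rw [dv_congr h2]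
      simp [dv, pd_def]
    have h1 := UcM.mean hvs hr0 (UcM.lap_dd_zero hQs isOpen_ball h0 e)
    rw [e2, hχint, ← h1]
    have := horth Ψ hΨB
    rw [inner_gr] at this
    exact this
  -- step B
  have hgB : ∀ i, ∀ x ∈ B', pd i k x = 0 := by
    intro i
    refine eq_of_test hB'o (hks.pd i).continuous.continuousOn continuousOn_const fun φ hφ => ?_
    have h1 := hA (fun x => φ x • eb i) (test_smul hφ contDiff_const)
    have e1 : ∀ x, inner ℝ (φ x • eb i) (gr k x) = pd i k x * φ x := by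
      intro x
      rw [inner_smul_left, inner_gr]
      simp only [RCLike.conj_to_real]
      rw [mul_comm]
      rfl
    simp only [e1] at h1
    rw [int_test hφ.cpt hφ.sub (fun x hx => by rw [hx, mul_zero]),
      int_test hφ.cpt hφ.sub (fun x hx => by rw [hx, mul_zero])]
    rw [int_test hφ.cpt (hφ.sub.trans (hB'D'.trans diff_subset))
      (fun x hx => by rw [hx, mul_zero])] at h1
    simpa using h1
  -- unique continuation
  have hlapk : ∀ x ∈ D', lap k x = 0 := by
    intro x hx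
    rw [hk, lapQ h L hms x hx.1]
    have h2 : m =ᶠ[𝓝 x] fun _ => 0 := by
      filter_upwards [hD'o.mem_nhds hx] with w hw
      show χ w • e = 0
      rw [hχ0 w hw.2, zero_smul]
    rw [dv_congr h2]
    simp [dv, pd_def]
  have hgD : ∀ i, ∀ x ∈ D', pd i k x = 0 := by
    intro i
    refine specUc D' B' (pd i k) hD'o hD'c.isPreconnected hB'o hB'ne hB'D'
      (hks.pd i).contDiffOn ?_ (hgB i)
    exact UcM.lap_dd_zero hks hD'o hlapk (eb i)
  obtain ⟨c0, hc0⟩ := hD'o.exists_is_const_of_fderiv_eq_zero hD'c.isPreconnected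
    (f := k) hks.differentiable.differentiableOn (fun x hx => by
      ext v
      rw [fderiv_eq_sum]
      simp [hgD _ x hx])
  -- the integral of the gradient vanishes
  obtain ⟨χ1, hχ1, -, hχ11⟩ := Mvp.exists_cut hDo (isCompact_closedBall y r) hball
  have hint : ∀ i, ∫ x in D ρ, pd i k x = 0 := by
    intro i
    have hT : Test (D ρ) fun x => χ1 x * (k x - c0) :=
      test_mul hDo ((hks.sub contDiff_const).contDiffOn) hχ1
    rw [← int_pd hG h hT i]
    refine setIntegral_congr_fun (Neu.measurableSet_D h) fun x hx => ?_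
    by_cases hxb : x ∈ closedBall y r
    · have e1 : (fun x => χ1 x * (k x - c0)) =ᶠ[𝓝 x] fun x => k x - c0 := by
        filter_upwards [hχ11 x hxb] with w hw
        rw [hw, one_mul]
      rw [(Mvp.pd_congr e1 i).eq_of_nhds, pd_def, pd_def, fderiv_sub_const]
    · have e1 : (fun x => χ1 x * (k x - c0)) =ᶠ[𝓝 x] fun _ => 0 := by
        filter_upwards [hD'o.mem_nhds ⟨hx, hxb⟩] with w hw
        rw [hc0 w hw, sub_self, mul_zero]
      rw [(Mvp.pd_congr e1 i).eq_of_nhds, hgD i x ⟨hx, hxb⟩]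
      simp [pd_def]
  have hint2 : ∫ x in D ρ, inner ℝ (gr k x) e = 0 := by
    have e1 : ∀ x, inner ℝ (gr k x) e = ∑ i, pd i k x * e i := by
      intro x
      rw [inner_eq]
      rfl
    simp only [e1]
    rw [integral_finsetSum _ fun i _ => (integrableOn_D h (hks.pd i).continuous).mul_const _]
    refine Finset.sum_eq_zero fun i _ => ?_
    rw [integral_mul_const, hint i, zero_mul]
  -- but it is `|e|^2`
  have hlin : Sm fun x : E => inner ℝ e x := (innerSL ℝ e).contDiff
  have h1 := orthQ hG h L hms hlin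
  simp only [gr_lin] at h1
  rw [← hk, hint2] at h1
  have e3 : ∫ x in D ρ, inner ℝ (m x) e = ‖e‖ ^ 2 := by
    have e1 : ∀ x, inner ℝ (m x) e = ‖e‖ ^ 2 * χ x := by
      intro x
      rw [hm, inner_smul_left, real_inner_self_eq_norm_sq]
      simp only [RCLike.conj_to_real]
      ring
    simp only [e1]
    rw [int_test hχc (hχts.trans hball) (fun x hx => by rw [hx, mul_zero]), hχint]
    rw [integral_const_mul, Mvp.int_η, mul_one]
  rw [e3] at h1
  exact norm_eq_zero.1 ((pow_eq_zero_iff two_ne_zero).1 h1.symm)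

end MPfab.Spn

namespace MPfab

open Spn Wl Ler Intr

theorem specSpan (hG : SpecGauss) : SpecSpan := by
  intro ρ R P Q B y e₀ hdomN hconn L hB hBne hBD hy
  -- the subspace of values
  let S : Submodule ℝ E :=
    { carrier := {v | ∃ Ψ : E → E, Test B Ψ ∧ gr (Q Ψ) y = v}
      add_mem' := by
        rintro v w ⟨Ψ, hΨ, rfl⟩ ⟨Ψ', hΨ', rfl⟩
        refine ⟨fun x => Ψ x + Ψ' x, ⟨hΨ.smooth.add hΨ'.smooth, hΨ.cpt.add hΨ'.cpt, ?_⟩, ?_⟩
        · exact (tsupport_add Ψ Ψ').trans (union_subset hΨ.sub hΨ'.sub)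
        · rw [L.addQ Ψ Ψ' hΨ.smooth hΨ'.smooth,
            gr_add (L.inQ Ψ hΨ.smooth).smooth (L.inQ Ψ' hΨ'.smooth).smooth]
      zero_mem' := by
        have h0 : Test B (fun _ : E => (0 : E)) := by
          refine ⟨contDiff_const, HasCompactSupport.zero, ?_⟩
          have : tsupport (fun _ : E => (0 : E)) = ∅ := by
            simp [tsupport]
          rw [this]
          exact empty_subset _
        refine ⟨fun _ => 0, h0, ?_⟩
        have h1 := L.smulQ 0 (fun _ => 0) h0.smooth
        simp only [zero_smul, zero_mul] at h1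
        rw [h1]
        ext i
        simp [pd_def]
      smul_mem' := by
        rintro c v ⟨Ψ, hΨ, rfl⟩
        refine ⟨fun x => c • Ψ x, ?_, ?_⟩
        · have h1 : tsupport (fun x => c • Ψ x) ⊆ tsupport Ψ := by
            refine closure_mono fun x hx hc => hx ?_
            show c • Ψ x = 0
            rw [hc, smul_zero]
          exact ⟨hΨ.smooth.const_smul c, hΨ.cpt.mono' (subset_closure.trans h1),
            h1.trans hΨ.sub⟩
        · rw [L.smulQ c Ψ hΨ.smooth, gr_smul (L.inQ Ψ hΨ.smooth).smooth] }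
  suffices hS : S = ⊤ by
    have : e₀ ∈ S := hS ▸ Submodule.mem_top
    exact this
  by_contra hne
  have hbot : Sᗮ ≠ ⊥ := fun hc => hne ((Submodule.orthogonal_eq_bot_iff).1 hc)
  obtain ⟨e, heS, he0⟩ := Submodule.exists_mem_ne_zero_of_ne_bot hbot
  have horth : ∀ Ψ : E → E, Test B Ψ → inner ℝ e (gr (Q Ψ) y) = 0 := fun Ψ hΨ =>
    Submodule.inner_left_of_mem_orthogonal (K := S) ⟨Ψ, hΨ, rfl⟩ heS
  exact he0 (key hG hdomN hconn L hB hBne hBD hy horth)

end MPfab
end

section
/-!
MP_fabde4_an, module RUNGE, steps (2) and (3): the duality argument (helper80).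
-/
set_option autoImplicit false
open MeasureTheory Set Filter Topology Metric

namespace MPfab.RgD

open Wl Ler Intr Spn

variable {ρ : E → ℝ} {R : ℝ} {P : (E → E) → E → E} {Q : (E → E) → E → ℝ}

/-- separation in the Sobolev space (helper59) -/
def SepS : Prop := ∀ {ρ : E → ℝ} (_ : Dom ρ) (K : ℕ) (S : Set (E → E)) (_ : ∀ v ∈ S, Sm v)
  (_ : ∀ v ∈ S, ∀ w ∈ S, (fun x => v x + w x) ∈ S)
  (_ : ∀ c : ℝ, ∀ v ∈ S, (fun x => c • v x) ∈ S) (_ : S.Nonempty) {G : E → E} (_ : Sm G)
  (_ : ∀ Λ : (E → E) → ℝ, (∀ v w, Sm v → Sm w → Λ (fun x => v x + w x) = Λ v + Λ w) →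
    (∀ (c : ℝ) v, Sm v → Λ (fun x => c • v x) = c * Λ v) →
    (∃ C : ℝ, 0 ≤ C ∧ ∀ v, Sm v → Λ v ^ 2 ≤ C * hs (D ρ) K v) →
    (∀ v w, Sm v → Sm w → (∀ x ∈ D ρ, v x = w x) → Λ v = Λ w) →
    (∀ v ∈ S, Λ v = 0) → Λ G = 0) {ε : ℝ} (_ : 0 < ε),
  ∃ v ∈ S, hs (D ρ) K (fun x => G x - v x) < ε

/-- representation of functionals (helper59) -/
def ReprS : Prop := ∀ {ρ : E → ℝ} (_ : Dom ρ) (K : ℕ) (l : (E → ℝ) → ℝ)
  (_ : ∀ v w, Sm v → Sm w → l (fun x => v x + w x) = l v + l w)
  (_ : ∀ (c : ℝ) v, Sm v → l (fun x => c * v x) = c * l v)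
  (_ : ∃ C : ℝ, 0 ≤ C ∧ ∀ v, Sm v → l v ^ 2 ≤ C * hs (D ρ) K v),
  ∃ (ι : Type) (_ : Fintype ι) (w : ι → E → ℝ) (α : ι → List (Fin 3)),
    (∀ i, LocallyIntegrableOn (w i) (D ρ)) ∧
    ∀ η : E → ℝ, Sm η → l η = ∑ i, ∫ x in D ρ, w i x * pds (α i) η x

/-- continuity of the projection on gradients -/
lemma hs_grQ (h : Dom ρ) (L : Leray ρ R P Q) (K : ℕ) :
    ∃ C : ℝ, 0 ≤ C ∧ ∀ m, Sm m → hs (D ρ) K (gr (Q m)) ≤ C * hs (D ρ) K m := by
  obtain ⟨C, hC⟩ := L.bdQ K
  refine ⟨|C|, abs_nonneg C, fun m hm => ?_⟩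
  have hQ : Sm (Q m) := (L.inQ m hm).smooth
  have hcs : HasCompactSupport (Q m) := by
    refine HasCompactSupport.intro (isCompact_closedBall (0 : E) R) fun x hx => ?_
    refine (L.inQ m hm).supp x ?_
    rw [mem_closedBall_zero_iff, not_le] at hx
    exact hx.le
  have h1 : hs (D ρ) K (gr (Q m)) = ∑ j, hs (D ρ) K (fun x => gr (Q m) x j) :=
    specHSB.comp (D ρ) K (gr (Q m)) (Neu.measurableSet_D h) (Or.inl h.bdd) hQ.gr
  have h2 : ∑ j, hs (D ρ) K (fun x => gr (Q m) x j) ≤ hs (D ρ) (K + 1) (Q m) := by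
    have e : hs (D ρ) (K + 1) (Q m) = (∫ x in D ρ, ‖Q m x‖ ^ 2) + ∑ i, hs (D ρ) K (pd i (Q m)) :=
      rfl
    rw [e]
    have h0 : 0 ≤ ∫ x in D ρ, ‖Q m x‖ ^ 2 := integral_nonneg fun x => by positivity
    have h3 : ∑ j, hs (D ρ) K (fun x => gr (Q m) x j) = ∑ i, hs (D ρ) K (pd i (Q m)) := rfl
    rw [h3]
    linarith
  have h3 : hs (D ρ) (K + 1) (Q m) ≤ hs univ (K + 1) (Q m) :=
    specHSB.mono_set ℝ (D ρ) univ (K + 1) (Q m) MeasurableSet.univ (subset_univ _)
      (Or.inr hcs) hQ
  have h4 : C * hs (D ρ) K m ≤ |C| * hs (D ρ) K m :=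
    mul_le_mul_of_nonneg_right (le_abs_self C) (hs_nonneg _ _ _)
  rw [h1]
  exact h2.trans (h3.trans ((hC m hm).trans h4))

/-- the Sobolev norm of a scalar function times a basis vector -/
lemma hs_eb (h : Dom ρ) (K : ℕ) (j : Fin 3) {η : E → ℝ} (hη : Sm η) :
    hs (D ρ) K (fun x => η x • eb j) = hs (D ρ) K η := by
  rw [specHSB.comp (D ρ) K (fun x => η x • eb j) (Neu.measurableSet_D h) (Or.inl h.bdd)
    (hη.smul contDiff_const)]
  rw [Finset.sum_eq_single j]
  · congr 1
    funext x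
    simp
  · intro i _ hi
    have : (fun x => (η x • eb j) i) = fun _ => (0 : ℝ) := by
      funext x
      simp [eb_apply, hi]
    rw [this]
    exact hs_zero_fun _ _
  · intro hj
    exact absurd (Finset.mem_univ j) hj

lemma test_zero {F : Type*} [NormedAddCommGroup F] [NormedSpace ℝ F] (U : Set E) :
    Test U (fun _ : E => (0 : F)) := by
  refine ⟨contDiff_const, HasCompactSupport.zero, ?_⟩
  have : tsupport (fun _ : E => (0 : F)) = ∅ := by
    simp [tsupport]
  rw [this]
  exact empty_subset _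

lemma test_add {F : Type*} [NormedAddCommGroup F] [NormedSpace ℝ F] {U : Set E} {f g : E → F}
    (hf : Test U f) (hg : Test U g) : Test U fun x => f x + g x :=
  ⟨hf.smooth.add hg.smooth, hf.cpt.add hg.cpt,
    (tsupport_add f g).trans (union_subset hf.sub hg.sub)⟩

lemma test_csmul {F : Type*} [NormedAddCommGroup F] [NormedSpace ℝ F] {U : Set E} {f : E → F}
    (hf : Test U f) (c : ℝ) : Test U fun x => c • f x := by
  have h1 : tsupport (fun x => c • f x) ⊆ tsupport f := by
    refine closure_mono fun x hx hc => hx ?_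
    show c • f x = 0
    rw [hc, smul_zero]
  exact ⟨hf.smooth.const_smul c, hf.cpt.mono' (subset_closure.trans h1), h1.trans hf.sub⟩

lemma test_comp' {U : Set E} {f : E → E} (hf : Test U f) (j : Fin 3) :
    Test U fun x => f x j := by
  have h1 : tsupport (fun x => f x j) ⊆ tsupport f := by
    refine closure_mono fun x hx hc => hx ?_
    show f x j = 0
    rw [hc]
    rfl
  exact ⟨hf.smooth.comp_apply j, hf.cpt.mono' (subset_closure.trans h1), h1.trans hf.sub⟩

lemma test_gr {U : Set E} {f : E → ℝ} (hf : Test U f) : Test U (gr f) := by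
  have h1 : tsupport (gr f) ⊆ tsupport f := by
    refine closure_minimal (fun z hz => ?_) (isClosed_tsupport f)
    by_contra hc
    apply hz
    ext i
    exact pds_off (isClosed_tsupport f) (fun z hz => image_eq_zero_of_notMem_tsupport hz)
      [i] hc
  exact ⟨hf.smooth.gr, hf.cpt.mono' (subset_closure.trans h1), h1.trans hf.sub⟩

lemma Q_zero (L : Leray ρ R P Q) : Q (fun _ => 0) = fun _ => 0 := by
  have h1 := L.smulQ 0 (fun _ => 0) contDiff_const
  simpa only [zero_smul, zero_mul] using h1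

lemma gr_zero (x : E) : gr (fun _ => 0) x = 0 := by
  ext i
  simp [pd_def]

/-- step (2): the projection of `(lap η) e_j` -/
lemma grQ_lap (h : Dom ρ) (L : Leray ρ R P Q) {η : E → ℝ} (hη : Test (D ρ) η) (j : Fin 3) :
    ∀ x ∈ D ρ, gr (Q fun x => lap η x • eb j) x = gr (pd j η) x := by
  intro x hx
  have hm : Sm fun x => lap η x • eb j := hη.smooth.lap.smul contDiff_const
  refine (L.uniq _ (pd j η) hm (hη.smooth.pd j) ⟨hm.sub (hη.smooth.pd j).gr, ?_, ?_⟩ x
    (le_of_lt hx)).symm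
  · intro y _
    rw [dv_sub hm (hη.smooth.pd j).gr, dv_gr (hη.smooth.pd j),
      dv_mul hη.smooth.lap contDiff_const, inner_gr]
    have e1 : dv (fun _ : E => eb j) y = 0 := by
      unfold dv pd
      simp
    have e2 : lap (pd j η) y = pd j (lap η) y := UcM.lap_dd hη.smooth (eb j) y
    rw [e1, e2, mul_zero, zero_add]
    exact sub_self _
  · intro y hy
    have h1 : y ∉ tsupport η := fun hc => by
      have := hη.sub hc
      simp only [D, mem_ofPred_eq] at this
      linarith
    have e1 : lap η y = 0 := Finset.sum_eq_zero fun i _ =>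
      pds_off (isClosed_tsupport η) (fun z hz => image_eq_zero_of_notMem_tsupport hz) [i, i] h1
    have e2 : gr (pd j η) y = 0 := by
      ext i
      exact pds_off (isClosed_tsupport η) (fun z hz => image_eq_zero_of_notMem_tsupport hz)
        [i, j] h1
    show fderiv ℝ ρ y (lap η y • eb j - gr (pd j η) y) = 0
    rw [e1, e2, zero_smul, sub_zero, map_zero]

/-- step (3): a functional which vanishes on the control and interior fields vanishes on the
projections of all interior fields -/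
lemma kill (hR : ReprS) (h : Dom ρ) (hconn : IsConnected (D ρ)) (L : Leray ρ R P Q) {B : Set E}
    (hB : IsOpen B) (hBne : B.Nonempty) (hBD : B ⊆ D ρ) {K : ℕ} {Λ : (E → E) → ℝ}
    (hadd : ∀ v w, Sm v → Sm w → Λ (fun x => v x + w x) = Λ v + Λ w)
    (hsmul : ∀ (c : ℝ) v, Sm v → Λ (fun x => c • v x) = c * Λ v)
    (hbd : ∃ C : ℝ, 0 ≤ C ∧ ∀ v, Sm v → Λ v ^ 2 ≤ C * hs (D ρ) K v)
    (hloc : ∀ v w, Sm v → Sm w → (∀ x ∈ D ρ, v x = w x) → Λ v = Λ w)
    (h1 : ∀ Ψ, Test B Ψ → Λ (gr (Q Ψ)) = 0) (h2 : ∀ a, Test (D ρ) a → Λ a = 0) :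
    ∀ Z, Test (D ρ) Z → Λ (gr (Q Z)) = 0 := by
  have hDo := Neu.isOpen_D h
  have hQs : ∀ m, Sm m → Sm (Q m) := fun m hm => (L.inQ m hm).smooth
  -- the scalar functionals
  have key : ∀ (j : Fin 3) (η : E → ℝ), Test (D ρ) η → Λ (gr (Q fun x => η x • eb j)) = 0 := by
    intro j
    have hsm : ∀ η : E → ℝ, Sm η → Sm fun x => η x • eb j := fun η hη =>
      hη.smul contDiff_const
    set l : (E → ℝ) → ℝ := fun η => Λ (gr (Q fun x => η x • eb j)) with hl
    have ladd : ∀ v w, Sm v → Sm w → l (fun x => v x + w x) = l v + l w := by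
      intro v w hv hw
      have e1 : (fun x => (v x + w x) • eb j) = fun x => v x • eb j + w x • eb j := by
        funext x
        rw [add_smul]
      have e2 : gr (Q fun x => v x • eb j + w x • eb j) = fun x =>
          gr (Q fun x => v x • eb j) x + gr (Q fun x => w x • eb j) x := by
        funext x
        rw [L.addQ _ _ (hsm v hv) (hsm w hw), gr_add (hQs _ (hsm v hv)) (hQs _ (hsm w hw))]
      simp only [hl]
      rw [e1, e2, hadd _ _ (hQs _ (hsm v hv)).gr (hQs _ (hsm w hw)).gr]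
    have lsmul : ∀ (c : ℝ) v, Sm v → l (fun x => c * v x) = c * l v := by
      intro c v hv
      have e1 : (fun x => (c * v x) • eb j) = fun x => c • (v x • eb j) := by
        funext x
        rw [mul_smul]
      have e2 : gr (Q fun x => c • (v x • eb j)) = fun x => c • gr (Q fun x => v x • eb j) x := by
        funext x
        rw [L.smulQ c _ (hsm v hv), gr_smul (hQs _ (hsm v hv))]
      simp only [hl]
      rw [e1, e2, hsmul _ _ (hQs _ (hsm v hv)).gr]
    obtain ⟨C, hC0, hC⟩ := hbd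
    obtain ⟨C', hC'0, hC'⟩ := hs_grQ h L K
    have lbd : ∃ C : ℝ, 0 ≤ C ∧ ∀ v, Sm v → l v ^ 2 ≤ C * hs (D ρ) K v := by
      refine ⟨C * C', mul_nonneg hC0 hC'0, fun v hv => ?_⟩
      refine (hC _ (hQs _ (hsm v hv)).gr).trans ?_
      rw [mul_assoc]
      refine mul_le_mul_of_nonneg_left ?_ hC0
      rw [← hs_eb h K j hv]
      exact hC' _ (hsm v hv)
    obtain ⟨ι, _, w, α, hw, hrep⟩ := hR h K l ladd lsmul lbd
    obtain ⟨g, hg, hglap, hgrep⟩ := specWeyl (D ρ) ι w α (fun _ => 0) hDo hw contDiffOn_const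
      (fun η hη => by
        rw [← hrep _ hη.smooth.lap]
        simp only [zero_mul, integral_zero]
        show Λ (gr (Q fun x => lap η x • eb j)) = 0
        rw [hloc _ _ (hQs _ (hsm _ hη.smooth.lap)).gr (hη.smooth.pd j).gr
          (fun x hx => grQ_lap h L hη j x hx)]
        exact h2 _ (test_gr (test_pd' hη j)))
    have hgB : ∀ x ∈ B, g x = 0 := by
      refine eq_of_test hB (hg.continuousOn.mono hBD) continuousOn_const fun φ hφ => ?_
      have hφD : Test (D ρ) φ := ⟨hφ.smooth, hφ.cpt, hφ.sub.trans hBD⟩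
      have e1 := hgrep φ hφD
      rw [← hrep _ hφ.smooth] at e1
      have e2 : l φ = 0 := h1 _ (test_smul hφ contDiff_const)
      rw [e2] at e1
      rw [int_test hφ.cpt hφ.sub (fun x hx => by rw [hx, mul_zero])]
      rw [int_test hφ.cpt hφD.sub (fun x hx => by rw [hx, mul_zero])] at e1
      rw [← e1]
      simp
    have hgD : ∀ x ∈ D ρ, g x = 0 :=
      specUc (D ρ) B g hDo hconn.isPreconnected hB hBne hBD hg hglap hgB
    intro η hη
    show l η = 0
    rw [hrep _ hη.smooth, hgrep η hη]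
    rw [setIntegral_congr_fun hDo.measurableSet (g := fun _ => (0 : ℝ))
      (fun x hx => by simp only [hgD x hx, zero_mul]), integral_zero]
  intro Z hZ
  have e0 : Z = fun x => (Z x 0 • eb 0 + Z x 1 • eb 1) + Z x 2 • eb 2 := by
    funext x
    ext i
    fin_cases i <;> simp [eb_apply]
  have t : ∀ j, Sm fun x => Z x j • eb j := fun j => (hZ.smooth.comp_apply j).smul contDiff_const
  have e1 : gr (Q Z) = fun x => (gr (Q fun x => Z x 0 • eb 0) x +
      gr (Q fun x => Z x 1 • eb 1) x) + gr (Q fun x => Z x 2 • eb 2) x := by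
    funext x
    conv_lhs => rw [e0]
    rw [L.addQ _ _ ((t 0).add (t 1)) (t 2), L.addQ _ _ (t 0) (t 1)]
    rw [gr_add ((hQs _ (t 0)).add (hQs _ (t 1))) (hQs _ (t 2)),
      gr_add (hQs _ (t 0)) (hQs _ (t 1))]
  rw [e1, hadd _ _ ((hQs _ (t 0)).gr.add (hQs _ (t 1)).gr) (hQs _ (t 2)).gr,
    hadd _ _ (hQs _ (t 0)).gr (hQs _ (t 1)).gr,
    key 0 _ (test_comp' hZ 0), key 1 _ (test_comp' hZ 1), key 2 _ (test_comp' hZ 2)]
  simp

/-- the duality step -/
theorem rungeA (hS : SepS) (hR : ReprS) (B : Set E) (K : ℕ) (F : E → ℝ) (h : Dom ρ)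
    (hconn : IsConnected (D ρ)) (L : Leray ρ R P Q) (hB : IsOpen B) (hBne : B.Nonempty)
    (hBD : B ⊆ D ρ) (hF : Sm F)
    (hap : ∀ ε : ℝ, 0 < ε → ∃ Z : E → E, Test (D ρ) Z ∧
      hs (D ρ) K (fun x => gr F x - gr (Q Z) x) < ε) (ε : ℝ) (hε : 0 < ε) :
    ∃ Ψ a : E → E, Test B Ψ ∧ Test (D ρ) a ∧
      hs (D ρ) K (fun x => gr F x - gr (Q Ψ) x - a x) < ε := by
  have hQs : ∀ m, Sm m → Sm (Q m) := fun m hm => (L.inQ m hm).smooth
  set S : Set (E → E) := {v | ∃ Ψ a : E → E, Test B Ψ ∧ Test (D ρ) a ∧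
    v = fun x => gr (Q Ψ) x + a x} with hSd
  have hcl : ∃ v ∈ S, hs (D ρ) K (fun x => gr F x - v x) < ε := by
    refine hS h K S ?_ ?_ ?_ ?_ hF.gr ?_ hε
    · rintro v ⟨Ψ, a, hΨ, ha, rfl⟩
      exact (hQs _ hΨ.smooth).gr.add ha.smooth
    · rintro v ⟨Ψ, a, hΨ, ha, rfl⟩ w ⟨Ψ', a', hΨ', ha', rfl⟩
      refine ⟨fun x => Ψ x + Ψ' x, fun x => a x + a' x, test_add hΨ hΨ', test_add ha ha', ?_⟩
      funext x
      rw [L.addQ _ _ hΨ.smooth hΨ'.smooth, gr_add (hQs _ hΨ.smooth) (hQs _ hΨ'.smooth)]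
      exact add_add_add_comm _ _ _ _
    · rintro c v ⟨Ψ, a, hΨ, ha, rfl⟩
      refine ⟨fun x => c • Ψ x, fun x => c • a x, test_csmul hΨ c, test_csmul ha c, ?_⟩
      funext x
      rw [L.smulQ c _ hΨ.smooth, gr_smul (hQs _ hΨ.smooth), smul_add]
    · exact ⟨_, fun _ => 0, fun _ => 0, test_zero B, test_zero _, rfl⟩
    · intro Λ hadd hsmul hbd hloc hzero
      have h1 : ∀ Ψ, Test B Ψ → Λ (gr (Q Ψ)) = 0 := by
        intro Ψ hΨ
        have := hzero _ ⟨Ψ, fun _ => 0, hΨ, test_zero _, rfl⟩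
        simpa only [add_zero] using this
      have h2 : ∀ a, Test (D ρ) a → Λ a = 0 := by
        intro a ha
        have := hzero _ ⟨fun _ => 0, a, test_zero _, ha, rfl⟩
        simpa only [Q_zero L, gr_zero, zero_add] using this
      have hk := kill hR h hconn L hB hBne hBD hadd hsmul hbd hloc h1 h2
      obtain ⟨C, hC0, hC⟩ := hbd
      have h3 : ∀ ε : ℝ, 0 < ε → Λ (gr F) ^ 2 ≤ C * ε := by
        intro ε hε
        obtain ⟨Z, hZ, hlt⟩ := hap ε hε
        have hs1 : Sm fun x => gr F x - gr (Q Z) x := hF.gr.sub (hQs _ hZ.smooth).gr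
        have e1 : Λ (gr F) = Λ (fun x => gr F x - gr (Q Z) x) := by
          have e2 : gr F = fun x => (gr F x - gr (Q Z) x) + gr (Q Z) x := by
            funext x
            rw [sub_add_cancel]
          conv_lhs => rw [e2]
          rw [hadd _ _ hs1 (hQs _ hZ.smooth).gr, hk Z hZ, add_zero]
        rw [e1]
        exact (hC _ hs1).trans (mul_le_mul_of_nonneg_left hlt.le hC0)
      by_contra hne
      have hpos : 0 < Λ (gr F) ^ 2 := by positivity
      have h4 := h3 (Λ (gr F) ^ 2 / (2 * (C + 1))) (by positivity)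
      have h5 : C * (Λ (gr F) ^ 2 / (2 * (C + 1))) ≤ Λ (gr F) ^ 2 / 2 := by
        rw [mul_div_assoc', div_le_div_iff₀ (by positivity) (by positivity)]
        nlinarith
      linarith
  obtain ⟨v, ⟨Ψ, a, hΨ, ha, rfl⟩, hv⟩ := hcl
  refine ⟨Ψ, a, hΨ, ha, ?_⟩
  have e : (fun x => gr F x - gr (Q Ψ) x - a x) = fun x => gr F x - (gr (Q Ψ) x + a x) := by
    funext x
    rw [sub_sub]
  rw [e]
  exact hv

end MPfab.RgD
end
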