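import Pool.Agent.Lib.MP_fabde4_an.SpecB
import Pool.Agent.Lib.MP_fabde4_an.F.EllD

section
/-!
MP_fabde4_an, module POIN (helper78): Poincaré inequality on a connected smooth bounded domain.
-/
set_option autoImplicit false
open MeasureTheory Set Filter Topology
open scoped ENNReal

namespace MPfab.Poin

/-- the difference along a segment -/
theorem seg {φ : E → ℝ} (hφ : Sm φ) (y v : E) :
    ENNReal.ofReal ((φ (y + v) - φ y) ^ 2) ≤ ENNReal.ofReal (‖v‖ ^ 2) *
      ∫⁻ t in Icc (0 : ℝ) 1, ENNReal.ofReal (‖gr φ (y + t • v)‖ ^ 2) := by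
  have hcd : Continuous (fderiv ℝ φ) := hφ.continuous_fderiv (by simp)
  have hγ : Continuous fun s : ℝ => y + s • v := by fun_prop
  have hgc : Continuous fun t : ℝ => ‖gr φ (y + t • v)‖ ^ 2 :=
    ((ContDiff.continuous (Sm.gr hφ)).comp hγ).norm.pow 2
  set h : ℝ → ℝ := fun t => fderiv ℝ φ (y + t • v) v with hh
  have hc : Continuous h := (hcd.comp hγ).clm_apply continuous_const
  have hd : ∀ s : ℝ, HasDerivAt (fun s : ℝ => φ (y + s • v)) (h s) s := by
    intro s
    have h1 : HasDerivAt (fun s : ℝ => y + s • v) v s := by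
      simpa using ((hasDerivAt_id s).smul_const v).const_add y
    have h2 : HasFDerivAt φ (fderiv ℝ φ (y + s • v)) (y + s • v) :=
      (Sm.differentiable hφ).differentiableAt.hasFDerivAt
    exact h2.comp_hasDerivAt s h1
  have hint := intervalIntegral.integral_eq_sub_of_hasDerivAt (fun s _ => hd s)
    (hc.intervalIntegrable 0 1)
  simp only [one_smul, zero_smul, add_zero] at hint
  obtain ⟨c, hcdef⟩ : ∃ c, c = ∫ t in (0 : ℝ)..1, h t := ⟨_, rfl⟩
  have h1 : c ^ 2 ≤ ∫ t in (0 : ℝ)..1, h t ^ 2 := by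
    have h2 : 0 ≤ ∫ t in (0 : ℝ)..1, (h t - c) ^ 2 :=
      intervalIntegral.integral_nonneg zero_le_one fun t _ => sq_nonneg _
    have h3 : ∫ t in (0 : ℝ)..1, (h t - c) ^ 2 = (∫ t in (0 : ℝ)..1, h t ^ 2) - c ^ 2 := by
      have e : ∀ t, (h t - c) ^ 2 = (h t ^ 2 - 2 * c * h t) + c ^ 2 := fun t => by ring
      simp_rw [e]
      rw [intervalIntegral.integral_add, intervalIntegral.integral_sub,
        intervalIntegral.integral_const_mul, intervalIntegral.integral_const, ← hcdef]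
      · simp only [sub_zero, one_smul]
        ring
      all_goals exact Continuous.intervalIntegrable (by fun_prop) _ _
    linarith
  have h2 : ∫ t in (0 : ℝ)..1, h t ^ 2 ≤ ∫ t in (0 : ℝ)..1, ‖v‖ ^ 2 * ‖gr φ (y + t • v)‖ ^ 2 := by
    refine intervalIntegral.integral_mono_on zero_le_one ((hc.pow 2).intervalIntegrable _ _)
      ((hgc.const_mul _).intervalIntegrable _ _) fun t _ => ?_
    have h3 : h t = inner ℝ v (gr φ (y + t • v)) := (inner_gr _ _ _).symm
    have h4 := abs_real_inner_le_norm v (gr φ (y + t • v))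
    rw [← h3] at h4
    calc h t ^ 2 = |h t| ^ 2 := (sq_abs _).symm
      _ ≤ (‖v‖ * ‖gr φ (y + t • v)‖) ^ 2 := pow_le_pow_left₀ (abs_nonneg _) h4 2
      _ = _ := by ring
  rw [intervalIntegral.integral_const_mul] at h2
  have h5 : (φ (y + v) - φ y) ^ 2 ≤ ‖v‖ ^ 2 * ∫ t in (0 : ℝ)..1, ‖gr φ (y + t • v)‖ ^ 2 := by
    rw [← hint, ← hcdef]
    exact h1.trans h2
  refine (ENNReal.ofReal_le_ofReal h5).trans ?_
  rw [ENNReal.ofReal_mul (by positivity), intervalIntegral.integral_of_le zero_le_one,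
    ← integral_Icc_eq_integral_Ioc, ofReal_integral_eq_lintegral_ofReal]
  · exact hgc.continuousOn.integrableOn_compact isCompact_Icc
  · exact Eventually.of_forall fun s => by positivity

/-- affine change of variables -/
theorem shift {A B : Set E} (hA : MeasurableSet A) (hB : MeasurableSet B) {g : E → ℝ≥0∞}
    (hg : Measurable g) (c : E) {a : ℝ} (ha : a ≠ 0) (hAB : ∀ y ∈ A, c + a • y ∈ B) :
    ∫⁻ y in A, g (c + a • y) ≤ ENNReal.ofReal |(a ^ 3)⁻¹| * ∫⁻ y in B, g y := by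
  have hm : Measurable (B.indicator g) := hg.indicator hB
  calc ∫⁻ y in A, g (c + a • y) = ∫⁻ y, A.indicator (fun y => g (c + a • y)) y :=
        (lintegral_indicator hA _).symm
    _ ≤ ∫⁻ y, B.indicator g (c + a • y) := by
        refine lintegral_mono fun y => ?_
        by_cases hy : y ∈ A
        · rw [indicator_of_mem hy, indicator_of_mem (hAB y hy)]
        · rw [indicator_of_notMem hy]
          exact zero_le
    _ = ∫⁻ z, B.indicator g (c + z) ∂(Measure.map (a • ·) (volume : Measure E)) := by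
        exact (lintegral_map (f := fun z => B.indicator g (c + z))
          (hm.comp (measurable_const_add c)) (measurable_const_smul a)).symm
    _ = ENNReal.ofReal |(a ^ 3)⁻¹| * ∫⁻ z, B.indicator g (c + z) := by
        rw [Measure.map_addHaar_smul volume ha, lintegral_smul_measure]
        simp
    _ = ENNReal.ofReal |(a ^ 3)⁻¹| * ∫⁻ y in B, g y := by
        rw [lintegral_add_left_eq_self (fun z => B.indicator g z) c, lintegral_indicator hB]

/-- the density of the energy -/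
noncomputable def dens (φ : E → ℝ) (x : E) : ℝ≥0∞ := ENNReal.ofReal (‖gr φ x‖ ^ 2)

theorem dens_meas {φ : E → ℝ} (hφ : Sm φ) : Measurable (dens φ) :=
  ((ContDiff.continuous (Sm.gr hφ)).norm.pow 2).measurable.ennreal_ofReal

/-- the difference -/
noncomputable def dif (φ : E → ℝ) (y z : E) : ℝ≥0∞ := ENNReal.ofReal ((φ y - φ z) ^ 2)

theorem dif_meas {φ : E → ℝ} (hφ : Sm φ) : Measurable (fun p : E × E => dif φ p.1 p.2) := by
  have hc : Continuous φ := ContDiff.continuous hφ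
  exact Measurable.ennreal_ofReal (Continuous.measurable (by fun_prop))

theorem dif_comm (φ : E → ℝ) (y z : E) : dif φ y z = dif φ z y := by
  unfold dif
  congr 1
  ring

theorem dif_tri (φ : E → ℝ) (x y z : E) : dif φ x z ≤ 2 * (dif φ x y + dif φ z y) := by
  unfold dif
  rw [← ENNReal.ofReal_add (sq_nonneg _) (sq_nonneg _)]
  have h2 : (2 : ℝ≥0∞) = ENNReal.ofReal 2 := by simp
  rw [h2, ← ENNReal.ofReal_mul (by norm_num)]
  refine ENNReal.ofReal_le_ofReal ?_
  nlinarith [sq_nonneg ((φ x - φ y) + (φ z - φ y))]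

/-- the double integral -/
noncomputable def J (A B : Set E) (φ : E → ℝ) : ℝ≥0∞ := ∫⁻ y in A, ∫⁻ z in B, dif φ y z

theorem J_comm (A B : Set E) {φ : E → ℝ} (hφ : Sm φ) : J A B φ = J B A φ := by
  unfold J
  rw [lintegral_lintegral_swap (dif_meas hφ).aemeasurable]
  refine lintegral_congr fun z => lintegral_congr fun y => dif_comm _ _ _

theorem J_mono {A A' B B' : Set E} (hA : A' ⊆ A) (hB : B' ⊆ B) (φ : E → ℝ) :
    J A' B' φ ≤ J A B φ :=
  (lintegral_mono_set hA).trans (lintegral_mono fun _ => lintegral_mono_set hB)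

/-- linked sets -/
def Lk (S A B : Set E) : Prop := ∃ C : ℝ≥0∞, C ≠ ⊤ ∧ ∀ φ : E → ℝ, Sm φ →
  J A B φ ≤ C * ∫⁻ x in S, dens φ x

variable {S A B C A' B' : Set E}

theorem Lk.symm (h : Lk S A B) : Lk S B A := by
  obtain ⟨c, hc, h⟩ := h
  exact ⟨c, hc, fun φ hφ => by rw [J_comm B A hφ]; exact h φ hφ⟩

theorem Lk.mono (h : Lk S A B) (hA : A' ⊆ A) (hB : B' ⊆ B) : Lk S A' B' := by
  obtain ⟨c, hc, h⟩ := h
  exact ⟨c, hc, fun φ hφ => (J_mono hA hB φ).trans (h φ hφ)⟩

theorem Lk.union (h : Lk S A B) (h' : Lk S A' B) : Lk S (A ∪ A') B := by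
  obtain ⟨c, hc, h⟩ := h
  obtain ⟨c', hc', h'⟩ := h'
  refine ⟨c + c', ENNReal.add_ne_top.2 ⟨hc, hc'⟩, fun φ hφ => ?_⟩
  rw [add_mul]
  exact (lintegral_union_le _ _ _).trans (add_le_add (h φ hφ) (h' φ hφ))

theorem Lk.trans (hB0 : volume B ≠ 0) (hBt : volume B ≠ ⊤) (hA : volume A ≠ ⊤)
    (hC : volume C ≠ ⊤) (h : Lk S A B) (h' : Lk S C B) : Lk S A C := by
  obtain ⟨c, hc, h⟩ := h
  obtain ⟨c', hc', h'⟩ := h'
  refine ⟨(volume B)⁻¹ * (2 * (volume C * c + volume A * c')), ?_, fun φ hφ => ?_⟩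
  · refine ENNReal.mul_ne_top (ENNReal.inv_ne_top.2 hB0) (ENNReal.mul_ne_top (by simp) ?_)
    exact ENNReal.add_ne_top.2 ⟨ENNReal.mul_ne_top hC hc, ENNReal.mul_ne_top hA hc'⟩
  · have hm : Measurable fun y => ∫⁻ b in B, dif φ y b := (dif_meas hφ).lintegral_prod_right'
    have h1 : ∀ y z, volume B * dif φ y z ≤
        2 * ((∫⁻ b in B, dif φ y b) + ∫⁻ b in B, dif φ z b) := by
      intro y z
      have hmy : Measurable fun b => dif φ y b := (dif_meas hφ).comp measurable_prodMk_left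
      have hmz : Measurable fun b => dif φ z b := (dif_meas hφ).comp measurable_prodMk_left
      calc volume B * dif φ y z = ∫⁻ _ in B, dif φ y z := by
            rw [setLIntegral_const, mul_comm]
        _ ≤ ∫⁻ b in B, 2 * (dif φ y b + dif φ z b) := lintegral_mono fun b => dif_tri φ y b z
        _ = _ := by
            rw [lintegral_const_mul' _ _ (by simp), lintegral_add_left hmy]
    have h2 : volume B * J A C φ ≤ 2 * (volume C * J A B φ + volume A * J C B φ) := by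
      calc volume B * J A C φ = ∫⁻ y in A, ∫⁻ z in C, volume B * dif φ y z := by
            unfold J
            rw [← lintegral_const_mul' _ _ hBt]
            refine lintegral_congr fun y => ?_
            rw [← lintegral_const_mul' _ _ hBt]
        _ ≤ ∫⁻ y in A, ∫⁻ z in C, 2 * ((∫⁻ b in B, dif φ y b) + ∫⁻ b in B, dif φ z b) :=
            lintegral_mono fun y => lintegral_mono fun z => h1 y z
        _ = 2 * ∫⁻ y in A, ((volume C * ∫⁻ b in B, dif φ y b) + J C B φ) := by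
            rw [← lintegral_const_mul' _ _ (by simp)]
            refine lintegral_congr fun y => ?_
            rw [lintegral_const_mul' _ _ (by simp), lintegral_add_right _ hm, setLIntegral_const,
              mul_comm (volume C)]
            rfl
        _ = _ := by
            rw [lintegral_add_right _ measurable_const, lintegral_const_mul _ hm,
              setLIntegral_const, mul_comm (J C B φ)]
            rfl
    calc J A C φ = (volume B)⁻¹ * (volume B * J A C φ) := by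
          rw [← mul_assoc, ENNReal.inv_mul_cancel hB0 hBt, one_mul]
      _ ≤ (volume B)⁻¹ * (2 * (volume C * (c * ∫⁻ x in S, dens φ x) +
            volume A * (c' * ∫⁻ x in S, dens φ x))) := by
          refine mul_le_mul_right (h2.trans (mul_le_mul_right (add_le_add ?_ ?_) _)) _
          · exact mul_le_mul_right (h φ hφ) _
          · exact mul_le_mul_right (h' φ hφ) _
      _ = _ := by ring

/-- a bounded convex set is linked to itself -/
theorem Lk.convex (hB : MeasurableSet B) (hc : Convex ℝ B) (hbd : Bornology.IsBounded B)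
    (hBS : B ⊆ S) : Lk S B B := by
  obtain ⟨R, hR⟩ := hbd.exists_norm_le
  have hBt : volume B ≠ ⊤ := hbd.measure_lt_top.ne
  refine ⟨ENNReal.ofReal ((2 * R) ^ 2) * (8 * volume B), ENNReal.mul_ne_top
    ENNReal.ofReal_ne_top (ENNReal.mul_ne_top (by simp) hBt), fun φ hφ => ?_⟩
  set I := Icc (0 : ℝ) 1 with hI
  have hg := dens_meas hφ
  have hnn : ∀ {y z : E}, y ∈ B → z ∈ B → ‖z - y‖ ^ 2 ≤ (2 * R) ^ 2 := by
    intro y z hy hz
    have h1 := norm_sub_le z y
    have h2 := hR y hy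
    have h3 := hR z hz
    exact pow_le_pow_left₀ (norm_nonneg _) (by linarith) 2
  have hct : ∀ {a : ℝ}, 1 / 2 ≤ a → ENNReal.ofReal |(a ^ 3)⁻¹| ≤ 8 := by
    intro a ha
    have h8 : (8 : ℝ≥0∞) = ENNReal.ofReal 8 := by simp
    rw [h8]
    refine ENNReal.ofReal_le_ofReal ?_
    have h1 : (1 / 2 : ℝ) ^ 3 ≤ a ^ 3 := pow_le_pow_left₀ (by norm_num) ha 3
    rw [abs_of_nonneg (by positivity)]
    calc (a ^ 3)⁻¹ ≤ ((1 / 2 : ℝ) ^ 3)⁻¹ := inv_anti₀ (by norm_num) h1
      _ = 8 := by norm_num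
  have hkey : ∀ t ∈ I, ∫⁻ y in B, ∫⁻ z in B, dens φ (y + t • (z - y)) ≤
      8 * volume B * ∫⁻ x in B, dens φ x := by
    intro t ht
    have hin : ∀ {y z : E}, y ∈ B → z ∈ B → (1 - t) • y + t • z ∈ B := fun {y z} hy hz =>
      hc hy hz (by linarith [ht.2]) ht.1 (by ring)
    have e1 : ∀ y z : E, y + t • (z - y) = (1 - t) • y + t • z := fun y z => by
      rw [smul_sub, sub_smul, one_smul]; abel
    by_cases h : 1 / 2 ≤ t
    · calc ∫⁻ y in B, ∫⁻ z in B, dens φ (y + t • (z - y))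
          ≤ ∫⁻ _ in B, 8 * ∫⁻ x in B, dens φ x := by
            refine setLIntegral_mono' hB fun y hy => ?_
            simp_rw [e1]
            refine (shift hB hB hg ((1 - t) • y) (a := t) (by linarith) fun z hz =>
              hin hy hz).trans ?_
            gcongr
            exact hct h
        _ = _ := by rw [setLIntegral_const]; ring
    · have h' : 1 / 2 ≤ 1 - t := by linarith [not_le.1 h]
      have hsw : ∫⁻ y in B, ∫⁻ z in B, dens φ (y + t • (z - y)) =
          ∫⁻ z in B, ∫⁻ y in B, dens φ (y + t • (z - y)) := by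
        refine lintegral_lintegral_swap ?_
        refine (hg.comp (Continuous.measurable ?_)).aemeasurable
        fun_prop
      rw [hsw]
      calc ∫⁻ z in B, ∫⁻ y in B, dens φ (y + t • (z - y))
          ≤ ∫⁻ _ in B, 8 * ∫⁻ x in B, dens φ x := by
            refine setLIntegral_mono' hB fun z hz => ?_
            simp_rw [e1]
            simp_rw [add_comm ((1 - t) • _) (t • z)]
            refine (shift hB hB hg (t • z) (a := 1 - t) (by linarith) fun y hy => ?_).trans ?_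
            · rw [add_comm]
              exact hin hy hz
            · gcongr
              exact hct h'
        _ = _ := by rw [setLIntegral_const]; ring
  have hF : Measurable fun p : E × ℝ => ∫⁻ z in B, dens φ (p.1 + p.2 • (z - p.1)) := by
    refine Measurable.lintegral_prod_right'
      (f := fun q : (E × ℝ) × E => dens φ (q.1.1 + q.1.2 • (q.2 - q.1.1))) ?_
    refine hg.comp (Continuous.measurable ?_)
    fun_prop
  set cR := ENNReal.ofReal ((2 * R) ^ 2) with hcR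
  have hcRt : cR ≠ ⊤ := ENNReal.ofReal_ne_top
  calc J B B φ ≤ ∫⁻ y in B, ∫⁻ z in B, cR * ∫⁻ t in I, dens φ (y + t • (z - y)) := by
        refine setLIntegral_mono' hB fun y hy => setLIntegral_mono' hB fun z hz => ?_
        have h1 := seg hφ y (z - y)
        rw [add_sub_cancel] at h1
        rw [dif_comm]
        refine h1.trans ?_
        gcongr ?_ * ?_
        · exact ENNReal.ofReal_le_ofReal (hnn hy hz)
        · exact le_rfl
    _ = cR * ∫⁻ y in B, ∫⁻ z in B, ∫⁻ t in I, dens φ (y + t • (z - y)) := by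
        rw [← lintegral_const_mul' _ _ hcRt]
        refine lintegral_congr fun y => ?_
        rw [← lintegral_const_mul' _ _ hcRt]
    _ = cR * ∫⁻ y in B, ∫⁻ t in I, ∫⁻ z in B, dens φ (y + t • (z - y)) := by
        congr 1
        refine lintegral_congr fun y => ?_
        refine lintegral_lintegral_swap ?_
        refine (hg.comp (Continuous.measurable ?_)).aemeasurable
        fun_prop
    _ = cR * ∫⁻ t in I, ∫⁻ y in B, ∫⁻ z in B, dens φ (y + t • (z - y)) := by
        congr 1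
        exact lintegral_lintegral_swap hF.aemeasurable
    _ ≤ cR * ∫⁻ _ in I, 8 * volume B * ∫⁻ x in B, dens φ x := by
        gcongr cR * ?_
        exact setLIntegral_mono' measurableSet_Icc hkey
    _ = cR * (8 * volume B) * ∫⁻ x in B, dens φ x := by
        rw [setLIntegral_const]
        simp [hI]
        ring
    _ ≤ cR * (8 * volume B) * ∫⁻ x in S, dens φ x := by
        gcongr

/-- translation along a segment in the domain -/
theorem Lk.seg (hA : MeasurableSet A) (hB : MeasurableSet B) (hS : MeasurableSet S) {v : E}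
    (hAS : ∀ y ∈ A, ∀ t ∈ Icc (0 : ℝ) 1, y + t • v ∈ S) (hAB : ∀ y ∈ A, y + v ∈ B)
    (hBt : volume B ≠ ⊤) (hBB : Lk S B B) : Lk S A B := by
  obtain ⟨c, hc, h⟩ := hBB
  refine ⟨2 * (volume B * ENNReal.ofReal (‖v‖ ^ 2) + c), ENNReal.mul_ne_top (by simp)
    (ENNReal.add_ne_top.2 ⟨ENNReal.mul_ne_top hBt ENNReal.ofReal_ne_top, hc⟩), fun φ hφ => ?_⟩
  have hg := dens_meas hφ
  have hm : Measurable fun y => ∫⁻ b in B, dif φ y b := (dif_meas hφ).lintegral_prod_right'
  have hmv : Measurable fun y => dif φ y (y + v) :=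
    (dif_meas hφ).comp (Continuous.measurable (by fun_prop : Continuous fun y => (y, y + v)))
  have tr : ∀ (B' : Set E) (hB' : MeasurableSet B') (w : E) (g : E → ℝ≥0∞), Measurable g →
      (∀ y ∈ A, y + w ∈ B') → ∫⁻ y in A, g (y + w) ≤ ∫⁻ y in B', g y := by
    intro B' hB' w g hg hAB'
    have h1 := shift hA hB' hg w (a := 1) one_ne_zero fun y hy => by
      rw [one_smul, add_comm]; exact hAB' y hy
    simp only [one_smul, add_comm w] at h1
    simpa using h1
  have h1 : ∫⁻ y in A, dif φ y (y + v) ≤ ENNReal.ofReal (‖v‖ ^ 2) * ∫⁻ x in S, dens φ x := by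
    set I := Icc (0 : ℝ) 1 with hI
    calc ∫⁻ y in A, dif φ y (y + v)
        ≤ ∫⁻ y in A, ENNReal.ofReal (‖v‖ ^ 2) * ∫⁻ t in I, dens φ (y + t • v) := by
          refine lintegral_mono fun y => ?_
          rw [dif_comm]
          exact Poin.seg hφ y v
      _ = ENNReal.ofReal (‖v‖ ^ 2) * ∫⁻ y in A, ∫⁻ t in I, dens φ (y + t • v) :=
          lintegral_const_mul' _ _ ENNReal.ofReal_ne_top
      _ = ENNReal.ofReal (‖v‖ ^ 2) * ∫⁻ t in I, ∫⁻ y in A, dens φ (y + t • v) := by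
          congr 1
          refine lintegral_lintegral_swap ?_
          refine (hg.comp (Continuous.measurable ?_)).aemeasurable
          fun_prop
      _ ≤ ENNReal.ofReal (‖v‖ ^ 2) * ∫⁻ _ in I, ∫⁻ x in S, dens φ x := by
          gcongr ENNReal.ofReal (‖v‖ ^ 2) * ?_
          exact setLIntegral_mono' measurableSet_Icc fun t ht =>
            tr S hS (t • v) (dens φ) hg fun y hy => hAS y hy t ht
      _ = _ := by
          rw [setLIntegral_const]
          simp [hI]
  have h2 : ∫⁻ y in A, ∫⁻ z in B, dif φ (y + v) z ≤ J B B φ :=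
    tr B hB v (fun y => ∫⁻ z in B, dif φ y z) hm hAB
  calc J A B φ ≤ ∫⁻ y in A, ∫⁻ z in B, 2 * (dif φ y (y + v) + dif φ (y + v) z) := by
        refine lintegral_mono fun y => lintegral_mono fun z => ?_
        have := dif_tri φ y (y + v) z
        rwa [dif_comm φ z] at this
    _ = 2 * ∫⁻ y in A, (volume B * dif φ y (y + v) + ∫⁻ z in B, dif φ (y + v) z) := by
        rw [← lintegral_const_mul' _ _ (by simp)]
        refine lintegral_congr fun y => ?_
        rw [lintegral_const_mul' _ _ (by simp), lintegral_add_left measurable_const,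
          setLIntegral_const, mul_comm (volume B)]
    _ = 2 * (volume B * (∫⁻ y in A, dif φ y (y + v)) + ∫⁻ y in A, ∫⁻ z in B, dif φ (y + v) z) := by
        rw [lintegral_add_left (hmv.const_mul _), lintegral_const_mul _ hmv]
    _ ≤ 2 * (volume B * (ENNReal.ofReal (‖v‖ ^ 2) * ∫⁻ x in S, dens φ x) +
          c * ∫⁻ x in S, dens φ x) := by
        exact mul_le_mul_right (add_le_add (mul_le_mul_right h1 _) (h2.trans (h φ hφ))) _
    _ = _ := by ring

/-- pushing a neighbourhood of a boundary point into the domain -/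
theorem bdry_local {ρ : E → ℝ} (hρ : Dom ρ) {x0 : E} (h0 : ρ x0 = 0) :
    ∃ r > 0, ∃ v : E, (∀ y ∈ Metric.ball x0 r ∩ D ρ, ∀ t ∈ Icc (0 : ℝ) 1, y + t • v ∈ D ρ) ∧
      Metric.ball (x0 + v) r ⊆ D ρ := by
  have hc : Continuous ρ := ContDiff.continuous hρ.smooth
  have hop : IsOpen (D ρ) := isOpen_lt hc continuous_const
  have hcd : Continuous (fderiv ℝ ρ) := hρ.smooth.continuous_fderiv (by simp)
  have hreg := hρ.reg x0 h0
  set N : E := gr ρ x0 with hN
  have hN0 : N ≠ 0 := by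
    intro h0
    apply hreg
    ext v
    rw [← inner_gr, ← hN, h0]
    simp
  have hNn : 0 < ‖N‖ := norm_pos_iff.2 hN0
  have hopn : IsOpen {x | fderiv ℝ ρ x (-N) < 0} :=
    isOpen_lt (hcd.clm_apply continuous_const) continuous_const
  have hx0 : x0 ∈ {x | fderiv ℝ ρ x (-N) < 0} := by
    show fderiv ℝ ρ x0 (-N) < 0
    rw [← inner_gr, ← hN, inner_neg_left, real_inner_self_eq_norm_sq]
    have : 0 < ‖N‖ ^ 2 := by positivity
    linarith
  obtain ⟨δ, hδ, hb⟩ := Metric.isOpen_iff.1 hopn x0 hx0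
  set ε : ℝ := δ / (2 * (‖N‖ + 1)) with hε
  have hε0 : 0 < ε := by positivity
  set v : E := ε • (-N) with hv
  have hvn : ‖v‖ < δ / 2 := by
    rw [hv, norm_smul, norm_neg, Real.norm_eq_abs, abs_of_pos hε0, hε, div_mul_eq_mul_div,
      div_lt_div_iff₀ (by positivity) (by norm_num)]
    nlinarith
  have hdec : ∀ y ∈ Metric.ball x0 (δ / 2),
      StrictAntiOn (fun t : ℝ => ρ (y + t • v)) (Icc 0 1) := by
    intro y hy
    have hγ : Continuous fun s : ℝ => y + s • v := by fun_prop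
    refine strictAntiOn_of_deriv_neg (convex_Icc 0 1) (hc.comp hγ).continuousOn fun t ht => ?_
    rw [interior_Icc] at ht
    have h1 : HasDerivAt (fun s : ℝ => y + s • v) v t := by
      simpa using ((hasDerivAt_id t).smul_const v).const_add y
    have h2 : HasFDerivAt ρ (fderiv ℝ ρ (y + t • v)) (y + t • v) :=
      (Sm.differentiable hρ.smooth).differentiableAt.hasFDerivAt
    have h3 : HasDerivAt (fun t : ℝ => ρ (y + t • v)) (fderiv ℝ ρ (y + t • v) v) t :=
      h2.comp_hasDerivAt t h1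
    rw [h3.deriv]
    have h4 : y + t • v ∈ Metric.ball x0 δ := by
      rw [Metric.mem_ball, dist_eq_norm] at hy ⊢
      have e1 : y + t • v - x0 = (y - x0) + t • v := by abel
      have e2 : ‖t • v‖ ≤ ‖v‖ := by
        rw [norm_smul, Real.norm_eq_abs, abs_of_pos ht.1]
        exact mul_le_of_le_one_left (norm_nonneg v) ht.2.le
      rw [e1]
      have := norm_add_le (y - x0) (t • v)
      linarith
    have h5 : fderiv ℝ ρ (y + t • v) (-N) < 0 := hb h4
    rw [hv, map_smul, smul_eq_mul]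
    exact mul_neg_of_pos_of_neg hε0 h5
  have h1 : x0 + v ∈ D ρ := by
    have h2 := hdec x0 (Metric.mem_ball_self (by positivity)) (left_mem_Icc.2 zero_le_one)
      (right_mem_Icc.2 zero_le_one) zero_lt_one
    simp only [one_smul, zero_smul, add_zero] at h2
    show ρ (x0 + v) < 0
    rw [← h0]
    exact h2
  obtain ⟨r1, hr1, hb1⟩ := Metric.isOpen_iff.1 hop (x0 + v) h1
  refine ⟨min r1 (δ / 2), lt_min hr1 (by positivity), v, ?_,
    (Metric.ball_subset_ball (min_le_left _ _)).trans hb1⟩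
  intro y hy t ht
  have h3 := (hdec y (Metric.ball_subset_ball (min_le_right _ _) hy.1)).antitoneOn
    (left_mem_Icc.2 zero_le_one) ht ht.1
  simp only [zero_smul, add_zero] at h3
  have h4 : ρ y < 0 := hy.2
  show ρ (y + t • v) < 0
  linarith

theorem ball_fin (x : E) (r : ℝ) : volume (Metric.ball x r) ≠ ⊤ :=
  Metric.isBounded_ball.measure_lt_top.ne

theorem ball_pos' (x : E) {r : ℝ} (hr : 0 < r) : volume (Metric.ball x r) ≠ 0 :=
  (Metric.measure_ball_pos volume x hr).ne'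

theorem ball_self {x : E} {r : ℝ} (h : Metric.ball x r ⊆ S) :
    Lk S (Metric.ball x r) (Metric.ball x r) :=
  Lk.convex measurableSet_ball (convex_ball x r) Metric.isBounded_ball h

theorem Lk.trans' {x : E} {r r' : ℝ} (hr : 0 < r) (hr' : 0 < r') (hA : volume A ≠ ⊤)
    (hC : volume C ≠ ⊤) (h : Lk S A (Metric.ball x r)) (h' : Lk S (Metric.ball x r') C) :
    Lk S A C :=
  Lk.trans (ball_pos' x (lt_min hr hr')) (ball_fin x _) hA hC
    (h.mono le_rfl (Metric.ball_subset_ball (min_le_left r r')))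
    (h'.symm.mono le_rfl (Metric.ball_subset_ball (min_le_right r r')))

/-- small balls around any two points of a connected open set are linked -/
theorem inner_linked (hop : IsOpen S) (hconn : IsPreconnected S) {x y : E} (hx : x ∈ S)
    (hy : y ∈ S) : ∃ r > 0, ∃ r' > 0, Lk S (Metric.ball x r) (Metric.ball y r') := by
  refine hconn.induction₂ (fun x y => ∃ r > 0, ∃ r' > 0,
    Lk S (Metric.ball x r) (Metric.ball y r')) ?_ ?_ ?_ hx hy
  · intro x hx
    obtain ⟨r, hr, hb⟩ := Metric.isOpen_iff.1 hop x hx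
    refine nhdsWithin_le_nhds ?_
    filter_upwards [Metric.ball_mem_nhds x (half_pos hr)] with y hy
    refine ⟨r, hr, r / 2, half_pos hr, (ball_self hb).mono le_rfl ?_⟩
    refine Metric.ball_subset_ball' ?_
    rw [Metric.mem_ball] at hy
    linarith
  · rintro x y z hx hy hz ⟨r, hr, r1, hr1, h1⟩ ⟨s, hs, s1, hs1, h2⟩
    exact ⟨r, hr, s1, hs1, Lk.trans' hr1 hs (ball_fin _ _) (ball_fin _ _) h1 h2⟩
  · rintro x y hx hy ⟨r, hr, r1, hr1, h1⟩
    exact ⟨r1, hr1, r, hr, h1.symm⟩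

theorem all_linked {ρ : E → ℝ} (hρ : Dom ρ) (hconn : IsPreconnected (D ρ)) {x0 : E} {r0 : ℝ}
    (hr0 : 0 < r0) (hb0 : Metric.ball x0 r0 ⊆ D ρ) : Lk (D ρ) (D ρ) (Metric.ball x0 r0) := by
  have hc : Continuous ρ := ContDiff.continuous hρ.smooth
  have hop : IsOpen (D ρ) := isOpen_lt hc continuous_const
  have hDt : volume (D ρ) ≠ ⊤ := hρ.bdd.measure_lt_top.ne
  have hx0 : x0 ∈ D ρ := hb0 (Metric.mem_ball_self hr0)
  have hbase : ∀ x ∈ D ρ, ∃ r > 0, Lk (D ρ) (Metric.ball x r) (Metric.ball x0 r0) := by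
    intro x hx
    obtain ⟨r, hr, r', hr', h⟩ := inner_linked hop hconn hx hx0
    exact ⟨r, hr, Lk.trans' hr' hr0 (ball_fin _ _) (ball_fin _ _) h (ball_self hb0)⟩
  have hcpt : IsCompact (closure (D ρ)) := hρ.bdd.isCompact_closure
  have hmain : Lk (D ρ) (closure (D ρ) ∩ D ρ) (Metric.ball x0 r0) := by
    refine hcpt.induction_on (p := fun t => Lk (D ρ) (t ∩ D ρ) (Metric.ball x0 r0)) ?_ ?_ ?_ ?_
    · exact ⟨0, by simp, fun φ hφ => by simp [J]⟩
    · intro s t hst h
      exact h.mono (inter_subset_inter_left _ hst) le_rfl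
    · intro s t hs ht
      rw [union_inter_distrib_right]
      exact hs.union ht
    · intro x hx
      have hx0' : ρ x ≤ 0 := by
        have : closure (D ρ) ⊆ {x | ρ x ≤ 0} :=
          closure_minimal (fun x (hx : ρ x < 0) => hx.le) (isClosed_le hc continuous_const)
        exact this hx
      rcases hx0'.lt_or_eq with h | h
      · obtain ⟨r, hr, hL⟩ := hbase x h
        exact ⟨Metric.ball x r, nhdsWithin_le_nhds (Metric.ball_mem_nhds x hr),
          hL.mono inter_subset_left le_rfl⟩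
      · obtain ⟨r, hr, v, hv1, hv2⟩ := bdry_local hρ h
        have hxv : x + v ∈ D ρ := hv2 (Metric.mem_ball_self hr)
        obtain ⟨s, hs, hL⟩ := hbase (x + v) hxv
        refine ⟨Metric.ball x r, nhdsWithin_le_nhds (Metric.ball_mem_nhds x hr), ?_⟩
        refine Lk.trans' hr hs ?_ (ball_fin _ _) (?_ : Lk (D ρ) (Metric.ball x r ∩ D ρ)
          (Metric.ball (x + v) r)) hL
        · exact (Metric.isBounded_ball.subset inter_subset_left).measure_lt_top.ne
        · refine Lk.seg (measurableSet_ball.inter hop.measurableSet) measurableSet_ball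
            hop.measurableSet hv1 ?_ (ball_fin _ _) (ball_self hv2)
          intro y hy
          have h1 := hy.1
          rw [Metric.mem_ball] at h1 ⊢
          rwa [dist_add_right]
  exact hmain.mono (fun x hx => ⟨subset_closure hx, hx⟩) le_rfl

end MPfab.Poin

namespace MPfab

open Poin

theorem specPoin : SpecPoin := by
  intro ρ hρ hconn
  have hc : Continuous ρ := ContDiff.continuous hρ.smooth
  have hop : IsOpen (D ρ) := isOpen_lt hc continuous_const
  obtain ⟨x0, hx0⟩ := hconn.nonempty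
  obtain ⟨r0, hr0, hb0⟩ := Metric.isOpen_iff.1 hop x0 hx0
  obtain ⟨C, hC, h⟩ := (all_linked hρ hconn.isPreconnected hr0 hb0).symm
  have hv0 := ball_pos' x0 hr0
  have hvt := ball_fin x0 r0
  set K := (volume (Metric.ball x0 r0))⁻¹ * C with hK
  have hKt : K ≠ ⊤ := ENNReal.mul_ne_top (ENNReal.inv_ne_top.2 hv0) hC
  refine ⟨K.toReal, fun φ hφ => ?_⟩
  have hcpt : IsCompact (closure (D ρ)) := hρ.bdd.isCompact_closure
  have hm : Measurable fun y => ∫⁻ b in D ρ, dif φ y b := (dif_meas hφ).lintegral_prod_right'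
  obtain ⟨z, -, hz⟩ := exists_le_setLAverage hv0 hvt hm.aemeasurable
  rw [setLAverage_eq] at hz
  have hφc : Continuous φ := ContDiff.continuous hφ
  have hgc : Continuous (gr φ) := ContDiff.continuous (Sm.gr hφ)
  have i1 : Integrable (fun x => (φ x - φ z) ^ 2) (volume.restrict (D ρ)) := by
    have : Continuous fun x => (φ x - φ z) ^ 2 := by fun_prop
    exact (this.continuousOn.integrableOn_compact hcpt).mono_set subset_closure
  have i2 : Integrable (fun x => ‖gr φ x‖ ^ 2) (volume.restrict (D ρ)) := by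
    have : Continuous fun x => ‖gr φ x‖ ^ 2 := by fun_prop
    exact (this.continuousOn.integrableOn_compact hcpt).mono_set subset_closure
  refine ⟨φ z, ?_⟩
  have h0 : 0 ≤ ∫ x in D ρ, ‖gr φ x‖ ^ 2 := integral_nonneg fun x => by positivity
  refine (ENNReal.ofReal_le_ofReal_iff (mul_nonneg ENNReal.toReal_nonneg h0)).1 ?_
  rw [ENNReal.ofReal_mul ENNReal.toReal_nonneg, ENNReal.ofReal_toReal hKt,
    ofReal_integral_eq_lintegral_ofReal i1 (Eventually.of_forall fun y => by positivity),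
    ofReal_integral_eq_lintegral_ofReal i2 (Eventually.of_forall fun y => by positivity)]
  calc ∫⁻ x in D ρ, ENNReal.ofReal ((φ x - φ z) ^ 2) = ∫⁻ x in D ρ, dif φ z x :=
        lintegral_congr fun x => dif_comm φ x z
    _ ≤ (∫⁻ y in Metric.ball x0 r0, ∫⁻ b in D ρ, dif φ y b) / volume (Metric.ball x0 r0) := hz
    _ = (volume (Metric.ball x0 r0))⁻¹ * J (Metric.ball x0 r0) (D ρ) φ := by
        rw [div_eq_mul_inv, mul_comm]
        rfl
    _ ≤ (volume (Metric.ball x0 r0))⁻¹ * (C * ∫⁻ x in D ρ, dens φ x) :=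
        mul_le_mul_right (h φ hφ) _
    _ = K * ∫⁻ x in D ρ, ENNReal.ofReal (‖gr φ x‖ ^ 2) := by
        rw [hK, mul_assoc]
        rfl

end MPfab
end

section
/-!
MP_fabde4_an, module SEEC: coefficients with prescribed moments.
-/
set_option autoImplicit false
open Finset

namespace MPfab
namespace Seec

/-- a point mass at the node `N - 1` (so that `k + 1 = N`) -/
lemma hasSum_pt (N : ℕ) (hN : 1 ≤ N) (w : ℝ) (j : ℕ) :
    HasSum (fun k : ℕ => (if k + 1 = N then w else 0) * ((k : ℝ) + 1) ^ j) (w * (N : ℝ) ^ j) := by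
  obtain ⟨m, rfl⟩ : ∃ m, N = m + 1 := ⟨N - 1, by omega⟩
  have h := hasSum_single (f := fun k : ℕ => (if k + 1 = m + 1 then w else 0) * ((k : ℝ) + 1) ^ j) m
    (fun k hk => by
      rw [if_neg (by omega), zero_mul])
  simpa using h

/-- the coefficients of the scaled finite difference -/
noncomputable def wt (c : ℝ) (n R i : ℕ) : ℝ :=
  c / (n.factorial * (R : ℝ) ^ n) * ((-1) ^ (n - i) * (n.choose i : ℝ))

/-- the scaled finite difference -/
noncomputable def dd (c : ℝ) (n R : ℕ) (k : ℕ) : ℝ :=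
  ∑ i ∈ range (n + 1), if k + 1 = (i + 1) * R then wt c n R i else 0

lemma hasSum_dd (c : ℝ) (n R : ℕ) (hR : 1 ≤ R) (j : ℕ) :
    HasSum (fun k : ℕ => dd c n R k * ((k : ℝ) + 1) ^ j)
      (∑ i ∈ range (n + 1), wt c n R i * (((i + 1) * R : ℕ) : ℝ) ^ j) := by
  unfold dd
  simp only [Finset.sum_mul]
  exact hasSum_sum fun i _ => hasSum_pt ((i + 1) * R) (Nat.mul_pos (by omega) hR) _ j

lemma abs_dd (c : ℝ) (n R : ℕ) (hR : 1 ≤ R) (j : ℕ) :
    Summable (fun k : ℕ => |dd c n R k| * ((k : ℝ) + 1) ^ j) ∧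
      ∑' k : ℕ, |dd c n R k| * ((k : ℝ) + 1) ^ j ≤
        ∑ i ∈ range (n + 1), |wt c n R i| * (((i + 1) * R : ℕ) : ℝ) ^ j := by
  have h1 : HasSum (fun k : ℕ => (∑ i ∈ range (n + 1),
      if k + 1 = (i + 1) * R then |wt c n R i| else 0) * ((k : ℝ) + 1) ^ j)
      (∑ i ∈ range (n + 1), |wt c n R i| * (((i + 1) * R : ℕ) : ℝ) ^ j) := by
    simp only [Finset.sum_mul]
    exact hasSum_sum fun i _ => hasSum_pt ((i + 1) * R) (Nat.mul_pos (by omega) hR) _ j
  have h2 : ∀ k : ℕ, |dd c n R k| * ((k : ℝ) + 1) ^ j ≤ (∑ i ∈ range (n + 1),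
      if k + 1 = (i + 1) * R then |wt c n R i| else 0) * ((k : ℝ) + 1) ^ j := by
    intro k
    refine mul_le_mul_of_nonneg_right ?_ (by positivity)
    unfold dd
    refine (Finset.abs_sum_le_sum_abs _ _).trans (Finset.sum_le_sum fun i _ => ?_)
    split_ifs <;> simp
  have h3 : Summable (fun k : ℕ => |dd c n R k| * ((k : ℝ) + 1) ^ j) :=
    Summable.of_nonneg_of_le (fun k => by positivity) h2 h1.summable
  exact ⟨h3, (Summable.tsum_le_tsum h2 h3 h1.summable).trans_eq h1.tsum_eq⟩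

lemma sum_pow (n j : ℕ) (y : ℝ) : (∑ i ∈ range (n + 1),
    ((-1 : ℝ) ^ (n - i) * (n.choose i : ℝ)) * (y + i) ^ j) =
      (fwdDiff (1 : ℝ))^[n] (fun r : ℝ => r ^ j) y := by
  rw [fwdDiff_iter_eq_sum_shift]
  refine Finset.sum_congr rfl fun i _ => ?_
  simp [zsmul_eq_mul]

lemma moment (c : ℝ) (n R : ℕ) (j : ℕ) :
    (∑ i ∈ range (n + 1), wt c n R i * (((i + 1) * R : ℕ) : ℝ) ^ j) =
      c / (n.factorial * (R : ℝ) ^ n) * (R : ℝ) ^ j *
        (fwdDiff (1 : ℝ))^[n] (fun r : ℝ => r ^ j) 1 := by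
  rw [← sum_pow, Finset.mul_sum]
  refine Finset.sum_congr rfl fun i _ => ?_
  unfold wt
  push_cast
  rw [mul_pow]
  ring

lemma exists_step (c : ℝ) (n : ℕ) : ∃ d : ℕ → ℝ,
    (∀ j, Summable fun k : ℕ => |d k| * ((k : ℝ) + 1) ^ j) ∧
    (∀ j < n, ∑' k : ℕ, d k * ((k : ℝ) + 1) ^ j = 0) ∧
    (∑' k : ℕ, d k * ((k : ℝ) + 1) ^ n = c) ∧
    ∀ j < n, ∑' k : ℕ, |d k| * ((k : ℝ) + 1) ^ j ≤ (1 / 2 : ℝ) ^ n := by
  obtain ⟨R0, hR0⟩ := exists_nat_ge (|c| * (2 : ℝ) ^ n * ((n : ℝ) + 1) ^ n * 2 ^ n)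
  set R := R0 + 1 with hR
  have hR1 : 1 ≤ R := by omega
  have hRr : (1 : ℝ) ≤ R := by exact_mod_cast hR1
  have hRb : |c| * (2 : ℝ) ^ n * ((n : ℝ) + 1) ^ n * 2 ^ n ≤ R := by
    rw [hR]; push_cast; linarith
  refine ⟨dd c n R, fun j => (abs_dd c n R hR1 j).1, fun j hj => ?_, ?_, fun j hj => ?_⟩
  · rw [(hasSum_dd c n R hR1 j).tsum_eq, moment, fwdDiff_iter_pow_eq_zero_of_lt hj]
    simp
  · rw [(hasSum_dd c n R hR1 n).tsum_eq, moment, fwdDiff_iter_eq_factorial]
    have h1 : (n.factorial : ℝ) ≠ 0 := by positivity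
    have h2 : (R : ℝ) ^ n ≠ 0 := by positivity
    simp only [Pi.natCast_apply]
    field_simp
  · refine (abs_dd c n R hR1 j).2.trans ?_
    have h1 : ∀ i ∈ range (n + 1), |wt c n R i| * (((i + 1) * R : ℕ) : ℝ) ^ j ≤
        (|c| * ((n : ℝ) + 1) ^ n / R) * (n.choose i : ℝ) := by
      intro i hi
      have hi' : i ≤ n := by simpa [Nat.lt_succ_iff] using hi
      unfold wt
      rw [abs_mul, abs_mul, abs_div, abs_pow, abs_neg, abs_one, one_pow, one_mul]
      push_cast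
      rw [mul_pow, abs_of_nonneg (by positivity : (0 : ℝ) ≤ (n.factorial : ℝ) * (R : ℝ) ^ n),
        abs_of_nonneg (by positivity : (0 : ℝ) ≤ (n.choose i : ℝ))]
      have h3 : ((i : ℝ) + 1) ^ j ≤ ((n : ℝ) + 1) ^ n := by
        have h4 : ((i : ℝ) + 1) ≤ (n : ℝ) + 1 := by
          have : (i : ℝ) ≤ n := by exact_mod_cast hi'
          linarith
        calc ((i : ℝ) + 1) ^ j ≤ ((n : ℝ) + 1) ^ j := by gcongr
          _ ≤ ((n : ℝ) + 1) ^ n := by
            apply pow_le_pow_right₀ _ hj.le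
            have : (0 : ℝ) ≤ n := by positivity
            linarith
      have h5 : (R : ℝ) ^ j / ((n.factorial : ℝ) * (R : ℝ) ^ n) ≤ 1 / R := by
        rw [div_le_div_iff₀ (by positivity) (by positivity)]
        have h6 : (R : ℝ) ^ j * R ≤ (R : ℝ) ^ n := by
          rw [← pow_succ]
          exact pow_le_pow_right₀ hRr hj
        have h7 : (1 : ℝ) ≤ n.factorial := by exact_mod_cast Nat.succ_le_of_lt n.factorial_pos
        have h8 : (R : ℝ) ^ n ≤ (n.factorial : ℝ) * (R : ℝ) ^ n := by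
          have : (0 : ℝ) ≤ (R : ℝ) ^ n := by positivity
          nlinarith
        linarith
      calc |c| / ((n.factorial : ℝ) * (R : ℝ) ^ n) * (n.choose i : ℝ) *
            (((i : ℝ) + 1) ^ j * (R : ℝ) ^ j)
          = |c| * ((i : ℝ) + 1) ^ j * ((R : ℝ) ^ j / ((n.factorial : ℝ) * (R : ℝ) ^ n)) *
            (n.choose i : ℝ) := by ring
        _ ≤ |c| * ((n : ℝ) + 1) ^ n * (1 / R) * (n.choose i : ℝ) := by gcongr
        _ = _ := by ring
    refine (Finset.sum_le_sum h1).trans ?_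
    rw [← Finset.mul_sum]
    have h2 : (∑ i ∈ range (n + 1), (n.choose i : ℝ)) = 2 ^ n := by
      exact_mod_cast Nat.sum_range_choose n
    rw [h2, div_mul_eq_mul_div, div_le_iff₀ (by positivity), one_div, inv_pow,
      ← mul_le_mul_iff_left₀ (by positivity : (0 : ℝ) < 2 ^ n)]
    calc |c| * ((n : ℝ) + 1) ^ n * 2 ^ n * 2 ^ n = |c| * (2 : ℝ) ^ n * ((n : ℝ) + 1) ^ n * 2 ^ n := by
          ring
      _ ≤ R := hRb
      _ = ((2 : ℝ) ^ n)⁻¹ * R * 2 ^ n := by
        field_simp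

end Seec

open Seec in
theorem specSeec : SpecSeec := by
  choose D hD1 hD2 hD3 hD4 using exists_step
  -- partial sums
  let M : ℕ → (ℕ → ℝ) → ℝ := fun n s => ∑' k : ℕ, s k * ((k : ℝ) + 1) ^ n
  let S : ℕ → ℕ → ℝ := fun n => Nat.rec (fun _ => 0)
    (fun n s => s + D ((-1) ^ n - M n s) n) n
  have hS : ∀ n, S (n + 1) = S n + D ((-1) ^ n - M n (S n)) n := fun n => rfl
  let d : ℕ → ℕ → ℝ := fun n => D ((-1) ^ n - M n (S n)) n
  have hds : ∀ n j, Summable fun k : ℕ => |d n k| * ((k : ℝ) + 1) ^ j := fun n j => hD1 _ n j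
  have hds' : ∀ n j, Summable fun k : ℕ => d n k * ((k : ℝ) + 1) ^ j := by
    intro n j
    refine Summable.of_abs ((hds n j).congr fun k => ?_)
    rw [abs_mul, abs_of_nonneg (by positivity : (0 : ℝ) ≤ ((k : ℝ) + 1) ^ j)]
  have hSs : ∀ n j, Summable fun k : ℕ => S n k * ((k : ℝ) + 1) ^ j := by
    intro n j
    induction n with
    | zero => simp [S]
    | succ n ih =>
      rw [hS]
      simp only [Pi.add_apply, add_mul]
      exact ih.add (hds' n j)
  have hMS : ∀ n j, M j (S n) = ∑ i ∈ range n, M j (d i) := by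
    intro n j
    induction n with
    | zero => simp [S, M]
    | succ n ih =>
      rw [Finset.sum_range_succ, ← ih, hS]
      simp only [M, Pi.add_apply, add_mul]
      exact (hSs n j).tsum_add (hds' n j)
  have hM0 : ∀ n j, j < n → M j (d n) = 0 := fun n j h => hD2 _ n j h
  have hMn : ∀ n, M n (d n) = (-1) ^ n - M n (S n) := fun n => hD3 _ n
  -- double sums
  have hF : ∀ j, Summable fun p : ℕ × ℕ => |d p.1 p.2| * ((p.2 : ℝ) + 1) ^ j := by
    intro j
    rw [summable_prod_of_nonneg (fun p => by positivity)]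
    refine ⟨fun n => hds n j, ?_⟩
    rw [← summable_nat_add_iff (j + 1)]
    have h1 : Summable fun n : ℕ => (1 / 2 : ℝ) ^ (n + (j + 1)) :=
      (summable_nat_add_iff (f := fun n : ℕ => (1 / 2 : ℝ) ^ n) (j + 1)).mpr
        (summable_geometric_of_lt_one (by norm_num) (by norm_num))
    have h2 : ∀ n, ∑' k : ℕ, |d (n + (j + 1)) k| * ((k : ℝ) + 1) ^ j ≤
        (1 / 2 : ℝ) ^ (n + (j + 1)) := fun n => hD4 _ (n + (j + 1)) j (by omega)
    exact Summable.of_nonneg_of_le (fun n => tsum_nonneg fun k => by positivity) h2 h1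
  have hG : ∀ j, Summable fun p : ℕ × ℕ => d p.1 p.2 * ((p.2 : ℝ) + 1) ^ j := by
    intro j
    refine Summable.of_abs ((hF j).congr fun p => ?_)
    rw [abs_mul, abs_of_nonneg (by positivity : (0 : ℝ) ≤ ((p.2 : ℝ) + 1) ^ j)]
  have hF' : ∀ j, Summable fun p : ℕ × ℕ => |d p.2 p.1| * ((p.1 : ℝ) + 1) ^ j :=
    fun j => (hF j).prod_symm
  have hcol : ∀ k, Summable fun n => |d n k| := by
    intro k
    have := (hF' 0).prod_factor k
    simpa using this
  refine ⟨fun k => ∑' n, d n k, fun j => ?_, fun j => ?_⟩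
  · refine Summable.of_nonneg_of_le (fun k => by positivity) (fun k => ?_) (hF' j).prod
    simp only
    rw [tsum_mul_right]
    refine mul_le_mul_of_nonneg_right ?_ (by positivity)
    have := norm_tsum_le_tsum_norm (f := fun n => d n k) (by simpa using hcol k)
    simpa using this
  · calc ∑' k : ℕ, (∑' n, d n k) * ((k : ℝ) + 1) ^ j
        = ∑' k : ℕ, ∑' n, d n k * ((k : ℝ) + 1) ^ j := by
          refine tsum_congr fun k => ?_
          rw [tsum_mul_right]
      _ = ∑' n, ∑' k : ℕ, d n k * ((k : ℝ) + 1) ^ j := by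
          exact Summable.tsum_comm (f := fun n k : ℕ => d n k * ((k : ℝ) + 1) ^ j) (hG j)
      _ = ∑' n, M j (d n) := rfl
      _ = ∑ n ∈ range (j + 1), M j (d n) := by
          refine tsum_eq_sum fun n hn => hM0 n j ?_
          simpa using hn
      _ = (-1) ^ j := by
          rw [Finset.sum_range_succ, ← hMS, hMn]
          ring

end MPfab
end

section
/-!
MP_fabde4_an, module SEEL, part A: series of smooth functions, lemmas on `pds` and `hs`.
-/
set_option autoImplicit false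
open MeasureTheory Set Filter Topology

namespace MPfab
namespace SeelM

/-! ### `pd` and `pds` -/

lemma fderiv_eq_sum' {F : Type*} [NormedAddCommGroup F] [NormedSpace ℝ F] (f : E → F) (x : E) :
    fderiv ℝ f x = ∑ i, (EuclideanSpace.proj i : E →L[ℝ] ℝ).smulRight (pd i f x) := by
  ext v
  rw [fderiv_eq_sum]
  simp

lemma contDiff_succ_of_pd {F : Type*} [NormedAddCommGroup F] [NormedSpace ℝ F] {f : E → F} {n : ℕ}
    (hd : Differentiable ℝ f) (h : ∀ i, ContDiff ℝ n (pd i f)) : ContDiff ℝ (n + 1) f := by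
  rw [contDiff_succ_iff_fderiv]
  refine ⟨hd, by simp, ?_⟩
  have h1 : fderiv ℝ f =
      fun x => ∑ i, (EuclideanSpace.proj i : E →L[ℝ] ℝ).smulRight (pd i f x) :=
    funext fun x => fderiv_eq_sum' f x
  rw [h1]
  exact ContDiff.sum fun i _ => contDiff_const.smulRight (h i)

lemma pd_congr {F : Type*} [NormedAddCommGroup F] [NormedSpace ℝ F] {f g : E → F} {U : Set E}
    (hU : IsOpen U) (h : ∀ x ∈ U, f x = g x) (i : Fin 3) : ∀ x ∈ U, pd i f x = pd i g x := by
  intro x hx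
  have h1 : f =ᶠ[𝓝 x] g := by
    filter_upwards [hU.mem_nhds hx] with y hy
    exact h y hy
  unfold pd
  rw [h1.fderiv_eq]

lemma pds_congr {F : Type*} [NormedAddCommGroup F] [NormedSpace ℝ F] {f g : E → F} {U : Set E}
    (hU : IsOpen U) (h : ∀ x ∈ U, f x = g x) (α : List (Fin 3)) :
    ∀ x ∈ U, pds α f x = pds α g x := by
  induction α with
  | nil => exact h
  | cons i α ih => exact pd_congr hU ih i

lemma pds_sm {F : Type*} [NormedAddCommGroup F] [NormedSpace ℝ F] {f : E → F} (hf : Sm f)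
    (α : List (Fin 3)) : Sm (pds α f) := by
  induction α with
  | nil => exact hf
  | cons i α ih => exact ih.pd i

lemma pd_zero {F : Type*} [NormedAddCommGroup F] [NormedSpace ℝ F] (i : Fin 3) :
    pd i (fun _ : E => (0 : F)) = fun _ => 0 := by
  funext x
  simp [pd]

lemma pds_zero {F : Type*} [NormedAddCommGroup F] [NormedSpace ℝ F] (α : List (Fin 3)) :
    pds α (fun _ : E => (0 : F)) = fun _ => 0 := by
  induction α with
  | nil => rfl
  | cons i α ih => simp only [pds]; rw [ih, pd_zero]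

lemma pds_const_mul {f : E → ℝ} (hf : Sm f) (c : ℝ) (α : List (Fin 3)) :
    pds α (fun x => c * f x) = fun x => c * pds α f x := by
  induction α with
  | nil => rfl
  | cons i α ih =>
    simp only [pds]
    rw [ih]
    funext x
    unfold pd
    rw [fderiv_const_mul ((pds_sm hf α).differentiable x)]
    simp

lemma pds_append {F : Type*} [NormedAddCommGroup F] [NormedSpace ℝ F] (α : List (Fin 3))
    (i : Fin 3) (f : E → F) : pds (α ++ [i]) f = pds α (pd i f) := by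
  induction α with
  | nil => rfl
  | cons j α ih => simp only [List.cons_append, pds]; rw [ih]

lemma pds_eq_zero {F : Type*} [NormedAddCommGroup F] [NormedSpace ℝ F] {f : E → F} {K : Set E}
    (hK : IsClosed K) (h : ∀ x ∉ K, f x = 0) (α : List (Fin 3)) : ∀ x ∉ K, pds α f x = 0 := by
  intro x hx
  have := pds_congr hK.isOpen_compl (f := f) (g := fun _ => 0) (fun y hy => h y hy) α x hx
  rw [this, pds_zero]

/-! ### series -/

lemma norm_fderiv_le (f : E → ℝ) (x : E) : ‖fderiv ℝ f x‖ ≤ ∑ i, |pd i f x| := by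
  refine ContinuousLinearMap.opNorm_le_bound _ (by positivity) fun v => ?_
  rw [fderiv_eq_sum, Finset.sum_mul]
  refine (norm_sum_le _ _).trans (Finset.sum_le_sum fun i _ => ?_)
  rw [norm_smul, mul_comm]
  refine mul_le_mul_of_nonneg_left ?_ (norm_nonneg _)
  exact PiLp.norm_apply_le v i

/-- summable bounds for all derivatives -/
def SB (g : ℕ → E → ℝ) : Prop := ∀ α : List (Fin 3), ∃ u : ℕ → ℝ, Summable u ∧
  ∀ k x, |pds α (g k) x| ≤ u k

lemma SB.pd {g : ℕ → E → ℝ} (h : SB g) (i : Fin 3) : SB fun k => MPfab.pd i (g k) := by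
  intro α
  obtain ⟨u, hu, h1⟩ := h (α ++ [i])
  refine ⟨u, hu, fun k x => ?_⟩
  rw [← pds_append]
  exact h1 k x

lemma SB.summable {g : ℕ → E → ℝ} (h : SB g) (α : List (Fin 3)) (x : E) :
    Summable fun k => pds α (g k) x := by
  obtain ⟨u, hu, h1⟩ := h α
  exact Summable.of_norm_bounded hu fun k => h1 k x

lemma SB.hasFDerivAt {g : ℕ → E → ℝ} (h : SB g) (hg : ∀ k, Sm (g k)) (x : E) :
    HasFDerivAt (fun x => ∑' k, g k x) (∑' k, fderiv ℝ (g k) x) x ∧
      Summable fun k => fderiv ℝ (g k) x := by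
  choose u hu h1 using fun i : Fin 3 => h [i]
  have hs : Summable fun k => ∑ i, u i k := summable_sum fun i _ => hu i
  have hb : ∀ k x, ‖fderiv ℝ (g k) x‖ ≤ ∑ i, u i k := fun k x =>
    (norm_fderiv_le _ _).trans (Finset.sum_le_sum fun i _ => h1 i k x)
  exact ⟨hasFDerivAt_tsum hs (fun k x => ((hg k).differentiable x).hasFDerivAt) hb
    (h.summable [] x) x, Summable.of_norm_bounded hs fun k => hb k x⟩

lemma SB.pd_tsum {g : ℕ → E → ℝ} (h : SB g) (hg : ∀ k, Sm (g k)) (i : Fin 3) :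
    MPfab.pd i (fun x => ∑' k, g k x) = fun x => ∑' k, MPfab.pd i (g k) x := by
  funext x
  obtain ⟨h1, h2⟩ := h.hasFDerivAt hg x
  unfold MPfab.pd
  rw [h1.fderiv]
  exact ((ContinuousLinearMap.apply ℝ ℝ (eb i)).map_tsum h2)

lemma SB.contDiff (n : ℕ) : ∀ g : ℕ → E → ℝ, SB g → (∀ k, Sm (g k)) →
    ContDiff ℝ n (fun x => ∑' k, g k x) := by
  induction n with
  | zero =>
    intro g h hg
    rw [Nat.cast_zero, contDiff_zero]
    exact continuous_iff_continuousAt.mpr fun x => (h.hasFDerivAt hg x).1.continuousAt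
  | succ n ih =>
    intro g h hg
    rw [Nat.cast_succ]
    refine contDiff_succ_of_pd (fun x => (h.hasFDerivAt hg x).1.differentiableAt) fun i => ?_
    rw [h.pd_tsum hg]
    exact ih _ (h.pd i) fun k => (hg k).pd i

lemma SB.sm {g : ℕ → E → ℝ} (h : SB g) (hg : ∀ k, Sm (g k)) : Sm (fun x => ∑' k, g k x) :=
  contDiff_infty.mpr fun n => SB.contDiff n g h hg

lemma SB.pds {g : ℕ → E → ℝ} (h : SB g) (α : List (Fin 3)) : SB fun k => MPfab.pds α (g k) := by
  induction α with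
  | nil => exact h
  | cons i α ih => exact ih.pd i

lemma SB.pds_tsum {g : ℕ → E → ℝ} (h : SB g) (hg : ∀ k, Sm (g k)) (α : List (Fin 3)) :
    MPfab.pds α (fun x => ∑' k, g k x) = fun x => ∑' k, MPfab.pds α (g k) x := by
  induction α with
  | nil => rfl
  | cons i α ih =>
    simp only [MPfab.pds]
    rw [ih]
    exact (h.pds α).pd_tsum (fun k => pds_sm (hg k) α) i

/-! ### `hs` -/

lemma hs_le {F : Type*} [NormedAddCommGroup F] [NormedSpace ℝ F] (S : Set E) (k : ℕ) :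
    ∀ (f : E → F) (C : ℝ), 0 ≤ C →
      (∀ α : List (Fin 3), α.length ≤ k → ∫ x in S, ‖pds α f x‖ ^ 2 ≤ C) →
      hs S k f ≤ 4 ^ k * C := by
  induction k with
  | zero =>
    intro f C _ h
    have := h [] (by simp)
    simpa [hs, pds] using this
  | succ k ih =>
    intro f C hC h
    have h0 := h [] (by simp)
    have h1 : ∀ i : Fin 3, hs S k (pd i f) ≤ 4 ^ k * C := fun i =>
      ih (pd i f) C hC fun α hα => by
        rw [← pds_append]
        exact h _ (by simpa using hα)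
    simp only [hs]
    have h2 : ∑ i : Fin 3, hs S k (pd i f) ≤ 3 * (4 ^ k * C) := by
      refine (Finset.sum_le_sum fun i _ => h1 i).trans_eq ?_
      simp
    have h3 : C ≤ 4 ^ k * C := by
      have : (1 : ℝ) ≤ 4 ^ k := one_le_pow₀ (by norm_num)
      nlinarith
    simp only [pds] at h0
    rw [pow_succ]
    linarith

lemma hs_nonneg {F : Type*} [NormedAddCommGroup F] [NormedSpace ℝ F] (S : Set E) (k : ℕ) :
    ∀ f : E → F, 0 ≤ hs S k f := by
  induction k with
  | zero => intro f; exact integral_nonneg fun x => by positivity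
  | succ k ih =>
    intro f
    exact add_nonneg (integral_nonneg fun x => by positivity) (Finset.sum_nonneg fun i _ => ih _)

lemma le_hs {F : Type*} [NormedAddCommGroup F] [NormedSpace ℝ F] (S : Set E) (k : ℕ) :
    ∀ (f : E → F) (α : List (Fin 3)), α.length ≤ k → ∫ x in S, ‖pds α f x‖ ^ 2 ≤ hs S k f := by
  induction k with
  | zero =>
    intro f α hα
    have : α = [] := by simpa using hα
    rw [this]
    exact le_rfl
  | succ k ih =>
    intro f α hα
    have hn : ∀ i, 0 ≤ hs S k (pd i f) := fun i => hs_nonneg S k _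
    simp only [hs]
    rcases α.eq_nil_or_concat with rfl | ⟨β, i, rfl⟩
    · have := Finset.sum_nonneg fun i (_ : i ∈ Finset.univ) => hn i
      simp only [pds]
      linarith
    · rw [List.concat_eq_append, pds_append]
      have h1 := ih (pd i f) β (by simpa using hα)
      have h2 : hs S k (pd i f) ≤ ∑ i, hs S k (pd i f) :=
        Finset.single_le_sum (f := fun i => hs S k (pd i f)) (fun i _ => hn i) (Finset.mem_univ i)
      have h3 : 0 ≤ ∫ x in S, ‖f x‖ ^ 2 := integral_nonneg fun x => by positivity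
      linarith

/-! ### Cauchy-Schwarz for series -/

lemma cs_tsum {a t : ℕ → ℝ} (ha : Summable fun k => |a k|)
    (hat : Summable fun k => |a k| * t k ^ 2) (hx : Summable fun k => |a k| * |t k|) :
    (∑' k, a k * t k) ^ 2 ≤ (∑' k, |a k|) * ∑' k, |a k| * t k ^ 2 := by
  set A := ∑' k, |a k| with hA
  set B := ∑' k, |a k| * t k ^ 2 with hB
  set X := ∑' k, |a k| * |t k| with hX
  have h0 : |∑' k, a k * t k| ≤ X := by
    have := norm_tsum_le_tsum_norm (f := fun k => a k * t k) (by simpa [abs_mul] using hx)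
    simpa [abs_mul] using this
  have hA0 : 0 ≤ A := tsum_nonneg fun k => abs_nonneg _
  have h1 : ∀ l : ℝ, 0 ≤ B - 2 * l * X + l ^ 2 * A := by
    intro l
    have h2 : B - 2 * l * X + l ^ 2 * A = ∑' k, |a k| * (|t k| - l) ^ 2 := by
      rw [hB, hX, hA, ← tsum_mul_left, ← tsum_mul_left, ← hat.tsum_sub (hx.mul_left (2 * l)),
        ← (hat.sub (hx.mul_left (2 * l))).tsum_add (ha.mul_left (l ^ 2))]
      refine tsum_congr fun k => ?_
      rw [sub_sq, sq_abs]
      ring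
    rw [h2]
    exact tsum_nonneg fun k => by positivity
  have h3 : X ^ 2 ≤ A * B := by
    rcases hA0.eq_or_lt with h | h
    · have h4 : ∀ k, |a k| = 0 := by
        have := (hasSum_zero_iff_of_nonneg (fun k => abs_nonneg (a k))).mp (by
          have := ha.hasSum
          rwa [← hA, ← h] at this)
        exact fun k => congrFun this k
      have : X = 0 := by rw [hX]; simp [h4]
      rw [this, ← h]; simp
    · have := h1 (X / A)
      have h5 : B - 2 * (X / A) * X + (X / A) ^ 2 * A = B - X ^ 2 / A := by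
        field_simp
        ring
      rw [h5, sub_nonneg, div_le_iff₀ h] at this
      linarith
  calc (∑' k, a k * t k) ^ 2 = |∑' k, a k * t k| ^ 2 := (sq_abs _).symm
    _ ≤ X ^ 2 := by gcongr
    _ ≤ A * B := h3

end SeelM
end MPfab
end

section
/-!
MP_fabde4_an, module SEEL, part B: terms `s^m W(x, s ρ x) (∂^β f)(Z (x, s ρ x))` and their
derivatives.
-/
set_option autoImplicit false
open MeasureTheory Set Filter Topology

namespace MPfab
namespace SeelM

/-- a term -/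
structure Tm where
  m : ℕ
  W : E × ℝ → ℝ
  β : List (Fin 3)

/-- value of a term -/
noncomputable def Tm.ev (ρ : E → ℝ) (Z : E × ℝ → E) (τ : Tm) (f : E → ℝ) (s : ℝ) (x : E) : ℝ :=
  s ^ τ.m * τ.W (x, s * ρ x) * pds τ.β f (Z (x, s * ρ x))

/-- admissible terms -/
structure Ok (K : Set (E × ℝ)) (n : ℕ) (τ : Tm) : Prop where
  m : τ.m ≤ n
  β : τ.β.length ≤ n
  sm : Sm τ.W
  sup : ∀ p ∉ K, τ.W p = 0

lemma Ok.ev_sm {ρ : E → ℝ} {Z : E × ℝ → E} {K : Set (E × ℝ)} {n : ℕ} {τ : Tm} (h : Ok K n τ)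
    (hρ : Sm ρ) (hZ : Sm Z) {f : E → ℝ} (hf : Sm f) (s : ℝ) : Sm (τ.ev ρ Z f s) := by
  have h1 : Sm fun x : E => (x, s * ρ x) := contDiff_id.prodMk (contDiff_const.mul hρ)
  exact (contDiff_const.mul (h.sm.comp h1)).mul ((pds_sm hf τ.β).comp (hZ.comp h1))

/-- derivative in `x` of a function of `(x, σ)` -/
noncomputable def dX {F : Type*} [NormedAddCommGroup F] [NormedSpace ℝ F] (i : Fin 3)
    (V : E × ℝ → F) (p : E × ℝ) : F := fderiv ℝ V p (eb i, 0)

/-- derivative in `σ` -/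
noncomputable def dS {F : Type*} [NormedAddCommGroup F] [NormedSpace ℝ F]
    (V : E × ℝ → F) (p : E × ℝ) : F := fderiv ℝ V p (0, 1)

lemma dX_sm {F : Type*} [NormedAddCommGroup F] [NormedSpace ℝ F] {V : E × ℝ → F} (h : Sm V)
    (i : Fin 3) : Sm (dX i V) :=
  (h.fderiv_right (m := ((⊤ : ENat) : WithTop ENat)) (by simp)).clm_apply contDiff_const

lemma dS_sm {F : Type*} [NormedAddCommGroup F] [NormedSpace ℝ F] {V : E × ℝ → F} (h : Sm V) :
    Sm (dS V) :=
  (h.fderiv_right (m := ((⊤ : ENat) : WithTop ENat)) (by simp)).clm_apply contDiff_const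

lemma fderiv_off {V : E × ℝ → ℝ} {K : Set (E × ℝ)} (hK : IsClosed K)
    (h : ∀ p ∉ K, V p = 0) : ∀ p ∉ K, fderiv ℝ V p = 0 := by
  intro p hp
  have h1 : V =ᶠ[𝓝 p] fun _ => 0 := by
    filter_upwards [hK.isOpen_compl.mem_nhds hp] with q hq
    exact h q hq
  rw [h1.fderiv_eq]
  simp

lemma dX_off {V : E × ℝ → ℝ} {K : Set (E × ℝ)} (hK : IsClosed K)
    (h : ∀ p ∉ K, V p = 0) (i : Fin 3) : ∀ p ∉ K, dX i V p = 0 := by
  intro p hp
  simp [dX, fderiv_off hK h p hp]

lemma dS_off {V : E × ℝ → ℝ} {K : Set (E × ℝ)} (hK : IsClosed K)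
    (h : ∀ p ∉ K, V p = 0) : ∀ p ∉ K, dS V p = 0 := by
  intro p hp
  simp [dS, fderiv_off hK h p hp]

/-- derivative of `x ↦ V (x, s ρ x)` -/
lemma pd_comp {F : Type*} [NormedAddCommGroup F] [NormedSpace ℝ F] {ρ : E → ℝ} (hρ : Sm ρ)
    {V : E × ℝ → F} (h : Sm V) (s : ℝ) (i : Fin 3) (x : E) :
    pd i (fun x => V (x, s * ρ x)) x =
      dX i V (x, s * ρ x) + (s * pd i ρ x) • dS V (x, s * ρ x) := by
  have h1 : HasFDerivAt (fun x : E => (x, s * ρ x))
      ((ContinuousLinearMap.id ℝ E).prod (s • fderiv ℝ ρ x)) x :=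
    (hasFDerivAt_id x).prodMk ((hρ.differentiable x).hasFDerivAt.const_mul s)
  have h2 := ((h.differentiable (x, s * ρ x)).hasFDerivAt.comp x h1).fderiv
  unfold pd
  have h3 : (fun x => V (x, s * ρ x)) = V ∘ fun x : E => (x, s * ρ x) := rfl
  rw [h3, h2]
  unfold dX dS
  rw [ContinuousLinearMap.comp_apply, ← map_smul, ← map_add]
  congr 1
  ext <;> simp

/-- derivative of a term -/
noncomputable def Dt (ρ : E → ℝ) (Z : E × ℝ → E) (i : Fin 3) (τ : Tm) : List Tm :=
  [⟨τ.m, dX i τ.W, τ.β⟩, ⟨τ.m + 1, fun p => pd i ρ p.1 * dS τ.W p, τ.β⟩] ++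
    (List.finRange 3).flatMap fun j =>
      [⟨τ.m, fun p => τ.W p * dX i Z p j, j :: τ.β⟩,
       ⟨τ.m + 1, fun p => τ.W p * (pd i ρ p.1 * dS Z p j), j :: τ.β⟩]

lemma Dt_ok {ρ : E → ℝ} {Z : E × ℝ → E} {K : Set (E × ℝ)} {n : ℕ} {τ : Tm} (h : Ok K n τ)
    (hK : IsClosed K) (hρ : Sm ρ) (hZ : Sm Z) (i : Fin 3) : ∀ τ' ∈ Dt ρ Z i τ, Ok K (n + 1) τ' := by
  have hfst : Sm fun p : E × ℝ => pd i ρ p.1 := (hρ.pd i).comp contDiff_fst
  have hm := h.m
  have hβ := h.β
  intro τ' hτ'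
  simp only [Dt, List.mem_append, List.mem_cons, List.not_mem_nil, or_false,
    List.mem_flatMap, List.mem_finRange, true_and] at hτ'
  rcases hτ' with (rfl | rfl) | ⟨j, rfl | rfl⟩
  · exact ⟨by simp only; omega, by simp only; omega, dX_sm h.sm i, dX_off hK h.sup i⟩
  · exact ⟨by simp only; omega, by simp only; omega, hfst.mul (dS_sm h.sm),
      fun p hp => by simp [dS_off hK h.sup p hp]⟩
  · exact ⟨by simp only; omega, by simp only [List.length_cons]; omega,
      h.sm.mul (contDiff_euclidean.mp (dX_sm hZ i) j), fun p hp => by simp [h.sup p hp]⟩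
  · exact ⟨by simp only; omega, by simp only [List.length_cons]; omega,
      h.sm.mul (hfst.mul (contDiff_euclidean.mp (dS_sm hZ) j)), fun p hp => by simp [h.sup p hp]⟩

lemma Dt_ev {ρ : E → ℝ} {Z : E × ℝ → E} {K : Set (E × ℝ)} {n : ℕ} {τ : Tm} (h : Ok K n τ)
    (hρ : Sm ρ) (hZ : Sm Z) (i : Fin 3) {f : E → ℝ} (hf : Sm f) (s : ℝ) (x : E) :
    pd i (τ.ev ρ Z f s) x = ((Dt ρ Z i τ).map fun τ' => τ'.ev ρ Z f s x).sum := by
  have h1 : Sm fun p : E × ℝ => τ.W p * pds τ.β f (Z p) := h.sm.mul ((pds_sm hf τ.β).comp hZ)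
  have h2 : τ.ev ρ Z f s = fun x => s ^ τ.m * (fun x : E => (fun p : E × ℝ => τ.W p *
      pds τ.β f (Z p)) (x, s * ρ x)) x := by
    funext y
    simp only [Tm.ev]
    ring
  have h4 : Sm fun x : E => (fun p : E × ℝ => τ.W p * pds τ.β f (Z p)) (x, s * ρ x) :=
    h1.comp (contDiff_id.prodMk (contDiff_const.mul hρ))
  have h5 := congrFun (pds_const_mul h4 (s ^ τ.m) [i]) x
  simp only [pds] at h5
  rw [h2, h5, pd_comp hρ h1 s i x]
  set p : E × ℝ := (x, s * ρ x) with hp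
  have hg : Sm (pds τ.β f) := pds_sm hf τ.β
  have h6 : ∀ v : E × ℝ, fderiv ℝ (fun p : E × ℝ => τ.W p * pds τ.β f (Z p)) p v =
      fderiv ℝ τ.W p v * pds τ.β f (Z p) +
        τ.W p * ∑ j, fderiv ℝ Z p v j * pd j (pds τ.β f) (Z p) := by
    intro v
    have h7 : HasFDerivAt (fun p : E × ℝ => pds τ.β f (Z p))
        ((fderiv ℝ (pds τ.β f) (Z p)).comp (fderiv ℝ Z p)) p :=
      (hg.differentiable (Z p)).hasFDerivAt.comp p (hZ.differentiable p).hasFDerivAt
    have h8 := ((h.sm.differentiable p).hasFDerivAt.mul h7).fderiv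
    have h8' : fderiv ℝ (fun p : E × ℝ => τ.W p * pds τ.β f (Z p)) p = _ := h8
    rw [h8']
    simp only [add_apply, smul_apply, smul_eq_mul, ContinuousLinearMap.comp_apply]
    rw [fderiv_eq_sum]
    simp only [smul_eq_mul]
    ring
  have h9 : dX i (fun p : E × ℝ => τ.W p * pds τ.β f (Z p)) p =
      dX i τ.W p * pds τ.β f (Z p) + τ.W p * ∑ j, dX i Z p j * pd j (pds τ.β f) (Z p) := h6 _
  have h10 : dS (fun p : E × ℝ => τ.W p * pds τ.β f (Z p)) p =
      dS τ.W p * pds τ.β f (Z p) + τ.W p * ∑ j, dS Z p j * pd j (pds τ.β f) (Z p) := h6 _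
  rw [h9, h10]
  have h11 : p.1 = x := rfl
  simp only [Dt, Tm.ev, pds, List.map_append, List.map_cons, List.map_nil, List.sum_append,
    List.sum_cons, List.sum_nil, List.finRange_succ, List.finRange_zero, List.flatMap_cons,
    List.flatMap_nil, ← hp, h11, Fin.sum_univ_three, smul_eq_mul, List.append_nil]
  simp only [Fin.succ_zero_eq_one, Fin.succ_one_eq_two, Fin.isValue]
  ring

/-- all derivatives of a term are sums of terms -/
lemma exists_terms {ρ : E → ℝ} {Z : E × ℝ → E} {K : Set (E × ℝ)} {τ : Tm} (h : Ok K 0 τ)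
    (hK : IsClosed K) (hρ : Sm ρ) (hZ : Sm Z) (α : List (Fin 3)) :
    ∃ L : List Tm, (∀ τ' ∈ L, Ok K α.length τ') ∧ ∀ f : E → ℝ, Sm f → ∀ s : ℝ, ∀ x,
      pds α (τ.ev ρ Z f s) x = (L.map fun τ' => τ'.ev ρ Z f s x).sum := by
  induction α with
  | nil => exact ⟨[τ], by simpa using h, fun f hf s x => by simp [pds]⟩
  | cons i α ih =>
    obtain ⟨L, hL, h1⟩ := ih
    refine ⟨L.flatMap (Dt ρ Z i), fun τ' hτ' => ?_, fun f hf s x => ?_⟩
    · obtain ⟨τ'', h2, h3⟩ := List.mem_flatMap.mp hτ'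
      exact Dt_ok (hL _ h2) hK hρ hZ i τ' h3
    · have h2 : pds α (τ.ev ρ Z f s) = fun x => (L.map fun τ' => τ'.ev ρ Z f s x).sum :=
        funext fun x => h1 f hf s x
      have h3 : ∀ L' : List Tm, (∀ τ' ∈ L', Ok K α.length τ') →
          pd i (fun x => (L'.map fun τ' => τ'.ev ρ Z f s x).sum) x =
            ((L'.flatMap (Dt ρ Z i)).map fun τ' => τ'.ev ρ Z f s x).sum ∧
          DifferentiableAt ℝ (fun x => (L'.map fun τ' => τ'.ev ρ Z f s x).sum) x := by
        intro L'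
        induction L' with
        | nil =>
          intro _
          simp [pd]
        | cons τ1 L' ih' =>
          intro h4
          have h5 := h4 τ1 (by simp)
          obtain ⟨h6, h7⟩ := ih' fun τ' hτ' => h4 τ' (by simp [hτ'])
          have h8 := (h5.ev_sm hρ hZ hf s).differentiable x
          simp only [List.map_cons, List.sum_cons, List.flatMap_cons, List.map_append,
            List.sum_append]
          refine ⟨?_, h8.add h7⟩
          rw [← h6, ← Dt_ev h5 hρ hZ i hf s x]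
          unfold pd
          rw [fderiv_fun_add h8 h7]
          rfl
      simp only [pds]
      rw [h2]
      exact (h3 L hL).1

/-- sup bound for a term -/
lemma Ok.bound {ρ : E → ℝ} {Z : E × ℝ → E} {K : Set (E × ℝ)} {n : ℕ} {τ : Tm} (h : Ok K n τ)
    (hK : IsCompact K) : ∃ C : ℝ, 0 ≤ C ∧ ∀ (f : E → ℝ) (s : ℝ) (x : E), 1 ≤ s →
      |τ.ev ρ Z f s x| ≤ C * s ^ n * |pds τ.β f (Z (x, s * ρ x))| ∧
      ((x, s * ρ x) ∉ K → τ.ev ρ Z f s x = 0) := by
  obtain ⟨C, hC⟩ := hK.exists_bound_of_continuousOn h.sm.continuous.continuousOn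
  refine ⟨|C|, abs_nonneg C, fun f s x hs => ⟨?_, fun hx => by simp [Tm.ev, h.sup _ hx]⟩⟩
  have h1 : |τ.W (x, s * ρ x)| ≤ |C| := by
    by_cases hx : (x, s * ρ x) ∈ K
    · exact (hC _ hx).trans (le_abs_self C)
    · rw [h.sup _ hx]; simp
  have hs0 : 0 ≤ s := by linarith
  unfold Tm.ev
  rw [abs_mul, abs_mul, abs_pow, abs_of_nonneg hs0]
  have h2 : s ^ τ.m ≤ s ^ n := pow_le_pow_right₀ hs h.m
  calc s ^ τ.m * |τ.W (x, s * ρ x)| * |pds τ.β f (Z (x, s * ρ x))|
      ≤ s ^ n * |C| * |pds τ.β f (Z (x, s * ρ x))| := by gcongr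
    _ = _ := by ring

/-- sup bound depending on `f` -/
lemma Ok.bound' {ρ : E → ℝ} {Z : E × ℝ → E} {K : Set (E × ℝ)} {n : ℕ} {τ : Tm} (h : Ok K n τ)
    (hK : IsCompact K) (hZ : Sm Z) {f : E → ℝ} (hf : Sm f) : ∃ C : ℝ, 0 ≤ C ∧
      ∀ (s : ℝ) (x : E), 1 ≤ s → |τ.ev ρ Z f s x| ≤ C * s ^ n := by
  obtain ⟨C, hC0, hC⟩ := h.bound (ρ := ρ) (Z := Z) hK
  obtain ⟨C', hC'⟩ := hK.exists_bound_of_continuousOn
    ((pds_sm hf τ.β).comp hZ).continuous.continuousOn
  refine ⟨C * |C'|, by positivity, fun s x hs => ?_⟩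
  by_cases hx : (x, s * ρ x) ∈ K
  · have hs0 : 0 ≤ s := by linarith
    calc |τ.ev ρ Z f s x| ≤ C * s ^ n * |pds τ.β f (Z (x, s * ρ x))| := (hC f s x hs).1
      _ ≤ C * s ^ n * |C'| := by
        refine mul_le_mul_of_nonneg_left ?_ (by positivity)
        exact (hC' _ hx).trans (le_abs_self _)
      _ = _ := by ring
  · rw [(hC f s x hs).2 hx]
    simp only [abs_zero]
    have hs0 : 0 ≤ s := by linarith
    positivity

end SeelM
end MPfab
end

section
/-!
MP_fabde4_an, module SEEL, part C: the geometric data, the change of variables, the Taylor formula.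
-/
set_option autoImplicit false
open MeasureTheory Set Filter Topology

namespace MPfab
namespace SeelM

/-- the data of the construction -/
structure Stp (ρ : E → ℝ) (R c : ℝ) (Y : ℝ × E → E) (a : ℕ → ℝ) (χ : ℝ → ℝ) (ζ : E → ℝ) :
    Prop where
  dom : DomN ρ
  pos : 0 < c
  cpt : IsCompact {x | ρ x ≤ c}
  smY : Sm Y
  zero : ∀ x, Y (0, x) = x
  group : ∀ s t x, Y (s, Y (t, x)) = Y (s + t, x)
  lev : ∀ s x, |ρ x| ≤ c → |ρ x - s| ≤ c → ρ (Y (s, x)) = ρ x - s
  sa : ∀ n : ℕ, Summable fun k : ℕ => |a k| * ((k : ℝ) + 1) ^ n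
  ma : ∀ n : ℕ, ∑' k : ℕ, a k * ((k : ℝ) + 1) ^ n = (-1) ^ n
  smχ : Sm χ
  oneχ : ∀ s, |s| < c / 4 → χ s = 1
  zeroχ : ∀ s, c / 2 < |s| → χ s = 0
  smζ : Sm ζ
  oneζ : ∀ x, ρ x ≤ 0 → ζ x = 1
  zeroζ : ∀ x, R ≤ ‖x‖ → ζ x = 0

lemma exists_stp {ρ : E → ℝ} {R c : ℝ} {N : E → E} {Y : ℝ × E → E} {a : ℕ → ℝ}
    (h : DomN ρ) (hR : ∀ x, ρ x ≤ 0 → ‖x‖ < R) (hC : Collar ρ c N Y)
    (sa : ∀ n : ℕ, Summable fun k : ℕ => |a k| * ((k : ℝ) + 1) ^ n)
    (ma : ∀ n : ℕ, ∑' k : ℕ, a k * ((k : ℝ) + 1) ^ n = (-1) ^ n) :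
    ∃ χ ζ, Stp ρ R c Y a χ ζ := by
  have hc := hC.pos
  let b : ContDiffBump (0 : ℝ) := ⟨c / 4, c / 2, by positivity, by linarith⟩
  have hs : IsClosed {x : E | R ≤ ‖x‖} := isClosed_le continuous_const continuous_norm
  have ht : IsClosed {x : E | ρ x ≤ 0} := isClosed_le h.smooth.continuous continuous_const
  obtain ⟨z, hz0, hz1, _⟩ := exists_contMDiffMap_zero_one_of_isClosed
    (modelWithCornersSelf ℝ E) (n := ⊤) hs ht (by
      rw [Set.disjoint_left]
      intro x hx hx'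
      exact absurd (hR x hx') (not_lt.mpr hx))
  refine ⟨b, z, ⟨h, hc, hC.cpt, hC.flow.smooth, hC.flow.zero, hC.flow.group, hC.lev, sa, ma,
    b.contDiff, fun s hs => ?_, fun s hs => ?_, contMDiff_iff_contDiff.mp z.contMDiff,
    fun x hx => hz1 hx, fun x hx => hz0 hx⟩⟩
  · refine b.one_of_mem_closedBall ?_
    rw [Metric.mem_closedBall, Real.dist_eq, sub_zero]
    exact hs.le
  · refine b.zero_of_le_dist ?_
    rw [Real.dist_eq, sub_zero]
    exact hs.le

variable {ρ : E → ℝ} {R c : ℝ} {Y : ℝ × E → E} {a : ℕ → ℝ} {χ : ℝ → ℝ} {ζ : E → ℝ}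

/-- the reflected point -/
def Zf (ρ : E → ℝ) (Y : ℝ × E → E) (p : E × ℝ) : E := Y (ρ p.1 + p.2, p.1)

/-- the support -/
def Kf (ρ : E → ℝ) (c : ℝ) : Set (E × ℝ) := {p | |ρ p.1| ≤ c / 2 ∧ |p.2| ≤ c / 2}

/-- the basic term -/
def τ0 (ρ : E → ℝ) (χ : ℝ → ℝ) (ζ : E → ℝ) : Tm := ⟨0, fun p => ζ p.1 * χ (ρ p.1) * χ p.2, []⟩

lemma Stp.smZ (h : Stp ρ R c Y a χ ζ) : Sm (Zf ρ Y) := by
  unfold Zf
  exact h.smY.comp (((h.dom.smooth.comp contDiff_fst).add contDiff_snd).prodMk contDiff_fst)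

lemma Stp.closedK (h : Stp ρ R c Y a χ ζ) : IsClosed (Kf ρ c) := by
  have hc := h.dom.smooth.continuous
  exact (isClosed_le (f := fun p : E × ℝ => |ρ p.1|) (by fun_prop) continuous_const).inter
    (isClosed_le (f := fun p : E × ℝ => |p.2|) (by fun_prop) continuous_const)

lemma Stp.cptK (h : Stp ρ R c Y a χ ζ) : IsCompact (Kf ρ c) := by
  refine (h.cpt.prod (isCompact_Icc (a := -(c / 2)) (b := c / 2))).of_isClosed_subset h.closedK ?_
  intro p hp
  have h1 := abs_le.mp hp.1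
  have h2 := abs_le.mp hp.2
  have hc := h.pos
  exact ⟨by simp only [mem_ofPred_eq]; linarith, h2⟩

/-- the support in `E` -/
def Ke (ρ : E → ℝ) (c : ℝ) : Set E := {x | |ρ x| ≤ c / 2}

lemma Stp.closedKe (h : Stp ρ R c Y a χ ζ) : IsClosed (Ke ρ c) := by
  have hc := h.dom.smooth.continuous
  exact isClosed_le (by fun_prop) continuous_const

lemma Stp.cptKe (h : Stp ρ R c Y a χ ζ) : IsCompact (Ke ρ c) := by
  refine h.cpt.of_isClosed_subset h.closedKe ?_
  intro x (hx : |ρ x| ≤ c / 2)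
  have h1 := abs_le.mp hx
  have hc := h.pos
  simp only [mem_ofPred_eq]; linarith

lemma Stp.ok0 (h : Stp ρ R c Y a χ ζ) : Ok (Kf ρ c) 0 (τ0 ρ χ ζ) := by
  refine ⟨le_rfl, le_rfl, ?_, fun p hp => ?_⟩
  · exact ((h.smζ.comp contDiff_fst).mul (h.smχ.comp (h.dom.smooth.comp contDiff_fst))).mul
      (h.smχ.comp contDiff_snd)
  · simp only [τ0]
    have hp' : ¬ (|ρ p.1| ≤ c / 2 ∧ |p.2| ≤ c / 2) := hp
    by_cases h1 : |ρ p.1| ≤ c / 2
    · have h2 : c / 2 < |p.2| := by
        by_contra h3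
        exact hp' ⟨h1, not_lt.mp h3⟩
      rw [h.zeroχ _ h2]; ring
    · rw [h.zeroχ _ (not_le.mp h1)]; ring

/-- points with `ρ > 0` are reflected into the domain -/
lemma Stp.rhoZ (h : Stp ρ R c Y a χ ζ) {x : E} {σ : ℝ} (hp : (x, σ) ∈ Kf ρ c) :
    ρ (Zf ρ Y (x, σ)) = -σ := by
  have h1 : |ρ x| ≤ c / 2 := hp.1
  have h2 : |σ| ≤ c / 2 := hp.2
  have hc := h.pos
  have h3 := h.lev (ρ x + σ) x (by linarith) (by
    rw [sub_add_cancel_left, abs_neg]; linarith)
  simp only [Zf]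
  rw [h3]; ring

/-! ### the boundary is a null set -/

lemma Stp.null (h : Stp ρ R c Y a χ ζ) : volume {x | ρ x = 0} = 0 := by
  have h1 := Measure.countable_meas_level_set_pos (μ := (volume : Measure E))
    (h.dom.smooth.continuous.measurable)
  have hc := h.pos
  obtain ⟨t, ht, ht'⟩ : ∃ t ∈ Ioo 0 c, t ∉ {t : ℝ | 0 < volume {x | ρ x = t}} := by
    by_contra hcon
    push Not at hcon
    have h2 : Ioo 0 c ⊆ {t : ℝ | 0 < volume {x | ρ x = t}} := fun t ht => hcon t ht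
    exact (Cardinal.Real.Ioo_countable_iff.not.mpr (not_le.mpr hc)) (h1.mono h2)
  have h3 : volume {x | ρ x = t} = 0 := by
    simpa using ht'
  have h4 : {x | ρ x = 0} ⊆ (fun x => Y (t, x)) '' {x | ρ x = t} := by
    intro x hx
    have hx0 : ρ x = 0 := hx
    refine ⟨Y (-t, x), ?_, ?_⟩
    · have := h.lev (-t) x (by rw [hx0]; simpa using hc.le) (by
        rw [hx0, zero_sub, neg_neg, abs_of_pos ht.1]; exact ht.2.le)
      simp only [mem_ofPred_eq]
      rw [this, hx0]; ring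
    · simp only
      rw [h.group, add_neg_cancel, h.zero]
  refine measure_mono_null h4 (addHaar_image_eq_zero_of_differentiableOn_of_addHaar_eq_zero _ ?_ h3)
  have : Sm fun x : E => Y (t, x) := h.smY.comp (contDiff_const.prodMk contDiff_id)
  exact this.differentiable.differentiableOn

/-! ### change of variables -/

/-- integrability of continuous functions on bounded sets -/
lemma Stp.int_Ke (h : Stp ρ R c Y a χ ζ) {g : E → ℝ} (hg : Continuous g) {S : Set E}
    (hS : S ⊆ {x | ρ x ≤ c}) : IntegrableOn g S :=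
  (hg.continuousOn.integrableOn_compact h.cpt).mono_set hS

lemma Stp.cv (h : Stp ρ R c Y a χ ζ) : ∃ C : ℝ, 0 ≤ C ∧ ∀ (s : ℝ) (g : E → ℝ), 1 ≤ s →
    Continuous g → ∫ x in {x | 0 < ρ x ∧ s * ρ x ≤ c / 2}, g (Zf ρ Y (x, s * ρ x)) ^ 2 ≤
      C * ∫ x in D ρ, g x ^ 2 := by
  have hρ := h.dom.smooth
  have hρc := hρ.continuous
  have hc := h.pos
  -- the maps `y ↦ Y (l ρ y, y)`
  have hΨ : ∀ l : ℝ, Sm fun y : E => Y (l * ρ y, y) := fun l =>
    h.smY.comp ((contDiff_const.mul hρ).prodMk contDiff_id)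
  have hΨ' : ∀ l y, fderiv ℝ (fun y : E => Y (l * ρ y, y)) y =
      (fderiv ℝ Y (l * ρ y, y)).comp ((l • fderiv ℝ ρ y).prod (ContinuousLinearMap.id ℝ E)) := by
    intro l y
    have h1 : HasFDerivAt (fun y : E => (l * ρ y, y))
        ((l • fderiv ℝ ρ y).prod (ContinuousLinearMap.id ℝ E)) y :=
      ((hρ.differentiable y).hasFDerivAt.const_mul l).prodMk (hasFDerivAt_id y)
    exact (HasFDerivAt.comp (g := Y) (f := fun y : E => (l * ρ y, y)) y
      (h.smY.differentiable (l * ρ y, y)).hasFDerivAt h1).fderiv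
  have hcont : Continuous fun q : ℝ × E => |(fderiv ℝ (fun y : E => Y (q.1 * ρ y, y)) q.2).det| := by
    simp only [hΨ']
    have h1 : Continuous (fderiv ℝ Y) := h.smY.continuous_fderiv (by simp)
    have h2 : Continuous (fderiv ℝ ρ) := hρ.continuous_fderiv (by simp)
    have h3 : Continuous fun q : ℝ × E => fderiv ℝ Y (q.1 * ρ q.2, q.2) :=
      h1.comp (by fun_prop)
    have h4 : Continuous fun q : ℝ × E => (q.1 • fderiv ℝ ρ q.2).prod
        (ContinuousLinearMap.id ℝ E) :=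
      (ContinuousLinearMap.prodₗᵢ ℝ).continuous.comp
        ((continuous_fst.smul (h2.comp continuous_snd)).prodMk continuous_const)
    exact (ContinuousLinearMap.continuous_det.comp (h3.clm_comp h4)).abs
  obtain ⟨C, hC⟩ := ((isCompact_Icc (a := (1 : ℝ)) (b := 2)).prod
    h.cpt).exists_bound_of_continuousOn hcont.continuousOn
  refine ⟨|C|, abs_nonneg C, fun s g hs hg => ?_⟩
  have hs0 : 0 < s := by linarith
  set l : ℝ := 1 + 1 / s with hl
  have hl1 : l ∈ Icc (1 : ℝ) 2 := by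
    have h1 : 0 < 1 / s := by positivity
    have h2 : 1 / s ≤ 1 := by rw [div_le_one hs0]; exact hs
    constructor <;> linarith
  set B : Set E := {y | -(c / 2) ≤ ρ y ∧ ρ y < 0} with hB
  have hBm : MeasurableSet B :=
    (measurableSet_le measurable_const hρc.measurable).inter
      (measurableSet_lt hρc.measurable measurable_const)
  have hB' : B ⊆ {x | ρ x ≤ c} := fun y hy => by
    have := hy.2
    simp only [mem_ofPred_eq]; linarith
  have hrΨ : ∀ y ∈ B, ρ (Y (l * ρ y, y)) = -(ρ y) / s := by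
    intro y hy
    have h1 := hy.1
    have h2 := hy.2
    have h3 : ρ y - l * ρ y = -(ρ y) / s := by rw [hl]; ring
    rw [h.lev (l * ρ y) y (by rw [abs_of_neg h2]; linarith) ?_, h3]
    rw [h3, abs_of_pos (div_pos (by linarith) hs0), div_le_iff₀ hs0]
    nlinarith
  have hinv : ∀ y ∈ B, Zf ρ Y (Y (l * ρ y, y), s * ρ (Y (l * ρ y, y))) = y := by
    intro y hy
    simp only [Zf]
    rw [hrΨ y hy, h.group]
    have : -(ρ y) / s + s * (-(ρ y) / s) + l * ρ y = 0 := by
      rw [hl]; field_simp; ring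
    rw [this, h.zero]
  have himg : {x | 0 < ρ x ∧ s * ρ x ≤ c / 2} = (fun y : E => Y (l * ρ y, y)) '' B := by
    ext x
    simp only [mem_ofPred_eq, mem_image]
    constructor
    · rintro ⟨h1, h2⟩
      have h3 : ρ x ≤ s * ρ x := by nlinarith
      have h4 : (x, s * ρ x) ∈ Kf ρ c := by
        refine ⟨?_, ?_⟩
        · simp only; rw [abs_of_pos h1]; linarith
        · simp only; rw [abs_of_pos (by positivity)]; exact h2
      have h5 := h.rhoZ h4
      refine ⟨Zf ρ Y (x, s * ρ x), ⟨by rw [h5]; linarith, by rw [h5]; nlinarith⟩, ?_⟩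
      rw [h5]
      simp only [Zf]
      rw [h.group]
      have : l * -(s * ρ x) + (ρ x + s * ρ x) = 0 := by
        rw [hl]; field_simp; ring
      rw [this, h.zero]
    · rintro ⟨y, hy, rfl⟩
      rw [hrΨ y hy]
      have h1 := hy.1
      have h2 := hy.2
      refine ⟨div_pos (by linarith) hs0, ?_⟩
      rw [mul_div_cancel₀ _ hs0.ne']
      linarith
  have hinj : InjOn (fun y : E => Y (l * ρ y, y)) B := by
    intro y hy y' hy' hyy
    have h1 := hinv y hy
    have h2 := hinv y' hy'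
    simp only at hyy
    rw [← h1, ← h2, hyy]
  rw [himg, integral_image_eq_integral_abs_det_fderiv_smul volume hBm
    (fun y _ => ((hΨ l).differentiable y).hasFDerivAt.hasFDerivWithinAt) hinj]
  have h1 : ∀ y ∈ B, |(fderiv ℝ (fun y : E => Y (l * ρ y, y)) y).det| •
      g (Zf ρ Y (Y (l * ρ y, y), s * ρ (Y (l * ρ y, y)))) ^ 2 ≤ |C| * g y ^ 2 := by
    intro y hy
    rw [hinv y hy, smul_eq_mul]
    refine mul_le_mul_of_nonneg_right ?_ (by positivity)
    have := hC (l, y) ⟨hl1, hB' hy⟩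
    rw [Real.norm_of_nonneg (abs_nonneg _)] at this
    exact this.trans (le_abs_self C)
  have hint1 : IntegrableOn (fun y => |C| * g y ^ 2) (D ρ) := by
    refine h.int_Ke (by fun_prop) fun x hx => ?_
    have : ρ x < 0 := hx
    simp only [mem_ofPred_eq]; linarith
  have hBD : B ⊆ D ρ := fun y hy => hy.2
  calc ∫ y in B, |(fderiv ℝ (fun y : E => Y (l * ρ y, y)) y).det| •
        g (Zf ρ Y (Y (l * ρ y, y), s * ρ (Y (l * ρ y, y)))) ^ 2
      ≤ ∫ y in B, |C| * g y ^ 2 := by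
        refine setIntegral_mono_on ?_ (hint1.mono_set hBD) hBm h1
        refine h.int_Ke ?_ hB'
        have h2 : Continuous fun y : E => |(fderiv ℝ (fun y : E => Y (l * ρ y, y)) y).det| :=
          hcont.comp (continuous_const.prodMk continuous_id)
        have h3 : Continuous fun y : E => Y (l * ρ y, y) := (hΨ l).continuous
        have h4 : Continuous (Zf ρ Y) := h.smZ.continuous
        exact h2.smul ((hg.comp (h4.comp (h3.prodMk
          (continuous_const.mul (hρc.comp h3))))).pow 2)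
    _ ≤ ∫ y in D ρ, |C| * g y ^ 2 := by
        refine setIntegral_mono_set hint1 (ae_of_all _ fun y => by positivity) ?_
        exact hBD.eventuallyLE
    _ = |C| * ∫ y in D ρ, g y ^ 2 := integral_const_mul _ _

/-! ### Taylor expansion in the second variable -/

lemma taylor (n : ℕ) : ∀ (K : Set (E × ℝ)) (V : E × ℝ → ℝ), IsCompact K → Sm V →
    (∀ p ∉ K, V p = 0) → ∃ (u : ℕ → E → ℝ) (C : ℝ), 0 ≤ C ∧
      ∀ x σ, |V (x, σ) - ∑ j ∈ Finset.range n, u j x * σ ^ j| ≤ C * |σ| ^ n := by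
  induction n with
  | zero =>
    intro K V hK hV hsupp
    obtain ⟨C, hC⟩ := hK.exists_bound_of_continuousOn hV.continuous.continuousOn
    refine ⟨fun _ _ => 0, |C|, abs_nonneg C, fun x σ => ?_⟩
    simp only [Finset.range_zero, Finset.sum_empty, sub_zero, pow_zero, mul_one]
    by_cases hx : (x, σ) ∈ K
    · exact (hC _ hx).trans (le_abs_self C)
    · rw [hsupp _ hx]; simp
  | succ n ih =>
    intro K V hK hV hsupp
    obtain ⟨u, C, hC, h1⟩ := ih K (dS V) hK (dS_sm hV) (dS_off hK.isClosed hsupp)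
    refine ⟨fun j x => if j = 0 then V (x, 0) else u (j - 1) x / j, C, hC, fun x σ => ?_⟩
    set φ : ℝ → ℝ := fun τ => V (x, τ) - ∑ j ∈ Finset.range (n + 1),
      (if j = 0 then V (x, 0) else u (j - 1) x / j) * τ ^ j with hφ
    have hφ' : ∀ τ, HasDerivAt φ (dS V (x, τ) - ∑ j ∈ Finset.range n, u j x * τ ^ j) τ := by
      intro τ
      have h2 : HasDerivAt (fun τ => V (x, τ)) (dS V (x, τ)) τ := by
        have h3 : HasDerivAt (fun τ : ℝ => (x, τ)) ((0 : E), (1 : ℝ)) τ :=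
          (hasDerivAt_const τ x).prodMk (hasDerivAt_id τ)
        exact (hV.differentiable (x, τ)).hasFDerivAt.comp_hasDerivAt τ h3
      have h4 : HasDerivAt (fun τ : ℝ => ∑ j ∈ Finset.range (n + 1),
          (if j = 0 then V (x, 0) else u (j - 1) x / j) * τ ^ j)
          (∑ j ∈ Finset.range n, u j x * τ ^ j) τ := by
        simp only [Finset.sum_range_succ' _ n]
        have h5 : HasDerivAt (fun τ : ℝ => ∑ j ∈ Finset.range n,
            (if j + 1 = 0 then V (x, 0) else u (j + 1 - 1) x / ((j + 1 : ℕ) : ℝ)) * τ ^ (j + 1))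
            (∑ j ∈ Finset.range n, u j x * τ ^ j) τ := by
          refine HasDerivAt.fun_sum fun j _ => ?_
          have h6 := (hasDerivAt_pow (j + 1) τ).const_mul (u j x / ((j + 1 : ℕ) : ℝ))
          simp only [Nat.add_one_ne_zero, if_false, Nat.add_sub_cancel] at h6 ⊢
          have h9 : (((j + 1 : ℕ) : ℝ)) ≠ 0 := by positivity
          have h10 : u j x / ((j + 1 : ℕ) : ℝ) * (((j + 1 : ℕ) : ℝ) * τ ^ j) = u j x * τ ^ j := by
            field_simp
          rw [h10] at h6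
          exact h6
        have h7 := h5.add_const ((if (0 : ℕ) = 0 then V (x, 0) else u (0 - 1) x / ((0 : ℕ) : ℝ)) *
          τ ^ 0)
        simp only [pow_zero] at h7 ⊢
        exact h7
      exact h2.sub h4
    have h0 : φ 0 = 0 := by
      simp only [hφ]
      rw [Finset.sum_range_succ']
      simp
    have hb : ∀ τ ∈ Icc (-|σ|) |σ|, ‖dS V (x, τ) - ∑ j ∈ Finset.range n, u j x * τ ^ j‖ ≤
        C * |σ| ^ n := by
      intro τ hτ
      refine (h1 x τ).trans ?_
      have : |τ| ≤ |σ| := abs_le.mpr hτ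
      gcongr
    have h8 := Convex.norm_image_sub_le_of_norm_hasDerivWithin_le
      (fun τ _ => (hφ' τ).hasDerivWithinAt) hb (convex_Icc (-|σ|) |σ|)
      (x := 0) (y := σ) ⟨by simp, by simp⟩ ⟨neg_abs_le σ, le_abs_self σ⟩
    rw [h0, sub_zero, sub_zero, Real.norm_eq_abs, Real.norm_eq_abs] at h8
    rw [pow_succ, ← mul_assoc]
    exact h8

end SeelM
end MPfab
end

section
/-!
MP_fabde4_an, module SEEL, part D: the sums over the terms and their estimates.
-/
set_option autoImplicit false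
open MeasureTheory Set Filter Topology

namespace MPfab
namespace SeelM

variable {ρ : E → ℝ} {R c : ℝ} {Y : ℝ × E → E} {a : ℕ → ℝ} {χ : ℝ → ℝ} {ζ : E → ℝ}

/-- the weighted sum of a term over the scales `s = k + 1` -/
noncomputable def Sg (ρ : E → ℝ) (Y : ℝ × E → E) (a : ℕ → ℝ) (τ : Tm) (f : E → ℝ) (x : E) : ℝ :=
  ∑' k : ℕ, a k * τ.ev ρ (Zf ρ Y) f ((k : ℝ) + 1) x

lemma one_le (k : ℕ) : (1 : ℝ) ≤ (k : ℝ) + 1 := by
  have : (0 : ℝ) ≤ k := by positivity
  linarith

/-- values outside the support vanish -/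
lemma Ok.ev_off {n : ℕ} {τ : Tm} (hτ : Ok (Kf ρ c) n τ) {x : E} {s : ℝ}
    (hx : (x, s * ρ x) ∉ Kf ρ c) (f : E → ℝ) : τ.ev ρ (Zf ρ Y) f s x = 0 := by
  simp [Tm.ev, hτ.sup _ hx]

lemma Ok.ev_off' {n : ℕ} {τ : Tm} (hτ : Ok (Kf ρ c) n τ) {x : E} (s : ℝ)
    (hx : x ∉ Ke ρ c) (f : E → ℝ) : τ.ev ρ (Zf ρ Y) f s x = 0 :=
  hτ.ev_off (fun h => hx h.1) f

lemma Ok.abs_le (h : Stp ρ R c Y a χ ζ) {n : ℕ} {τ : Tm} (hτ : Ok (Kf ρ c) n τ) {f : E → ℝ}
    (hf : Sm f) : ∃ C : ℝ, 0 ≤ C ∧ ∀ (k : ℕ) (x : E),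
      |τ.ev ρ (Zf ρ Y) f ((k : ℝ) + 1) x| ≤ C * ((k : ℝ) + 1) ^ n := by
  obtain ⟨C, hC, h1⟩ := hτ.bound' (ρ := ρ) h.cptK h.smZ hf
  exact ⟨C, hC, fun k x => h1 _ x (one_le k)⟩

lemma Ok.summable (h : Stp ρ R c Y a χ ζ) {n : ℕ} {τ : Tm} (hτ : Ok (Kf ρ c) n τ) {f : E → ℝ}
    (hf : Sm f) (x : E) :
    Summable fun k : ℕ => a k * τ.ev ρ (Zf ρ Y) f ((k : ℝ) + 1) x := by
  obtain ⟨C, hC, h1⟩ := hτ.abs_le h hf
  refine Summable.of_norm_bounded ((h.sa n).mul_left C) fun k => ?_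
  rw [Real.norm_eq_abs, abs_mul]
  calc |a k| * |τ.ev ρ (Zf ρ Y) f ((k : ℝ) + 1) x| ≤ |a k| * (C * ((k : ℝ) + 1) ^ n) := by
        gcongr; exact h1 k x
    _ = C * (|a k| * ((k : ℝ) + 1) ^ n) := by ring

lemma Ok.continuous (h : Stp ρ R c Y a χ ζ) {n : ℕ} {τ : Tm} (hτ : Ok (Kf ρ c) n τ) {f : E → ℝ}
    (hf : Sm f) : Continuous (Sg ρ Y a τ f) := by
  obtain ⟨C, hC, h1⟩ := hτ.abs_le h hf
  refine continuous_tsum (fun k => continuous_const.mul
    (hτ.ev_sm h.dom.smooth h.smZ hf _).continuous) ((h.sa n).mul_left C) fun k x => ?_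
  rw [Real.norm_eq_abs, abs_mul]
  calc |a k| * |τ.ev ρ (Zf ρ Y) f ((k : ℝ) + 1) x| ≤ |a k| * (C * ((k : ℝ) + 1) ^ n) := by
        gcongr; exact h1 k x
    _ = C * (|a k| * ((k : ℝ) + 1) ^ n) := by ring

lemma Ok.Sg_off {n : ℕ} {τ : Tm} (hτ : Ok (Kf ρ c) n τ) {x : E} (hx : x ∉ Ke ρ c)
    (f : E → ℝ) : Sg ρ Y a τ f x = 0 := by
  unfold Sg
  simp [hτ.ev_off' _ hx f]

/-- bound for a sum over a list of terms -/
lemma list_bound (h : Stp ρ R c Y a χ ζ) {n : ℕ} (L : List Tm) (hL : ∀ τ ∈ L, Ok (Kf ρ c) n τ)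
    {f : E → ℝ} (hf : Sm f) : ∃ C : ℝ, 0 ≤ C ∧ ∀ (k : ℕ) (x : E),
      |(L.map fun τ => τ.ev ρ (Zf ρ Y) f ((k : ℝ) + 1) x).sum| ≤ C * ((k : ℝ) + 1) ^ n := by
  induction L with
  | nil => exact ⟨0, le_rfl, fun k x => by simp⟩
  | cons τ L ih =>
    obtain ⟨C1, hC1, h1⟩ := (hL τ (by simp)).abs_le h hf
    obtain ⟨C2, hC2, h2⟩ := ih fun τ' hτ' => hL τ' (by simp [hτ'])
    refine ⟨C1 + C2, by positivity, fun k x => ?_⟩
    simp only [List.map_cons, List.sum_cons]
    calc _ ≤ _ := abs_add_le _ _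
      _ ≤ C1 * ((k : ℝ) + 1) ^ n + C2 * ((k : ℝ) + 1) ^ n := add_le_add (h1 k x) (h2 k x)
      _ = _ := by ring

lemma tsum_list (h : Stp ρ R c Y a χ ζ) {n : ℕ} (L : List Tm) (hL : ∀ τ ∈ L, Ok (Kf ρ c) n τ)
    {f : E → ℝ} (hf : Sm f) (x : E) :
    HasSum (fun k : ℕ => a k * (L.map fun τ => τ.ev ρ (Zf ρ Y) f ((k : ℝ) + 1) x).sum)
      (L.map fun τ => Sg ρ Y a τ f x).sum := by
  induction L with
  | nil => simp
  | cons τ L ih =>
    simp only [List.map_cons, List.sum_cons, mul_add]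
    exact ((hL τ (by simp)).summable h hf x).hasSum.add
      (ih fun τ' hτ' => hL τ' (by simp [hτ']))

/-- summable bounds for the derivatives of the basic series -/
lemma Stp.sb (h : Stp ρ R c Y a χ ζ) {f : E → ℝ} (hf : Sm f) :
    SB fun (k : ℕ) x => a k * (τ0 ρ χ ζ).ev ρ (Zf ρ Y) f ((k : ℝ) + 1) x := by
  intro α
  obtain ⟨L, hL, h1⟩ := exists_terms h.ok0 h.closedK h.dom.smooth h.smZ α
  obtain ⟨C, hC, h2⟩ := list_bound h L hL hf
  refine ⟨fun k => C * (|a k| * ((k : ℝ) + 1) ^ α.length), (h.sa _).mul_left C, fun k x => ?_⟩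
  rw [pds_const_mul (h.ok0.ev_sm h.dom.smooth h.smZ hf _)]
  simp only
  rw [h1 f hf, abs_mul]
  calc _ ≤ |a k| * (C * ((k : ℝ) + 1) ^ α.length) := by gcongr; exact h2 k x
    _ = _ := by ring

lemma Stp.smS (h : Stp ρ R c Y a χ ζ) {f : E → ℝ} (hf : Sm f) : Sm (Sg ρ Y a (τ0 ρ χ ζ) f) :=
  (h.sb hf).sm fun _ => contDiff_const.mul (h.ok0.ev_sm h.dom.smooth h.smZ hf _)

/-- derivatives of the basic series -/
lemma Stp.pdsS (h : Stp ρ R c Y a χ ζ) (α : List (Fin 3)) :
    ∃ L : List Tm, (∀ τ ∈ L, Ok (Kf ρ c) α.length τ) ∧ ∀ f : E → ℝ, Sm f → ∀ x,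
      pds α (Sg ρ Y a (τ0 ρ χ ζ) f) x = (L.map fun τ => Sg ρ Y a τ f x).sum := by
  obtain ⟨L, hL, h1⟩ := exists_terms h.ok0 h.closedK h.dom.smooth h.smZ α
  refine ⟨L, hL, fun f hf x => ?_⟩
  have h2 := congrFun ((h.sb hf).pds_tsum (fun _ => contDiff_const.mul
    (h.ok0.ev_sm h.dom.smooth h.smZ hf _)) α) x
  have h3 : pds α (Sg ρ Y a (τ0 ρ χ ζ) f) x =
      ∑' k : ℕ, pds α (fun x => a k * (τ0 ρ χ ζ).ev ρ (Zf ρ Y) f ((k : ℝ) + 1) x) x := h2
  rw [h3, ← (tsum_list h L hL hf x).tsum_eq]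
  refine tsum_congr fun k => ?_
  rw [pds_const_mul (h.ok0.ev_sm h.dom.smooth h.smZ hf _)]
  simp only
  rw [h1 f hf]

/-- sup bound on `ρ > 0` -/
lemma Ok.sup_le (h : Stp ρ R c Y a χ ζ) {n : ℕ} {τ : Tm} (hτ : Ok (Kf ρ c) n τ) :
    ∃ C : ℝ, 0 ≤ C ∧ ∀ (f : E → ℝ) (M : ℝ), 0 ≤ M → (∀ y ∈ D ρ, |pds τ.β f y| ≤ M) →
      ∀ x, 0 < ρ x → |Sg ρ Y a τ f x| ≤ C * M := by
  obtain ⟨C, hC, h1⟩ := hτ.bound (ρ := ρ) (Z := Zf ρ Y) h.cptK
  refine ⟨C * ∑' k : ℕ, |a k| * ((k : ℝ) + 1) ^ n,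
    mul_nonneg hC (tsum_nonneg fun k => by positivity), fun f M hM hb x hx => ?_⟩
  have h2 : ∀ k : ℕ, |a k * τ.ev ρ (Zf ρ Y) f ((k : ℝ) + 1) x| ≤
      C * M * (|a k| * ((k : ℝ) + 1) ^ n) := by
    intro k
    have hk : (0 : ℝ) < (k : ℝ) + 1 := by positivity
    rw [abs_mul]
    by_cases hK : (x, ((k : ℝ) + 1) * ρ x) ∈ Kf ρ c
    · have h3 : Zf ρ Y (x, ((k : ℝ) + 1) * ρ x) ∈ D ρ := by
        change ρ _ < 0
        rw [h.rhoZ hK]
        have := mul_pos hk hx
        linarith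
      calc |a k| * |τ.ev ρ (Zf ρ Y) f ((k : ℝ) + 1) x|
          ≤ |a k| * (C * ((k : ℝ) + 1) ^ n * |pds τ.β f (Zf ρ Y (x, ((k : ℝ) + 1) * ρ x))|) := by
            gcongr; exact (h1 f _ x (one_le k)).1
        _ ≤ |a k| * (C * ((k : ℝ) + 1) ^ n * M) := by
            refine mul_le_mul_of_nonneg_left (mul_le_mul_of_nonneg_left (hb _ h3) (by positivity))
              (abs_nonneg _)
        _ = _ := by ring
    · rw [hτ.ev_off hK f]
      simp only [abs_zero, mul_zero]
      positivity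
  have h3 : Summable fun k : ℕ => C * M * (|a k| * ((k : ℝ) + 1) ^ n) := (h.sa n).mul_left _
  have h4 : Summable fun k : ℕ => ‖a k * τ.ev ρ (Zf ρ Y) f ((k : ℝ) + 1) x‖ :=
    Summable.of_nonneg_of_le (fun k => norm_nonneg _) (fun k => h2 k) h3
  calc |Sg ρ Y a τ f x| ≤ ∑' k : ℕ, ‖a k * τ.ev ρ (Zf ρ Y) f ((k : ℝ) + 1) x‖ :=
        norm_tsum_le_tsum_norm h4
    _ ≤ ∑' k : ℕ, C * M * (|a k| * ((k : ℝ) + 1) ^ n) := h4.tsum_le_tsum (fun k => h2 k) h3
    _ = _ := by rw [tsum_mul_left]; ring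

lemma integrable_of_Ke (h : Stp ρ R c Y a χ ζ) {g : E → ℝ} (hg : Continuous g)
    (h0 : ∀ x ∉ Ke ρ c, g x = 0) : Integrable g := by
  refine hg.integrable_of_hasCompactSupport ?_
  exact HasCompactSupport.intro h.cptKe fun x hx => h0 x hx

/-- `L²` bound on `ρ > 0` -/
lemma Ok.l2_le (h : Stp ρ R c Y a χ ζ) {n : ℕ} {τ : Tm} (hτ : Ok (Kf ρ c) n τ) :
    ∃ C : ℝ, 0 ≤ C ∧ ∀ f : E → ℝ, Sm f →
      ∫ x in {x | 0 < ρ x}, Sg ρ Y a τ f x ^ 2 ≤ C * ∫ x in D ρ, pds τ.β f x ^ 2 := by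
  obtain ⟨C, hC, h1⟩ := hτ.bound (ρ := ρ) (Z := Zf ρ Y) h.cptK
  obtain ⟨J, hJ, h2⟩ := h.cv
  set A : ℝ := ∑' k : ℕ, |a k| with hA
  have hA0 : 0 ≤ A := tsum_nonneg fun k => abs_nonneg _
  have hsa : Summable fun k : ℕ => |a k| := by simpa using h.sa 0
  refine ⟨A * (C ^ 2 * J * ∑' k : ℕ, |a k| * ((k : ℝ) + 1) ^ (2 * n)),
    mul_nonneg hA0 (mul_nonneg (by positivity) (tsum_nonneg fun k => by positivity)),
    fun f hf => ?_⟩
  set Q : ℝ := ∫ x in D ρ, pds τ.β f x ^ 2 with hQ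
  have hQ0 : 0 ≤ Q := integral_nonneg fun x => by positivity
  set t : ℕ → E → ℝ := fun k x => τ.ev ρ (Zf ρ Y) f ((k : ℝ) + 1) x with ht
  obtain ⟨C', hC', h3⟩ := hτ.abs_le h hf
  have htc : ∀ k, Continuous (t k) := fun k =>
    (hτ.ev_sm h.dom.smooth h.smZ hf ((k : ℝ) + 1)).continuous
  have ht0 : ∀ k, ∀ x ∉ Ke ρ c, t k x = 0 := fun k x hx => hτ.ev_off' _ hx f
  have htb : ∀ k x, |a k| * t k x ^ 2 ≤ C' ^ 2 * (|a k| * ((k : ℝ) + 1) ^ (2 * n)) := by
    intro k x
    have h4 : t k x ^ 2 ≤ (C' * ((k : ℝ) + 1) ^ n) ^ 2 := by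
      rw [← sq_abs (t k x)]
      gcongr
      exact h3 k x
    calc |a k| * t k x ^ 2 ≤ |a k| * (C' * ((k : ℝ) + 1) ^ n) ^ 2 := by gcongr
      _ = _ := by rw [mul_pow, ← pow_mul, mul_comm n 2]; ring
  have hsum2 : ∀ x, Summable fun k => |a k| * t k x ^ 2 := fun x =>
    Summable.of_nonneg_of_le (fun k => by positivity) (fun k => htb k x)
      ((h.sa (2 * n)).mul_left _)
  have hsum1 : ∀ x, Summable fun k => |a k| * |t k x| := by
    intro x
    refine Summable.of_nonneg_of_le (fun k => by positivity) (fun k => ?_)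
      ((h.sa n).mul_left C')
    calc |a k| * |t k x| ≤ |a k| * (C' * ((k : ℝ) + 1) ^ n) := by gcongr; exact h3 k x
      _ = _ := by ring
  have hcs : ∀ x, Sg ρ Y a τ f x ^ 2 ≤ A * ∑' k, |a k| * t k x ^ 2 := fun x =>
    cs_tsum hsa (hsum2 x) (hsum1 x)
  have hP : MeasurableSet {x | 0 < ρ x} :=
    measurableSet_lt measurable_const h.dom.smooth.continuous.measurable
  -- the individual terms
  have hk : ∀ k : ℕ, ∫ x in {x | 0 < ρ x}, t k x ^ 2 ≤
      C ^ 2 * J * Q * ((k : ℝ) + 1) ^ (2 * n) := by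
    intro k
    have hk0 : (0 : ℝ) < (k : ℝ) + 1 := by positivity
    have hsub : {x | 0 < ρ x ∧ ((k : ℝ) + 1) * ρ x ≤ c / 2} ⊆ {x | 0 < ρ x} := fun x hx => hx.1
    have hAm : MeasurableSet {x | 0 < ρ x ∧ ((k : ℝ) + 1) * ρ x ≤ c / 2} :=
      hP.inter (measurableSet_le (measurable_const.mul h.dom.smooth.continuous.measurable)
        measurable_const)
    have h4 : ∫ x in {x | 0 < ρ x}, t k x ^ 2 =
        ∫ x in {x | 0 < ρ x ∧ ((k : ℝ) + 1) * ρ x ≤ c / 2}, t k x ^ 2 := by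
      refine setIntegral_eq_of_subset_of_forall_sdiff_eq_zero hP hsub fun x hx => ?_
      have h5 : (x, ((k : ℝ) + 1) * ρ x) ∉ Kf ρ c := by
        intro h6
        have h7 : |((k : ℝ) + 1) * ρ x| ≤ c / 2 := h6.2
        exact hx.2 ⟨hx.1, (le_abs_self _).trans h7⟩
      have h8 : t k x = 0 := hτ.ev_off h5 f
      rw [h8]; ring
    have hcp : Continuous fun x => pds τ.β f (Zf ρ Y (x, ((k : ℝ) + 1) * ρ x)) :=
      (pds_sm hf τ.β).continuous.comp (h.smZ.continuous.comp
        (continuous_id.prodMk (continuous_const.mul h.dom.smooth.continuous)))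
    have hAc : {x | 0 < ρ x ∧ ((k : ℝ) + 1) * ρ x ≤ c / 2} ⊆ {x | ρ x ≤ c} := by
      rintro x ⟨hx1, hx2⟩
      have h9 : ρ x ≤ ((k : ℝ) + 1) * ρ x := le_mul_of_one_le_left hx1.le (one_le k)
      have hc := h.pos
      simp only [mem_ofPred_eq]
      linarith
    rw [h4]
    calc ∫ x in {x | 0 < ρ x ∧ ((k : ℝ) + 1) * ρ x ≤ c / 2}, t k x ^ 2
        ≤ ∫ x in {x | 0 < ρ x ∧ ((k : ℝ) + 1) * ρ x ≤ c / 2}, (C * ((k : ℝ) + 1) ^ n) ^ 2 *
          pds τ.β f (Zf ρ Y (x, ((k : ℝ) + 1) * ρ x)) ^ 2 := by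
          refine setIntegral_mono_on (h.int_Ke ((htc k).pow 2) hAc)
            (h.int_Ke (continuous_const.mul (hcp.pow 2)) hAc) hAm fun x _ => ?_
          rw [← sq_abs (t k x), ← sq_abs (pds τ.β f _), ← mul_pow]
          have := (h1 f _ x (one_le k)).1
          gcongr
      _ = (C * ((k : ℝ) + 1) ^ n) ^ 2 * ∫ x in {x | 0 < ρ x ∧ ((k : ℝ) + 1) * ρ x ≤ c / 2},
          pds τ.β f (Zf ρ Y (x, ((k : ℝ) + 1) * ρ x)) ^ 2 := integral_const_mul _ _
      _ ≤ (C * ((k : ℝ) + 1) ^ n) ^ 2 * (J * Q) := by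
          gcongr
          exact h2 _ _ (one_le k) (pds_sm hf τ.β).continuous
      _ = _ := by rw [mul_pow, ← pow_mul, mul_comm n 2]; ring
  -- interchange
  have hint : ∀ k, Integrable (fun x => |a k| * t k x ^ 2)
      (volume.restrict {x | 0 < ρ x}) := fun k =>
    (integrable_of_Ke h (continuous_const.mul ((htc k).pow 2))
      fun x hx => by simp [ht0 k x hx]).restrict
  have hnorm : ∀ k, ∫ x in {x | 0 < ρ x}, ‖|a k| * t k x ^ 2‖ =
      |a k| * ∫ x in {x | 0 < ρ x}, t k x ^ 2 := by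
    intro k
    rw [← integral_const_mul]
    refine integral_congr_ae (ae_of_all _ fun x => ?_)
    exact Real.norm_of_nonneg (by positivity)
  have hkk : ∀ k : ℕ, |a k| * ∫ x in {x | 0 < ρ x}, t k x ^ 2 ≤
      C ^ 2 * J * Q * (|a k| * ((k : ℝ) + 1) ^ (2 * n)) := by
    intro k
    calc _ ≤ |a k| * (C ^ 2 * J * Q * ((k : ℝ) + 1) ^ (2 * n)) := by gcongr; exact hk k
      _ = _ := by ring
  have hs3 : Summable fun k => |a k| * ∫ x in {x | 0 < ρ x}, t k x ^ 2 :=
    Summable.of_nonneg_of_le (fun k => mul_nonneg (abs_nonneg _)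
      (integral_nonneg fun x => by positivity)) hkk ((h.sa (2 * n)).mul_left _)
  have hswap := hasSum_integral_of_summable_integral_norm hint (by simpa only [hnorm] using hs3)
  have hGc : Continuous fun x => ∑' k, |a k| * t k x ^ 2 := by
    refine continuous_tsum (fun k => continuous_const.mul ((htc k).pow 2))
      ((h.sa (2 * n)).mul_left (C' ^ 2)) fun k x => ?_
    rw [Real.norm_of_nonneg (by positivity)]
    exact htb k x
  have hGi : Integrable (fun x => ∑' k, |a k| * t k x ^ 2) :=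
    integrable_of_Ke h hGc fun x hx => by
      simp [ht0 _ x hx]
  calc ∫ x in {x | 0 < ρ x}, Sg ρ Y a τ f x ^ 2
      ≤ ∫ x in {x | 0 < ρ x}, A * ∑' k, |a k| * t k x ^ 2 := by
        refine integral_mono ?_ (hGi.restrict.const_mul A) hcs
        exact (integrable_of_Ke h ((hτ.continuous h hf).pow 2) fun x hx => by
          simp [hτ.Sg_off hx f]).restrict
    _ = A * ∫ x in {x | 0 < ρ x}, ∑' k, |a k| * t k x ^ 2 := integral_const_mul _ _
    _ = A * ∑' k, |a k| * ∫ x in {x | 0 < ρ x}, t k x ^ 2 := by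
        rw [← hswap.tsum_eq]
        congr 1
        exact tsum_congr fun k => integral_const_mul _ _
    _ ≤ A * ∑' k : ℕ, C ^ 2 * J * Q * (|a k| * ((k : ℝ) + 1) ^ (2 * n)) := by
        exact mul_le_mul_of_nonneg_left
          (hs3.tsum_le_tsum hkk ((h.sa (2 * n)).mul_left _)) hA0
    _ = _ := by rw [tsum_mul_left]; ring

/-- the derivatives of the basic series: sup bound -/
lemma Stp.sup_S (h : Stp ρ R c Y a χ ζ) (α : List (Fin 3)) : ∃ C : ℝ, 0 ≤ C ∧
    ∀ (f : E → ℝ) (M : ℝ), Sm f → 0 ≤ M → Bd (D ρ) α.length f M →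
      ∀ x, 0 < ρ x → |pds α (Sg ρ Y a (τ0 ρ χ ζ) f) x| ≤ C * M := by
  obtain ⟨L, hL, h1⟩ := h.pdsS α
  have h2 : ∀ L : List Tm, (∀ τ ∈ L, Ok (Kf ρ c) α.length τ) → ∃ C : ℝ, 0 ≤ C ∧
      ∀ (f : E → ℝ) (M : ℝ), 0 ≤ M → Bd (D ρ) α.length f M →
        ∀ x, 0 < ρ x → |(L.map fun τ => Sg ρ Y a τ f x).sum| ≤ C * M := by
    intro L
    induction L with
    | nil => exact fun _ => ⟨0, le_rfl, fun f M _ _ x _ => by simp⟩
    | cons τ L ih =>
      intro hL
      obtain ⟨C1, hC1, h3⟩ := (hL τ (by simp)).sup_le h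
      obtain ⟨C2, hC2, h4⟩ := ih fun τ' hτ' => hL τ' (by simp [hτ'])
      refine ⟨C1 + C2, by positivity, fun f M hM hb x hx => ?_⟩
      simp only [List.map_cons, List.sum_cons]
      calc _ ≤ _ := abs_add_le _ _
        _ ≤ C1 * M + C2 * M := add_le_add
          (h3 f M hM (fun y hy => hb τ.β (hL τ (by simp)).β y hy) x hx) (h4 f M hM hb x hx)
        _ = _ := by ring
  obtain ⟨C, hC, h3⟩ := h2 L hL
  exact ⟨C, hC, fun f M hf hM hb x hx => by rw [h1 f hf]; exact h3 f M hM hb x hx⟩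

/-- the derivatives of the basic series: `L²` bound -/
lemma Stp.l2_S (h : Stp ρ R c Y a χ ζ) (α : List (Fin 3)) : ∃ C : ℝ, 0 ≤ C ∧
    ∀ f : E → ℝ, Sm f → ∫ x in {x | 0 < ρ x}, pds α (Sg ρ Y a (τ0 ρ χ ζ) f) x ^ 2 ≤
      C * hs (D ρ) α.length f := by
  obtain ⟨L, hL, h1⟩ := h.pdsS α
  have h2 : ∀ L : List Tm, (∀ τ ∈ L, Ok (Kf ρ c) α.length τ) → ∃ C : ℝ, 0 ≤ C ∧
      ∀ f : E → ℝ, Sm f → Continuous (fun x => (L.map fun τ => Sg ρ Y a τ f x).sum) ∧
        (∀ x ∉ Ke ρ c, (L.map fun τ => Sg ρ Y a τ f x).sum = 0) ∧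
        ∫ x in {x | 0 < ρ x}, (L.map fun τ => Sg ρ Y a τ f x).sum ^ 2 ≤
          C * hs (D ρ) α.length f := by
    intro L
    induction L with
    | nil =>
      refine fun _ => ⟨0, le_rfl, fun f _ => ⟨by simpa using continuous_const, by simp, ?_⟩⟩
      simp
    | cons τ L ih =>
      intro hL
      have hτ := hL τ (by simp)
      obtain ⟨C1, hC1, h3⟩ := hτ.l2_le h
      obtain ⟨C2, hC2, h4⟩ := ih fun τ' hτ' => hL τ' (by simp [hτ'])
      refine ⟨2 * C1 + 2 * C2, by positivity, fun f hf => ?_⟩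
      obtain ⟨h5, h6, h7⟩ := h4 f hf
      have h8 := hτ.continuous h hf
      simp only [List.map_cons, List.sum_cons]
      refine ⟨h8.add h5, fun x hx => by rw [hτ.Sg_off hx, h6 x hx, add_zero], ?_⟩
      have hi1 : Integrable (fun x => Sg ρ Y a τ f x ^ 2) (volume.restrict {x | 0 < ρ x}) :=
        (integrable_of_Ke h (h8.pow 2) fun x hx => by simp [hτ.Sg_off hx f]).restrict
      have hi2 : Integrable (fun x => (L.map fun τ => Sg ρ Y a τ f x).sum ^ 2)
          (volume.restrict {x | 0 < ρ x}) :=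
        (integrable_of_Ke h (h5.pow 2) fun x hx => by simp [h6 x hx]).restrict
      have hi3 : Integrable (fun x => (Sg ρ Y a τ f x + (L.map fun τ => Sg ρ Y a τ f x).sum) ^ 2)
          (volume.restrict {x | 0 < ρ x}) :=
        (integrable_of_Ke h ((h8.add h5).pow 2) fun x hx => by
          simp [hτ.Sg_off hx f, h6 x hx]).restrict
      have h9 : ∫ x in D ρ, pds τ.β f x ^ 2 ≤ hs (D ρ) α.length f := by
        have := le_hs (D ρ) α.length f τ.β hτ.β
        simpa only [Real.norm_eq_abs, sq_abs] using this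
      calc _ ≤ ∫ x in {x | 0 < ρ x}, (2 * Sg ρ Y a τ f x ^ 2 +
            2 * (L.map fun τ => Sg ρ Y a τ f x).sum ^ 2) := by
            refine integral_mono hi3 ((hi1.const_mul 2).add (hi2.const_mul 2)) fun x => ?_
            simp only
            nlinarith [sq_nonneg (Sg ρ Y a τ f x - (L.map fun τ => Sg ρ Y a τ f x).sum)]
        _ = (2 * ∫ x in {x | 0 < ρ x}, Sg ρ Y a τ f x ^ 2) +
            2 * ∫ x in {x | 0 < ρ x}, (L.map fun τ => Sg ρ Y a τ f x).sum ^ 2 := by
            rw [integral_add (hi1.const_mul 2) (hi2.const_mul 2), integral_const_mul,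
              integral_const_mul]
        _ ≤ 2 * (C1 * hs (D ρ) α.length f) + 2 * (C2 * hs (D ρ) α.length f) := by
            have := h3 f hf
            have h10 : C1 * ∫ x in D ρ, pds τ.β f x ^ 2 ≤ C1 * hs (D ρ) α.length f := by
              gcongr
            linarith
        _ = _ := by ring
  obtain ⟨C, hC, h3⟩ := h2 L hL
  refine ⟨C, hC, fun f hf => ?_⟩
  simp only [h1 f hf]
  exact (h3 f hf).2.2

end SeelM
end MPfab
end

section
/-!
MP_fabde4_an, module SEEL: the Seeley extension operator.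
-/
set_option autoImplicit false
open MeasureTheory Set Filter Topology

namespace MPfab
namespace SeelM

variable {ρ : E → ℝ} {R c : ℝ} {Y : ℝ × E → E} {a : ℕ → ℝ} {χ : ℝ → ℝ} {ζ : E → ℝ}

/-- the extension -/
noncomputable def Ex (ρ : E → ℝ) (Y : ℝ × E → E) (a : ℕ → ℝ) (χ : ℝ → ℝ) (ζ : E → ℝ)
    (f : E → ℝ) (x : E) : ℝ := if ρ x ≤ 0 then f x else Sg ρ Y a (τ0 ρ χ ζ) f x

/-- the difference of the series and the cut function is flat -/
lemma Stp.flat (h : Stp ρ R c Y a χ ζ) {f : E → ℝ} (hf : Sm f) :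
    Flat.Fl ρ fun x => Sg ρ Y a (τ0 ρ χ ζ) f x - ζ x * χ (ρ x) * χ (-ρ x) * f x := by
  have hρ := h.dom.smooth
  refine ⟨(h.smS hf).sub (((h.smζ.mul (h.smχ.comp hρ)).mul (h.smχ.comp hρ.neg)).mul hf),
    fun x0 _ n => ?_⟩
  set V : E × ℝ → ℝ := fun p => (τ0 ρ χ ζ).W p * f (Zf ρ Y p) with hV
  have hVs : Sm V := h.ok0.sm.mul (hf.comp h.smZ)
  have hV0 : ∀ p ∉ Kf ρ c, V p = 0 := fun p hp => by simp [hV, h.ok0.sup p hp]
  obtain ⟨u, C, hC, h1⟩ := taylor n (Kf ρ c) V h.cptK hVs hV0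
  set A : ℝ := ∑' k : ℕ, |a k| * ((k : ℝ) + 1) ^ n with hA
  have hA0 : 0 ≤ A := tsum_nonneg fun k => by positivity
  refine ⟨C * A + C, by positivity, Eventually.of_forall fun x => ?_⟩
  have hev : ∀ s : ℝ, (τ0 ρ χ ζ).ev ρ (Zf ρ Y) f s x = V (x, s * ρ x) := by
    intro s
    simp [Tm.ev, τ0, hV, pds]
  have hVx : V (x, -ρ x) = ζ x * χ (ρ x) * χ (-ρ x) * f x := by
    simp [hV, τ0, Zf, h.zero]
  -- the polynomial part
  have hsa : ∀ j : ℕ, Summable fun k : ℕ => a k * ((k : ℝ) + 1) ^ j := fun j => by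
    refine Summable.of_abs ((h.sa j).congr fun k => ?_)
    rw [abs_mul, abs_of_nonneg (by positivity : (0 : ℝ) ≤ ((k : ℝ) + 1) ^ j)]
  have hpoly : HasSum (fun k : ℕ => a k * ∑ j ∈ Finset.range n, u j x * (((k : ℝ) + 1) * ρ x) ^ j)
      (∑ j ∈ Finset.range n, u j x * (-ρ x) ^ j) := by
    have h2 : (fun k : ℕ => a k * ∑ j ∈ Finset.range n, u j x * (((k : ℝ) + 1) * ρ x) ^ j) =
        fun k : ℕ => ∑ j ∈ Finset.range n, (u j x * ρ x ^ j) * (a k * ((k : ℝ) + 1) ^ j) := by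
      funext k
      rw [Finset.mul_sum]
      refine Finset.sum_congr rfl fun j _ => ?_
      rw [mul_pow]; ring
    have h3 : (∑ j ∈ Finset.range n, u j x * (-ρ x) ^ j) =
        ∑ j ∈ Finset.range n, (u j x * ρ x ^ j) * (-1) ^ j := by
      refine Finset.sum_congr rfl fun j _ => ?_
      rw [neg_pow]; ring
    rw [h2, h3]
    refine hasSum_sum fun j _ => ?_
    have := (hsa j).hasSum
    rw [h.ma j] at this
    exact this.mul_left _
  have hmain := (h.ok0.summable h hf x).hasSum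
  have hdiff := hmain.sub hpoly
  have hb : ∀ k : ℕ, ‖a k * (τ0 ρ χ ζ).ev ρ (Zf ρ Y) f ((k : ℝ) + 1) x -
      a k * ∑ j ∈ Finset.range n, u j x * (((k : ℝ) + 1) * ρ x) ^ j‖ ≤
        C * |ρ x| ^ n * (|a k| * ((k : ℝ) + 1) ^ n) := by
    intro k
    rw [hev, ← mul_sub, Real.norm_eq_abs, abs_mul]
    have h2 := h1 x (((k : ℝ) + 1) * ρ x)
    rw [abs_mul, abs_of_nonneg (by positivity : (0 : ℝ) ≤ (k : ℝ) + 1), mul_pow] at h2
    calc _ ≤ |a k| * (C * (((k : ℝ) + 1) ^ n * |ρ x| ^ n)) := by gcongr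
      _ = _ := by ring
  have hS1 : Summable fun k : ℕ => C * |ρ x| ^ n * (|a k| * ((k : ℝ) + 1) ^ n) :=
    (h.sa n).mul_left _
  have h3 : |Sg ρ Y a (τ0 ρ χ ζ) f x - ∑ j ∈ Finset.range n, u j x * (-ρ x) ^ j| ≤
      C * A * |ρ x| ^ n := by
    have h4 := tsum_of_norm_bounded (hS1.hasSum) hb
    rw [hdiff.tsum_eq, tsum_mul_left, Real.norm_eq_abs] at h4
    calc _ ≤ _ := h4
      _ = _ := by rw [hA]; ring
  have h5 := h1 x (-ρ x)
  rw [abs_neg, hVx] at h5
  rw [Real.norm_eq_abs]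
  calc |Sg ρ Y a (τ0 ρ χ ζ) f x - ζ x * χ (ρ x) * χ (-ρ x) * f x|
      = |(Sg ρ Y a (τ0 ρ χ ζ) f x - ∑ j ∈ Finset.range n, u j x * (-ρ x) ^ j) -
          (ζ x * χ (ρ x) * χ (-ρ x) * f x - ∑ j ∈ Finset.range n, u j x * (-ρ x) ^ j)| := by
        congr 1; ring
    _ ≤ _ := abs_sub _ _
    _ ≤ C * A * |ρ x| ^ n + C * |ρ x| ^ n := add_le_add h3 h5
    _ = _ := by ring

/-- the cutoff in `ρ` -/
noncomputable def κ (χ : ℝ → ℝ) (s : ℝ) : ℝ := if s ≤ 0 then 1 else χ s * χ (-s)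

lemma Stp.smκ (h : Stp ρ R c Y a χ ζ) : Sm (κ χ) := by
  have hc := h.pos
  refine contDiff_iff_contDiffAt.mpr fun s => ?_
  by_cases hs : s < c / 4
  · have h1 : κ χ =ᶠ[𝓝 s] fun _ => 1 := by
      filter_upwards [gt_mem_nhds hs] with t ht
      unfold κ
      split_ifs with h0
      · rfl
      · have h2 : |t| < c / 4 := by rw [abs_of_pos (not_le.mp h0)]; exact ht
        rw [h.oneχ t h2, h.oneχ (-t) (by rwa [abs_neg]), mul_one]
    exact contDiffAt_const.congr_of_eventuallyEq h1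
  · have hs0 : 0 < s := by linarith
    have h1 : κ χ =ᶠ[𝓝 s] fun t => χ t * χ (-t) := by
      filter_upwards [lt_mem_nhds hs0] with t ht
      unfold κ
      rw [if_neg (not_le.mpr ht)]
    exact (h.smχ.mul (h.smχ.comp contDiff_neg)).contDiffAt.congr_of_eventuallyEq h1

lemma Stp.smEx (h : Stp ρ R c Y a χ ζ) {f : E → ℝ} (hf : Sm f) : Sm (Ex ρ Y a χ ζ f) := by
  have hρ := h.dom.smooth
  have h1 : Ex ρ Y a χ ζ f = fun x => ζ x * κ χ (ρ x) * f x + Flat.plus ρ
      (fun x => Sg ρ Y a (τ0 ρ χ ζ) f x - ζ x * χ (ρ x) * χ (-ρ x) * f x) x := by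
    funext x
    unfold Ex Flat.plus κ
    by_cases hx : ρ x ≤ 0
    · rw [if_pos hx, if_pos hx, if_neg (not_lt.mpr hx), h.oneζ x hx]; ring
    · rw [if_neg hx, if_neg hx, if_pos (not_le.mp hx)]; ring
  rw [h1]
  exact ((h.smζ.mul (h.smκ.comp hρ)).mul hf).add
    (contDiff_infty.mpr fun n => Flat.contDiff_plus ρ hρ n ℝ _ (h.flat hf))

/-- boundary points are limits of points of the domain -/
lemma mem_closure {ρ : E → ℝ} (h : Dom ρ) {x : E} (hx : ρ x = 0) : x ∈ closure (D ρ) := by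
  have h1 := h.reg x hx
  obtain ⟨v, hv⟩ : ∃ v, fderiv ℝ ρ x v < 0 := by
    by_contra hcon
    push Not at hcon
    refine h1 (ContinuousLinearMap.ext fun v => ?_)
    have h2 := hcon v
    have h3 := hcon (-v)
    rw [map_neg] at h3
    simp only [zero_apply]
    linarith
  have h2 : HasDerivAt (fun t : ℝ => ρ (x + t • v)) (fderiv ℝ ρ x v) 0 := by
    have h3 : HasDerivAt (fun t : ℝ => x + t • v) v 0 := by
      simpa using ((hasDerivAt_id (0 : ℝ)).smul_const v).const_add x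
    have h4 : HasFDerivAt ρ (fderiv ℝ ρ x) (x + (0 : ℝ) • v) := by
      simpa using (h.smooth.differentiable x).hasFDerivAt
    exact h4.comp_hasDerivAt 0 h3
  have h3 : ∀ᶠ t in 𝓝[>] (0 : ℝ), ρ (x + t • v) < 0 := by
    have h4 := (hasDerivAt_iff_tendsto_slope.mp h2).mono_left
      (nhdsWithin_mono 0 (fun t (ht : 0 < t) => ht.ne') : 𝓝[>] (0 : ℝ) ≤ 𝓝[≠] 0)
    filter_upwards [h4.eventually (gt_mem_nhds hv), self_mem_nhdsWithin] with t ht ht0
    have ht0' : (0 : ℝ) < t := ht0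
    rw [slope_def_field] at ht
    simp only [zero_smul, add_zero, sub_zero, hx] at ht
    by_contra h5
    exact absurd (div_nonneg (not_lt.mp h5) ht0'.le) (not_le.mpr ht)
  have h4 : Tendsto (fun t : ℝ => x + t • v) (𝓝[>] 0) (𝓝 x) := by
    have : Continuous fun t : ℝ => x + t • v := by fun_prop
    have h5 := this.tendsto 0
    simp only [zero_smul, add_zero] at h5
    exact h5.mono_left nhdsWithin_le_nhds
  exact mem_closure_of_tendsto h4 h3

lemma finite_words (k : ℕ) : {α : List (Fin 3) | α.length ≤ k}.Finite := List.finite_length_le _ k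

/-- a bound for each word gives a bound for all words of length at most `k` -/
lemma exists_max (k : ℕ) (C : List (Fin 3) → ℝ) : ∃ C' : ℝ, 0 ≤ C' ∧
    ∀ α : List (Fin 3), α.length ≤ k → C α ≤ C' := by
  obtain ⟨M, hM⟩ := ((finite_words k).image C).bddAbove
  exact ⟨max M 0, le_max_right _ _, fun α hα =>
    (hM ⟨α, hα, rfl⟩).trans (le_max_left _ _)⟩

lemma Stp.isExt (h : Stp ρ R c Y a χ ζ) (hR : ∀ x, ρ x ≤ 0 → ‖x‖ < R) :
    IsExt ρ R (Ex ρ Y a χ ζ) := by
  have hρ := h.dom.smooth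
  have hDo : IsOpen (D ρ) := isOpen_lt hρ.continuous continuous_const
  have hPo : IsOpen {x | 0 < ρ x} := isOpen_lt continuous_const hρ.continuous
  have hExD : ∀ f : E → ℝ, ∀ x ∈ D ρ, Ex ρ Y a χ ζ f x = f x := fun f x hx => by
    unfold Ex; rw [if_pos (le_of_lt hx)]
  have hExP : ∀ f : E → ℝ, ∀ x ∈ {x | 0 < ρ x}, Ex ρ Y a χ ζ f x = Sg ρ Y a (τ0 ρ χ ζ) f x :=
    fun f x hx => by unfold Ex; rw [if_neg (not_le.mpr hx)]
  have hSloc : ∀ f g : E → ℝ, (∀ x ∈ D ρ, f x = g x) → ∀ x, 0 < ρ x →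
      Sg ρ Y a (τ0 ρ χ ζ) f x = Sg ρ Y a (τ0 ρ χ ζ) g x := by
    intro f g hfg x hx
    unfold Sg
    refine tsum_congr fun k => ?_
    congr 1
    by_cases hK : (x, ((k : ℝ) + 1) * ρ x) ∈ Kf ρ c
    · have h3 : Zf ρ Y (x, ((k : ℝ) + 1) * ρ x) ∈ D ρ := by
        change ρ _ < 0
        rw [h.rhoZ hK]
        have : 0 < ((k : ℝ) + 1) * ρ x := by positivity
        linarith
      simp [Tm.ev, τ0, pds, hfg _ h3]
    · rw [h.ok0.ev_off hK, h.ok0.ev_off hK]
  have hzero : ∀ f : E → ℝ, ∀ x, R ≤ ‖x‖ → Ex ρ Y a χ ζ f x = 0 := by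
    intro f x hx
    have h1 : ¬ ρ x ≤ 0 := fun h2 => absurd (hR x h2) (not_lt.mpr hx)
    unfold Ex
    rw [if_neg h1]
    unfold Sg
    have h2 : ∀ s, (τ0 ρ χ ζ).ev ρ (Zf ρ Y) f s x = 0 := fun s => by
      simp [Tm.ev, τ0, h.zeroζ x hx]
    simp [h2]
  refine ⟨fun f g hf hg => ?_, fun r f hf => ?_, fun f hf => ⟨h.smEx hf, hzero f⟩,
    fun f _ x hx => ?_, fun f g hf hg hfg => ?_, fun k => ?_, fun k => ?_⟩
  · funext x
    unfold Ex
    split_ifs with hx
    · rfl
    · unfold Sg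
      rw [← (h.ok0.summable h hf x).tsum_add (h.ok0.summable h hg x)]
      refine tsum_congr fun k => ?_
      simp only [Tm.ev, τ0, pds]
      ring
  · funext x
    unfold Ex
    split_ifs with hx
    · rfl
    · unfold Sg
      rw [← tsum_mul_left]
      refine tsum_congr fun k => ?_
      simp only [Tm.ev, τ0, pds]
      ring
  · unfold Ex; rw [if_pos hx]
  · funext x
    rcases lt_trichotomy (ρ x) 0 with hx | hx | hx
    · rw [hExD f x hx, hExD g x hx, hfg x hx]
    · have h1 : closure (D ρ) ⊆ {x | f x = g x} :=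
        closure_minimal hfg (isClosed_eq hf.continuous hg.continuous)
      have h2 : f x = g x := h1 (mem_closure h.dom.toDom hx)
      unfold Ex
      rw [if_pos hx.le, if_pos hx.le, h2]
    · rw [hExP f x hx, hExP g x hx, hSloc f g hfg x hx]
  · -- the `H^k` bound
    choose C hC hC' using fun α : List (Fin 3) => h.l2_S α
    obtain ⟨C1, hC1, hC1'⟩ := exists_max k C
    refine ⟨4 ^ k * (1 + C1), fun f hf => ?_⟩
    have hk0 : 0 ≤ hs (D ρ) k f := hs_nonneg _ _ _
    rw [mul_assoc]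
    refine hs_le univ k _ _ (by positivity) fun α hα => ?_
    have hsm := h.smEx hf
    have hcs : HasCompactSupport (pds α (Ex ρ Y a χ ζ f)) := by
      refine HasCompactSupport.intro (isCompact_closedBall (0 : E) R) fun x hx => ?_
      refine pds_eq_zero Metric.isClosed_closedBall (fun y hy => hzero f y ?_) α x hx
      rw [Metric.mem_closedBall, dist_zero_right, not_le] at hy
      exact hy.le
    have hint : Integrable fun x => ‖pds α (Ex ρ Y a χ ζ f) x‖ ^ 2 := by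
      refine Continuous.integrable_of_hasCompactSupport
        ((pds_sm hsm α).continuous.norm.pow 2) ?_
      have := hcs.norm
      exact this.comp_left (g := fun t : ℝ => t ^ 2) (by simp)
    have hDm : MeasurableSet (D ρ) := hDo.measurableSet
    have hPm : MeasurableSet {x | 0 < ρ x} := hPo.measurableSet
    have hdis : Disjoint (D ρ) {x | 0 < ρ x} := by
      rw [Set.disjoint_left]
      intro x (hx : ρ x < 0) (hx' : 0 < ρ x)
      linarith
    have hae : (univ : Set E) =ᵐ[volume] (D ρ ∪ {x | 0 < ρ x} : Set E) := by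
      have h1 : ∀ᵐ x ∂(volume : Measure E), ρ x ≠ 0 := by
        rw [ae_iff]
        simpa using h.null
      filter_upwards [h1] with x hx
      apply propext
      constructor
      · intro _
        rcases lt_or_gt_of_ne hx with h2 | h2
        · exact Or.inl h2
        · exact Or.inr h2
      · intro _; trivial
    rw [setIntegral_congr_set hae, setIntegral_union hdis hPm hint.integrableOn hint.integrableOn]
    have h1 : ∫ x in D ρ, ‖pds α (Ex ρ Y a χ ζ f) x‖ ^ 2 = ∫ x in D ρ, ‖pds α f x‖ ^ 2 :=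
      setIntegral_congr_fun hDm fun x hx => by
        rw [pds_congr hDo (hExD f) α x hx]
    have h2 : ∫ x in {x | 0 < ρ x}, ‖pds α (Ex ρ Y a χ ζ f) x‖ ^ 2 =
        ∫ x in {x | 0 < ρ x}, pds α (Sg ρ Y a (τ0 ρ χ ζ) f) x ^ 2 :=
      setIntegral_congr_fun hPm fun x hx => by
        rw [pds_congr hPo (hExP f) α x hx, Real.norm_eq_abs, sq_abs]
    rw [h1, h2]
    have h3 := le_hs (D ρ) k f α hα
    have h4 := hC' α f hf
    have h5 : hs (D ρ) α.length f ≤ hs (D ρ) k f := by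
      have h6 : ∀ m n : ℕ, m ≤ n → ∀ g : E → ℝ, hs (D ρ) m g ≤ hs (D ρ) n g := by
        intro m
        induction m with
        | zero =>
          intro n _ g
          cases n with
          | zero => exact le_rfl
          | succ n =>
            simp only [hs]
            have := Finset.sum_nonneg fun i (_ : i ∈ (Finset.univ : Finset (Fin 3))) =>
              hs_nonneg (D ρ) n (pd i g)
            linarith
        | succ m ih =>
          intro n hn g
          cases n with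
          | zero => omega
          | succ n =>
            simp only [hs]
            have := Finset.sum_le_sum fun i (_ : i ∈ (Finset.univ : Finset (Fin 3))) =>
              ih n (by omega) (pd i g)
            linarith
      exact h6 _ _ hα f
    have h6 : C α * hs (D ρ) α.length f ≤ C1 * hs (D ρ) k f := by
      have h7 := hC1' α hα
      have h8 : 0 ≤ hs (D ρ) α.length f := hs_nonneg _ _ _
      calc C α * hs (D ρ) α.length f ≤ C1 * hs (D ρ) α.length f := by gcongr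
        _ ≤ C1 * hs (D ρ) k f := by gcongr
    linarith
  · -- the sup bound
    choose C hC hC' using fun α : List (Fin 3) => h.sup_S α
    obtain ⟨C1, hC1, hC1'⟩ := exists_max k C
    by_cases hne : (D ρ).Nonempty
    · refine ⟨1 + C1, fun f M hf hb α hα x _ => ?_⟩
      obtain ⟨y0, hy0⟩ := hne
      have hM : 0 ≤ M := (norm_nonneg _).trans (hb [] (by simp) y0 hy0)
      have hsm := h.smEx hf
      have hcl : IsClosed {x | ‖pds α (Ex ρ Y a χ ζ f) x‖ ≤ M} :=
        isClosed_le (pds_sm hsm α).continuous.norm continuous_const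
      have h1 : closure (D ρ) ⊆ {x | ‖pds α (Ex ρ Y a χ ζ f) x‖ ≤ M} := by
        refine closure_minimal (fun x hx => ?_) hcl
        simp only [mem_ofPred_eq]
        rw [pds_congr hDo (hExD f) α x hx]
        exact hb α hα x hx
      have hMM : M ≤ (1 + C1) * M := by nlinarith
      rcases lt_trichotomy (ρ x) 0 with hx | hx | hx
      · exact (h1 (subset_closure hx)).trans hMM
      · exact (h1 (mem_closure h.dom.toDom hx)).trans hMM
      · rw [pds_congr hPo (hExP f) α x hx, Real.norm_eq_abs]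
        have h2 := hC' α f M hf hM (fun β hβ y hy => hb β (hβ.trans hα) y hy) x hx
        have h3 := hC1' α hα
        nlinarith
    · refine ⟨0, fun f M hf hb α hα x _ => ?_⟩
      have hall : ∀ x, 0 < ρ x := by
        intro x
        rcases lt_trichotomy (ρ x) 0 with hx | hx | hx
        · exact absurd ⟨x, hx⟩ hne
        · exact absurd (closure_nonempty_iff.mp ⟨x, mem_closure h.dom.toDom hx⟩) hne
        · exact hx
      have h1 : Ex ρ Y a χ ζ f = fun _ => 0 := by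
        funext x
        rw [hExP f x (hall x), hSloc f (fun _ => 0) (fun y hy => absurd ⟨y, hy⟩ hne) x (hall x)]
        unfold Sg
        simp [Tm.ev, τ0, pds]
      rw [h1, pds_zero]
      simp

end SeelM

open SeelM in
theorem specSeel (hCol : SpecCollar) : SpecSeel := by
  intro ρ R h hR
  obtain ⟨c, N, Y, hC⟩ := hCol ρ h
  obtain ⟨a, sa, ma⟩ := specSeec
  obtain ⟨χ, ζ, hS⟩ := exists_stp h hR hC sa ma
  exact ⟨Ex ρ Y a χ ζ, hS.isExt hR⟩

end MPfab
end
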