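import Pool.Agent.Lib.MP_fabde4_an.SpecA
import Pool.Agent.Lib.MP_fabde4_an.SpecB

section
/-!
MP_fabde4_an, modules SOB and PROD (helper78): `H³(D) ⊆ L^∞(D)`.
-/
set_option autoImplicit false
open MeasureTheory Set Filter Topology
open scoped ENNReal

namespace MPfab.Sob

/-- one dimensional inequality -/
theorem one_dim {r : ℝ} (hr : 0 < r) {φ φ' : ℝ → ℝ} (h : ∀ s, HasDerivAt φ (φ' s) s)
    (hc : Continuous φ') :
    φ 0 ^ 2 ≤ (1 / r + 1) * ∫ s in (0 : ℝ)..r, (φ s ^ 2 + φ' s ^ 2) := by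
  have hφ : Continuous φ := continuous_iff_continuousAt.2 fun s => (h s).continuousAt
  have hd : ∀ s, HasDerivAt (fun s => (1 - s / r) * φ s ^ 2)
      (-(1 / r) * φ s ^ 2 + (1 - s / r) * (2 * φ s * φ' s)) s := by
    intro s
    have h1 : HasDerivAt (fun s => 1 - s / r) (-(1 / r)) s := by
      simpa using ((hasDerivAt_id s).div_const r).const_sub 1
    have h2 := h1.mul ((h s).pow 2)
    refine h2.congr_deriv ?_
    simp
  have hcont : Continuous fun s => -(1 / r) * φ s ^ 2 + (1 - s / r) * (2 * φ s * φ' s) := by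
    fun_prop
  have hint := intervalIntegral.integral_eq_sub_of_hasDerivAt (fun s _ => hd s)
    (hcont.intervalIntegrable 0 r)
  have e1 : (1 - r / r) * φ r ^ 2 - (1 - 0 / r) * φ 0 ^ 2 = - φ 0 ^ 2 := by
    rw [div_self hr.ne']
    ring
  rw [e1] at hint
  have h3 : φ 0 ^ 2 = ∫ s in (0 : ℝ)..r, -(-(1 / r) * φ s ^ 2 + (1 - s / r) * (2 * φ s * φ' s)) := by
    rw [intervalIntegral.integral_neg, hint]
    ring
  rw [h3, ← intervalIntegral.integral_const_mul]
  refine intervalIntegral.integral_mono_on hr.le (hcont.neg.intervalIntegrable 0 r)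
    (Continuous.intervalIntegrable (by fun_prop) 0 r) fun s hs => ?_
  have hs1 : 0 ≤ s / r := div_nonneg hs.1 hr.le
  have hs2 : s / r ≤ 1 := (div_le_one hr).2 hs.2
  have hr1 : 0 < 1 / r := one_div_pos.2 hr
  have h4 : -(2 * φ s * φ' s) ≤ φ s ^ 2 + φ' s ^ 2 := by nlinarith [sq_nonneg (φ s + φ' s)]
  have h5 : 2 * φ s * φ' s ≤ φ s ^ 2 + φ' s ^ 2 := by nlinarith [sq_nonneg (φ s - φ' s)]
  have h6 : -((1 - s / r) * (2 * φ s * φ' s)) ≤ φ s ^ 2 + φ' s ^ 2 := by
    have h7 : 0 ≤ 1 - s / r := by linarith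
    have h8 : (1 - s / r) * (-(2 * φ s * φ' s)) ≤ (1 - s / r) * (φ s ^ 2 + φ' s ^ 2) :=
      mul_le_mul_of_nonneg_left h4 h7
    have h9 : (1 - s / r) * (φ s ^ 2 + φ' s ^ 2) ≤ 1 * (φ s ^ 2 + φ' s ^ 2) :=
      mul_le_mul_of_nonneg_right (by linarith) (by positivity)
    linarith
  have h10 : (1 / r) * φ s ^ 2 ≤ (1 / r) * (φ s ^ 2 + φ' s ^ 2) :=
    mul_le_mul_of_nonneg_left (by nlinarith [sq_nonneg (φ' s)]) hr1.le
  linarith

variable {F : Type*} [NormedAddCommGroup F] [NormedSpace ℝ F]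

theorem line {h : E → F} (hh : Sm h) (v y : E) {r : ℝ} (hr : 0 < r) :
    ENNReal.ofReal (‖h y‖ ^ 2) ≤ ENNReal.ofReal (1 / r + 1) *
      ∫⁻ s in Icc (0 : ℝ) r, ENNReal.ofReal (‖h (y + s • v)‖ ^ 2 +
        ‖fderiv ℝ h (y + s • v) v‖ ^ 2) := by
  obtain ⟨ℓ, hℓ, hℓy⟩ := exists_dual_vector'' ℝ (h y)
  have hcd : Continuous (fderiv ℝ h) := hh.continuous_fderiv (by simp)
  have hγ : Continuous fun s : ℝ => y + s • v := by fun_prop
  have hd : ∀ s : ℝ, HasDerivAt (fun s : ℝ => ℓ (h (y + s • v)))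
      (ℓ (fderiv ℝ h (y + s • v) v)) s := by
    intro s
    have h1 : HasDerivAt (fun s : ℝ => y + s • v) v s := by
      simpa using ((hasDerivAt_id s).smul_const v).const_add y
    have h2 : HasFDerivAt h (fderiv ℝ h (y + s • v)) (y + s • v) :=
      (Sm.differentiable hh).differentiableAt.hasFDerivAt
    have h3 := h2.comp_hasDerivAt s h1
    exact ℓ.hasFDerivAt.comp_hasDerivAt s h3
  have hc' : Continuous fun s : ℝ => ℓ (fderiv ℝ h (y + s • v) v) :=
    ℓ.continuous.comp ((hcd.comp hγ).clm_apply continuous_const)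
  have key := one_dim hr hd hc'
  simp only [zero_smul, add_zero] at key
  rw [hℓy] at key
  have hle : ∀ z : F, (ℓ z) ^ 2 ≤ ‖z‖ ^ 2 := by
    intro z
    have h1 : |ℓ z| ≤ ‖z‖ := by
      have := ℓ.le_opNorm z
      rw [Real.norm_eq_abs] at this
      exact this.trans (by nlinarith [norm_nonneg z, norm_nonneg ℓ])
    calc (ℓ z) ^ 2 = |ℓ z| ^ 2 := (sq_abs _).symm
      _ ≤ ‖z‖ ^ 2 := pow_le_pow_left₀ (abs_nonneg _) h1 2
  have hcont : Continuous fun s : ℝ => ‖h (y + s • v)‖ ^ 2 + ‖fderiv ℝ h (y + s • v) v‖ ^ 2 := by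
    have c1 : Continuous fun s : ℝ => h (y + s • v) := (ContDiff.continuous hh).comp hγ
    have c2 : Continuous fun s : ℝ => fderiv ℝ h (y + s • v) v :=
      (hcd.comp hγ).clm_apply continuous_const
    fun_prop
  have h2 : ‖h y‖ ^ 2 ≤ (1 / r + 1) * ∫ s in (0 : ℝ)..r, (‖h (y + s • v)‖ ^ 2 +
      ‖fderiv ℝ h (y + s • v) v‖ ^ 2) := by
    refine key.trans (mul_le_mul_of_nonneg_left ?_ (by positivity))
    refine intervalIntegral.integral_mono_on hr.le ?_ (hcont.intervalIntegrable 0 r)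
      fun s _ => add_le_add (hle _) (hle _)
    refine Continuous.intervalIntegrable ?_ 0 r
    have c1 : Continuous fun s : ℝ => ℓ (h (y + s • v)) :=
      ℓ.continuous.comp ((ContDiff.continuous hh).comp hγ)
    exact (c1.pow 2).add (hc'.pow 2)
  refine (ENNReal.ofReal_le_ofReal h2).trans ?_
  rw [ENNReal.ofReal_mul (by positivity), intervalIntegral.integral_of_le hr.le,
    ← integral_Icc_eq_integral_Ioc, ofReal_integral_eq_lintegral_ofReal]
  · exact hcont.continuousOn.integrableOn_compact isCompact_Icc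
  · exact Eventually.of_forall fun s => by positivity

/-- pointwise version of `hs` -/
noncomputable def sq : ℕ → (E → F) → E → ℝ
  | 0, f, x => ‖f x‖ ^ 2
  | k + 1, f, x => ‖f x‖ ^ 2 + ∑ i, sq k (pd i f) x

theorem sq_nonneg' (k : ℕ) (f : E → F) (x : E) : 0 ≤ sq k f x := by
  induction k generalizing f with
  | zero => simp only [sq]; positivity
  | succ k ih =>
    simp only [sq]
    exact add_nonneg (by positivity) (Finset.sum_nonneg fun i _ => ih _)

theorem norm_le_sq (k : ℕ) (f : E → F) (x : E) : ‖f x‖ ^ 2 ≤ sq k f x := by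
  cases k with
  | zero => simp only [sq]; exact le_rfl
  | succ k =>
    simp only [sq]
    exact le_add_of_nonneg_right (Finset.sum_nonneg fun i _ => sq_nonneg' _ _ _)

theorem sq_mono (k : ℕ) (f : E → F) (x : E) : sq k f x ≤ sq (k + 1) f x := by
  induction k generalizing f with
  | zero => exact norm_le_sq 1 f x
  | succ k ih =>
    rw [sq, sq]
    exact add_le_add le_rfl (Finset.sum_le_sum fun i _ => ih _)

theorem sq_cont (k : ℕ) {f : E → F} (hf : Sm f) : Continuous (sq k f) := by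
  induction k generalizing f with
  | zero =>
    have : sq 0 f = fun x => ‖f x‖ ^ 2 := rfl
    rw [this]
    exact (ContDiff.continuous hf).norm.pow 2
  | succ k ih =>
    have : sq (k + 1) f = fun x => ‖f x‖ ^ 2 + ∑ i, sq k (pd i f) x := rfl
    rw [this]
    exact ((ContDiff.continuous hf).norm.pow 2).add
      (continuous_finsetSum _ fun i _ => ih (Sm.pd hf i))

theorem dd_le {f : E → F} {v : E} (hv : ‖v‖ = 1) (x : E) :
    ‖f x‖ ^ 2 + ‖fderiv ℝ f x v‖ ^ 2 ≤ sq 1 f x := by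
  have h1 : ‖fderiv ℝ f x v‖ ^ 2 ≤ ∑ i, ‖pd i f x‖ ^ 2 := by
    rw [fderiv_eq_sum]
    have h2 : ‖∑ i, v i • pd i f x‖ ≤ ∑ i, |v i| * ‖pd i f x‖ := by
      refine (norm_sum_le _ _).trans (le_of_eq (Finset.sum_congr rfl fun i _ => ?_))
      rw [norm_smul, Real.norm_eq_abs]
    have h3 : (∑ i, |v i| * ‖pd i f x‖) ^ 2 ≤ (∑ i, |v i| ^ 2) * ∑ i, ‖pd i f x‖ ^ 2 :=
      Finset.sum_mul_sq_le_sq_mul_sq _ _ _
    have h4 : ∑ i, |v i| ^ 2 = 1 := by
      have h5 := EuclideanSpace.norm_sq_eq v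
      rw [hv, one_pow] at h5
      simpa [Real.norm_eq_abs] using h5.symm
    rw [h4, one_mul] at h3
    exact (pow_le_pow_left₀ (norm_nonneg _) h2 2).trans h3
  simpa only [sq, add_le_add_iff_left] using h1

theorem line_sq (k : ℕ) {h : E → F} (hh : Sm h) {v : E} (hv : ‖v‖ = 1) (y : E) {r : ℝ}
    (hr : 0 < r) :
    ENNReal.ofReal (sq k h y) ≤ ((k + 1 : ℕ) : ℝ≥0∞) * ENNReal.ofReal (1 / r + 1) *
      ∫⁻ s in Icc (0 : ℝ) r, ENNReal.ofReal (sq (k + 1) h (y + s • v)) := by
  set c := ENNReal.ofReal (1 / r + 1) with hc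
  have base : ∀ {g : E → F}, Sm g → ∀ m : ℕ, ENNReal.ofReal (‖g y‖ ^ 2) ≤
      c * ∫⁻ s in Icc (0 : ℝ) r, ENNReal.ofReal (sq (m + 1) g (y + s • v)) := by
    intro g hg m
    refine (line hg v y hr).trans ?_
    gcongr with s
    refine (dd_le hv _).trans ?_
    induction m with
    | zero => exact le_rfl
    | succ m ih => exact ih.trans (sq_mono _ _ _)
  induction k generalizing h with
  | zero => simpa [sq] using base hh 0
  | succ k ih =>
    have hγ : Continuous fun s : ℝ => y + s • v := by fun_prop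
    have e1 : ENNReal.ofReal (sq (k + 1) h y) =
        ENNReal.ofReal (‖h y‖ ^ 2) + ∑ i, ENNReal.ofReal (sq k (pd i h) y) := by
      rw [sq, ENNReal.ofReal_add (by positivity) (Finset.sum_nonneg fun i _ => sq_nonneg' _ _ _),
        ENNReal.ofReal_sum_of_nonneg fun i _ => sq_nonneg' _ _ _]
    rw [e1]
    have h1 := base hh (k + 1)
    have h2 : ∑ i, ENNReal.ofReal (sq k (pd i h) y) ≤ ((k + 1 : ℕ) : ℝ≥0∞) * c *
        ∫⁻ s in Icc (0 : ℝ) r, ENNReal.ofReal (sq (k + 1 + 1) h (y + s • v)) := by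
      calc ∑ i, ENNReal.ofReal (sq k (pd i h) y)
          ≤ ∑ i, ((k + 1 : ℕ) : ℝ≥0∞) * c *
            ∫⁻ s in Icc (0 : ℝ) r, ENNReal.ofReal (sq (k + 1) (pd i h) (y + s • v)) :=
            Finset.sum_le_sum fun i _ => ih (Sm.pd hh i)
        _ = ((k + 1 : ℕ) : ℝ≥0∞) * c *
            ∫⁻ s in Icc (0 : ℝ) r, ∑ i, ENNReal.ofReal (sq (k + 1) (pd i h) (y + s • v)) := by
            rw [lintegral_finsetSum, Finset.mul_sum]
            intro i _
            exact (((sq_cont _ (Sm.pd hh i)).comp hγ).measurable).ennreal_ofReal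
        _ ≤ _ := by
            gcongr with s
            rw [← ENNReal.ofReal_sum_of_nonneg fun i _ => sq_nonneg' _ _ _]
            refine ENNReal.ofReal_le_ofReal ?_
            conv_rhs => rw [sq]
            exact le_add_of_nonneg_left (by positivity)
    refine (add_le_add h1 h2).trans (le_of_eq ?_)
    push_cast
    ring

/-- the coordinates of the cube -/
theorem triple {h : E → F} (hh : Sm h) {v : Fin 3 → E} (hv : ∀ i, ‖v i‖ = 1) (x : E) {r : ℝ}
    (hr : 0 < r) :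
    ENNReal.ofReal (‖h x‖ ^ 2) ≤ 6 * ENNReal.ofReal (1 / r + 1) ^ 3 *
      ∫⁻ a in Icc (0 : ℝ) r, ∫⁻ b in Icc (0 : ℝ) r, ∫⁻ c in Icc (0 : ℝ) r,
        ENNReal.ofReal (sq 3 h (x + a • v 0 + b • v 1 + c • v 2)) := by
  set C := ENNReal.ofReal (1 / r + 1) with hC
  have hCt : C ≠ ⊤ := ENNReal.ofReal_ne_top
  have h0 := line_sq 0 hh (hv 0) x hr
  have h1 := fun y => line_sq 1 hh (hv 1) y hr
  have h2 := fun y => line_sq 2 hh (hv 2) y hr
  rw [← hC] at h0 h1 h2
  calc ENNReal.ofReal (‖h x‖ ^ 2) ≤ ((0 + 1 : ℕ) : ℝ≥0∞) * C *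
        ∫⁻ a in Icc (0 : ℝ) r, ENNReal.ofReal (sq 1 h (x + a • v 0)) := h0
    _ ≤ ((0 + 1 : ℕ) : ℝ≥0∞) * C * ∫⁻ a in Icc (0 : ℝ) r, ((1 + 1 : ℕ) : ℝ≥0∞) * C *
        ∫⁻ b in Icc (0 : ℝ) r, ENNReal.ofReal (sq 2 h (x + a • v 0 + b • v 1)) := by
        gcongr with a
        exact h1 _
    _ ≤ ((0 + 1 : ℕ) : ℝ≥0∞) * C * ∫⁻ a in Icc (0 : ℝ) r, ((1 + 1 : ℕ) : ℝ≥0∞) * C *
        ∫⁻ b in Icc (0 : ℝ) r, ((2 + 1 : ℕ) : ℝ≥0∞) * C * ∫⁻ c in Icc (0 : ℝ) r,
          ENNReal.ofReal (sq 3 h (x + a • v 0 + b • v 1 + c • v 2)) := by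
        gcongr with a b
        exact h2 _
    _ = _ := by
        have t1 : ((2 + 1 : ℕ) : ℝ≥0∞) * C ≠ ⊤ := ENNReal.mul_ne_top (by simp) hCt
        have t2 : ((1 + 1 : ℕ) : ℝ≥0∞) * C * (((2 + 1 : ℕ) : ℝ≥0∞) * C) ≠ ⊤ :=
          ENNReal.mul_ne_top (ENNReal.mul_ne_top (by simp) hCt) t1
        simp_rw [lintegral_const_mul' _ _ t1, ← mul_assoc]
        have t3 : ((1 + 1 : ℕ) : ℝ≥0∞) * C * ((2 + 1 : ℕ) : ℝ≥0∞) * C ≠ ⊤ := by
          rw [mul_assoc]; exact t2
        rw [lintegral_const_mul' _ _ t3, ← mul_assoc]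
        congr 1
        push_cast
        ring

/-- parametrisation of the space -/
noncomputable def mm (p : ℝ × ℝ × ℝ) : E := WithLp.toLp 2 ![p.1, p.2.1, p.2.2]

theorem mp_mm : MeasurePreserving mm (volume : Measure (ℝ × ℝ × ℝ)) volume := by
  have hA := (MeasurePreserving.id (volume : Measure ℝ)).prod
    (volume_preserving_finTwoArrow ℝ).symm
  have hB := (volume_preserving_piFinSuccAbove (fun _ : Fin 3 => ℝ) 0).symm
  have hC := PiLp.volume_preserving_toLp (Fin 3)
  have h := hC.comp (hB.comp hA)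
  have e : mm = WithLp.toLp 2 ∘ (MeasurableEquiv.piFinSuccAbove (fun _ : Fin 3 => ℝ) 0).symm ∘
      Prod.map id (MeasurableEquiv.finTwoArrow (α := ℝ)).symm := by
    funext p
    ext i
    fin_cases i <;> rfl
  rw [e]
  exact h

theorem mm_eq (p : ℝ × ℝ × ℝ) : mm p = p.1 • eb 0 + p.2.1 • eb 1 + p.2.2 • eb 2 := by
  ext i
  fin_cases i <;> simp [mm, eb]

theorem norm_eb (i : Fin 3) : ‖eb i‖ = 1 := by simp [eb]

theorem norm_mm {p : ℝ × ℝ × ℝ} {r : ℝ} (h1 : p.1 ∈ Icc 0 r) (h2 : p.2.1 ∈ Icc 0 r)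
    (h3 : p.2.2 ∈ Icc 0 r) : ‖mm p‖ ≤ 3 * r := by
  rw [mm_eq]
  have e : ∀ (a : ℝ) (i : Fin 3), a ∈ Icc 0 r → ‖a • eb i‖ ≤ r := by
    intro a i ha
    rw [norm_smul, norm_eb, mul_one, Real.norm_eq_abs, abs_of_nonneg ha.1]
    exact ha.2
  have := norm_add₃_le (a := p.1 • eb 0) (b := p.2.1 • eb 1) (c := p.2.2 • eb 2)
  have := e _ 0 h1
  have := e _ 1 h2
  have := e _ 2 h3
  linarith

/-- the cube condition -/
def Cube (ρ : E → ℝ) (r : ℝ) (x : E) : Prop :=
  ∃ R : E ≃ₗᵢ[ℝ] E, ∀ p : ℝ × ℝ × ℝ, p.1 ∈ Icc 0 r → p.2.1 ∈ Icc 0 r → p.2.2 ∈ Icc 0 r →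
    x + R (mm p) ∈ D ρ

theorem Cube.mono {ρ : E → ℝ} {r r' : ℝ} {x : E} (h : Cube ρ r x) (hr : r' ≤ r) :
    Cube ρ r' x := by
  obtain ⟨R, hR⟩ := h
  exact ⟨R, fun p h1 h2 h3 => hR p ⟨h1.1, h1.2.trans hr⟩ ⟨h2.1, h2.2.trans hr⟩
    ⟨h3.1, h3.2.trans hr⟩⟩

theorem cube_local {ρ : E → ℝ} (hρ : Dom ρ) {z : E} (hz : z ∈ closure (D ρ)) :
    ∃ δ > 0, ∃ r > 0, ∀ x ∈ D ρ, dist x z < δ → Cube ρ r x := by
  have hc : Continuous ρ := ContDiff.continuous hρ.smooth
  have hz0 : ρ z ≤ 0 := by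
    have : closure (D ρ) ⊆ {x | ρ x ≤ 0} :=
      closure_minimal (fun x (hx : ρ x < 0) => hx.le) (isClosed_le hc continuous_const)
    exact this hz
  rcases hz0.lt_or_eq with h | h
  · have hop : IsOpen (D ρ) := isOpen_lt hc continuous_const
    obtain ⟨ε, hε, hb⟩ := Metric.isOpen_iff.1 hop z h
    refine ⟨ε / 2, by positivity, ε / 8, by positivity, fun x _ hxz => ?_⟩
    refine ⟨LinearIsometryEquiv.refl ℝ E, fun p h1 h2 h3 => hb ?_⟩
    rw [Metric.mem_ball, dist_eq_norm]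
    have e1 := norm_mm h1 h2 h3
    rw [dist_eq_norm] at hxz
    have e2 : x + mm p - z = (x - z) + mm p := by abel
    show ‖x + mm p - z‖ < ε
    rw [e2]
    have := norm_add_le (x - z) (mm p)
    linarith
  · have hreg := hρ.reg z h
    set N : E := gr ρ z with hN
    have hN0 : N ≠ 0 := by
      intro h0
      apply hreg
      ext v
      rw [← inner_gr, ← hN, h0]
      simp
    have hNn : 0 < ‖N‖ := norm_pos_iff.2 hN0
    set u : E := (Real.sqrt 3)⁻¹ • (eb 0 + eb 1 + eb 2) with hu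
    have h3 : Real.sqrt 3 ^ 2 = 3 := Real.sq_sqrt (by norm_num)
    have h3p : 0 < Real.sqrt 3 := Real.sqrt_pos.2 (by norm_num)
    have hu1 : ‖u‖ = 1 := by
      have e1 : ‖u‖ ^ 2 = 1 := by
        rw [EuclideanSpace.norm_sq_eq, Fin.sum_univ_three]
        simp only [hu, PiLp.smul_apply, PiLp.add_apply, eb_apply, smul_eq_mul, Real.norm_eq_abs,
          sq_abs]
        simp
        field_simp
        linarith
      nlinarith [norm_nonneg u]
    set w : E := -(‖N‖⁻¹ • N) with hw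
    have hw1 : ‖w‖ = 1 := by
      rw [hw, norm_neg, norm_smul, norm_inv, norm_norm, inv_mul_cancel₀ hNn.ne']
    set R : E ≃ₗᵢ[ℝ] E := Submodule.reflection (Submodule.span ℝ {u - w})ᗮ with hR
    have hRu : R u = w := Submodule.reflection_sub (hu1.trans hw1.symm)
    have hneg : ∀ i, fderiv ℝ ρ z (R (eb i)) < 0 := by
      intro i
      rw [← inner_gr, ← hN]
      have e1 : N = -(‖N‖ • w) := by
        rw [hw, smul_neg, neg_neg, smul_smul, mul_inv_cancel₀ hNn.ne', one_smul]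
      rw [e1, inner_neg_right, inner_smul_right, ← hRu, R.inner_map_map]
      have e2 : inner ℝ (eb i) u = (Real.sqrt 3)⁻¹ := by
        rw [inner_eq, Fin.sum_univ_three, hu]
        fin_cases i <;> simp [eb]
      rw [e2]
      have : 0 < ‖N‖ * (Real.sqrt 3)⁻¹ := by positivity
      linarith
    have hcd : Continuous (fderiv ℝ ρ) := ContDiff.continuous_fderiv hρ.smooth (by simp)
    have hev : ∀ᶠ y in 𝓝 z, ∀ i, fderiv ℝ ρ y (R (eb i)) < 0 := by
      rw [eventually_all]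
      intro i
      have : Continuous fun y => fderiv ℝ ρ y (R (eb i)) := hcd.clm_apply continuous_const
      exact (this.tendsto z).eventually_lt_const (hneg i)
    obtain ⟨ε, hε, hb⟩ := Metric.eventually_nhds_iff.1 hev
    refine ⟨ε / 2, by positivity, ε / 8, by positivity, fun x hx hxz => ?_⟩
    refine ⟨R, fun p h1 h2 h3 => ?_⟩
    have e1 := norm_mm h1 h2 h3
    set d := R (mm p) with hd
    have hdn : ‖d‖ ≤ 3 * (ε / 8) := by rw [hd, R.norm_map]; exact e1
    have hdd : d = p.1 • R (eb 0) + p.2.1 • R (eb 1) + p.2.2 • R (eb 2) := by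
      rw [hd, mm_eq, map_add, map_add, map_smul, map_smul, map_smul]
    have hball : ∀ t ∈ Icc (0 : ℝ) 1, dist (x + t • d) z < ε := by
      intro t ht
      rw [dist_eq_norm] at hxz ⊢
      have e2 : x + t • d - z = (x - z) + t • d := by abel
      rw [e2]
      have e3 : ‖t • d‖ ≤ ‖d‖ := by
        rw [norm_smul, Real.norm_eq_abs, abs_of_nonneg ht.1]
        exact mul_le_of_le_one_left (norm_nonneg _) ht.2
      have := norm_add_le (x - z) (t • d)
      linarith
    have hder : ∀ t : ℝ, HasDerivAt (fun t : ℝ => ρ (x + t • d))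
        (fderiv ℝ ρ (x + t • d) d) t := by
      intro t
      have e2 : HasDerivAt (fun s : ℝ => x + s • d) d t := by
        simpa using ((hasDerivAt_id t).smul_const d).const_add x
      exact (Sm.differentiable hρ.smooth).differentiableAt.hasFDerivAt.comp_hasDerivAt t e2
    have hanti : AntitoneOn (fun t : ℝ => ρ (x + t • d)) (Icc 0 1) := by
      refine antitoneOn_of_deriv_nonpos (convex_Icc 0 1)
        (fun t _ => (hder t).continuousAt.continuousWithinAt)
        (fun t _ => (hder t).differentiableAt.differentiableWithinAt) fun t ht => ?_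
      rw [(hder t).deriv, hdd]
      rw [interior_Icc] at ht
      have hb' := hb (hball t (Ioo_subset_Icc_self ht))
      rw [hdd] at hb'
      simp only [map_add, map_smul, smul_eq_mul]
      have f0 := mul_nonpos_of_nonneg_of_nonpos h1.1 (hb' 0).le
      have f1 := mul_nonpos_of_nonneg_of_nonpos h2.1 (hb' 1).le
      have f2 := mul_nonpos_of_nonneg_of_nonpos h3.1 (hb' 2).le
      linarith
    have h4 := hanti (left_mem_Icc.2 zero_le_one) (right_mem_Icc.2 zero_le_one) zero_le_one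
    simp only [one_smul, zero_smul, add_zero] at h4
    exact lt_of_le_of_lt h4 hx

theorem cube_all {ρ : E → ℝ} (hρ : Dom ρ) : ∃ r > 0, ∀ x ∈ D ρ, Cube ρ r x := by
  have hK : IsCompact (closure (D ρ)) := hρ.bdd.isCompact_closure
  have key : ∃ r > 0, ∀ x ∈ closure (D ρ), x ∈ D ρ → Cube ρ r x := by
    refine hK.induction_on (p := fun s => ∃ r > 0, ∀ x ∈ s, x ∈ D ρ → Cube ρ r x) ?_ ?_ ?_ ?_
    · exact ⟨1, one_pos, fun x hx => absurd hx (notMem_empty x)⟩
    · rintro s t hst ⟨r, hr, h⟩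
      exact ⟨r, hr, fun x hx => h x (hst hx)⟩
    · rintro s t ⟨r, hr, h⟩ ⟨r', hr', h'⟩
      refine ⟨min r r', lt_min hr hr', fun x hx hxD => ?_⟩
      rcases hx with hx | hx
      · exact (h x hx hxD).mono (min_le_left _ _)
      · exact (h' x hx hxD).mono (min_le_right _ _)
    · intro z hz
      obtain ⟨δ, hδ, r, hr, h⟩ := cube_local hρ hz
      refine ⟨Metric.ball z δ, mem_nhdsWithin_of_mem_nhds (Metric.ball_mem_nhds z hδ), r, hr,
        fun x hx hxD => h x hxD hx⟩
  obtain ⟨r, hr, h⟩ := key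
  exact ⟨r, hr, fun x hx => h x (subset_closure hx) hx⟩

theorem integrable_sq {S : Set E} (hb : Bornology.IsBounded S) (k : ℕ) {f : E → F} (hf : Sm f) :
    IntegrableOn (sq k f) S :=
  ((sq_cont k hf).continuousOn.integrableOn_compact hb.isCompact_closure).mono_set subset_closure

theorem hs_eq {S : Set E} (hb : Bornology.IsBounded S) (k : ℕ) {f : E → F} (hf : Sm f) :
    hs S k f = ∫ x in S, sq k f x := by
  induction k generalizing f with
  | zero => rfl
  | succ k ih =>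
    have h1 : IntegrableOn (fun x => ‖f x‖ ^ 2) S := integrable_sq hb 0 hf
    have h2 : ∀ i : Fin 3, IntegrableOn (fun x => sq k (pd i f) x) S := fun i =>
      integrable_sq hb k (Sm.pd hf i)
    rw [hs]
    simp only [sq]
    rw [integral_add h1 (integrable_finsetSum _ fun i _ => h2 i),
      integral_finsetSum _ fun i _ => h2 i]
    congr 1
    exact Finset.sum_congr rfl fun i _ => ih (Sm.pd hf i)

end MPfab.Sob

namespace MPfab

open Sob

theorem specSob : SpecSob := by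
  intro ρ hρ
  obtain ⟨r, hr, hcube⟩ := cube_all hρ
  refine ⟨6 * (1 / r + 1) ^ 3, by positivity, ?_⟩
  intro F _ _ f hf x hx
  obtain ⟨R, hR⟩ := hcube x hx
  have hop : IsOpen (D ρ) := isOpen_lt (ContDiff.continuous hρ.smooth) continuous_const
  have hv : ∀ i, ‖R (eb i)‖ = 1 := fun i => by rw [R.norm_map, norm_eb]
  have h1 := triple hf hv x hr
  set M : ℝ × ℝ × ℝ → E := fun p => x + R (mm p) with hM
  have hMp : MeasurePreserving M (volume : Measure (ℝ × ℝ × ℝ)) volume :=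
    (measurePreserving_add_left volume x).comp (R.measurePreserving.comp mp_mm)
  have hMe : ∀ a b c : ℝ, x + a • R (eb 0) + b • R (eb 1) + c • R (eb 2) = M (a, b, c) := by
    intro a b c
    simp only [hM, mm_eq, map_add, map_smul]
    abel
  have hg : Measurable fun y => ENNReal.ofReal (sq 3 f y) :=
    (sq_cont 3 hf).measurable.ennreal_ofReal
  have hgM : Measurable fun p => ENNReal.ofReal (sq 3 f (M p)) := hg.comp hMp.measurable
  set I := Icc (0 : ℝ) r with hI
  have h2 : ∫⁻ a in I, ∫⁻ b in I, ∫⁻ c in I,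
      ENNReal.ofReal (sq 3 f (x + a • R (eb 0) + b • R (eb 1) + c • R (eb 2))) ≤
      ∫⁻ y in D ρ, ENNReal.ofReal (sq 3 f y) := by
    calc ∫⁻ a in I, ∫⁻ b in I, ∫⁻ c in I,
          ENNReal.ofReal (sq 3 f (x + a • R (eb 0) + b • R (eb 1) + c • R (eb 2)))
        = ∫⁻ a in I, ∫⁻ q, ENNReal.ofReal (sq 3 f (M (a, q)))
            ∂((volume.restrict I).prod (volume.restrict I)) := by
          refine lintegral_congr fun a => ?_
          rw [lintegral_prod (fun q => ENNReal.ofReal (Sob.sq 3 f (M (a, q))))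
            (hgM.comp measurable_prodMk_left).aemeasurable]
          simp_rw [hMe]
      _ = ∫⁻ p, ENNReal.ofReal (sq 3 f (M p))
            ∂((volume.restrict I).prod ((volume.restrict I).prod (volume.restrict I))) := by
          rw [lintegral_prod _ hgM.aemeasurable]
      _ = ∫⁻ p in I ×ˢ I ×ˢ I, ENNReal.ofReal (sq 3 f (M p)) := by
          rw [Measure.prod_restrict, Measure.prod_restrict]
          rfl
      _ ≤ ∫⁻ p in M ⁻¹' (D ρ), ENNReal.ofReal (sq 3 f (M p)) := by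
          refine lintegral_mono_set fun p hp => ?_
          exact hR p hp.1 hp.2.1 hp.2.2
      _ = ∫⁻ y in D ρ, ENNReal.ofReal (sq 3 f y) :=
          hMp.setLIntegral_comp_preimage hop.measurableSet hg
  have h3 : ∫⁻ y in D ρ, ENNReal.ofReal (sq 3 f y) = ENNReal.ofReal (hs (D ρ) 3 f) := by
    rw [hs_eq hρ.bdd 3 hf, ofReal_integral_eq_lintegral_ofReal (integrable_sq hρ.bdd 3 hf)
      (Eventually.of_forall fun y => sq_nonneg' _ _ _)]
  have h4 : 0 ≤ hs (D ρ) 3 f := by
    rw [hs_eq hρ.bdd 3 hf]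
    exact integral_nonneg fun y => sq_nonneg' _ _ _
  have h5 : ENNReal.ofReal (‖f x‖ ^ 2) ≤
      ENNReal.ofReal (6 * (1 / r + 1) ^ 3 * hs (D ρ) 3 f) := by
    refine h1.trans ?_
    rw [ENNReal.ofReal_mul (by positivity), ENNReal.ofReal_mul (by norm_num),
      ENNReal.ofReal_pow (by positivity), ← h3]
    gcongr
    norm_num
  exact (ENNReal.ofReal_le_ofReal_iff (by positivity)).1 h5

theorem specProd (hSob : SpecSob) (hPDC : SpecPDC) (hHSB : SpecHSB) : SpecProd := by
  intro ρ hρ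
  obtain ⟨C, hC, hS⟩ := hSob ρ hρ
  refine ⟨C, hC, ?_⟩
  intro A B f g hf hg
  have hA := hPDC.pds_smooth ℝ f hf A
  have hB := hPDC.pds_smooth ℝ g hg B
  have hop : IsOpen (D ρ) := isOpen_lt (ContDiff.continuous hρ.smooth) continuous_const
  have h1 : ∀ x ∈ D ρ, (pds A f x * pds B g x) ^ 2 ≤
      C * hs (D ρ) (A.length + 3) f * ‖pds B g x‖ ^ 2 := by
    intro x hx
    have h2 := hS ℝ (pds A f) hA x hx
    have h3 := hHSB.pds_le ℝ (D ρ) 3 A f hf
    rw [add_comm 3] at h3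
    have h4 : ‖pds A f x‖ ^ 2 ≤ C * hs (D ρ) (A.length + 3) f :=
      h2.trans (mul_le_mul_of_nonneg_left h3 hC)
    have h5 : (pds A f x * pds B g x) ^ 2 = ‖pds A f x‖ ^ 2 * ‖pds B g x‖ ^ 2 := by
      rw [mul_pow, Real.norm_eq_abs, Real.norm_eq_abs, sq_abs, sq_abs]
    rw [h5]
    exact mul_le_mul_of_nonneg_right h4 (by positivity)
  have h6 := hHSB.pds_le ℝ (D ρ) 0 B g hg
  rw [zero_add] at h6
  have h0 := hHSB.nonneg ℝ (D ρ) (A.length + 3) f
  calc ∫ x in D ρ, (pds A f x * pds B g x) ^ 2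
      ≤ ∫ x in D ρ, C * hs (D ρ) (A.length + 3) f * ‖pds B g x‖ ^ 2 := by
        refine setIntegral_mono_on ?_ ?_ hop.measurableSet h1
        · have c1 : Continuous fun x => (pds A f x * pds B g x) ^ 2 :=
            ((ContDiff.continuous hA).mul (ContDiff.continuous hB)).pow 2
          exact (c1.continuousOn.integrableOn_compact hρ.bdd.isCompact_closure).mono_set
            subset_closure
        · exact (integrable_sq hρ.bdd 0 hB).const_mul _
    _ = C * hs (D ρ) (A.length + 3) f * hs (D ρ) 0 (pds B g) := by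
        rw [integral_const_mul]
        rfl
    _ ≤ _ := mul_le_mul_of_nonneg_left h6 (mul_nonneg hC h0)

end MPfab
end

section
/-!
MP_fabde4_an, module SOBD (helper78): `H³(D) ⊆ L^∞(D)` for functions which are smooth in the open
domain only (cutoff near the closed cube, then `Sob.triple`).
-/
set_option autoImplicit false
open MeasureTheory Set Filter Topology
open scoped ENNReal

namespace MPfab.SobD

open MPfab.Sob

variable {F : Type*} [NormedAddCommGroup F] [NormedSpace ℝ F]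

theorem pd_congr {f g : E → F} {x : E} (h : f =ᶠ[𝓝 x] g) (i : Fin 3) :
    pd i f =ᶠ[𝓝 x] pd i g := by
  have h1 := h.fderiv (𝕜 := ℝ)
  filter_upwards [h1] with y hy
  unfold pd
  rw [hy]

theorem sq_congr (k : ℕ) {f g : E → F} {x : E} (h : f =ᶠ[𝓝 x] g) : Sob.sq k f x = Sob.sq k g x := by
  induction k generalizing f g with
  | zero => simp only [Sob.sq]; rw [h.eq_of_nhds]
  | succ k ih =>
    simp only [Sob.sq]
    rw [h.eq_of_nhds]
    congr 1
    exact Finset.sum_congr rfl fun i _ => ih (pd_congr h i)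

/-- a smooth function equal to `f` near the compact set `Q` -/
theorem cut {U Q : Set E} (hU : IsOpen U) (hQ : IsCompact Q) (hQU : Q ⊆ U) {f : E → ℝ}
    (hf : ContDiffOn ℝ ((⊤ : ENat) : WithTop ENat) f U) :
    ∃ g : E → ℝ, Sm g ∧ ∀ x ∈ Q, g =ᶠ[𝓝 x] f := by
  obtain ⟨χ, h0, h1, -⟩ := exists_contMDiffMap_zero_one_nhds_of_isClosed (modelWithCornersSelf ℝ E)
    (n := (⊤ : ENat)) hU.isClosed_compl hQ.isClosed
    (disjoint_compl_left_iff_subset.2 hQU)
  have hχ : ContDiff ℝ ((⊤ : ENat) : WithTop ENat) (χ : E → ℝ) := χ.contMDiff.contDiff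
  refine ⟨fun x => χ x * f x, ?_, ?_⟩
  · rw [Sm, contDiff_iff_contDiffAt]
    intro x
    by_cases hx : x ∈ U
    · exact hχ.contDiffAt.mul (hf.contDiffAt (hU.mem_nhds hx))
    · have h2 : ∀ᶠ y in 𝓝 x, χ y = 0 := h0.filter_mono (nhds_le_nhdsSet hx)
      have h3 : (fun x => χ x * f x) =ᶠ[𝓝 x] fun _ => 0 := by
        filter_upwards [h2] with y hy
        rw [hy, zero_mul]
      exact contDiffAt_const.congr_of_eventuallyEq h3
  · intro x hx
    have h2 : ∀ᶠ y in 𝓝 x, χ y = 1 := h1.filter_mono (nhds_le_nhdsSet hx)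
    filter_upwards [h2] with y hy
    rw [hy, one_mul]

theorem integrable_sq' {μ : Measure E} (f : E → ℝ) (k : ℕ) (α : List (Fin 3))
    (h : ∀ β : List (Fin 3), β.length ≤ k + α.length → MemLp (pds β f) 2 μ) :
    Integrable (Sob.sq k (pds α f)) μ := by
  induction k generalizing α with
  | zero =>
    have h1 := (h α (by omega)).integrable_norm_pow (by norm_num)
    exact h1
  | succ k ih =>
    have h1 : Integrable (fun x => ‖pds α f x‖ ^ 2) μ :=
      (h α (by omega)).integrable_norm_pow (by norm_num)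
    have h2 : ∀ i : Fin 3, Integrable (fun x => Sob.sq k (pd i (pds α f)) x) μ := fun i =>
      ih (i :: α) fun β hβ => h β (by rw [List.length_cons] at hβ; omega)
    exact h1.add (integrable_finsetSum _ fun i _ => h2 i)

theorem hs_eq' {S : Set E} (f : E → ℝ) (k : ℕ) (α : List (Fin 3))
    (h : ∀ β : List (Fin 3), β.length ≤ k + α.length → MemLp (pds β f) 2 (volume.restrict S)) :
    hs S k (pds α f) = ∫ x in S, Sob.sq k (pds α f) x := by
  induction k generalizing α with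
  | zero => rfl
  | succ k ih =>
    have h1 : Integrable (fun x => ‖pds α f x‖ ^ 2) (volume.restrict S) :=
      (h α (by omega)).integrable_norm_pow (by norm_num)
    have hβ : ∀ i : Fin 3, ∀ β : List (Fin 3), β.length ≤ k + (i :: α).length →
        MemLp (pds β f) 2 (volume.restrict S) := fun i β hβ =>
      h β (by rw [List.length_cons] at hβ; omega)
    have h2 : ∀ i : Fin 3, Integrable (fun x => Sob.sq k (pd i (pds α f)) x)
        (volume.restrict S) := fun i => integrable_sq' f k (i :: α) (hβ i)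
    rw [hs]
    simp only [Sob.sq]
    rw [integral_add h1 (integrable_finsetSum _ fun i _ => h2 i),
      integral_finsetSum _ fun i _ => h2 i]
    congr 1
    exact Finset.sum_congr rfl fun i _ => ih (i :: α) (hβ i)

end MPfab.SobD

namespace MPfab

open Sob SobD

theorem specSobd : SpecSobd := by
  intro ρ hρ
  obtain ⟨r, hr, hcube⟩ := cube_all hρ
  refine ⟨6 * (1 / r + 1) ^ 3, ?_⟩
  intro f hf hL x hx
  obtain ⟨R, hR⟩ := hcube x hx
  have hop : IsOpen (D ρ) := isOpen_lt (ContDiff.continuous hρ.smooth) continuous_const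
  have hv : ∀ i, ‖R (eb i)‖ = 1 := fun i => by rw [R.norm_map, norm_eb]
  set M : ℝ × ℝ × ℝ → E := fun p => x + R (mm p) with hM
  set I := Icc (0 : ℝ) r with hI
  have hMc : Continuous M := by
    have : Continuous mm := by
      have : mm = fun p => p.1 • eb 0 + p.2.1 • eb 1 + p.2.2 • eb 2 := funext mm_eq
      rw [this]
      fun_prop
    exact continuous_const.add (R.continuous.comp this)
  set Q : Set E := M '' (I ×ˢ I ×ˢ I) with hQ
  have hQc : IsCompact Q := (isCompact_Icc.prod (isCompact_Icc.prod isCompact_Icc)).image hMc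
  have hQD : Q ⊆ D ρ := by
    rintro _ ⟨p, hp, rfl⟩
    exact hR p hp.1 hp.2.1 hp.2.2
  have h0I : (0 : ℝ) ∈ I := ⟨le_rfl, hr.le⟩
  have hxQ : x ∈ Q := ⟨(0, 0, 0), ⟨h0I, h0I, h0I⟩, by simp [hM, mm_eq]⟩
  obtain ⟨g, hg, hgf⟩ := cut hop hQc hQD hf
  have h1 := triple hg hv x hr
  have hMp : MeasurePreserving M (volume : Measure (ℝ × ℝ × ℝ)) volume :=
    (measurePreserving_add_left volume x).comp (R.measurePreserving.comp mp_mm)
  have hMe : ∀ a b c : ℝ, x + a • R (eb 0) + b • R (eb 1) + c • R (eb 2) = M (a, b, c) := by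
    intro a b c
    simp only [hM, mm_eq, map_add, map_smul]
    abel
  have hgm : Measurable fun y => ENNReal.ofReal (Sob.sq 3 g y) :=
    (sq_cont 3 hg).measurable.ennreal_ofReal
  have hgM : Measurable fun p => ENNReal.ofReal (Sob.sq 3 g (M p)) := hgm.comp hMp.measurable
  have h2 : ∫⁻ a in I, ∫⁻ b in I, ∫⁻ c in I,
      ENNReal.ofReal (Sob.sq 3 g (x + a • R (eb 0) + b • R (eb 1) + c • R (eb 2))) ≤
      ∫⁻ y in D ρ, ENNReal.ofReal (Sob.sq 3 f y) := by
    calc ∫⁻ a in I, ∫⁻ b in I, ∫⁻ c in I,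
          ENNReal.ofReal (Sob.sq 3 g (x + a • R (eb 0) + b • R (eb 1) + c • R (eb 2)))
        = ∫⁻ a in I, ∫⁻ q, ENNReal.ofReal (Sob.sq 3 g (M (a, q)))
            ∂((volume.restrict I).prod (volume.restrict I)) := by
          refine lintegral_congr fun a => ?_
          rw [lintegral_prod (fun q => ENNReal.ofReal (Sob.sq 3 g (M (a, q))))
            (hgM.comp measurable_prodMk_left).aemeasurable]
          simp_rw [hMe]
      _ = ∫⁻ p, ENNReal.ofReal (Sob.sq 3 g (M p))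
            ∂((volume.restrict I).prod ((volume.restrict I).prod (volume.restrict I))) := by
          rw [lintegral_prod _ hgM.aemeasurable]
      _ = ∫⁻ p in I ×ˢ I ×ˢ I, ENNReal.ofReal (Sob.sq 3 g (M p)) := by
          rw [Measure.prod_restrict, Measure.prod_restrict]
          rfl
      _ ≤ ∫⁻ p in M ⁻¹' Q, ENNReal.ofReal (Sob.sq 3 g (M p)) :=
          lintegral_mono_set (subset_preimage_image M _)
      _ = ∫⁻ y in Q, ENNReal.ofReal (Sob.sq 3 g y) :=
          hMp.setLIntegral_comp_preimage hQc.measurableSet hgm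
      _ = ∫⁻ y in Q, ENNReal.ofReal (Sob.sq 3 f y) :=
          setLIntegral_congr_fun hQc.measurableSet fun y hy => by
            show ENNReal.ofReal (Sob.sq 3 g y) = ENNReal.ofReal (Sob.sq 3 f y)
            rw [sq_congr 3 (hgf y hy)]
      _ ≤ ∫⁻ y in D ρ, ENNReal.ofReal (Sob.sq 3 f y) := lintegral_mono_set hQD
  have hL' : ∀ β : List (Fin 3), β.length ≤ 3 + ([] : List (Fin 3)).length →
      MemLp (pds β f) 2 (volume.restrict (D ρ)) := fun β hβ => hL β (by simpa using hβ)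
  have hint : Integrable (Sob.sq 3 f) (volume.restrict (D ρ)) := integrable_sq' f 3 [] hL'
  have hhs : hs (D ρ) 3 f = ∫ x in D ρ, Sob.sq 3 f x := hs_eq' f 3 [] hL'
  have h3 : ∫⁻ y in D ρ, ENNReal.ofReal (Sob.sq 3 f y) = ENNReal.ofReal (hs (D ρ) 3 f) := by
    rw [hhs, ofReal_integral_eq_lintegral_ofReal hint
      (Eventually.of_forall fun y => sq_nonneg' _ _ _)]
  have h4 : 0 ≤ hs (D ρ) 3 f := by
    rw [hhs]
    exact integral_nonneg fun y => sq_nonneg' _ _ _
  have hxg : g x = f x := (hgf x hxQ).eq_of_nhds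
  have h5 : ENNReal.ofReal (‖g x‖ ^ 2) ≤
      ENNReal.ofReal (6 * (1 / r + 1) ^ 3 * hs (D ρ) 3 f) := by
    refine h1.trans ?_
    rw [ENNReal.ofReal_mul (by positivity), ENNReal.ofReal_mul (by norm_num),
      ENNReal.ofReal_pow (by positivity), ← h3]
    gcongr
    norm_num
  have h6 := (ENNReal.ofReal_le_ofReal_iff (by positivity)).1 h5
  rwa [hxg, Real.norm_eq_abs, sq_abs] at h6

end MPfab
end
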