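import Pool.Agent.Lib.MP_fabde4_an.SpecB
import Pool.Agent.Lib.MP_fabde4_an.F.EllD

/-!
MP_fabde4_an, toolbox B: weakly divergence free and tangential fields.
-/

set_option autoImplicit false
open MeasureTheory Set Filter Topology

namespace MPfab.WTan

/-- the one dimensional estimate along a segment crossing the boundary -/
lemma line {h h' : ℝ → ℝ} {T M δ : ℝ} (hT : 0 < T) (hM : 0 < M)
    (hd : ∀ t, HasDerivAt h (h' t) t) (hc : Continuous h) (hc' : Continuous h')
    (hpos : ∀ t ∈ Icc 0 T, 0 < h' t) (hle : ∀ t ∈ Icc 0 T, h' t ≤ M) (h0 : h 0 ≤ -δ) (hδ : 0 < δ)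
    (hT0 : 0 < h T) (n : ℕ) :
    ENNReal.ofReal ((1 - Real.exp (-(n * δ))) / M) ≤
      ∫⁻ t in Icc 0 T, {t | h t < 0}.indicator
        (fun t => ENNReal.ofReal (n * Real.exp (n * h t))) t := by
  -- the first zero
  obtain ⟨s, hs, hs0⟩ : ∃ s ∈ Icc 0 T, h s = 0 := by
    have h1 := intermediate_value_Icc hT.le hc.continuousOn
    exact h1 ⟨by linarith, hT0.le⟩
  have hs1 : 0 ≤ s := hs.1
  have hmono : StrictMonoOn h (Icc 0 T) := by
    refine strictMonoOn_of_deriv_pos (convex_Icc 0 T) hc.continuousOn fun t ht => ?_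
    rw [interior_Icc] at ht
    rw [(hd t).deriv]
    exact hpos t (Ioo_subset_Icc_self ht)
  have hneg : ∀ t ∈ Ico 0 s, h t < 0 := by
    intro t ht
    rw [← hs0]
    exact hmono ⟨ht.1, ht.2.le.trans hs.2⟩ hs ht.2
  have hg : Continuous fun t => (n : ℝ) * Real.exp (n * h t) :=
    continuous_const.mul (Real.continuous_exp.comp (continuous_const.mul hc))
  -- the integral
  have h1 : (1 - Real.exp (-(n * δ))) / M ≤ ∫ t in (0 : ℝ)..s, (n : ℝ) * Real.exp (n * h t) := by
    have h2 : ∫ t in (0 : ℝ)..s, (n : ℝ) * Real.exp (n * h t) * h' t =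
        Real.exp (n * h s) - Real.exp (n * h 0) := by
      refine intervalIntegral.integral_eq_sub_of_hasDerivAt
        (f := fun t => Real.exp (n * h t)) (fun t _ => ?_) ((hg.mul hc').intervalIntegrable 0 s)
      exact (((hd t).const_mul (n : ℝ)).exp).congr_deriv (by ring)
    have h3 : ∫ t in (0 : ℝ)..s, (n : ℝ) * Real.exp (n * h t) * h' t ≤
        ∫ t in (0 : ℝ)..s, (n : ℝ) * Real.exp (n * h t) * M := by
      refine intervalIntegral.integral_mono_on hs1 ((hg.mul hc').intervalIntegrable 0 s)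
        ((hg.mul continuous_const).intervalIntegrable 0 s) fun t ht => ?_
      exact mul_le_mul_of_nonneg_left (hle t ⟨ht.1, ht.2.trans hs.2⟩) (by positivity)
    rw [intervalIntegral.integral_mul_const, h2, hs0, mul_zero, Real.exp_zero] at h3
    rw [div_le_iff₀ hM]
    refine le_trans ?_ h3
    have h4 : Real.exp (n * h 0) ≤ Real.exp (-(n * δ)) := by
      apply Real.exp_le_exp.2
      have : (n : ℝ) * h 0 ≤ n * (-δ) := mul_le_mul_of_nonneg_left h0 (by positivity)
      linarith
    linarith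
  have hsub : Ico 0 s ⊆ Icc 0 T := fun t ht => ⟨ht.1, ht.2.le.trans hs.2⟩
  refine (ENNReal.ofReal_le_ofReal h1).trans ?_
  rw [intervalIntegral.integral_of_le hs1, ofReal_integral_eq_lintegral_ofReal]
  · calc ∫⁻ t in Ioc 0 s, ENNReal.ofReal (n * Real.exp (n * h t))
        = ∫⁻ t in Ico 0 s, ENNReal.ofReal (n * Real.exp (n * h t)) := by
          rw [restrict_Ico_eq_restrict_Ioc]
      _ = ∫⁻ t in Ico 0 s, {t | h t < 0}.indicator
            (fun t => ENNReal.ofReal (n * Real.exp (n * h t))) t := by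
          refine setLIntegral_congr_fun measurableSet_Ico fun t ht => ?_
          rw [indicator_of_mem (show t ∈ {t | h t < 0} from hneg t ht)]
      _ ≤ _ := lintegral_mono_set hsub
  · exact (hg.intervalIntegrable 0 s).1
  · exact Eventually.of_forall fun t => by positivity

/-- the layers at a regular boundary point have volume of the right order -/
lemma low {ρ : E → ℝ} (hρ : Sm ρ) {x₀ : E} (h0 : ρ x₀ = 0) (hr : fderiv ℝ ρ x₀ ≠ 0)
    {g : E → ℝ} (hg : Continuous g) (hg0 : g x₀ ≠ 0) :
    ∃ c δ : ℝ, 0 < c ∧ 0 < δ ∧ ∀ n : ℕ, ENNReal.ofReal (c * (1 - Real.exp (-(n * δ)))) ≤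
      ∫⁻ x in D ρ, ENNReal.ofReal (n * Real.exp (n * ρ x) * g x ^ 2) := by
  set v : E := gr ρ x₀ with hv
  have hv0 : v ≠ 0 := by
    intro h
    apply hr
    ext u
    rw [← inner_gr, ← hv, h]
    simp
  have hvn : 0 < ‖v‖ := norm_pos_iff.2 hv0
  have hdv : fderiv ℝ ρ x₀ v = ‖v‖ ^ 2 := by
    rw [← inner_gr, ← hv, real_inner_self_eq_norm_sq]
  have hcd : Continuous fun x => fderiv ℝ ρ x v :=
    (hρ.continuous_fderiv (by simp)).clm_apply continuous_const
  set m : ℝ := ‖v‖ ^ 2 / 2 with hm
  set M : ℝ := ‖v‖ ^ 2 * 2 with hM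
  have hm0 : 0 < m := by positivity
  have hM0 : 0 < M := by positivity
  set c0 : ℝ := g x₀ ^ 2 / 2 with hc0
  have hc00 : 0 < c0 := by positivity
  -- a good ball
  obtain ⟨r, hr0, hball⟩ : ∃ r > 0, ∀ x ∈ Metric.ball x₀ r,
      m < fderiv ℝ ρ x v ∧ fderiv ℝ ρ x v < M ∧ c0 < g x ^ 2 := by
    have hv2 : 0 < ‖v‖ ^ 2 := by positivity
    have e1 : m < fderiv ℝ ρ x₀ v := by rw [hdv, hm]; linarith
    have e2 : fderiv ℝ ρ x₀ v < M := by rw [hdv, hM]; linarith
    have e3 : c0 < g x₀ ^ 2 := by
      have : 0 < g x₀ ^ 2 := by positivity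
      rw [hc0]
      linarith
    have h1 : ∀ᶠ x in 𝓝 x₀, m < fderiv ℝ ρ x v := hcd.continuousAt.eventually_const_lt e1
    have h2 : ∀ᶠ x in 𝓝 x₀, fderiv ℝ ρ x v < M := hcd.continuousAt.eventually_lt_const e2
    have h3 : ∀ᶠ x in 𝓝 x₀, c0 < g x ^ 2 := (hg.pow 2).continuousAt.eventually_const_lt e3
    obtain ⟨r, hr, h⟩ := Metric.eventually_nhds_iff_ball.1 (h1.and (h2.and h3))
    exact ⟨r, hr, h⟩
  -- the segment
  set ε : ℝ := r / (2 * (‖v‖ + 1)) with hε
  have hε0 : 0 < ε := by positivity
  have hεv : ε * ‖v‖ < r / 2 := by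
    rw [hε, div_mul_eq_mul_div, div_lt_div_iff₀ (by positivity) (by norm_num)]
    nlinarith
  have hin : ∀ t : ℝ, |t| ≤ ε → x₀ + t • v ∈ Metric.ball x₀ (r / 2) := by
    intro t ht
    rw [Metric.mem_ball, dist_self_add_left, norm_smul, Real.norm_eq_abs]
    exact lt_of_le_of_lt (mul_le_mul_of_nonneg_right ht hvn.le) hεv
  have hdl : ∀ (x : E) (t : ℝ), HasDerivAt (fun t : ℝ => ρ (x + t • v))
      (fderiv ℝ ρ (x + t • v) v) t := by
    intro x t
    have h1 : HasDerivAt (fun t : ℝ => x + t • v) v t := by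
      simpa using ((hasDerivAt_id t).smul_const v).const_add x
    exact (hρ.differentiable _).hasFDerivAt.comp_hasDerivAt t h1
  have hmono : StrictMonoOn (fun t : ℝ => ρ (x₀ + t • v)) (Icc (-ε) ε) := by
    refine strictMonoOn_of_deriv_pos (convex_Icc _ _)
      (fun t _ => (hdl x₀ t).continuousAt.continuousWithinAt) fun t ht => ?_
    rw [interior_Icc] at ht
    rw [(hdl x₀ t).deriv]
    have h1 := hin t (abs_le.2 ⟨ht.1.le, ht.2.le⟩)
    exact hm0.trans (hball _ (Metric.ball_subset_ball (by linarith) h1)).1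
  have hm1 : ρ (x₀ + (-ε) • v) < 0 := by
    have h1 := hmono (a := -ε) (b := 0) ⟨le_rfl, by linarith⟩ ⟨by linarith, hε0.le⟩ (by linarith)
    simpa [h0] using h1
  have hp1 : 0 < ρ (x₀ + ε • v) := by
    have h1 := hmono (a := 0) (b := ε) ⟨by linarith, hε0.le⟩ ⟨by linarith, le_rfl⟩ hε0
    simpa [h0] using h1
  set y₀ : E := x₀ + (-ε) • v with hy
  set δ : ℝ := -ρ y₀ / 2 with hδ
  have hδ0 : 0 < δ := by
    rw [hδ]
    linarith
  obtain ⟨s, hs0, hsb⟩ : ∃ s > 0, ∀ x ∈ Metric.ball y₀ s, ρ x < -δ ∧ 0 < ρ (x + (2 * ε) • v) := by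
    have h1 : ∀ᶠ x in 𝓝 y₀, ρ x < -δ :=
      hρ.continuous.continuousAt.eventually_lt_const (by rw [hδ]; linarith)
    have h2 : ∀ᶠ x in 𝓝 y₀, 0 < ρ (x + (2 * ε) • v) := by
      have h3 : Continuous fun x => ρ (x + (2 * ε) • v) :=
        hρ.continuous.comp (continuous_id.add continuous_const)
      have h4 : y₀ + (2 * ε) • v = x₀ + ε • v := by
        rw [hy, add_assoc, ← add_smul]
        congr 2
        ring
      rw [← h4] at hp1
      exact h3.continuousAt.eventually_const_lt hp1
    obtain ⟨s, hs, h⟩ := Metric.eventually_nhds_iff_ball.1 (h1.and h2)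
    exact ⟨s, hs, h⟩
  set s' : ℝ := min s (r / 2) with hs'
  have hs'0 : 0 < s' := lt_min hs0 (by linarith)
  set A : Set E := Metric.ball y₀ s' with hA
  have hAin : ∀ x ∈ A, ∀ t ∈ Icc 0 (2 * ε), x + t • v ∈ Metric.ball x₀ r := by
    intro x hx t ht
    have h1 : x + t • v - x₀ = (x - y₀) + ((x₀ + (t - ε) • v) - x₀) := by
      rw [hy, sub_smul, neg_smul]
      abel
    rw [Metric.mem_ball, dist_eq_norm, h1]
    have h2 := hin (t - ε) (abs_le.2 ⟨by linarith [ht.1], by linarith [ht.2]⟩)
    rw [Metric.mem_ball, dist_eq_norm] at h2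
    have h3 : ‖x - y₀‖ < r / 2 := by
      rw [hA, Metric.mem_ball, dist_eq_norm] at hx
      exact hx.trans_le (min_le_right _ _)
    calc _ ≤ ‖x - y₀‖ + ‖(x₀ + (t - ε) • v) - x₀‖ := norm_add_le _ _
      _ < r := by linarith
  have hAvol : 0 < volume A := Metric.isOpen_ball.measure_pos volume ⟨y₀, Metric.mem_ball_self hs'0⟩
  have hAfin : volume A < ⊤ := Metric.isBounded_ball.measure_lt_top
  have hAr : 0 < (volume A).toReal := ENNReal.toReal_pos hAvol.ne' hAfin.ne
  have hDo : IsOpen (D ρ) := isOpen_lt hρ.continuous continuous_const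
  refine ⟨(volume A).toReal / (2 * ε) * (c0 / M), δ, by positivity, hδ0, fun n => ?_⟩
  set q : ℝ := (1 - Real.exp (-(n * δ))) / M with hq
  have hq0 : 0 ≤ q := by
    refine div_nonneg ?_ hM0.le
    have : Real.exp (-(n * δ)) ≤ 1 := Real.exp_le_one_iff.2 (by
      have : 0 ≤ (n : ℝ) * δ := by positivity
      linarith)
    linarith
  set H : E → ENNReal := (D ρ).indicator
    (fun x => ENNReal.ofReal (n * Real.exp (n * ρ x) * g x ^ 2)) with hH
  have hHc : Continuous fun x => (n : ℝ) * Real.exp (n * ρ x) * g x ^ 2 :=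
    (continuous_const.mul (Real.continuous_exp.comp (continuous_const.mul hρ.continuous))).mul
      (hg.pow 2)
  have hHm : Measurable H := (hHc.measurable.ennreal_ofReal).indicator hDo.measurableSet
  have e0 : ∫⁻ x in D ρ, ENNReal.ofReal (n * Real.exp (n * ρ x) * g x ^ 2) = ∫⁻ x, H x := by
    rw [hH, lintegral_indicator hDo.measurableSet]
  rw [e0]
  -- lower bound on lines
  have hline : ∀ x ∈ A, ENNReal.ofReal (c0 * q) ≤ ∫⁻ t in Icc 0 (2 * ε), H (x + t • v) := by
    intro x hx
    have hxs : x ∈ Metric.ball y₀ s := Metric.ball_subset_ball (min_le_left _ _) hx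
    have hcc : Continuous fun t : ℝ => x + t • v :=
      continuous_const.add (continuous_id.smul continuous_const)
    have h1 := line (h := fun t : ℝ => ρ (x + t • v)) (h' := fun t => fderiv ℝ ρ (x + t • v) v)
      (T := 2 * ε) (M := M) (δ := δ) (by positivity) hM0 (fun t => hdl x t)
      (hρ.continuous.comp hcc) (hcd.comp hcc)
      (fun t ht => hm0.trans (hball _ (hAin x hx t ht)).1)
      (fun t ht => (hball _ (hAin x hx t ht)).2.1.le) (by
        have := (hsb x hxs).1
        simpa using this.le) hδ0 (hsb x hxs).2 n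
    rw [ENNReal.ofReal_mul hc00.le]
    refine (mul_le_mul_right h1 _).trans ?_
    rw [← lintegral_const_mul' _ _ ENNReal.ofReal_ne_top]
    refine setLIntegral_mono' measurableSet_Icc fun t ht => ?_
    by_cases hneg : ρ (x + t • v) < 0
    · rw [indicator_of_mem (show t ∈ {t | ρ (x + t • v) < 0} from hneg), hH,
        indicator_of_mem (show x + t • v ∈ D ρ from hneg), ← ENNReal.ofReal_mul hc00.le]
      refine ENNReal.ofReal_le_ofReal ?_
      rw [mul_comm]
      exact mul_le_mul_of_nonneg_left (hball _ (hAin x hx t ht)).2.2.le (by positivity)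
    · rw [indicator_of_notMem (show t ∉ {t | ρ (x + t • v) < 0} from hneg)]
      simp
  -- Fubini
  have hswap : ∫⁻ x in A, ∫⁻ t in Icc 0 (2 * ε), H (x + t • v) ≤
      (∫⁻ x, H x) * ENNReal.ofReal (2 * ε) := by
    rw [lintegral_lintegral_swap]
    · calc ∫⁻ t in Icc 0 (2 * ε), ∫⁻ x in A, H (x + t • v)
          ≤ ∫⁻ t in Icc 0 (2 * ε), ∫⁻ x, H x := by
            refine lintegral_mono fun t => ?_
            refine (setLIntegral_le_lintegral A _).trans (le_of_eq ?_)
            exact lintegral_add_right_eq_self H (t • v)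
        _ = _ := by
            rw [lintegral_const, Measure.restrict_apply_univ, Real.volume_Icc, sub_zero]
    · refine (hHm.comp ?_).aemeasurable
      exact (continuous_fst.add (continuous_snd.smul continuous_const)).measurable
  have hlow : ENNReal.ofReal (c0 * q) * volume A ≤
      ∫⁻ x in A, ∫⁻ t in Icc 0 (2 * ε), H (x + t • v) := by
    rw [← Measure.restrict_apply_univ (μ := volume) A, ← lintegral_const]
    exact setLIntegral_mono' Metric.isOpen_ball.measurableSet hline
  have hfin := hlow.trans hswap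
  have e1 : (volume A).toReal / (2 * ε) * (c0 / M) * (1 - Real.exp (-(n * δ))) =
      (c0 * q * (volume A).toReal) / (2 * ε) := by
    rw [hq]
    ring
  rw [e1, ENNReal.ofReal_div_of_pos (by positivity), ENNReal.ofReal_mul (by positivity),
    ENNReal.ofReal_toReal hAfin.ne]
  exact ENNReal.div_le_of_le_mul hfin

end MPfab.WTan

namespace MPfab

open WTan

theorem specWtan (hGauss : SpecGauss) : SpecWtan := by
  intro ρ w hρ' hw hort
  have hρ : Dom ρ := hρ'.toDom
  have hDm := Neu.measurableSet_D hρ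
  have hfin := Neu.finite_D hρ
  have hint : ∀ f : E → ℝ, Continuous f → IntegrableOn f (D ρ) := fun f hf =>
    (Neu.memLp hρ hf).integrable (by norm_num)
  refine ⟨hw, ?_, ?_⟩
  · -- divergence
    set φ : E → ℝ := fun x => ρ x * dv w x with hφ
    have hφs : Sm φ := hρ.smooth.mul hw.dv
    have h1 := hGauss ρ hρ (fun x => φ x • w x) (hφs.smul hw) (fun x hx => by simp [hφ, hx])
    simp only [Ler.dv_mul hφs hw] at h1
    have h2 : Continuous fun x => inner ℝ (w x) (gr φ x) := hw.continuous.inner hφs.gr.continuous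
    have h2' : IntegrableOn (fun x => φ x * dv w x) (D ρ) :=
      hint _ (hφs.continuous.mul hw.dv.continuous)
    rw [integral_add h2' (hint _ h2), hort φ hφs, add_zero] at h1
    have h3 : ∫ x in D ρ, -(φ x * dv w x) = 0 := by rw [integral_neg, h1, neg_zero]
    have h4 : 0 ≤ᵐ[volume.restrict (D ρ)] fun x => -(φ x * dv w x) := by
      rw [Filter.EventuallyLE, ae_restrict_iff' hDm]
      refine Eventually.of_forall fun x hx => ?_
      have hx' : ρ x < 0 := hx
      simp only [hφ, Pi.zero_apply]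
      nlinarith [sq_nonneg (dv w x), mul_nonneg (neg_nonneg.2 hx'.le) (sq_nonneg (dv w x))]
    have h5 := (integral_eq_zero_iff_of_nonneg_ae h4
      (hint _ (hφs.continuous.mul hw.dv.continuous)).neg).1 h3
    have h6 : EqOn (fun x => -(φ x * dv w x)) 0 (D ρ) :=
      Measure.eqOn_open_of_ae_eq h5 (Neu.isOpen_D hρ)
        (hφs.continuous.mul hw.dv.continuous).neg.continuousOn continuousOn_const
    refine Ler.eq_closure hρ hw.dv.continuous continuous_const fun x hx => ?_
    have h7 := h6 hx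
    have hx' : ρ x < 0 := hx
    simp only [hφ, Pi.zero_apply, neg_eq_zero, mul_eq_zero] at h7
    rcases h7 with (h7 | h7) | h7
    · exact absurd h7 hx'.ne
    · exact h7
    · exact h7
  · intro x₀ hx₀
    by_contra hcon
    set g : E → ℝ := fun x => fderiv ℝ ρ x (w x) with hg
    have hgs : Sm g :=
      (hρ.smooth.fderiv_right (m := ((⊤ : ENat) : WithTop ENat)) (by simp)).clm_apply hw
    obtain ⟨c, δ, hc0, hδ0, hlow⟩ := low hρ.smooth hx₀ (hρ.reg x₀ hx₀) hgs.continuous hcon
    set k : E → ℝ := fun x => fderiv ℝ g x (w x) with hk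
    have hks : Sm k :=
      (hgs.fderiv_right (m := ((⊤ : ENat) : WithTop ENat)) (by simp)).clm_apply hw
    have hexp : ∀ n : ℕ, Sm fun x => Real.exp (n * ρ x) := fun n =>
      Real.contDiff_exp.comp (contDiff_const.mul hρ.smooth)
    have hid : ∀ n : ℕ, ∫ x in D ρ, (n * Real.exp (n * ρ x) * g x ^ 2) =
        - ∫ x in D ρ, Real.exp (n * ρ x) * k x := by
      intro n
      have h1 := hort (fun x => Real.exp (n * ρ x) * g x) ((hexp n).mul hgs)
      have h2 : ∀ x, inner ℝ (w x) (gr (fun x => Real.exp (n * ρ x) * g x) x) =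
          n * Real.exp (n * ρ x) * g x ^ 2 + Real.exp (n * ρ x) * k x := by
        intro x
        rw [inner_gr]
        have h3 : HasFDerivAt (fun x => Real.exp (n * ρ x))
            (Real.exp (n * ρ x) • ((n : ℝ) • fderiv ℝ ρ x)) x :=
          ((hρ.smooth.differentiable x).hasFDerivAt.const_mul (n : ℝ)).exp
        have h5 : HasFDerivAt (fun x => Real.exp (n * ρ x) * g x) (Real.exp (n * ρ x) •
            fderiv ℝ g x + g x • (Real.exp (n * ρ x) • ((n : ℝ) • fderiv ℝ ρ x))) x :=
          h3.mul (hgs.differentiable x).hasFDerivAt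
        rw [h5.fderiv]
        simp only [_root_.add_apply, _root_.smul_apply, smul_eq_mul, hk]
        have h4 : fderiv ℝ ρ x (w x) = g x := rfl
        rw [h4]
        ring
      simp only [h2] at h1
      rw [integral_add] at h1
      · linarith
      · exact hint _ ((continuous_const.mul (hexp n).continuous).mul (hgs.continuous.pow 2))
      · exact hint _ ((hexp n).continuous.mul hks.continuous)
    have hlim : Tendsto (fun n : ℕ => ∫ x in D ρ, Real.exp (n * ρ x) * k x) atTop (𝓝 0) := by
      have h1 := tendsto_integral_of_dominated_convergence (μ := volume.restrict (D ρ))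
        (F := fun n : ℕ => fun x => Real.exp (n * ρ x) * k x) (f := fun _ => (0 : ℝ))
        (fun x => |k x|) (fun n => ((hexp n).continuous.mul hks.continuous).aestronglyMeasurable)
        (hint _ hks.continuous.abs) (fun n => ?_) ?_
      · simpa using h1
      · rw [ae_restrict_iff' hDm]
        refine Eventually.of_forall fun x hx => ?_
        rw [norm_mul, Real.norm_eq_abs, Real.norm_eq_abs, Real.abs_exp]
        have h2 : Real.exp (n * ρ x) ≤ 1 := Real.exp_le_one_iff.2
          (mul_nonpos_of_nonneg_of_nonpos (by positivity) (le_of_lt hx))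
        exact (mul_le_mul_of_nonneg_right h2 (abs_nonneg _)).trans (by simp)
      · rw [ae_restrict_iff' hDm]
        refine Eventually.of_forall fun x hx => ?_
        have hx' : ρ x < 0 := hx
        have h2 : Tendsto (fun n : ℕ => Real.exp (n * ρ x)) atTop (𝓝 0) :=
          Real.tendsto_exp_atBot.comp
            (tendsto_natCast_atTop_atTop.atTop_mul_const_of_neg hx')
        simpa using h2.mul_const (k x)
    have hlow' : ∀ n : ℕ, c * (1 - Real.exp (-(n * δ))) ≤ - ∫ x in D ρ, Real.exp (n * ρ x) * k x := by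
      intro n
      rw [← hid n]
      have h1 := hlow n
      rw [← ofReal_integral_eq_lintegral_ofReal] at h1
      · refine (ENNReal.ofReal_le_ofReal_iff ?_).1 h1
        exact integral_nonneg fun x => by positivity
      · exact hint _ ((continuous_const.mul (hexp n).continuous).mul (hgs.continuous.pow 2))
      · exact Eventually.of_forall fun x => by positivity
    have hlim2 : Tendsto (fun n : ℕ => c * (1 - Real.exp (-(n * δ)))) atTop (𝓝 (c * (1 - 0))) := by
      refine (tendsto_const_nhds.sub ?_).const_mul c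
      refine Real.tendsto_exp_atBot.comp ?_
      exact tendsto_neg_atTop_atBot.comp (tendsto_natCast_atTop_atTop.atTop_mul_const hδ0)
    have := le_of_tendsto_of_tendsto' hlim2 hlim.neg hlow'
    simp at this
    linarith

end MPfab
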